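import Mathlib

set_option autoImplicit false

open scoped Classical

namespace Pool.Agent.Helper943.LM

noncomputable section

/-- the free group on `x = gen true` and `y = gen false` -/
abbrev F := FreeGroup Bool

/-- generators -/
def gen (b : Bool) : F := FreeGroup.of b

/-- distance in the tree (the Cayley graph of `F`) -/
def dT (a b : F) : ℕ := (a⁻¹ * b).norm

/-- exponent sum -/
def exHom : F →* Multiplicative ℤ := FreeGroup.lift (fun _ => Multiplicative.ofAdd (1 : ℤ))

/-- exponent sum -/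
def ex (w : F) : ℤ := (exHom w).toAdd

/-- the half tree beyond the edge `e` -/
def Hf (e : F × F) : Set F := {w | dT e.2 w < dT e.1 w}

/-- positive edge -/
def IsE (e : F × F) : Prop := ∃ b, e.2 = e.1 * gen b

/-- the `2 ^ m` vertices at positive depth `m` beyond `q` -/
def Vt : ℕ → F → Set F
  | 0, q => {q}
  | m + 1, q => Vt m (q * gen true) ∪ Vt m (q * gen false)

/-- the root edges -/
def rt (n : ℕ) : F × F := (gen true ^ n, gen true ^ n * gen false)

theorem dT_self (a : F) : dT a a = 0 := by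
  unfold dT
  rw [inv_mul_cancel, FreeGroup.norm_one]
theorem dT_comm (a b : F) : dT a b = dT b a := by
  unfold dT
  rw [← FreeGroup.norm_inv_eq, mul_inv_rev, inv_inv]
theorem dT_tri (a b c : F) : dT a c ≤ dT a b + dT b c := by
  unfold dT
  have h := FreeGroup.norm_mul_le (a⁻¹ * b) (b⁻¹ * c)
  have e : a⁻¹ * b * (b⁻¹ * c) = a⁻¹ * c := by group
  rw [e] at h
  exact h
theorem dT_eq_zero {a b : F} : dT a b = 0 ↔ a = b := by
  unfold dT
  rw [FreeGroup.norm_eq_zero, inv_mul_eq_one]
theorem dT_gen (a : F) (b : Bool) : dT a (a * gen b) = 1 := by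
  unfold dT gen
  rw [← mul_assoc, inv_mul_cancel, one_mul, FreeGroup.norm_of]
theorem dT_mul_left (g a b : F) : dT (g * a) (g * b) = dT a b := by
  unfold dT
  congr 1
  group
theorem ex_mul (a b : F) : ex (a * b) = ex a + ex b := by
  unfold ex
  rw [map_mul]
  rfl
theorem ex_one : ex 1 = 0 := by
  unfold ex
  rw [map_one]
  rfl
theorem ex_gen (b : Bool) : ex (gen b) = 1 := by
  unfold ex exHom gen
  rw [FreeGroup.lift_apply_of]
  rfl
theorem ex_inv (a : F) : ex a⁻¹ = - ex a := by
  unfold ex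
  rw [map_inv]
  rfl
theorem ex_le_aux (L : List (Bool × Bool)) : |ex (FreeGroup.mk L)| ≤ (L.length : ℤ) := by
  induction L with
  | nil =>
    have : (FreeGroup.mk [] : F) = 1 := rfl
    rw [this, ex_one]
    simp
  | cons p L ih =>
    have h : (FreeGroup.mk (p :: L) : F) = FreeGroup.mk [p] * FreeGroup.mk L := rfl
    rw [h, ex_mul]
    have h1 : |ex (FreeGroup.mk [p])| ≤ 1 := by
      obtain ⟨b, s⟩ := p
      cases s with
      | true =>
        have : (FreeGroup.mk [(b, true)] : F) = gen b := rfl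
        rw [this, ex_gen]; simp
      | false =>
        have : (FreeGroup.mk [(b, false)] : F) = (gen b)⁻¹ := rfl
        rw [this, ex_inv, ex_gen]; simp
    calc |ex (FreeGroup.mk [p]) + ex (FreeGroup.mk L)|
        ≤ |ex (FreeGroup.mk [p])| + |ex (FreeGroup.mk L)| := abs_add_le _ _
      _ ≤ 1 + (L.length : ℤ) := add_le_add h1 ih
      _ = ((p :: L).length : ℤ) := by push_cast [List.length_cons]; ring
theorem ex_le (a b : F) : |ex a - ex b| ≤ (dT a b : ℤ) := by
  unfold dT
  have h := ex_le_aux (a⁻¹ * b).toWord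
  rw [FreeGroup.mk_toWord, ex_mul, ex_inv] at h
  rw [abs_sub_comm]
  have e : ex b - ex a = -ex a + ex b := by ring
  rw [e]
  exact h
/-- encoding of a ball -/
def ball_card_enc (q : F) (D : ℕ) (w : F) : Fin D → Option (Bool × Bool) :=
  fun i => (q⁻¹ * w).toWord[(i : ℕ)]?
theorem ball_card_inj (q : F) (D : ℕ) : Set.InjOn (ball_card_enc q D) {w : F | dT q w ≤ D} := by
  intro w hw w' hw' h
  have hw1 : (q⁻¹ * w).toWord.length ≤ D := hw
  have hw2 : (q⁻¹ * w').toWord.length ≤ D := hw'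
  have h1 : (q⁻¹ * w).toWord = (q⁻¹ * w').toWord := by
    apply List.ext_getElem?
    intro i
    by_cases hi : i < D
    · exact congrFun h ⟨i, hi⟩
    · rw [List.getElem?_eq_none (by omega), List.getElem?_eq_none (by omega)]
  have h2 := FreeGroup.toWord_injective h1
  exact mul_left_cancel h2
theorem ball_finite (q : F) (D : ℕ) : {w : F | dT q w ≤ D}.Finite :=
  Set.Finite.of_injOn (f := ball_card_enc q D) (t := Set.univ) (fun _ _ => Set.mem_univ _)
    (ball_card_inj q D) Set.finite_univ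
theorem ball_card (q : F) (D : ℕ) : {w : F | dT q w ≤ D}.ncard ≤ 5 ^ D := by
  refine (Set.ncard_le_ncard_of_injOn (ball_card_enc q D) (t := Set.univ)
    (fun _ _ => Set.mem_univ _) (ball_card_inj q D) Set.finite_univ).trans ?_
  rw [Set.ncard_univ, Nat.card_eq_fintype_card, Fintype.card_fun]
  simp

/-- `v` starts with `gen b` -/
def Pst (b : Bool) (v : F) : Prop := v.toWord.head? = some (b, true)

theorem ht_A (b : Bool) (v : F) (h : Pst b v) :
    ∃ V, v.toWord = (b, true) :: V ∧ ((gen b)⁻¹ * v).toWord = V := by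
  obtain ⟨V, hV⟩ : ∃ V, v.toWord = (b, true) :: V := by
    unfold Pst at h
    cases hv : v.toWord with
    | nil =>
      rw [hv] at h
      simp at h
    | cons a V =>
      rw [hv] at h
      simp only [List.head?_cons, Option.some.injEq] at h
      exact ⟨V, by rw [h]⟩
  refine ⟨V, hV, ?_⟩
  have h1 : v = gen b * FreeGroup.mk V := by
    rw [← FreeGroup.mk_toWord (x := v), hV]
    rfl
  have h2 : (gen b)⁻¹ * v = FreeGroup.mk V := by rw [h1, inv_mul_cancel_left]
  rw [h2, FreeGroup.toWord_mk]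
  have hred : FreeGroup.IsReduced ((b, true) :: V) := by
    rw [← hV]
    exact FreeGroup.isReduced_toWord
  exact (show FreeGroup.IsReduced V from List.IsChain.tail hred).reduce_eq

theorem ht_B (b : Bool) (v : F) (h : ¬ Pst b v) :
    ((gen b)⁻¹ * v).toWord = (b, false) :: v.toWord := by
  have h1 : (gen b)⁻¹ * v = FreeGroup.mk ((b, false) :: v.toWord) := by
    conv_lhs => rw [← FreeGroup.mk_toWord (x := v)]
    rfl
  rw [h1, FreeGroup.toWord_mk]
  apply FreeGroup.IsReduced.reduce_eq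
  cases hv : v.toWord with
  | nil => exact FreeGroup.IsReduced.singleton
  | cons a V =>
    rw [FreeGroup.isReduced_cons_cons]
    refine ⟨?_, ?_⟩
    · intro hb
      by_contra hne
      apply h
      unfold Pst
      rw [hv, List.head?_cons]
      congr 1
      apply Prod.ext
      · exact hb.symm
      · cases h2 : a.2
        · rw [h2] at hne
          exact absurd rfl hne
        · rfl
    · rw [← hv]
      exact FreeGroup.isReduced_toWord

theorem ht_iff {e : F × F} {b : Bool} (he : e.2 = e.1 * gen b) (w : F) :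
    (w ∈ Hf e ↔ Pst b (e.1⁻¹ * w)) ∧ (w ∈ Hf e → dT e.1 w = dT e.2 w + 1) ∧
      (w ∉ Hf e → dT e.2 w = dT e.1 w + 1) := by
  have h0 : e.2⁻¹ * w = (gen b)⁻¹ * (e.1⁻¹ * w) := by
    rw [he, mul_inv_rev, mul_assoc]
  by_cases h : Pst b (e.1⁻¹ * w)
  · obtain ⟨V, h1, h2⟩ := ht_A b _ h
    have h3 : dT e.1 w = V.length + 1 := by
      change (e.1⁻¹ * w).toWord.length = _
      rw [h1, List.length_cons]
    have h4 : dT e.2 w = V.length := by
      change (e.2⁻¹ * w).toWord.length = _
      rw [h0, h2]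
    have h5 : w ∈ Hf e := by
      change dT e.2 w < dT e.1 w
      omega
    exact ⟨⟨fun _ => h, fun _ => h5⟩, fun _ => by omega, fun hn => absurd h5 hn⟩
  · have h2 := ht_B b _ h
    have h4 : dT e.2 w = dT e.1 w + 1 := by
      change (e.2⁻¹ * w).toWord.length = (e.1⁻¹ * w).toWord.length + 1
      rw [h0, h2, List.length_cons]
    have h5 : w ∉ Hf e := by
      intro h6
      change dT e.2 w < dT e.1 w at h6
      omega
    exact ⟨⟨fun h6 => absurd h6 h5, fun h6 => absurd h6 h⟩, fun h6 => absurd h6 h5, fun _ => h4⟩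

theorem Hf_mem {e : F × F} (he : IsE e) (w : F) (hw : w ∈ Hf e) : dT e.1 w = dT e.2 w + 1 := by
  obtain ⟨b, hb⟩ := he
  exact (ht_iff hb w).2.1 hw
theorem Hf_not_mem {e : F × F} (he : IsE e) (w : F) (hw : w ∉ Hf e) : dT e.2 w = dT e.1 w + 1 := by
  obtain ⟨b, hb⟩ := he
  exact (ht_iff hb w).2.2 hw
theorem Hf_cross {e : F × F} (he : IsE e) {w w' : F} (hw : w ∈ Hf e) (hw' : w' ∉ Hf e) :
    dT w w' = dT w e.2 + 1 + dT e.1 w' := by
  obtain ⟨b, hb⟩ := he
  have h1 := (ht_iff hb w).1.1 hw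
  have h2 : ¬ Pst b (e.1⁻¹ * w') := fun h => hw' ((ht_iff hb w').1.2 h)
  obtain ⟨V, h3, h4⟩ := ht_A b _ h1
  have h5 := ht_B b _ h2
  have e1 : w⁻¹ * w' = ((gen b)⁻¹ * (e.1⁻¹ * w))⁻¹ * ((gen b)⁻¹ * (e.1⁻¹ * w')) := by group
  have h6 : (w⁻¹ * w').toWord = FreeGroup.invRev V ++ (b, false) :: (e.1⁻¹ * w').toWord := by
    rw [e1, FreeGroup.toWord_mul, FreeGroup.toWord_inv, h4, h5]
    apply FreeGroup.IsReduced.reduce_eq
    have h7 : FreeGroup.IsReduced (FreeGroup.invRev V ++ [(b, false)]) := by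
      have h8 : FreeGroup.invRev V ++ [(b, false)] = (e.1⁻¹ * w)⁻¹.toWord := by
        rw [FreeGroup.toWord_inv, h3]
        simp [FreeGroup.invRev]
      rw [h8]
      exact FreeGroup.isReduced_toWord
    have h9 : FreeGroup.IsReduced ([(b, false)] ++ (e.1⁻¹ * w').toWord) := by
      rw [List.singleton_append, ← h5]
      exact FreeGroup.isReduced_toWord
    have h10 := h7.append_overlap h9 (by simp)
    rwa [List.append_assoc, List.singleton_append] at h10
  have e2 : dT w e.2 = V.length := by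
    rw [dT_comm]
    change (e.2⁻¹ * w).toWord.length = _
    have h0 : e.2⁻¹ * w = (gen b)⁻¹ * (e.1⁻¹ * w) := by
      rw [hb, mul_inv_rev, mul_assoc]
    rw [h0, h4]
  have e3 : dT e.1 w' = (e.1⁻¹ * w').toWord.length := rfl
  have e4 : dT w w' = (w⁻¹ * w').toWord.length := rfl
  rw [e4, h6, e2, e3, List.length_append, List.length_cons, FreeGroup.invRev_length]
  omega
theorem Hf_child {e : F × F} (he : IsE e) (b : Bool) : Hf (e.2, e.2 * gen b) ⊆ Hf e := by
  obtain ⟨b₀, hb₀⟩ := he
  intro w hw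
  have h1 := (ht_iff (e := (e.2, e.2 * gen b)) (b := b) rfl w).1.1 hw
  rw [(ht_iff hb₀ w).1]
  by_contra h2
  have h3 := ht_B b₀ _ h2
  have h0 : e.2⁻¹ * w = (gen b₀)⁻¹ * (e.1⁻¹ * w) := by
    rw [hb₀, mul_inv_rev, mul_assoc]
  rw [← h0] at h3
  unfold Pst at h1
  change (e.2⁻¹ * w).toWord.head? = some (b, true) at h1
  rw [h3] at h1
  simp at h1
theorem Hf_child_disj (q : F) : Disjoint (Hf (q, q * gen true)) (Hf (q, q * gen false)) := by
  rw [Set.disjoint_left]
  intro w h1 h2
  have h3 := (ht_iff (e := (q, q * gen true)) (b := true) rfl w).1.1 h1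
  have h4 := (ht_iff (e := (q, q * gen false)) (b := false) rfl w).1.1 h2
  unfold Pst at h3 h4
  change (q⁻¹ * w).toWord.head? = some (true, true) at h3
  change (q⁻¹ * w).toWord.head? = some (false, true) at h4
  rw [h3] at h4
  simp at h4

theorem Vt_aux_mk (l : List Bool) : ((l.map gen).prod : F) = FreeGroup.mk (l.map fun b => (b, true)) := by
  induction l with
  | nil => rfl
  | cons b l ih =>
    rw [List.map_cons, List.prod_cons, ih]
    rfl

theorem Vt_aux_word (l : List Bool) : ((l.map gen).prod : F).toWord = l.map fun b => (b, true) := by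
  rw [Vt_aux_mk, FreeGroup.toWord_mk]
  apply FreeGroup.IsReduced.reduce_eq
  unfold FreeGroup.IsReduced
  induction l with
  | nil => simp
  | cons b l ih =>
    cases l with
    | nil => simp
    | cons c l => simpa using ih

theorem Vt_aux_inj {l l' : List Bool} (h : ((l.map gen).prod : F) = (l'.map gen).prod) : l = l' := by
  have h1 := congrArg FreeGroup.toWord h
  rw [Vt_aux_word, Vt_aux_word] at h1
  exact List.map_injective_iff.2 (fun a b hab => (Prod.mk.inj hab).1) h1

theorem Vt_finite (m : ℕ) (q : F) : (Vt m q).Finite := by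
  induction m generalizing q with
  | zero => exact Set.finite_singleton q
  | succ m ih => exact (ih _).union (ih _)
theorem Vt_ex {m : ℕ} {q u : F} (hu : u ∈ Vt m q) : ex u = ex q + m := by
  induction m generalizing q with
  | zero =>
    have : u = q := hu
    rw [this]; simp
  | succ m ih =>
    rcases hu with hu | hu
    · rw [ih hu, ex_mul, ex_gen]; push_cast; ring
    · rw [ih hu, ex_mul, ex_gen]; push_cast; ring
theorem Vt_mul_left (g : F) (m : ℕ) (q u : F) : g * u ∈ Vt m (g * q) ↔ u ∈ Vt m q := by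
  induction m generalizing q with
  | zero =>
    show g * u = g * q ↔ u = q
    exact mul_right_inj g
  | succ m ih =>
    show (g * u ∈ Vt m (g * q * gen true) ∨ g * u ∈ Vt m (g * q * gen false)) ↔
      (u ∈ Vt m (q * gen true) ∨ u ∈ Vt m (q * gen false))
    rw [mul_assoc, mul_assoc, ih, ih]
theorem Vt_aux_le {m : ℕ} {q u : F} (hu : u ∈ Vt m q) : dT q u ≤ m := by
  induction m generalizing q with
  | zero =>
    have : u = q := hu
    rw [this, dT_self]
  | succ m ih =>
    rcases hu with hu | hu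
    · have := dT_tri q (q * gen true) u
      have h1 := ih hu
      rw [dT_gen] at this
      omega
    · have := dT_tri q (q * gen false) u
      have h1 := ih hu
      rw [dT_gen] at this
      omega
theorem Vt_dT {m : ℕ} {q u : F} (hu : u ∈ Vt m q) : dT q u = m := by
  have h1 := Vt_aux_le hu
  have h2 := ex_le q u
  rw [Vt_ex hu] at h2
  have h3 : |ex q - (ex q + (m:ℤ))| = m := by
    rw [show ex q - (ex q + (m:ℤ)) = -(m:ℤ) by ring, abs_neg, Nat.abs_cast]
  rw [h3] at h2
  omega
theorem Vt_succ_iff {m : ℕ} {q u : F} : u ∈ Vt (m + 1) q ↔ ∃ b, u ∈ Vt m (q * gen b) := by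
  constructor
  · rintro (h | h)
    · exact ⟨true, h⟩
    · exact ⟨false, h⟩
  · rintro ⟨b, h⟩
    cases b
    · exact Or.inr h
    · exact Or.inl h
theorem Vt_aux_list {m : ℕ} {q u : F} (hu : u ∈ Vt m q) : ∃ l : List Bool, u = q * (l.map gen).prod := by
  induction m generalizing q with
  | zero =>
    have : u = q := hu
    exact ⟨[], by rw [this]; simp⟩
  | succ m ih =>
    obtain ⟨b, hb⟩ := Vt_succ_iff.1 hu
    obtain ⟨l, hl⟩ := ih hb
    exact ⟨b :: l, by rw [hl, List.map_cons, List.prod_cons, mul_assoc]⟩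
theorem Vt_succ_unique {m : ℕ} {q u : F} {b b' : Bool} (h : u ∈ Vt m (q * gen b))
    (h' : u ∈ Vt m (q * gen b')) : b = b' := by
  obtain ⟨l, hl⟩ := Vt_aux_list h
  obtain ⟨l', hl'⟩ := Vt_aux_list h'
  have h1 : ((b :: l).map gen).prod = ((b' :: l').map gen).prod := by
    rw [List.map_cons, List.prod_cons, List.map_cons, List.prod_cons]
    rw [hl, mul_assoc, mul_assoc] at hl'
    exact mul_left_cancel hl'
  exact (List.cons.inj (Vt_aux_inj h1)).1
theorem Vt_card (m : ℕ) (q : F) : (Vt m q).ncard = 2 ^ m := by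
  induction m generalizing q with
  | zero => exact Set.ncard_singleton q
  | succ m ih =>
    show (Vt m (q * gen true) ∪ Vt m (q * gen false)).ncard = 2 ^ (m + 1)
    rw [Set.ncard_union_eq _ (Vt_finite _ _) (Vt_finite _ _), ih, ih]
    · ring
    · rw [Set.disjoint_left]
      intro u h h'
      exact absurd (Vt_succ_unique h h') (by simp)

theorem Vt_sub {e : F × F} (he : IsE e) (m : ℕ) : Vt m e.2 ⊆ Hf e := by
  obtain ⟨b, hb⟩ := he
  intro u hu
  obtain ⟨l, hl⟩ := Vt_aux_list hu
  rw [(ht_iff hb u).1]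
  have h1 : e.1⁻¹ * u = ((b :: l).map gen).prod := by
    rw [List.map_cons, List.prod_cons, hl, hb]
    group
  unfold Pst
  rw [h1, Vt_aux_word, List.map_cons, List.head?_cons]

theorem rt_aux_push (b c : Bool) (v : F) (h : Pst c v) : Pst b (gen b * v) := by
  by_contra hn
  have h1 := ht_B b _ hn
  rw [inv_mul_cancel_left] at h1
  unfold Pst at h
  rw [h1] at h
  simp at h

theorem rt_aux_pow (v : F) (h : Pst false v) (k : ℕ) : Pst true (gen true ^ (k + 1) * v) := by
  induction k with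
  | zero =>
    rw [zero_add, pow_one]
    exact rt_aux_push true false v h
  | succ k ih =>
    rw [pow_succ', mul_assoc]
    exact rt_aux_push true true _ ih

theorem rt_aux_pow_le (b : Bool) (k : ℕ) : dT 1 (gen b ^ k) ≤ k := by
  induction k with
  | zero => rw [pow_zero, dT_self]
  | succ k ih =>
    have h1 := dT_tri 1 (gen b ^ k) (gen b ^ (k + 1))
    rw [pow_succ, dT_gen] at h1
    rw [pow_succ]
    omega

theorem rt_aux_dist (n n' : ℕ) : dT (gen true ^ n) (gen true ^ n') ≤ ((n : ℤ) - n').natAbs := by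
  rcases le_total n n' with h | h
  · obtain ⟨k, rfl⟩ := Nat.exists_eq_add_of_le h
    have h1 : dT (gen true ^ n) (gen true ^ (n + k)) = dT 1 (gen true ^ k) := by
      have h2 := dT_mul_left (gen true ^ n) 1 (gen true ^ k)
      rw [mul_one, ← pow_add] at h2
      exact h2
    have h3 := rt_aux_pow_le true k
    omega
  · obtain ⟨k, rfl⟩ := Nat.exists_eq_add_of_le h
    have h1 : dT (gen true ^ n') (gen true ^ (n' + k)) = dT 1 (gen true ^ k) := by
      have h2 := dT_mul_left (gen true ^ n') 1 (gen true ^ k)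
      rw [mul_one, ← pow_add] at h2
      exact h2
    have h3 := rt_aux_pow_le true k
    rw [dT_comm]
    omega
theorem rt_IsE (n : ℕ) : IsE (rt n) := ⟨false, rfl⟩
theorem rt_aux_ex (n : ℕ) : ex (gen true ^ n) = n := by
  induction n with
  | zero => rw [pow_zero, ex_one]; rfl
  | succ n ih =>
    rw [pow_succ, ex_mul, ih, ex_gen]
    push_cast
    ring
theorem rt_one (n : ℕ) : (1 : F) ∉ Hf (rt n) := by
  intro h
  have h1 := Hf_mem (rt_IsE n) 1 h
  have h2 : dT (rt n).1 1 ≤ n := by
    rw [dT_comm]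
    exact rt_aux_pow_le true n
  have h3 := ex_le (rt n).2 1
  have h4 : ex (rt n).2 = n + 1 := by
    show ex (gen true ^ n * gen false) = n + 1
    rw [ex_mul, rt_aux_ex, ex_gen]
  rw [h4, ex_one, sub_zero] at h3
  have h5 : |((n : ℤ) + 1)| = (n : ℤ) + 1 := abs_of_nonneg (by positivity)
  rw [h5] at h3
  omega
theorem rt_aux_disj {n n' : ℕ} (h : n < n') : Disjoint (Hf (rt n)) (Hf (rt n')) := by
  rw [Set.disjoint_left]
  intro w h1 h2
  have h3 : Pst false ((gen true ^ n)⁻¹ * w) := (ht_iff (e := rt n) (b := false) rfl w).1.1 h1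
  have h4 : Pst false ((gen true ^ n')⁻¹ * w) := (ht_iff (e := rt n') (b := false) rfl w).1.1 h2
  obtain ⟨k, rfl⟩ := Nat.exists_eq_add_of_lt h
  have h5 := rt_aux_pow _ h4 k
  have h6 : gen true ^ (k + 1) * ((gen true ^ (n + k + 1))⁻¹ * w) = (gen true ^ n)⁻¹ * w := by
    rw [show n + k + 1 = n + (k + 1) by ring, pow_add]
    group
  rw [h6] at h5
  unfold Pst at h3 h5
  rw [h3] at h5
  simp at h5
theorem rt_disj {n n' : ℕ} (h : n ≠ n') : Disjoint (Hf (rt n)) (Hf (rt n')) := by
  rcases lt_or_gt_of_ne h with h1 | h1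
  · exact rt_aux_disj h1
  · exact (rt_aux_disj h1).symm
theorem rt_ex_fst (n : ℕ) : ex (rt n).1 = n := rt_aux_ex n
theorem rt_ex_snd (n : ℕ) : ex (rt n).2 = n + 1 := by
  show ex (gen true ^ n * gen false) = n + 1
  rw [ex_mul, rt_aux_ex, ex_gen]
theorem rt_top_dist {n n' m m' : ℕ} {u u' : F} (hu : u ∈ Vt m (rt n).2) (hu' : u' ∈ Vt m' (rt n').2) :
    dT u u' ≤ ((n : ℤ) - n').natAbs + m + m' + 2 := by
  have h1 : dT (rt n).2 u = m := Vt_dT hu
  have h2 : dT (rt n').2 u' = m' := Vt_dT hu'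
  have h3 : dT (rt n).1 (rt n).2 = 1 := dT_gen _ _
  have h4 : dT (rt n').1 (rt n').2 = 1 := dT_gen _ _
  have h5 : dT (rt n).1 (rt n').1 ≤ ((n : ℤ) - n').natAbs := rt_aux_dist n n'
  have t1 := dT_tri u (rt n).2 u'
  have t2 := dT_tri (rt n).2 (rt n).1 u'
  have t3 := dT_tri (rt n).1 (rt n').1 u'
  have t4 := dT_tri (rt n').1 (rt n').2 u'
  have c1 := dT_comm u (rt n).2
  have c2 := dT_comm (rt n).2 (rt n).1
  omega
theorem Hf_out_le {e : F × F} (he : IsE e) {w w' : F} (hw : w ∈ Hf e) (hw' : w' ∉ Hf e) :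
    dT w e.1 ≤ dT w w' ∧ dT w' e.1 ≤ dT w w' ∧ dT w e.2 + 1 ≤ dT w w' := by
  have h1 := Hf_cross he hw hw'
  have h2 := Hf_mem he w hw
  have c1 := dT_comm w e.1
  have c2 := dT_comm w e.2
  have c3 := dT_comm w' e.1
  refine ⟨?_, ?_, ?_⟩ <;> omega
theorem sep_finite (D : ℕ) : {e : F × F | IsE e ∧ (1 : F) ∈ Hf e ∧ ∃ w, dT 1 w ≤ D ∧ w ∉ Hf e}.Finite := by
  apply Set.Finite.subset ((ball_finite 1 D).prod (ball_finite 1 D))
  rintro e ⟨he, h1, w, hw, hw'⟩
  have h2 := Hf_cross he h1 hw'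
  have h3 := Hf_mem he 1 h1
  have c1 := dT_comm 1 e.1
  have c2 := dT_comm 1 e.2
  refine Set.mem_prod.mpr ⟨?_, ?_⟩
  · show dT 1 e.1 ≤ D
    omega
  · show dT 1 e.2 ≤ D
    omega

end

end Pool.Agent.Helper943.LM
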