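import Mathlib
import Pool.Agent.Helper943.LM.Tree

set_option autoImplicit false

open scoped Classical

namespace Pool.Agent.Helper943.LM

noncomputable section

/-- A group acting on (tree) x (plane). -/
structure TP (G : Type) [Group G] where
  act : G → F → F
  act_one : ∀ a, act 1 a = a
  act_mul : ∀ g h a, act (g * h) a = act g (act h a)
  act_dist : ∀ g a b, dT (act g a) (act g b) = dT a b
  act_pos : ∀ g a b, ∃ b', act g (a * gen b) = act g a * gen b'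
  tau : G → ℤ
  tau_mul : ∀ g h, tau (g * h) = tau g + tau h
  act_ex : ∀ g a, ex (act g a) = tau g + ex a
  om : ℂ
  om_norm : ‖om‖ = 1
  om_pow : ∀ n : ℕ, 0 < n → om ^ n ≠ 1
  p : G → ℂ
  p_mul : ∀ g h, p (g * h) = p g + om ^ (tau g) * p h
  kap : ℕ
  cnt_fin : ∀ (q : F) (R : ℝ), {g | act g 1 = q ∧ ‖p g‖ ≤ R}.Finite
  cnt : ∀ (q : F) (R : ℝ), 0 ≤ R → ({g | act g 1 = q ∧ ‖p g‖ ≤ R}.ncard : ℝ) ≤ kap * (R + 1) ^ 2
  cov : ∀ (q : F) (z : ℂ), ∃ g, act g 1 = q ∧ ‖p g - z‖ ≤ 2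
  c : G
  c_act : act c 1 = 1
  c_p : p c ≠ 0

/-- An automatic structure with uniqueness. -/
structure UA (G : Type) [Group G] where
  A : Type
  finA : Finite A
  mu : A → G
  S : Type
  finS : Finite S
  step : S → A → S
  s0 : S
  acc : Set S
  surj : ∀ g : G, ∃ w : List A, w.foldl step s0 ∈ acc ∧ (w.map mu).prod = g
  inj : ∀ w w' : List A, w.foldl step s0 ∈ acc → w'.foldl step s0 ∈ acc →
    (w.map mu).prod = (w'.map mu).prod → w = w'
  ft : ∀ g : G, ∃ D : Set G, D.Finite ∧ ∀ w w' : List A, w.foldl step s0 ∈ acc →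
    w'.foldl step s0 ∈ acc → (w.map mu).prod * g = (w'.map mu).prod →
    ∀ t : ℕ, ((w.take t).map mu).prod⁻¹ * ((w'.take t).map mu).prod ∈ D

variable {G : Type} [Group G]

/-- evaluation -/
def UA.ev (U : UA G) (w : List U.A) : G := (w.map U.mu).prod

/-- run of the automaton -/
def UA.run (U : UA G) (s : U.S) (w : List U.A) : U.S := w.foldl U.step s

/-- the language -/
def UA.L (U : UA G) : Set (List U.A) := {w | U.run U.s0 w ∈ U.acc}

/-- vertex of a group element -/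
def TP.vx (T : TP G) (g : G) : F := T.act g 1

/-- tree norm of a group element -/
def TP.nm (T : TP G) (g : G) : ℕ := dT 1 (T.act g 1)

/-- live states -/
def UA.live (U : UA G) (s : U.S) : Prop :=
  (∃ u, U.run U.s0 u = s) ∧ ∃ v, U.run s v ∈ U.acc

/-- powers of words -/
def wpow {α : Type} (y : List α) (k : ℕ) : List α := (List.replicate k y).flatten

/-- elliptic states -/
def Ell (T : TP G) (U : UA G) (s : U.S) : Prop :=
  ∃ y : List U.A, y ≠ [] ∧ U.run s y = s ∧ ∃ C : ℕ, ∀ j : ℕ, T.nm (U.ev y ^ j) ≤ C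

/-- translate of an edge -/
def TP.actE (T : TP G) (g : G) (e : F × F) : F × F := (T.act g e.1, T.act g e.2)

/-- words from `s` to acceptance, staying beyond `e`, ending at depth `m` -/
def WW (T : TP G) (U : UA G) (m : ℕ) (s : U.S) (e : F × F) : Set (List U.A) :=
  {W | U.run s W ∈ U.acc ∧ (∀ t, T.vx (U.ev (W.take t)) ∈ Hf e) ∧ T.vx (U.ev W) ∈ Vt m e.2}

/-- finite type -/
def FT (T : TP G) (U : UA G) (s : U.S) (e : F × F) : Prop := ∀ m, (WW T U m s e).Finite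

/-- `p` enters the half tree `e` with its last letter -/
def Ent (T : TP G) (U : UA G) (e : F × F) (p : List U.A) : Prop :=
  p ≠ [] ∧ T.vx (U.ev p) ∈ Hf e ∧ T.vx (U.ev p.dropLast) ∉ Hf e

/-- the edge `e` seen from the end of `p` -/
def rel (T : TP G) (U : UA G) (p : List U.A) (e : F × F) : F × F := T.actE (U.ev p)⁻¹ e

/-- relative entrance edges -/
def EE (T : TP G) (U : UA G) : Set (F × F) :=
  {e | IsE e ∧ (1 : F) ∈ Hf e ∧ ∃ a : U.A, T.vx (U.mu a)⁻¹ ∉ Hf e}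

section TPbasics

variable (T : TP G)

theorem TP.act_inv_act (g : G) (a : F) : T.act g⁻¹ (T.act g a) = a := by
  rw [← T.act_mul, inv_mul_cancel, T.act_one]
theorem TP.act_act_inv (g : G) (a : F) : T.act g (T.act g⁻¹ a) = a := by
  rw [← T.act_mul, mul_inv_cancel, T.act_one]
theorem TP.vx_mul (g h : G) : T.vx (g * h) = T.act g (T.vx h) := T.act_mul g h 1
theorem TP.vx_one : T.vx 1 = 1 := T.act_one 1
theorem TP.nm_mul (g h : G) : T.nm (g * h) ≤ T.nm g + T.nm h := by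
  unfold TP.nm
  rw [T.act_mul]
  refine (dT_tri 1 (T.act g 1) _).trans ?_
  rw [T.act_dist]
theorem TP.nm_one : T.nm 1 = 0 := by
  unfold TP.nm
  rw [T.act_one, dT_self]
theorem TP.nm_inv (g : G) : T.nm g⁻¹ = T.nm g := by
  unfold TP.nm
  rw [← T.act_dist g, T.act_act_inv, dT_comm]
theorem TP.nm_inv_mul (g h : G) : T.nm (g⁻¹ * h) = dT (T.vx g) (T.vx h) := by
  unfold TP.nm TP.vx
  rw [← T.act_dist g, T.act_mul, T.act_act_inv]
theorem TP.tau_one : T.tau 1 = 0 := by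
  have := T.tau_mul 1 1
  rw [mul_one] at this
  omega
theorem TP.tau_inv (g : G) : T.tau g⁻¹ = - T.tau g := by
  have := T.tau_mul g⁻¹ g
  rw [inv_mul_cancel, T.tau_one] at this
  omega
theorem TP.tau_pow (g : G) (k : ℕ) : T.tau (g ^ k) = k * T.tau g := by
  induction k with
  | zero => rw [pow_zero, T.tau_one]; simp
  | succ k ih => rw [pow_succ, T.tau_mul, ih]; push_cast; ring
theorem TP.ex_vx (g : G) : ex (T.vx g) = T.tau g := by
  unfold TP.vx
  rw [T.act_ex, ex_one, add_zero]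
theorem TP.abs_tau_le (g : G) : |T.tau g| ≤ (T.nm g : ℤ) := by
  have h := ex_le 1 (T.vx g)
  rw [ex_one, T.ex_vx, zero_sub, abs_neg] at h
  exact h
theorem TP.om_ne_zero : T.om ≠ 0 := by
  intro h
  have := T.om_norm
  rw [h, norm_zero] at this
  exact zero_ne_one this
theorem TP.norm_om_zpow (k : ℤ) : ‖T.om ^ k‖ = 1 := by
  rw [norm_zpow, T.om_norm, one_zpow]
theorem TP.om_zpow_ne_one {k : ℤ} (hk : k ≠ 0) : T.om ^ k ≠ 1 := by
  intro h
  have h2 : T.om ^ (k.natAbs) = 1 := by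
    rcases Int.natAbs_eq k with e | e
    · rw [e, zpow_natCast] at h
      exact h
    · rw [e, zpow_neg, zpow_natCast, inv_eq_one] at h
      exact h
  exact T.om_pow k.natAbs (Int.natAbs_pos.mpr hk) h2
theorem TP.p_one : T.p 1 = 0 := by
  have := T.p_mul 1 1
  rw [mul_one, T.tau_one, zpow_zero, one_mul] at this
  exact left_eq_add.mp this
theorem TP.p_inv (g : G) : T.p g⁻¹ = - (T.om ^ (- T.tau g) * T.p g) := by
  have := T.p_mul g⁻¹ g
  rw [inv_mul_cancel, T.p_one, T.tau_inv] at this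
  exact eq_neg_of_add_eq_zero_left this.symm
theorem TP.p_inv_mul (g h : G) : T.p (g⁻¹ * h) = T.om ^ (- T.tau g) * (T.p h - T.p g) := by
  rw [T.p_mul, T.p_inv, T.tau_inv]
  ring
theorem TP.norm_p_mul_le (g h : G) : ‖T.p (g * h)‖ ≤ ‖T.p g‖ + ‖T.p h‖ := by
  rw [T.p_mul]
  refine (norm_add_le _ _).trans ?_
  rw [norm_mul, T.norm_om_zpow, one_mul]
theorem TP.norm_p_inv (g : G) : ‖T.p g⁻¹‖ = ‖T.p g‖ := by
  rw [T.p_inv, norm_neg, norm_mul, T.norm_om_zpow, one_mul]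
theorem TP.norm_p_inv_mul (g h : G) : ‖T.p (g⁻¹ * h)‖ = ‖T.p h - T.p g‖ := by
  rw [T.p_inv_mul, norm_mul, T.norm_om_zpow, one_mul]
theorem TP.norm_p_mul_sub (g h : G) : ‖T.p (g * h) - T.p g‖ = ‖T.p h‖ := by
  rw [T.p_mul, add_sub_cancel_left, norm_mul, T.norm_om_zpow, one_mul]
theorem TP.p_pow {g : G} (hg : T.tau g = 0) (j : ℕ) : T.p (g ^ j) = j * T.p g := by
  induction j with
  | zero => rw [pow_zero, T.p_one]; simp
  | succ j ih =>
    rw [pow_succ, T.p_mul, ih, T.tau_pow, hg, mul_zero, zpow_zero]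
    push_cast; ring
theorem TP.ball_sub (D : ℕ) (R : ℝ) : {g | T.nm g ≤ D ∧ ‖T.p g‖ ≤ R} ⊆
    ⋃ q ∈ (ball_finite 1 D).toFinset, {g | T.act g 1 = q ∧ ‖T.p g‖ ≤ R} := by
  rintro g ⟨h1, h2⟩
  rw [Set.mem_iUnion₂]
  exact ⟨T.act g 1, (Set.Finite.mem_toFinset _).mpr h1, rfl, h2⟩
theorem TP.ball_fin (D : ℕ) (R : ℝ) : {g | T.nm g ≤ D ∧ ‖T.p g‖ ≤ R}.Finite := by
  refine Set.Finite.subset ?_ (T.ball_sub D R)
  exact Set.Finite.biUnion (Finset.finite_toSet _) fun q _ => T.cnt_fin q R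
theorem TP.ball_count (D : ℕ) (R : ℝ) (hR : 0 ≤ R) :
    ({g | T.nm g ≤ D ∧ ‖T.p g‖ ≤ R}.ncard : ℝ) ≤ 5 ^ D * (T.kap * (R + 1) ^ 2) := by
  have h1 : {g | T.nm g ≤ D ∧ ‖T.p g‖ ≤ R}.ncard ≤
      ∑ q ∈ (ball_finite 1 D).toFinset, {g | T.act g 1 = q ∧ ‖T.p g‖ ≤ R}.ncard := by
    refine (Set.ncard_le_ncard (T.ball_sub D R)
      (Set.Finite.biUnion (Finset.finite_toSet _) fun q _ => T.cnt_fin q R)).trans ?_
    exact Finset.set_ncard_biUnion_le _ _
  have hc : ((ball_finite 1 D).toFinset.card : ℝ) ≤ 5 ^ D := by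
    have := ball_card 1 D
    rw [Set.ncard_eq_toFinset_card _ (ball_finite 1 D)] at this
    exact_mod_cast this
  calc ({g | T.nm g ≤ D ∧ ‖T.p g‖ ≤ R}.ncard : ℝ)
      ≤ ((∑ q ∈ (ball_finite 1 D).toFinset, {g | T.act g 1 = q ∧ ‖T.p g‖ ≤ R}.ncard : ℕ) : ℝ) := by
        exact_mod_cast h1
    _ = ∑ q ∈ (ball_finite 1 D).toFinset, ({g | T.act g 1 = q ∧ ‖T.p g‖ ≤ R}.ncard : ℝ) := by
        push_cast; rfl
    _ ≤ ∑ q ∈ (ball_finite 1 D).toFinset, (T.kap * (R + 1) ^ 2 : ℝ) :=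
        Finset.sum_le_sum fun q _ => T.cnt q R hR
    _ = ((ball_finite 1 D).toFinset.card : ℝ) * (T.kap * (R + 1) ^ 2) := by
        rw [Finset.sum_const, nsmul_eq_mul]
    _ ≤ 5 ^ D * (T.kap * (R + 1) ^ 2) := mul_le_mul_of_nonneg_right hc (by positivity)
theorem TP.tau_c : T.tau T.c = 0 := by
  have := T.act_ex T.c 1
  rw [T.c_act, ex_one] at this
  omega
theorem TP.c_ne_one : T.c ≠ 1 := by
  intro h
  apply T.c_p
  rw [h, T.p_one]
theorem TP.act_Hf (g : G) (e : F × F) (w : F) : T.act g w ∈ Hf (T.actE g e) ↔ w ∈ Hf e := by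
  show dT (T.act g e.2) (T.act g w) < dT (T.act g e.1) (T.act g w) ↔ dT e.2 w < dT e.1 w
  rw [T.act_dist, T.act_dist]
theorem TP.act_IsE (g : G) (e : F × F) (he : IsE e) : IsE (T.actE g e) := by
  obtain ⟨b, hb⟩ := he
  obtain ⟨b', hb'⟩ := T.act_pos g e.1 b
  refine ⟨b', ?_⟩
  show T.act g e.2 = T.act g e.1 * gen b'
  rw [hb, hb']
theorem TP.act_Vt_aux (g : G) (m : ℕ) : ∀ (q u : F), u ∈ Vt m q → T.act g u ∈ Vt m (T.act g q) := by
  induction m with
  | zero =>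
    intro q u h
    have : u = q := h
    rw [this]
    exact rfl
  | succ m ih =>
    intro q u h
    have key : ∀ b, u ∈ Vt m (q * gen b) → T.act g u ∈ Vt (m + 1) (T.act g q) := by
      intro b hb
      have h1 := ih _ _ hb
      obtain ⟨b', hb'⟩ := T.act_pos g q b
      rw [hb'] at h1
      cases b' with
      | true => exact Or.inl h1
      | false => exact Or.inr h1
    rcases h with h | h
    · exact key true h
    · exact key false h
theorem TP.act_Vt (g : G) (m : ℕ) (q u : F) : T.act g u ∈ Vt m (T.act g q) ↔ u ∈ Vt m q := by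
  constructor
  · intro h
    have := T.act_Vt_aux g⁻¹ m _ _ h
    rwa [T.act_inv_act, T.act_inv_act] at this
  · exact T.act_Vt_aux g m q u
theorem TP.actE_mul (g h : G) (e : F × F) : T.actE (g * h) e = T.actE g (T.actE h e) := by
  unfold TP.actE
  rw [T.act_mul, T.act_mul]
theorem TP.actE_one (e : F × F) : T.actE 1 e = e := by
  unfold TP.actE
  rw [T.act_one, T.act_one]
theorem TP.ex_act (g : G) (a : F) : ex (T.act g a) = T.tau g + ex a := T.act_ex g a

end TPbasics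

section UAbasics

variable (U : UA G)

theorem UA.ev_nil : U.ev [] = 1 := by simp [UA.ev]
theorem UA.ev_append (u v : List U.A) : U.ev (u ++ v) = U.ev u * U.ev v := by simp [UA.ev]
theorem UA.run_nil (s : U.S) : U.run s [] = s := rfl
theorem UA.run_append (s : U.S) (u v : List U.A) : U.run s (u ++ v) = U.run (U.run s u) v := by
  simp [UA.run]
theorem UA.mem_L (w : List U.A) : w ∈ U.L ↔ U.run U.s0 w ∈ U.acc := Iff.rfl
theorem UA.ev_inj {w w' : List U.A} (h : w ∈ U.L) (h' : w' ∈ U.L) (he : U.ev w = U.ev w') : w = w' :=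
  U.inj w w' h h' he
theorem UA.ev_surj (g : G) : ∃ w ∈ U.L, U.ev w = g := U.surj g
theorem UA.ft' (g : G) : ∃ D : Set G, D.Finite ∧ ∀ w ∈ U.L, ∀ w' ∈ U.L, U.ev w * g = U.ev w' →
    ∀ t : ℕ, (U.ev (w.take t))⁻¹ * U.ev (w'.take t) ∈ D := by
  obtain ⟨D, hD, h⟩ := U.ft g
  exact ⟨D, hD, fun w hw w' hw' he t => h w w' hw hw' he t⟩
theorem UA.live_inj {s : U.S} (hs : U.live s) {X Y : List U.A} (h : U.run s X = U.run s Y)
    (hl : ∃ v, U.run (U.run s X) v ∈ U.acc) (he : U.ev X = U.ev Y) : X = Y := by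
  obtain ⟨⟨u, hu⟩, -⟩ := hs
  obtain ⟨v, hv⟩ := hl
  have h1 : u ++ X ++ v ∈ U.L := by
    rw [UA.mem_L, UA.run_append, UA.run_append, hu]; exact hv
  have h2 : u ++ Y ++ v ∈ U.L := by
    rw [UA.mem_L, UA.run_append, UA.run_append, hu, ← h]; exact hv
  have h3 := U.ev_inj h1 h2 (by
    rw [UA.ev_append, UA.ev_append, UA.ev_append, UA.ev_append, he])
  exact List.append_cancel_left (List.append_cancel_right h3)
theorem UA.closed_inj {s : U.S} (hs : U.live s) {X Y : List U.A} (hX : U.run s X = s)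
    (hY : U.run s Y = s) (he : U.ev X = U.ev Y) : X = Y :=
  U.live_inj hs (hX.trans hY.symm) (by rw [hX]; exact hs.2) he
theorem UA.live_of_mem {u v : List U.A} (h : u ++ v ∈ U.L) : U.live (U.run U.s0 u) := by
  refine ⟨⟨u, rfl⟩, v, ?_⟩
  rw [UA.mem_L, UA.run_append] at h
  exact h
theorem UA.swap {u u' v : List U.A} (h : u ++ v ∈ U.L) (hr : U.run U.s0 u = U.run U.s0 u') :
    u' ++ v ∈ U.L := by
  rw [UA.mem_L, UA.run_append] at h ⊢
  rw [← hr]; exact h
theorem wpow_zero {α : Type} (y : List α) : wpow y 0 = [] := by simp [wpow]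
theorem wpow_succ {α : Type} (y : List α) (k : ℕ) : wpow y (k + 1) = y ++ wpow y k := by
  simp [wpow, List.replicate_succ]
theorem wpow_add {α : Type} (y : List α) (k l : ℕ) : wpow y (k + l) = wpow y k ++ wpow y l := by
  induction k with
  | zero => rw [Nat.zero_add, wpow_zero, List.nil_append]
  | succ k ih => rw [Nat.add_right_comm, wpow_succ, wpow_succ, ih, List.append_assoc]
theorem wpow_length {α : Type} (y : List α) (k : ℕ) : (wpow y k).length = k * y.length := by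
  induction k with
  | zero => rw [wpow_zero, Nat.zero_mul]; rfl
  | succ k ih => rw [wpow_succ, List.length_append, ih]; ring
theorem UA.ev_wpow (y : List U.A) (k : ℕ) : U.ev (wpow y k) = U.ev y ^ k := by
  induction k with
  | zero => rw [wpow_zero, UA.ev_nil, pow_zero]
  | succ k ih => rw [wpow_succ, UA.ev_append, ih, pow_succ']
theorem UA.run_wpow {s : U.S} {y : List U.A} (h : U.run s y = s) (k : ℕ) : U.run s (wpow y k) = s := by
  induction k with
  | zero => rw [wpow_zero, UA.run_nil]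
  | succ k ih => rw [wpow_succ, UA.run_append, h, ih]
theorem TP.nm_one' (T : TP G) : T.nm 1 = 0 := by
  unfold TP.nm
  rw [T.act_one, dT_self]
theorem TP.nm_mul' (T : TP G) (g h : G) : T.nm (g * h) ≤ T.nm g + T.nm h := by
  unfold TP.nm
  rw [T.act_mul]
  refine (dT_tri 1 (T.act g 1) _).trans ?_
  rw [T.act_dist]
theorem TP.p_one' (T : TP G) : T.p 1 = 0 := by
  have h1 : T.tau 1 = 0 := by
    have := T.tau_mul 1 1
    rw [mul_one] at this
    omega
  have h2 := T.p_mul 1 1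
  rw [mul_one, h1, zpow_zero, one_mul] at h2
  exact left_eq_add.1 h2
theorem TP.p_norm' (T : TP G) (g h : G) : ‖T.p (g * h)‖ ≤ ‖T.p g‖ + ‖T.p h‖ := by
  rw [T.p_mul]
  refine (norm_add_le _ _).trans ?_
  rw [norm_mul, norm_zpow, T.om_norm, one_zpow, one_mul]
theorem UA.lip (T : TP G) (U : UA G) : ∃ C : ℕ, ∀ w : List U.A,
    T.nm (U.ev w) ≤ C * w.length ∧ ‖T.p (U.ev w)‖ ≤ C * w.length := by
  haveI := U.finA
  obtain ⟨R, hR⟩ := (Set.finite_range
    (fun a : U.A => max (T.nm (U.mu a) : ℝ) ‖T.p (U.mu a)‖)).bddAbove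
  refine ⟨⌈R⌉₊, fun w => ?_⟩
  have ha : ∀ a : U.A, T.nm (U.mu a) ≤ ⌈R⌉₊ ∧ ‖T.p (U.mu a)‖ ≤ (⌈R⌉₊ : ℝ) := by
    intro a
    have h1 : max (T.nm (U.mu a) : ℝ) ‖T.p (U.mu a)‖ ≤ R := hR ⟨a, rfl⟩
    have h2 := Nat.le_ceil R
    constructor
    · have : (T.nm (U.mu a) : ℝ) ≤ (⌈R⌉₊ : ℝ) := (le_max_left _ _).trans (h1.trans h2)
      exact_mod_cast this
    · exact (le_max_right _ _).trans (h1.trans h2)
  induction w with
  | nil =>
    rw [UA.ev_nil, TP.nm_one', TP.p_one']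
    simp
  | cons a w ih =>
    have e : U.ev (a :: w) = U.mu a * U.ev w := by simp [UA.ev]
    rw [e, List.length_cons]
    obtain ⟨h1, h2⟩ := ih
    obtain ⟨h3, h4⟩ := ha a
    constructor
    · calc T.nm (U.mu a * U.ev w) ≤ T.nm (U.mu a) + T.nm (U.ev w) := T.nm_mul' _ _
        _ ≤ ⌈R⌉₊ + ⌈R⌉₊ * w.length := Nat.add_le_add h3 h1
        _ = ⌈R⌉₊ * (w.length + 1) := by ring
    · calc ‖T.p (U.mu a * U.ev w)‖ ≤ ‖T.p (U.mu a)‖ + ‖T.p (U.ev w)‖ := T.p_norm' _ _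
        _ ≤ (⌈R⌉₊ : ℝ) + ⌈R⌉₊ * w.length := add_le_add h4 h2
        _ = (⌈R⌉₊ : ℝ) * ((w.length + 1 : ℕ) : ℝ) := by push_cast; ring
theorem UA.finite_le (U : UA G) (n : ℕ) : {w : List U.A | w.length ≤ n}.Finite := by
  haveI := U.finA
  exact List.finite_length_le U.A n

end UAbasics

end

end Pool.Agent.Helper943.LM
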