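import Mathlib
import Pool.Agent.Helper943.LM.Basic

set_option autoImplicit false

open scoped Classical

namespace Pool.Agent.Helper943.LM

noncomputable section

/-- the padded pair of two words -/
def padz {α : Type} (u v : List α) : List (Option α × Option α) :=
  (u.map some ++ List.replicate (v.length - u.length) none).zip
    (v.map some ++ List.replicate (u.length - v.length) none)

/-- automatic structure -/
def AutStr (G : Type) [Group G] : Prop :=
  ∃ (α : Type) (_ : Fintype α) (μ : α → G) (σ : Type) (_ : Fintype σ) (W : DFA α σ),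
    (∀ g : G, ∃ w : List α, w ∈ W.accepts ∧ (w.map μ).prod = g) ∧
    ∀ x : Option α, ∃ (τ : Type) (_ : Fintype τ) (M : DFA (Option α × Option α) τ),
      ∀ p : List (Option α × Option α), p ∈ M.accepts ↔
        ∃ u v : List α, u ∈ W.accepts ∧ v ∈ W.accepts ∧ p = padz u v ∧
          (u.map μ).prod * (x.map μ).getD 1 = (v.map μ).prod

theorem padz_take_fst {α : Type} (u v : List α) (t : ℕ) :
    ((padz u v).take t).filterMap Prod.fst = u.take t := by
  have h1 : ((padz u v).take t).filterMap Prod.fst
      = ((((padz u v).map Prod.fst)).take t).filterMap id := by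
    rw [← List.map_take, List.filterMap_map]
    rfl
  have h2 : (padz u v).map Prod.fst
      = u.map some ++ List.replicate (v.length - u.length) none := by
    unfold padz
    apply List.map_fst_zip
    simp only [List.length_append, List.length_map, List.length_replicate]
    omega
  rw [h1, h2, List.take_append, List.filterMap_append, ← List.map_take, List.take_replicate,
    List.filterMap_map]
  simp

theorem padz_take_snd {α : Type} (u v : List α) (t : ℕ) :
    ((padz u v).take t).filterMap Prod.snd = v.take t := by
  have h1 : ((padz u v).take t).filterMap Prod.snd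
      = ((((padz u v).map Prod.snd)).take t).filterMap id := by
    rw [← List.map_take, List.filterMap_map]
    rfl
  have h2 : (padz u v).map Prod.snd
      = v.map some ++ List.replicate (u.length - v.length) none := by
    unfold padz
    apply List.map_snd_zip
    simp only [List.length_append, List.length_map, List.length_replicate]
    omega
  rw [h1, h2, List.take_append, List.filterMap_append, ← List.map_take, List.take_replicate,
    List.filterMap_map]
  simp

theorem padz_fst {α : Type} (u v : List α) : (padz u v).filterMap Prod.fst = u := by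
  have := padz_take_fst u v (max (padz u v).length u.length)
  rwa [List.take_of_length_le (le_max_left _ _), List.take_of_length_le (le_max_right _ _)] at this

theorem padz_snd {α : Type} (u v : List α) : (padz u v).filterMap Prod.snd = v := by
  have := padz_take_snd u v (max (padz u v).length v.length)
  rwa [List.take_of_length_le (le_max_left _ _), List.take_of_length_le (le_max_right _ _)] at this

theorem diffAut {G : Type} [Group G] {α : Type} [Fintype α] (μ : α → G) {σ : Type} (W : DFA α σ)
    (g : G) (h : ∃ (τ : Type) (_ : Fintype τ) (M : DFA (Option α × Option α) τ),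
      ∀ p : List (Option α × Option α), p ∈ M.accepts ↔
        ∃ u v : List α, u ∈ W.accepts ∧ v ∈ W.accepts ∧ p = padz u v ∧
          (u.map μ).prod * g = (v.map μ).prod) :
    ∃ D : Set G, D.Finite ∧ ∀ u v : List α, u ∈ W.accepts → v ∈ W.accepts →
      (u.map μ).prod * g = (v.map μ).prod →
      ∀ t : ℕ, ((u.take t).map μ).prod⁻¹ * ((v.take t).map μ).prod ∈ D := by
  obtain ⟨τ, _, M, hM⟩ := h
  have hr : ∀ q : τ, ∃ r : List (Option α × Option α),
      (∃ r', M.evalFrom q r' ∈ M.accept) → M.evalFrom q r ∈ M.accept := by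
    intro q
    by_cases hq : ∃ r', M.evalFrom q r' ∈ M.accept
    · obtain ⟨r', hr'⟩ := hq
      exact ⟨r', fun _ => hr'⟩
    · exact ⟨[], fun h => absurd h hq⟩
  choose r hr using hr
  refine ⟨Set.range (fun q : τ => (((r q).filterMap Prod.fst).map μ).prod * g *
    (((r q).filterMap Prod.snd).map μ).prod⁻¹), Set.finite_range _, ?_⟩
  intro u v hu hv huv t
  have hacc : padz u v ∈ M.accepts := (hM _).2 ⟨u, v, hu, hv, rfl, huv⟩
  rw [DFA.mem_accepts] at hacc
  have h1 : M.evalFrom (M.eval ((padz u v).take t)) ((padz u v).drop t) ∈ M.accept := by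
    have h2 : M.evalFrom (M.eval ((padz u v).take t)) ((padz u v).drop t) = M.eval (padz u v) := by
      unfold DFA.eval
      rw [← DFA.evalFrom_of_append, List.take_append_drop]
    rw [h2]
    exact hacc
  have h3 := hr _ ⟨_, h1⟩
  have h4 : (padz u v).take t ++ r (M.eval ((padz u v).take t)) ∈ M.accepts := by
    rw [DFA.mem_accepts]
    unfold DFA.eval
    rw [DFA.evalFrom_of_append]
    exact h3
  obtain ⟨u', v', _, _, heq, huv'⟩ := (hM _).1 h4
  have h5 : u' = u.take t ++ (r (M.eval ((padz u v).take t))).filterMap Prod.fst := by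
    rw [← padz_fst u' v', ← heq, List.filterMap_append, padz_take_fst]
  have h6 : v' = v.take t ++ (r (M.eval ((padz u v).take t))).filterMap Prod.snd := by
    rw [← padz_snd u' v', ← heq, List.filterMap_append, padz_take_snd]
  refine ⟨M.eval ((padz u v).take t), ?_⟩
  rw [h5, h6, List.map_append, List.map_append, List.prod_append, List.prod_append] at huv'
  simp only
  generalize (((r (M.eval ((padz u v).take t))).filterMap Prod.fst).map μ).prod = a at huv' ⊢
  generalize (((r (M.eval ((padz u v).take t))).filterMap Prod.snd).map μ).prod = b at huv' ⊢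
  generalize ((u.take t).map μ).prod = c at huv' ⊢
  generalize ((v.take t).map μ).prod = d at huv' ⊢
  have h7 : d = c * a * g * b⁻¹ := by
    rw [huv']; group
  rw [h7]
  group

theorem diffAll {G : Type} [Group G] {α : Type} [Fintype α] (μ : α → G) {σ : Type} (W : DFA α σ)
    (hs : ∀ g : G, ∃ w : List α, w ∈ W.accepts ∧ (w.map μ).prod = g)
    (h : ∀ x : Option α, ∃ D : Set G, D.Finite ∧ ∀ u v : List α, u ∈ W.accepts → v ∈ W.accepts →
      (u.map μ).prod * (x.map μ).getD 1 = (v.map μ).prod →
      ∀ t : ℕ, ((u.take t).map μ).prod⁻¹ * ((v.take t).map μ).prod ∈ D) (g : G) :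
    ∃ D : Set G, D.Finite ∧ ∀ u v : List α, u ∈ W.accepts → v ∈ W.accepts →
      (u.map μ).prod * g = (v.map μ).prod →
      ∀ t : ℕ, ((u.take t).map μ).prod⁻¹ * ((v.take t).map μ).prod ∈ D := by
  obtain ⟨z, hz, rfl⟩ := hs g
  clear hz
  induction z with
  | nil =>
    obtain ⟨D, hD, hD2⟩ := h none
    refine ⟨D, hD, ?_⟩
    intro u v hu hv huv t
    exact hD2 u v hu hv huv t
  | cons x z ih =>
    obtain ⟨D1, hD1, hD1'⟩ := h (some x)
    obtain ⟨D2, hD2, hD2'⟩ := ih
    refine ⟨Set.image2 (· * ·) D1 D2, hD1.image2 _ hD2, ?_⟩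
    intro u v hu hv huv t
    obtain ⟨w, hw, hw2⟩ := hs ((u.map μ).prod * μ x)
    have h1 := hD1' u w hu hw hw2.symm t
    have h2 := hD2' w v hw hv (by
      rw [hw2, mul_assoc, ← huv, List.map_cons, List.prod_cons]) t
    refine ⟨_, h1, _, h2, ?_⟩
    simp only
    group

/-- value of a word -/
def uval {α : Type} (K : ℕ) (rk : α → ℕ) : ℕ → List α → ℕ
  | acc, [] => acc
  | acc, a :: u => uval K rk (acc * K + rk a) u

theorem uval_inj {α : Type} (K : ℕ) (rk : α → ℕ) (hrk : ∀ a, rk a < K)
    (hinj : Function.Injective rk) (u : List α) :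
    ∀ (v : List α) (U V : ℕ), u.length = v.length →
      uval K rk U u = uval K rk V v → U = V ∧ u = v := by
  induction u with
  | nil =>
    intro v U V hl h
    cases v with
    | nil => exact ⟨h, rfl⟩
    | cons b v => simp at hl
  | cons a u ih =>
    intro v U V hl h
    cases v with
    | nil => simp at hl
    | cons b v =>
      have hl' : u.length = v.length := by simpa using hl
      obtain ⟨h1, h2⟩ := ih v (U * K + rk a) (V * K + rk b) hl' h
      have hK : 0 < K := lt_of_le_of_lt (Nat.zero_le _) (hrk a)
      have h3 : U = V := by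
        have e1 : (U * K + rk a) / K = U := by
          rw [mul_comm, Nat.mul_add_div hK, Nat.div_eq_of_lt (hrk a), add_zero]
        have e2 : (V * K + rk b) / K = V := by
          rw [mul_comm, Nat.mul_add_div hK, Nat.div_eq_of_lt (hrk b), add_zero]
        rw [← e1, ← e2, h1]
      have h4 : rk a = rk b := by
        rw [h3] at h1
        omega
      exact ⟨h3, by rw [hinj h4, h2]⟩

theorem cmp_step (K V U y x : ℕ) (hx : x < K) (hy : y < K) :
    (compare V U).then (compare y x) = compare (V * K + y) (U * K + x) := by
  rcases lt_trichotomy V U with h | h | h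
  · have h1 : compare V U = Ordering.lt := compare_lt_iff_lt.mpr h
    have h2 : V * K + y < U * K + x := by nlinarith
    rw [h1, compare_lt_iff_lt.mpr h2]
    rfl
  · subst h
    rw [compare_eq_iff_eq.mpr rfl]
    show compare y x = _
    rcases lt_trichotomy y x with h | h | h
    · rw [compare_lt_iff_lt.mpr h, compare_lt_iff_lt.mpr (by omega)]
    · subst h
      rw [compare_eq_iff_eq.mpr rfl, compare_eq_iff_eq.mpr rfl]
    · rw [compare_gt_iff_gt.mpr h, compare_gt_iff_gt.mpr (by omega)]
  · have h1 : compare V U = Ordering.gt := compare_gt_iff_gt.mpr h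
    have h2 : U * K + x < V * K + y := by nlinarith
    rw [h1, compare_gt_iff_gt.mpr h2]
    rfl

/-- comparison step -/
def cstep {α : Type} (rk : α → ℕ) (s : Ordering) (p : Option α × Option α) : Ordering :=
  match p with
  | (some a, some b) => s.then (compare (rk b) (rk a))
  | _ => Ordering.lt

theorem cmp_same {α : Type} (K : ℕ) (rk : α → ℕ) (hrk : ∀ a, rk a < K) (u : List α) :
    ∀ (v : List α) (U V : ℕ), u.length = v.length →
      List.foldl (cstep rk) (compare V U) ((u.map some).zip (v.map some)) =
        compare (uval K rk V v) (uval K rk U u) := by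
  induction u with
  | nil =>
    intro v U V hl
    cases v with
    | nil => rfl
    | cons b v => simp at hl
  | cons a u ih =>
    intro v U V hl
    cases v with
    | nil => simp at hl
    | cons b v =>
      have hl' : u.length = v.length := by simpa using hl
      have h := ih v (U * K + rk a) (V * K + rk b) hl'
      rw [← cmp_step K V U (rk b) (rk a) (hrk a) (hrk b)] at h
      exact h

theorem cmp_none {α : Type} (rk : α → ℕ) (u : List α) :
    List.foldl (cstep rk) Ordering.lt ((u.map some).zip (List.replicate u.length none)) =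
      Ordering.lt := by
  induction u with
  | nil => rfl
  | cons a u ih => exact ih

theorem cmp_short {α : Type} (rk : α → ℕ) (u : List α) :
    ∀ (v : List α) (s : Ordering), v.length < u.length →
      List.foldl (cstep rk) s ((u.map some).zip (v.map some ++
        List.replicate (u.length - v.length) none)) = Ordering.lt := by
  induction u with
  | nil => intro v s h; simp at h
  | cons a u ih =>
    intro v s h
    cases v with
    | nil => exact cmp_none rk u
    | cons b v =>
      have h' : v.length < u.length := by simpa using h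
      have e : (a :: u).length - (b :: v).length = u.length - v.length := by simp
      rw [e]
      exact ih v _ h'

theorem cmp_iff {α : Type} (K : ℕ) (rk : α → ℕ) (hrk : ∀ a, rk a < K) (u v : List α)
    (hle : v.length ≤ u.length) :
    List.foldl (cstep rk) Ordering.eq ((u.map some).zip (v.map some ++
        List.replicate (u.length - v.length) none)) = Ordering.lt ↔
      (v.length < u.length ∨ (v.length = u.length ∧ uval K rk 0 v < uval K rk 0 u)) := by
  rcases lt_or_eq_of_le hle with h | h
  · rw [cmp_short rk u v _ h]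
    exact ⟨fun _ => Or.inl h, fun _ => rfl⟩
  · rw [h, Nat.sub_self, List.replicate_zero, List.append_nil]
    have h2 := cmp_same K rk hrk u v 0 0 h.symm
    have h3 : compare 0 0 = Ordering.eq := rfl
    rw [h3] at h2
    rw [h2, compare_lt_iff_lt]
    constructor
    · intro h4
      exact Or.inr ⟨rfl, h4⟩
    · rintro (h4 | h4)
      · exact absurd h4 (lt_irrefl _)
      · exact h4.2

/-- projection step -/
def pstep {α Q : Type} (P : DFA (Option α × Option α) Q) (S : Set Q) (a : α) : Set Q :=
  {q' | ∃ q ∈ S, ∃ b, q' = P.step q (some a, b)}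

theorem proj_eval {α Q : Type} (P : DFA (Option α × Option α) Q) (u : List α) :
    ∀ S : Set Q, List.foldl (pstep P) S u = {q' | ∃ q ∈ S, ∃ bs : List (Option α),
      bs.length = u.length ∧ q' = List.foldl P.step q ((u.map some).zip bs)} := by
  induction u with
  | nil =>
    intro S
    ext q'
    constructor
    · intro h
      exact ⟨q', h, [], rfl, rfl⟩
    · rintro ⟨q, hq, bs, _, rfl⟩
      exact hq
  | cons a u ih =>
    intro S
    rw [List.foldl_cons, ih]
    ext q'
    constructor
    · rintro ⟨q1, ⟨q, hq, b, rfl⟩, bs, hl, rfl⟩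
      exact ⟨q, hq, b :: bs, by simp [hl], rfl⟩
    · rintro ⟨q, hq, bs, hl, rfl⟩
      cases bs with
      | nil => simp at hl
      | cons b bs =>
        exact ⟨P.step q (some a, b), ⟨q, hq, b, rfl⟩, bs, by simpa using hl, rfl⟩

theorem foldl_pair {A B X : Type} (f : A → X → A) (g : B → X → B) (l : List X) :
    ∀ (a : A) (b : B), List.foldl (fun q x => (f q.1 x, g q.2 x)) (a, b) l =
      (List.foldl f a l, List.foldl g b l) := by
  induction l with
  | nil => intro a b; rfl
  | cons x l ih => intro a b; exact ih _ _

theorem padz_dec {α : Type} {u : List α} {bs : List (Option α)} {u' v' : List α}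
    (hl : bs.length = u.length) (h : (u.map some).zip bs = padz u' v') :
    u = u' ∧ v'.length ≤ u'.length ∧
      bs = v'.map some ++ List.replicate (u'.length - v'.length) none := by
  unfold padz at h
  have h1 := congrArg (List.map Prod.fst) h
  have h2 := congrArg (List.map Prod.snd) h
  rw [List.map_fst_zip (by simp [hl]), List.map_fst_zip (by simp; omega)] at h1
  rw [List.map_snd_zip (by simp [hl]), List.map_snd_zip (by simp; omega)] at h2
  have hn : v'.length - u'.length = 0 := by
    by_contra hne
    have hm : (none : Option α) ∈ u.map some := by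
      rw [h1]
      apply List.mem_append_right
      rw [List.mem_replicate]
      exact ⟨hne, rfl⟩
    simp at hm
  rw [hn, List.replicate_zero, List.append_nil] at h1
  have h3 : u = u' := (List.map_injective_iff.mpr (Option.some_injective α)) h1
  exact ⟨h3, by omega, h2⟩

theorem uniqAut {G : Type} [Group G] {α : Type} [Fintype α] (μ : α → G) {σ : Type} [Fintype σ] (W : DFA α σ)
    (hs : ∀ g : G, ∃ w : List α, w ∈ W.accepts ∧ (w.map μ).prod = g)
    (h : ∃ (τ : Type) (_ : Fintype τ) (M : DFA (Option α × Option α) τ),
      ∀ p : List (Option α × Option α), p ∈ M.accepts ↔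
        ∃ u v : List α, u ∈ W.accepts ∧ v ∈ W.accepts ∧ p = padz u v ∧
          (u.map μ).prod = (v.map μ).prod) :
    ∃ (S : Type) (_ : Fintype S) (W' : DFA α S), (∀ w ∈ W'.accepts, w ∈ W.accepts) ∧
      (∀ g : G, ∃ w ∈ W'.accepts, (w.map μ).prod = g) ∧
      ∀ w ∈ W'.accepts, ∀ w' ∈ W'.accepts, (w.map μ).prod = (w'.map μ).prod → w = w' := by
  obtain ⟨τ, _, M, hM⟩ := h
  obtain ⟨rk, K, hrk, hinj⟩ : ∃ (rk : α → ℕ) (K : ℕ), (∀ a, rk a < K) ∧
      Function.Injective rk :=
    ⟨fun a => (Fintype.equivFin α a : ℕ), Fintype.card α, fun a => (Fintype.equivFin α a).2,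
      fun a b h => (Fintype.equivFin α).injective (Fin.ext h)⟩
  let P : DFA (Option α × Option α) (τ × Ordering) :=
    { step := fun q p => (M.step q.1 p, cstep rk q.2 p)
      start := (M.start, Ordering.eq)
      accept := {q | q.1 ∈ M.accept ∧ q.2 = Ordering.lt} }
  let W' : DFA α (σ × Set (τ × Ordering)) :=
    { step := fun q a => (W.step q.1 a, pstep P q.2 a)
      start := (W.start, {P.start})
      accept := {q | q.1 ∈ W.accept ∧ ¬ ∃ r ∈ q.2, r ∈ P.accept} }
  have hPe : ∀ l, List.foldl P.step P.start l =
      (List.foldl M.step M.start l, List.foldl (cstep rk) Ordering.eq l) := fun l =>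
    foldl_pair M.step (cstep rk) l M.start Ordering.eq
  have hW' : ∀ w, w ∈ W'.accepts ↔ w ∈ W.accepts ∧ ¬ ∃ v ∈ W.accepts,
      (v.map μ).prod = (w.map μ).prod ∧
        (v.length < w.length ∨ (v.length = w.length ∧ uval K rk 0 v < uval K rk 0 w)) := by
    intro w
    have e2 : W'.eval w = (W.eval w, List.foldl (pstep P) {P.start} w) :=
      foldl_pair W.step (pstep P) w W.start {P.start}
    have e1 : w ∈ W'.accepts ↔ (W.eval w ∈ W.accept ∧
        ¬ ∃ r ∈ List.foldl (pstep P) {P.start} w, r ∈ P.accept) := by
      rw [DFA.mem_accepts, e2]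
      exact Iff.rfl
    rw [e1, proj_eval]
    constructor
    · rintro ⟨hw, hn⟩
      refine ⟨hw, ?_⟩
      rintro ⟨v, hv, hev, hlt⟩
      apply hn
      have hle : v.length ≤ w.length := by
        rcases hlt with h | h
        · exact h.le
        · exact h.1.le
      refine ⟨_, ⟨P.start, rfl, v.map some ++ List.replicate (w.length - v.length) none, ?_,
        rfl⟩, ?_⟩
      · simp; omega
      · rw [hPe]
        refine ⟨?_, (cmp_iff K rk hrk w v hle).mpr hlt⟩
        have hz : (w.map some).zip (v.map some ++ List.replicate (w.length - v.length) none) =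
            padz w v := by
          unfold padz
          rw [Nat.sub_eq_zero_of_le hle, List.replicate_zero, List.append_nil]
        have h3 : padz w v ∈ M.accepts := (hM _).mpr ⟨w, v, hw, hv, rfl, hev.symm⟩
        rw [← hz] at h3
        exact h3
    · rintro ⟨hw, hn⟩
      refine ⟨hw, ?_⟩
      rintro ⟨r, ⟨q, hq, bs, hl, rfl⟩, hr⟩
      apply hn
      rw [Set.mem_singleton_iff] at hq
      rw [hq, hPe] at hr
      obtain ⟨hr1, hr2⟩ := hr
      obtain ⟨u', v', hu', hv', hp, hev⟩ := (hM ((w.map some).zip bs)).mp hr1
      obtain ⟨h1, h2, h3⟩ := padz_dec hl hp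
      subst h1
      refine ⟨v', hv', hev.symm, ?_⟩
      rw [← cmp_iff K rk hrk w v' h2, ← h3]
      exact hr2
  haveI : Finite (σ × Set (τ × Ordering)) := by
    haveI : Finite Ordering := Finite.of_injective
      (fun o : Ordering => match o with
        | .lt => (0 : Fin 3)
        | .eq => 1
        | .gt => 2) (by
        intro a b h
        cases a <;> cases b <;> simp at h ⊢)
    infer_instance
  refine ⟨σ × Set (τ × Ordering), Fintype.ofFinite _, W', fun w hw => ((hW' w).mp hw).1, ?_, ?_⟩
  · intro g
    have hex1 : ∃ n : ℕ, ∃ w ∈ W.accepts, (w.map μ).prod = g ∧ w.length = n := by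
      obtain ⟨w, hw, hg⟩ := hs g
      exact ⟨_, w, hw, hg, rfl⟩
    have hex2 : ∃ m : ℕ, ∃ w ∈ W.accepts, (w.map μ).prod = g ∧ w.length = Nat.find hex1 ∧
        uval K rk 0 w = m := by
      obtain ⟨w, hw, hg, hl⟩ := Nat.find_spec hex1
      exact ⟨_, w, hw, hg, hl, rfl⟩
    obtain ⟨w, hw, hg, hl, hm⟩ := Nat.find_spec hex2
    refine ⟨w, (hW' w).mpr ⟨hw, ?_⟩, hg⟩
    rintro ⟨v, hv, hev, hlt⟩
    rw [hg] at hev
    rcases hlt with h | ⟨h, h'⟩
    · rw [hl] at h
      exact Nat.find_min hex1 h ⟨v, hv, hev, rfl⟩
    · rw [hm] at h'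
      exact Nat.find_min hex2 h' ⟨v, hv, hev, h.trans hl, rfl⟩
  · intro w hw w' hw' hev
    obtain ⟨h1, h2⟩ := (hW' w).mp hw
    obtain ⟨h3, h4⟩ := (hW' w').mp hw'
    have a1 : ¬ w'.length < w.length := fun h => h2 ⟨w', h3, hev.symm, Or.inl h⟩
    have a2 : ¬ w.length < w'.length := fun h => h4 ⟨w, h1, hev, Or.inl h⟩
    have hl : w.length = w'.length := by omega
    have a3 : ¬ uval K rk 0 w' < uval K rk 0 w :=
      fun h => h2 ⟨w', h3, hev.symm, Or.inr ⟨hl.symm, h⟩⟩
    have a4 : ¬ uval K rk 0 w < uval K rk 0 w' := fun h => h4 ⟨w, h1, hev, Or.inr ⟨hl, h⟩⟩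
    exact (uval_inj K rk hrk hinj w w' 0 0 hl (by omega)).2

theorem autoLemma_padA {α : Type} (u v : List α) (a b : α) (h : u.length = v.length) :
    padz (u ++ [a]) (v ++ [b]) = padz u v ++ [(some a, some b)] := by
  unfold padz
  simp only [List.length_append, List.length_cons, List.length_nil, h, Nat.sub_self,
    List.replicate_zero, List.append_nil, List.map_append, List.map_cons, List.map_nil]
  rw [List.zip_append (by simp [h])]
  rfl

theorem autoLemma_padB {α : Type} (u v : List α) (b : α) (h : u.length ≤ v.length) :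
    padz u (v ++ [b]) = padz u v ++ [(none, some b)] := by
  unfold padz
  have h1 : u.length - (v ++ [b]).length = 0 := by simp; omega
  have h2 : (v ++ [b]).length - u.length = (v.length - u.length) + 1 := by simp; omega
  have h3 : u.length - v.length = 0 := by omega
  rw [h1, h2, h3, List.replicate_succ', List.replicate_zero, List.append_nil, List.append_nil,
    List.map_append, ← List.append_assoc, List.zip_append (by simp; omega)]
  rfl

theorem autoLemma_padC {α : Type} (u v : List α) (a : α) (h : v.length ≤ u.length) :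
    padz (u ++ [a]) v = padz u v ++ [(some a, none)] := by
  unfold padz
  have h1 : v.length - (u ++ [a]).length = 0 := by simp; omega
  have h2 : (u ++ [a]).length - v.length = (u.length - v.length) + 1 := by simp; omega
  have h3 : v.length - u.length = 0 := by omega
  rw [h1, h2, h3, List.replicate_succ', List.replicate_zero, List.append_nil, List.append_nil,
    List.map_append, ← List.append_assoc, List.zip_append (by simp; omega)]
  rfl

/-- reachable configurations of the comparison automaton -/
inductive autoLemma_R {α : Type} : List (Option α × Option α) → List α → List α → Fin 3 → Prop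
  | nil : autoLemma_R [] [] [] 0
  | both (p u v a b) : autoLemma_R p u v 0 →
      autoLemma_R (p ++ [(some a, some b)]) (u ++ [a]) (v ++ [b]) 0
  | left (p u v k b) : autoLemma_R p u v k → k ≠ 2 →
      autoLemma_R (p ++ [(none, some b)]) u (v ++ [b]) 1
  | right (p u v k a) : autoLemma_R p u v k → k ≠ 1 →
      autoLemma_R (p ++ [(some a, none)]) (u ++ [a]) v 2

theorem autoLemma_R_facts {α : Type} {p : List (Option α × Option α)} {u v : List α} {k : Fin 3}
    (h : autoLemma_R p u v k) : p = padz u v ∧ (k = 0 → u.length = v.length) ∧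
      (k = 1 → u.length < v.length) ∧ (k = 2 → v.length < u.length) := by
  induction h with
  | nil => exact ⟨rfl, fun _ => rfl, fun h => absurd h (by decide), fun h => absurd h (by decide)⟩
  | both p u v a b _ ih =>
    obtain ⟨h1, h2, h3, h4⟩ := ih
    refine ⟨?_, fun _ => by simp [h2 rfl], fun h => absurd h (by decide), fun h => absurd h (by decide)⟩
    rw [autoLemma_padA u v a b (h2 rfl), h1]
  | left p u v k b _ hk ih =>
    obtain ⟨h1, h2, h3, h4⟩ := ih
    have hle : u.length ≤ v.length := by
      fin_cases k
      · exact (h2 rfl).le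
      · exact (h3 rfl).le
      · exact absurd rfl hk
    refine ⟨?_, fun h => absurd h (by decide), fun _ => by simp; omega, fun h => absurd h (by decide)⟩
    rw [autoLemma_padB u v b hle, h1]
  | right p u v k a _ hk ih =>
    obtain ⟨h1, h2, h3, h4⟩ := ih
    have hle : v.length ≤ u.length := by
      fin_cases k
      · exact (h2 rfl).ge
      · exact absurd rfl hk
      · exact (h4 rfl).le
    refine ⟨?_, fun h => absurd h (by decide), fun h => absurd h (by decide), fun _ => by simp; omega⟩
    rw [autoLemma_padC u v a hle, h1]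

theorem autoLemma_R_exists {α : Type} (n : ℕ) : ∀ u v : List α, u.length + v.length = n →
    ∃ p k, autoLemma_R p u v k := by
  induction n using Nat.strong_induction_on with
  | _ n ih =>
    intro u v hn
    rcases lt_trichotomy u.length v.length with h | h | h
    · rcases List.eq_nil_or_concat v with hv | ⟨v0, b, hv⟩
      · subst hv; simp at h
      · rw [List.concat_eq_append] at hv
        subst hv
        obtain ⟨p, k, hR⟩ := ih (u.length + v0.length) (by simp at hn; omega) u v0 rfl
        have hk : k ≠ 2 := by
          intro hk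
          have := (autoLemma_R_facts hR).2.2.2 hk
          simp at h; omega
        exact ⟨_, _, autoLemma_R.left p u v0 k b hR hk⟩
    · rcases List.eq_nil_or_concat v with hv | ⟨v0, b, hv⟩
      · subst hv
        have : u = [] := List.eq_nil_of_length_eq_zero (by simpa using h)
        subst this
        exact ⟨_, _, autoLemma_R.nil⟩
      · rw [List.concat_eq_append] at hv
        subst hv
        rcases List.eq_nil_or_concat u with hu | ⟨u0, a, hu⟩
        · subst hu; simp at h
        · rw [List.concat_eq_append] at hu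
          subst hu
          have hl : u0.length = v0.length := by simpa using h
          obtain ⟨p, k, hR⟩ := ih (u0.length + v0.length) (by simp at hn; omega) u0 v0 rfl
          have hk : k = 0 := by
            have hf := autoLemma_R_facts hR
            fin_cases k
            · rfl
            · have := hf.2.2.1 rfl; omega
            · have := hf.2.2.2 rfl; omega
          subst hk
          exact ⟨_, _, autoLemma_R.both p u0 v0 a b hR⟩
    · rcases List.eq_nil_or_concat u with hu | ⟨u0, a, hu⟩
      · subst hu; simp at h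
      · rw [List.concat_eq_append] at hu
        subst hu
        obtain ⟨p, k, hR⟩ := ih (u0.length + v.length) (by simp at hn; omega) u0 v rfl
        have hk : k ≠ 1 := by
          intro hk
          have := (autoLemma_R_facts hR).2.2.1 hk
          simp at h; omega
        exact ⟨_, _, autoLemma_R.right p u0 v k a hR hk⟩

/-- state with membership test -/
def autoLemma_mk {G σ : Type} (D : Set G) (s s' : σ) (x : G) (k : Fin 3) :
    Option (σ × σ × D × Fin 3) :=
  if h : x ∈ D then some (s, s', ⟨x, h⟩, k) else none

/-- comparison automaton -/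
def autoLemma_M {G : Type} [Group G] {α : Type} (μ : α → G) {σ : Type}
    (W : DFA α σ) (g : G) (D : Set G) : DFA (Option α × Option α) (Option (σ × σ × D × Fin 3)) where
  step x q := match x, q with
    | none, _ => none
    | some (s, s', d, k), (some a, some b) =>
        if k = 0 then autoLemma_mk D (W.step s a) (W.step s' b) ((μ a)⁻¹ * d.1 * μ b) 0 else none
    | some (s, s', d, k), (none, some b) =>
        if k ≠ 2 then autoLemma_mk D s (W.step s' b) (d.1 * μ b) 1 else none
    | some (s, s', d, k), (some a, none) =>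
        if k ≠ 1 then autoLemma_mk D (W.step s a) s' ((μ a)⁻¹ * d.1) 2 else none
    | some _, (none, none) => none
  start := autoLemma_mk D W.start W.start 1 0
  accept := {x | ∃ s s' d k, x = some (s, s', d, k) ∧ s ∈ W.accept ∧ s' ∈ W.accept ∧ d.1 = g}

theorem autoLemma_mk_some {G σ : Type} {D : Set G} {s s' : σ} {x : G} {k : Fin 3}
    {z : σ × σ × D × Fin 3} (h : autoLemma_mk D s s' x k = some z) :
    z.1 = s ∧ z.2.1 = s' ∧ z.2.2.1.1 = x ∧ z.2.2.2 = k := by
  unfold autoLemma_mk at h
  split_ifs at h with hx
  · have := Option.some.inj h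
    rw [← this]
    exact ⟨rfl, rfl, rfl, rfl⟩

theorem autoLemma_dir1 {G : Type} [Group G] {α : Type} (μ : α → G) {σ : Type}
    (W : DFA α σ) (g : G) (D : Set G) (p : List (Option α × Option α)) :
    ∀ z, (autoLemma_M μ W g D).eval p = some z →
      ∃ u v, autoLemma_R p u v z.2.2.2 ∧ W.eval u = z.1 ∧ W.eval v = z.2.1 ∧
        z.2.2.1.1 = ((u.map μ).prod)⁻¹ * (v.map μ).prod := by
  induction p using List.reverseRecOn with
  | nil =>
    intro z hz
    have hz' : autoLemma_mk D W.start W.start 1 0 = some z := hz
    obtain ⟨h1, h2, h3, h4⟩ := autoLemma_mk_some hz'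
    refine ⟨[], [], ?_, ?_, ?_, ?_⟩
    · rw [h4]; exact autoLemma_R.nil
    · rw [h1]; rfl
    · rw [h2]; rfl
    · rw [h3]; simp
  | append_singleton p q ih =>
    intro z hz
    rw [DFA.eval_append_singleton] at hz
    cases hx : (autoLemma_M μ W g D).eval p with
    | none =>
      rw [hx] at hz
      exact absurd hz (by simp [autoLemma_M])
    | some y =>
      rw [hx] at hz
      obtain ⟨u, v, hR, hu, hv, hd⟩ := ih y hx
      obtain ⟨s, s', d, k⟩ := y
      simp only at hR hu hv hd
      obtain ⟨qa, qb⟩ := q
      cases qa with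
      | none =>
        cases qb with
        | none => exact absurd hz (by simp [autoLemma_M])
        | some b =>
          have hz' : (if k ≠ 2 then autoLemma_mk D s (W.step s' b) (d.1 * μ b) 1 else none) =
            some z := hz
          split_ifs at hz' with hk
          obtain ⟨h1, h2, h3, h4⟩ := autoLemma_mk_some hz'
          refine ⟨u, v ++ [b], ?_, ?_, ?_, ?_⟩
          · rw [h4]; exact autoLemma_R.left p u v k b hR hk
          · rw [h1, hu]
          · rw [h2, DFA.eval_append_singleton, hv]
          · rw [h3, hd]; simp [mul_assoc]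
      | some a =>
        cases qb with
        | none =>
          have hz' : (if k ≠ 1 then autoLemma_mk D (W.step s a) s' ((μ a)⁻¹ * d.1) 2 else none) =
            some z := hz
          split_ifs at hz' with hk
          obtain ⟨h1, h2, h3, h4⟩ := autoLemma_mk_some hz'
          refine ⟨u ++ [a], v, ?_, ?_, ?_, ?_⟩
          · rw [h4]; exact autoLemma_R.right p u v k a hR hk
          · rw [h1, DFA.eval_append_singleton, hu]
          · rw [h2, hv]
          · rw [h3, hd]; simp [mul_assoc]
        | some b =>
          have hz' : (if k = 0 then autoLemma_mk D (W.step s a) (W.step s' b)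
            ((μ a)⁻¹ * d.1 * μ b) 0 else none) = some z := hz
          split_ifs at hz' with hk
          obtain ⟨h1, h2, h3, h4⟩ := autoLemma_mk_some hz'
          refine ⟨u ++ [a], v ++ [b], ?_, ?_, ?_, ?_⟩
          · rw [h4]; subst hk; exact autoLemma_R.both p u v a b hR
          · rw [h1, DFA.eval_append_singleton, hu]
          · rw [h2, DFA.eval_append_singleton, hv]
          · rw [h3, hd]; simp [mul_assoc]

theorem autoLemma_take1 {α : Type} (u : List α) (a : α) (t n : ℕ) (hn : u.length ≤ n) :
    (u ++ [a]).take (min t u.length) = u.take t ∧ u.take (min t n) = u.take t := by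
  constructor
  · rcases le_total t u.length with h | h
    · rw [min_eq_left h, List.take_append_of_le_length h]
    · rw [min_eq_right h, List.take_append_of_le_length le_rfl, List.take_of_length_le h,
        List.take_of_length_le le_rfl]
  · rcases le_total t n with h | h
    · rw [min_eq_left h]
    · rw [min_eq_right h, List.take_of_length_le hn, List.take_of_length_le (hn.trans h)]

theorem autoLemma_dir2 {G : Type} [Group G] {α : Type} (μ : α → G) {σ : Type}
    (W : DFA α σ) (g : G) (D : Set G) {p : List (Option α × Option α)} {u v : List α} {k : Fin 3}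
    (hR : autoLemma_R p u v k)
    (hD : ∀ t : ℕ, ((u.take t).map μ).prod⁻¹ * ((v.take t).map μ).prod ∈ D) :
    ∃ d : D, d.1 = (u.map μ).prod⁻¹ * (v.map μ).prod ∧
      (autoLemma_M μ W g D).eval p = some (W.eval u, W.eval v, d, k) := by
  induction hR with
  | nil =>
    have h1 : (1 : G) ∈ D := by simpa using hD 0
    refine ⟨⟨1, h1⟩, by simp, ?_⟩
    show autoLemma_mk D W.start W.start 1 0 = _
    unfold autoLemma_mk
    rw [dif_pos h1]
    rfl
  | both p u v a b hR ih =>
    have hl := (autoLemma_R_facts hR).2.1 rfl
    have hD' : ∀ t : ℕ, ((u.take t).map μ).prod⁻¹ * ((v.take t).map μ).prod ∈ D := by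
      intro t
      have := hD (min t u.length)
      rw [(autoLemma_take1 u a t _ le_rfl).1] at this
      rw [hl, (autoLemma_take1 v b t _ le_rfl).1] at this
      exact this
    obtain ⟨d, hd, hev⟩ := ih hD'
    have hfin : ((u ++ [a]).map μ).prod⁻¹ * ((v ++ [b]).map μ).prod ∈ D := by
      have := hD (u.length + 1)
      rwa [List.take_of_length_le (by simp), List.take_of_length_le (by simp [hl])] at this
    have hnew : (μ a)⁻¹ * d.1 * μ b = ((u ++ [a]).map μ).prod⁻¹ * ((v ++ [b]).map μ).prod := by
      rw [hd]; simp [mul_assoc]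
    refine ⟨⟨_, hfin⟩, rfl, ?_⟩
    rw [DFA.eval_append_singleton, hev, DFA.eval_append_singleton, DFA.eval_append_singleton]
    show (if (0 : Fin 3) = 0 then autoLemma_mk D (W.step (W.eval u) a) (W.step (W.eval v) b)
      ((μ a)⁻¹ * d.1 * μ b) 0 else none) = _
    rw [if_pos rfl, hnew]
    unfold autoLemma_mk
    rw [dif_pos hfin]
  | left p u v k b hR hk ih =>
    have hf := autoLemma_R_facts hR
    have hle : u.length ≤ v.length := by
      fin_cases k
      · exact (hf.2.1 rfl).le
      · exact (hf.2.2.1 rfl).le
      · exact absurd rfl hk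
    have hD' : ∀ t : ℕ, ((u.take t).map μ).prod⁻¹ * ((v.take t).map μ).prod ∈ D := by
      intro t
      have := hD (min t v.length)
      rw [(autoLemma_take1 v b t _ le_rfl).1] at this
      have h2 : u.take (min t v.length) = u.take t := by
        rcases le_total t v.length with h | h
        · rw [min_eq_left h]
        · rw [min_eq_right h, List.take_of_length_le hle, List.take_of_length_le (hle.trans h)]
      rw [h2] at this
      exact this
    obtain ⟨d, hd, hev⟩ := ih hD'
    have hfin : (u.map μ).prod⁻¹ * ((v ++ [b]).map μ).prod ∈ D := by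
      have := hD (v.length + 1)
      rwa [List.take_of_length_le (by omega), List.take_of_length_le (by simp)] at this
    have hnew : d.1 * μ b = (u.map μ).prod⁻¹ * ((v ++ [b]).map μ).prod := by
      rw [hd]; simp [mul_assoc]
    refine ⟨⟨_, hfin⟩, rfl, ?_⟩
    rw [DFA.eval_append_singleton, hev, DFA.eval_append_singleton]
    show (if k ≠ 2 then autoLemma_mk D (W.eval u) (W.step (W.eval v) b) (d.1 * μ b) 1
      else none) = _
    rw [if_pos hk, hnew]
    unfold autoLemma_mk
    rw [dif_pos hfin]
  | right p u v k a hR hk ih =>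
    have hf := autoLemma_R_facts hR
    have hle : v.length ≤ u.length := by
      fin_cases k
      · exact (hf.2.1 rfl).ge
      · exact absurd rfl hk
      · exact (hf.2.2.2 rfl).le
    have hD' : ∀ t : ℕ, ((u.take t).map μ).prod⁻¹ * ((v.take t).map μ).prod ∈ D := by
      intro t
      have := hD (min t u.length)
      rw [(autoLemma_take1 u a t _ le_rfl).1] at this
      have h2 : v.take (min t u.length) = v.take t := by
        rcases le_total t u.length with h | h
        · rw [min_eq_left h]
        · rw [min_eq_right h, List.take_of_length_le hle, List.take_of_length_le (hle.trans h)]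
      rw [h2] at this
      exact this
    obtain ⟨d, hd, hev⟩ := ih hD'
    have hfin : ((u ++ [a]).map μ).prod⁻¹ * (v.map μ).prod ∈ D := by
      have := hD (u.length + 1)
      rwa [List.take_of_length_le (by simp), List.take_of_length_le (by omega)] at this
    have hnew : (μ a)⁻¹ * d.1 = ((u ++ [a]).map μ).prod⁻¹ * (v.map μ).prod := by
      rw [hd]; simp [mul_assoc]
    refine ⟨⟨_, hfin⟩, rfl, ?_⟩
    rw [DFA.eval_append_singleton, hev, DFA.eval_append_singleton]
    show (if k ≠ 1 then autoLemma_mk D (W.step (W.eval u) a) (W.eval v) ((μ a)⁻¹ * d.1) 2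
      else none) = _
    rw [if_pos hk, hnew]
    unfold autoLemma_mk
    rw [dif_pos hfin]

theorem autoLemma {G : Type} [Group G] {α : Type} [Fintype α] (μ : α → G) {σ : Type} [Fintype σ]
    (W : DFA α σ) (g : G) (D : Set G) (hD : D.Finite)
    (h : ∀ u v : List α, u ∈ W.accepts → v ∈ W.accepts → (u.map μ).prod * g = (v.map μ).prod →
      ∀ t : ℕ, ((u.take t).map μ).prod⁻¹ * ((v.take t).map μ).prod ∈ D) :
    ∃ (τ : Type) (_ : Fintype τ) (M : DFA (Option α × Option α) τ),
      ∀ p : List (Option α × Option α), p ∈ M.accepts ↔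
        ∃ u v : List α, u ∈ W.accepts ∧ v ∈ W.accepts ∧ p = padz u v ∧
          (u.map μ).prod * g = (v.map μ).prod := by
  haveI : Fintype D := hD.fintype
  refine ⟨Option (σ × σ × D × Fin 3), inferInstance, autoLemma_M μ W g D, ?_⟩
  intro p
  rw [DFA.mem_accepts]
  constructor
  · rintro ⟨s, s', d, k, hev, hs, hs', hd⟩
    obtain ⟨u, v, hR, hu, hv, hdd⟩ := autoLemma_dir1 μ W g D p _ hev
    refine ⟨u, v, ?_, ?_, (autoLemma_R_facts hR).1, ?_⟩
    · rw [DFA.mem_accepts, hu]; exact hs
    · rw [DFA.mem_accepts, hv]; exact hs'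
    · have h1 : g = (u.map μ).prod⁻¹ * (v.map μ).prod := by rw [← hd]; exact hdd
      rw [h1, mul_inv_cancel_left]
  · rintro ⟨u, v, hu, hv, hp, hg⟩
    obtain ⟨p', k, hR⟩ := autoLemma_R_exists (u.length + v.length) u v rfl
    have hpp : p' = p := by rw [hp]; exact (autoLemma_R_facts hR).1
    subst hpp
    obtain ⟨d, hd, hev⟩ := autoLemma_dir2 μ W g D hR (h u v hu hv hg)
    refine ⟨W.eval u, W.eval v, d, k, hev, ?_, ?_, ?_⟩
    · rw [DFA.mem_accepts] at hu; exact hu
    · rw [DFA.mem_accepts] at hv; exact hv
    · rw [hd, ← hg, inv_mul_cancel_left]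

/-- the group `F_2 x Z^2` -/
abbrev G0 : Type := FreeGroup Bool × Multiplicative (ℤ × ℤ)

/-- letters: signed free generators, signed first and second central generators -/
abbrev Al : Type := (Bool × Bool) ⊕ (Bool ⊕ Bool)

/-- sign -/
def sgn (s : Bool) : ℤ := if s then 1 else -1

/-- evaluation of letters -/
def mu0 : Al → G0
  | Sum.inl (b, s) => (FreeGroup.mk [(b, s)], 1)
  | Sum.inr (Sum.inl s) => (1, Multiplicative.ofAdd (sgn s, 0))
  | Sum.inr (Sum.inr s) => (1, Multiplicative.ofAdd (0, sgn s))

/-- allowed neighbours in the normal form `(reduced word) x^i y^j` -/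
def Nx : Al → Al → Prop
  | Sum.inl (b, s), Sum.inl (b', s') => ¬ (b = b' ∧ s ≠ s')
  | Sum.inl _, Sum.inr _ => True
  | Sum.inr (Sum.inl s), Sum.inr (Sum.inl s') => s = s'
  | Sum.inr (Sum.inl _), Sum.inr (Sum.inr _) => True
  | Sum.inr (Sum.inr s), Sum.inr (Sum.inr s') => s = s'
  | _, _ => False

/-- normal forms -/
def Lg : Set (List Al) := {w | w.IsChain Nx}

/-- transition function -/
def stp : Option (Option Al) → Al → Option (Option Al)
  | none, _ => none
  | some none, a => some (some a)
  | some (some b), a => if Nx b a then some (some a) else none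

/-- automaton of the normal forms -/
def WL : DFA Al (Option (Option Al)) where
  step := stp
  start := some none
  accept := {s | s ≠ none}

theorem WL_none (w : List Al) : WL.evalFrom none w = none := by
  induction w with
  | nil => rfl
  | cons a w ih => exact ih

theorem WL_some (w : List Al) : ∀ b : Al, WL.evalFrom (some (some b)) w ≠ none ↔
    List.IsChain Nx (b :: w) := by
  induction w with
  | nil =>
    intro b
    constructor
    · intro _
      exact List.isChain_singleton b
    · intro _
      exact Option.some_ne_none _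
  | cons a w ih =>
    intro b
    rw [List.isChain_cons_cons, ← ih a]
    have h1 : WL.evalFrom (some (some b)) (a :: w) = WL.evalFrom (stp (some (some b)) a) w := rfl
    rw [h1]
    by_cases h : Nx b a
    · have h2 : stp (some (some b)) a = some (some a) := if_pos h
      rw [h2]
      exact ⟨fun h3 => ⟨h, h3⟩, fun h3 => h3.2⟩
    · have h2 : stp (some (some b)) a = none := if_neg h
      rw [h2, WL_none]
      exact ⟨fun h3 => absurd rfl h3, fun h3 => absurd h3.1 h⟩

theorem lg_dfa : ∃ (σ : Type) (_ : Fintype σ) (W : DFA Al σ), ∀ w, w ∈ W.accepts ↔ w ∈ Lg := by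
  refine ⟨Option (Option Al), inferInstance, WL, fun w => ?_⟩
  cases w with
  | nil =>
    constructor
    · intro _
      exact List.isChain_nil
    · intro _
      show WL.evalFrom (some none) [] ≠ none
      exact Option.some_ne_none _
  | cons a w =>
    exact WL_some w a

/-- the shape of a normal form -/
def shp (r : List (Bool × Bool)) (i : ℕ) (s : Bool) (j : ℕ) (s' : Bool) : List Al :=
  r.map Sum.inl ++ (List.replicate i (Sum.inr (Sum.inl s)) ++
    List.replicate j (Sum.inr (Sum.inr s')))

theorem shp_of_lg (w : List Al) (hw : w ∈ Lg) :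
    ∃ r i s j s', FreeGroup.IsReduced r ∧ w = shp r i s j s' := by
  induction w with
  | nil => exact ⟨[], 0, true, 0, true, FreeGroup.IsReduced.nil, rfl⟩
  | cons a w ih =>
    have hw' : List.IsChain Nx (a :: w) := hw
    rw [List.isChain_cons] at hw'
    obtain ⟨hh, ht⟩ := hw'
    obtain ⟨r, i, s, j, s', hr, rfl⟩ := ih ht
    rcases a with ⟨b, t⟩ | t | t
    · refine ⟨(b, t) :: r, i, s, j, s', ?_, rfl⟩
      cases r with
      | nil => exact FreeGroup.IsReduced.singleton
      | cons c r =>
        rw [FreeGroup.isReduced_cons_cons]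
        refine ⟨?_, hr⟩
        have h1 := hh (Sum.inl c) (by simp [shp])
        obtain ⟨c1, c2⟩ := c
        simp only [Nx] at h1
        intro h2
        by_contra h3
        exact h1 ⟨h2, h3⟩
    · cases r with
      | cons c r =>
        exfalso
        have h1 := hh (Sum.inl c) (by simp [shp])
        obtain ⟨c1, c2⟩ := c
        simp only [Nx] at h1
      | nil =>
        cases i with
        | zero => exact ⟨[], 1, t, j, s', FreeGroup.IsReduced.nil, by simp [shp]⟩
        | succ i =>
          have h1 := hh (Sum.inr (Sum.inl s)) (by simp [shp, List.replicate_succ])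
          simp only [Nx] at h1
          subst h1
          exact ⟨[], i + 2, t, j, s', FreeGroup.IsReduced.nil, by
            simp [shp, List.replicate_succ]⟩
    · cases r with
      | cons c r =>
        exfalso
        have h1 := hh (Sum.inl c) (by simp [shp])
        obtain ⟨c1, c2⟩ := c
        simp only [Nx] at h1
      | nil =>
        cases i with
        | succ i =>
          exfalso
          have h1 := hh (Sum.inr (Sum.inl s)) (by simp [shp, List.replicate_succ])
          simp only [Nx] at h1
        | zero =>
          cases j with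
          | zero => exact ⟨[], 0, s, 1, t, FreeGroup.IsReduced.nil, by simp [shp]⟩
          | succ j =>
            have h1 := hh (Sum.inr (Sum.inr s')) (by simp [shp, List.replicate_succ])
            simp only [Nx] at h1
            subst h1
            exact ⟨[], 0, s, j + 2, t, FreeGroup.IsReduced.nil, by
              simp [shp, List.replicate_succ]⟩

theorem lg_of_shp {r : List (Bool × Bool)} {i : ℕ} {s : Bool} {j : ℕ} {s' : Bool}
    (h : FreeGroup.IsReduced r) : shp r i s j s' ∈ Lg := by
  show List.IsChain Nx (shp r i s j s')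
  unfold shp
  rw [List.isChain_append, List.isChain_append]
  refine ⟨?_, ⟨?_, ?_, ?_⟩, ?_⟩
  · rw [List.isChain_map]
    refine List.IsChain.imp ?_ h
    rintro ⟨a1, a2⟩ ⟨b1, b2⟩ hab
    simp only [Nx]
    rintro ⟨h1, h2⟩
    exact h2 (hab h1)
  · exact List.isChain_replicate_of_rel _ rfl
  · exact List.isChain_replicate_of_rel _ rfl
  · intro x hx y hy
    have h1 := List.eq_of_mem_replicate (List.mem_of_mem_getLast? hx)
    have h2 := List.eq_of_mem_replicate (List.mem_of_mem_head? hy)
    subst h1 h2
    simp only [Nx]
  · intro x hx y hy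
    have h1 := List.mem_of_mem_getLast? hx
    have h2 := List.mem_of_mem_head? hy
    rw [List.mem_map] at h1
    obtain ⟨⟨c1, c2⟩, _, rfl⟩ := h1
    rw [List.mem_append] at h2
    rcases h2 with h2 | h2
    · rw [List.eq_of_mem_replicate h2]
      simp only [Nx]
    · rw [List.eq_of_mem_replicate h2]
      simp only [Nx]

theorem prod_inl (r : List (Bool × Bool)) :
    ((r.map (Sum.inl : Bool × Bool → Al)).map mu0).prod = (FreeGroup.mk r, 1) := by
  induction r with
  | nil => rfl
  | cons a r ih =>
    obtain ⟨b, t⟩ := a
    rw [List.map_cons, List.map_cons, List.prod_cons, ih]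
    simp only [mu0, Prod.mk_mul_mk, FreeGroup.mul_mk, mul_one, List.singleton_append]

theorem prod_shp (r : List (Bool × Bool)) (i : ℕ) (s : Bool) (j : ℕ) (s' : Bool) :
    ((shp r i s j s').map mu0).prod =
      (FreeGroup.mk r, Multiplicative.ofAdd ((i : ℤ) * sgn s, (j : ℤ) * sgn s')) := by
  unfold shp
  rw [List.map_append, List.map_append, List.prod_append, List.prod_append, prod_inl,
    List.map_replicate, List.map_replicate, List.prod_replicate, List.prod_replicate]
  simp only [mu0, Prod.pow_mk, one_pow, Prod.mk_mul_mk, mul_one, one_mul, ← ofAdd_nsmul,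
    ← ofAdd_add, Prod.smul_mk, Prod.mk_add_mk, nsmul_eq_mul, smul_zero, add_zero, zero_add]

theorem natAbs_sgn (a : ℤ) : ((a.natAbs : ℕ) : ℤ) * sgn (decide (0 ≤ a)) = a := by
  unfold sgn
  by_cases h : 0 ≤ a
  · simp [h, abs_of_nonneg]
  · simp [h]
    push Not at h
    rw [abs_of_neg h]
    ring

theorem lg_exists (g : G0) : ∃ w ∈ Lg, (w.map mu0).prod = g := by
  obtain ⟨x, z⟩ := g
  refine ⟨shp x.toWord z.toAdd.1.natAbs (decide (0 ≤ z.toAdd.1)) z.toAdd.2.natAbs
    (decide (0 ≤ z.toAdd.2)), lg_of_shp FreeGroup.isReduced_toWord, ?_⟩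
  rw [prod_shp, natAbs_sgn, natAbs_sgn, FreeGroup.mk_toWord]
  rfl

theorem rep_eq {α : Type} (f : Bool → α) (i i' : ℕ) (s s' : Bool)
    (h : (i : ℤ) * sgn s = (i' : ℤ) * sgn s') :
    List.replicate i (f s) = List.replicate i' (f s') := by
  unfold sgn at h
  by_cases hs : s = s'
  · subst hs
    have : i = i' := by
      cases s
      · simp at h; exact_mod_cast h
      · simp at h; exact_mod_cast h
    rw [this]
  · have : i = 0 ∧ i' = 0 := by
      cases s <;> cases s' <;> simp at hs h ⊢ <;> omega
    rw [this.1, this.2]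
    rfl

theorem lg_unique (w w' : List Al) (h : w ∈ Lg) (h' : w' ∈ Lg) (he : (w.map mu0).prod = (w'.map mu0).prod) :
    w = w' := by
  obtain ⟨r, i, s, j, t, hr, rfl⟩ := shp_of_lg w h
  obtain ⟨r', i', s', j', t', hr', rfl⟩ := shp_of_lg w' h'
  rw [prod_shp, prod_shp, Prod.mk.injEq] at he
  obtain ⟨h1, h2⟩ := he
  have h3 := Multiplicative.ofAdd.injective h2
  rw [Prod.mk.injEq] at h3
  have h4 : r = r' := by
    have := congrArg FreeGroup.toWord h1
    rw [FreeGroup.toWord_mk, FreeGroup.toWord_mk, hr.reduce_eq, hr'.reduce_eq] at this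
    exact this
  unfold shp
  rw [h4, rep_eq (fun s => (Sum.inr (Sum.inl s) : Al)) i i' s s' h3.1,
    rep_eq (fun s => (Sum.inr (Sum.inr s) : Al)) j j' t t' h3.2]

theorem comm_inr (b : Bool ⊕ Bool) (l : Al) : Commute (mu0 (Sum.inr b)) (mu0 l) := by
  rcases b with b | b <;> rcases l with ⟨c, t⟩ | t | t <;>
    · show _ * _ = _ * _
      simp only [mu0, Prod.mk_mul_mk, one_mul, mul_one]
      try rw [mul_comm]

theorem comm_rep {i : ℕ} {s : Bool} {j : ℕ} {s' : Bool} {b : Al}
    (hb : b ∈ (List.replicate i (Sum.inr (Sum.inl s)) ++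
    List.replicate j (Sum.inr (Sum.inr s')) : List Al)) (l : Al) : Commute (mu0 b) (mu0 l) := by
  rw [List.mem_append] at hb
  rcases hb with hb | hb
  · rw [List.eq_of_mem_replicate hb]
    exact comm_inr _ _
  · rw [List.eq_of_mem_replicate hb]
    exact comm_inr _ _

theorem prod_shp_app (r : List (Bool × Bool)) (b s : Bool) (i : ℕ) (x : Bool) (j : ℕ) (y : Bool) :
    ((shp r i x j y).map mu0).prod * mu0 (Sum.inl (b, s)) =
      (FreeGroup.mk (r ++ [(b, s)]), Multiplicative.ofAdd ((i : ℤ) * sgn x, (j : ℤ) * sgn y)) := by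
  rw [prod_shp]
  simp only [mu0, Prod.mk_mul_mk, FreeGroup.mul_mk, mul_one]

theorem sgn_not (s : Bool) : sgn (!s) = - sgn s := by
  cases s <;> rfl

theorem lg_edit (u : List Al) (hu : u ∈ Lg) (a : Al) : ∃ (v u1 u2 : List Al) (l : Al), v ∈ Lg ∧
    (v.map mu0).prod = (u.map mu0).prod * mu0 a ∧ (∀ b ∈ u2, Commute (mu0 b) (mu0 l)) ∧
    ((u = u1 ++ u2 ∧ v = u1 ++ l :: u2) ∨ (u = u1 ++ l :: u2 ∧ v = u1 ++ u2)) := by
  obtain ⟨r, i, x, j, y, hr, rfl⟩ := shp_of_lg u hu
  rcases a with ⟨b, s⟩ | s | s
  · by_cases hlast : ∃ r1, r = r1 ++ [(b, !s)]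
    · obtain ⟨r1, rfl⟩ := hlast
      have hr1 : FreeGroup.IsReduced r1 := List.IsChain.left_of_append hr
      refine ⟨shp r1 i x j y, r1.map Sum.inl, List.replicate i (Sum.inr (Sum.inl x)) ++
        List.replicate j (Sum.inr (Sum.inr y)), Sum.inl (b, !s), lg_of_shp hr1, ?_,
        fun c hc => comm_rep hc _, Or.inr ⟨?_, rfl⟩⟩
      · rw [prod_shp_app, prod_shp]
        congr 1
        rw [List.append_assoc, ← FreeGroup.mul_mk]
        have : FreeGroup.mk ([(b, !s)] ++ [(b, s)]) = 1 := by
          have h := FreeGroup.Red.Step.cons_not_rev (x := b) (b := s) (L := ([] : List (Bool × Bool)))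
          exact Quot.sound h
        rw [this, mul_one]
      · unfold shp
        simp
    · refine ⟨shp (r ++ [(b, s)]) i x j y, r.map Sum.inl, List.replicate i (Sum.inr (Sum.inl x)) ++
        List.replicate j (Sum.inr (Sum.inr y)), Sum.inl (b, s), lg_of_shp ?_, ?_,
        fun c hc => comm_rep hc _, Or.inl ⟨rfl, ?_⟩⟩
      · unfold FreeGroup.IsReduced
        rw [List.isChain_append]
        refine ⟨hr, List.isChain_singleton _, ?_⟩
        intro c hc d hd
        simp only [List.head?_cons, Option.mem_def, Option.some.injEq] at hd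
        subst hd
        intro h1
        by_contra h2
        apply hlast
        have h3 := List.dropLast_append_getLast? c hc
        refine ⟨r.dropLast, ?_⟩
        obtain ⟨c1, c2⟩ := c
        simp only at h1 h2
        have h4 : c2 = !s := by
          cases c2 <;> cases s <;> simp_all
        rw [← h3]
        simp [h1, h4]
      · rw [prod_shp_app, prod_shp]
      · unfold shp
        simp
  · by_cases hx : 0 < i ∧ x = !s
    · obtain ⟨hi, rfl⟩ := hx
      obtain ⟨k, rfl⟩ : ∃ k, i = k + 1 := ⟨i - 1, by omega⟩
      refine ⟨shp r k (!s) j y, r.map Sum.inl ++ List.replicate k (Sum.inr (Sum.inl (!s))),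
        List.replicate j (Sum.inr (Sum.inr y)), Sum.inr (Sum.inl (!s)), lg_of_shp hr, ?_, ?_,
        Or.inr ⟨?_, ?_⟩⟩
      · rw [prod_shp, prod_shp]
        simp only [mu0, Prod.mk_mul_mk, mul_one, ← ofAdd_add, Prod.mk_add_mk, add_zero]
        congr 3
        rw [sgn_not]
        push_cast
        ring
      · intro c hc
        rw [List.eq_of_mem_replicate hc]
        exact comm_inr _ _
      · unfold shp
        rw [List.replicate_succ']
        simp
      · unfold shp
        simp
    · have hx' : i = 0 ∨ x = s := by
        by_cases h0 : i = 0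
        · exact Or.inl h0
        · right
          by_contra h1
          exact hx ⟨Nat.pos_of_ne_zero h0, by cases x <;> cases s <;> simp_all⟩
      have hrep : List.replicate i (Sum.inr (Sum.inl x) : Al) =
          List.replicate i (Sum.inr (Sum.inl s)) := by
        rcases hx' with h | h
        · rw [h]; rfl
        · rw [h]
      have hval : (i : ℤ) * sgn x = i * sgn s := by
        rcases hx' with h | h
        · rw [h]; simp
        · rw [h]
      refine ⟨shp r (i + 1) s j y, r.map Sum.inl ++ List.replicate i (Sum.inr (Sum.inl s)),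
        List.replicate j (Sum.inr (Sum.inr y)), Sum.inr (Sum.inl s), lg_of_shp hr, ?_, ?_,
        Or.inl ⟨?_, ?_⟩⟩
      · rw [prod_shp, prod_shp]
        simp only [mu0, Prod.mk_mul_mk, mul_one, ← ofAdd_add, Prod.mk_add_mk, add_zero]
        congr 3
        rw [hval]
        push_cast
        ring
      · intro c hc
        rw [List.eq_of_mem_replicate hc]
        exact comm_inr _ _
      · unfold shp
        rw [hrep]
        simp
      · unfold shp
        rw [List.replicate_succ']
        simp
  · by_cases hx : 0 < j ∧ y = !s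
    · obtain ⟨hi, rfl⟩ := hx
      obtain ⟨k, rfl⟩ : ∃ k, j = k + 1 := ⟨j - 1, by omega⟩
      refine ⟨shp r i x k (!s), r.map Sum.inl ++ (List.replicate i (Sum.inr (Sum.inl x)) ++
        List.replicate k (Sum.inr (Sum.inr (!s)))),
        [], Sum.inr (Sum.inr (!s)), lg_of_shp hr, ?_, ?_,
        Or.inr ⟨?_, ?_⟩⟩
      · rw [prod_shp, prod_shp]
        simp only [mu0, Prod.mk_mul_mk, mul_one, ← ofAdd_add, Prod.mk_add_mk, add_zero]
        congr 3
        rw [sgn_not]
        push_cast
        ring
      · intro c hc
        simp at hc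
      · unfold shp
        rw [List.replicate_succ']
        simp
      · unfold shp
        simp
    · have hx' : j = 0 ∨ y = s := by
        by_cases h0 : j = 0
        · exact Or.inl h0
        · right
          by_contra h1
          exact hx ⟨Nat.pos_of_ne_zero h0, by cases y <;> cases s <;> simp_all⟩
      have hrep : List.replicate j (Sum.inr (Sum.inr y) : Al) =
          List.replicate j (Sum.inr (Sum.inr s)) := by
        rcases hx' with h | h
        · rw [h]; rfl
        · rw [h]
      have hval : (j : ℤ) * sgn y = j * sgn s := by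
        rcases hx' with h | h
        · rw [h]; simp
        · rw [h]
      refine ⟨shp r i x (j + 1) s, r.map Sum.inl ++ (List.replicate i (Sum.inr (Sum.inl x)) ++
        List.replicate j (Sum.inr (Sum.inr s))),
        [], Sum.inr (Sum.inr s), lg_of_shp hr, ?_, ?_,
        Or.inl ⟨?_, ?_⟩⟩
      · rw [prod_shp, prod_shp]
        simp only [mu0, Prod.mk_mul_mk, mul_one, ← ofAdd_add, Prod.mk_add_mk, add_zero]
        congr 3
        rw [hval]
        push_cast
        ring
      · intro c hc
        simp at hc
      · unfold shp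
        rw [hrep]
        simp
      · unfold shp
        rw [List.replicate_succ']
        simp

/-- the finite set of differences -/
def DD : Set G0 := {1} ∪ Set.range mu0 ∪ Set.range (fun p : Al × Al => mu0 p.1 * (mu0 p.2)⁻¹)

theorem DD_finite : DD.Finite :=
  ((Set.finite_singleton _).union (Set.finite_range _)).union (Set.finite_range _)

theorem diff_ins (u1 u2 : List Al) (l : Al) (hc : ∀ b ∈ u2, Commute (mu0 b) (mu0 l)) (t : ℕ) :
    ((((u1 ++ u2).take t)).map mu0).prod⁻¹ * (((u1 ++ l :: u2).take t).map mu0).prod ∈ DD := by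
  by_cases ht : t ≤ u1.length
  · rw [List.take_append_of_le_length ht, List.take_append_of_le_length ht, inv_mul_cancel]
    exact Or.inl (Or.inl rfl)
  · obtain ⟨k, rfl⟩ : ∃ k, t = u1.length + (k + 1) := ⟨t - u1.length - 1, by omega⟩
    rw [List.take_length_add_append, List.take_length_add_append, List.take_succ_cons]
    rw [List.map_append, List.map_append, List.prod_append, List.prod_append, List.map_cons,
      List.prod_cons]
    have hcm : ∀ k, Commute ((u2.take k).map mu0).prod (mu0 l) := by
      intro k
      refine Commute.list_prod_left _ _ ?_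
      intro b hb
      rw [List.mem_map] at hb
      obtain ⟨c, hc', rfl⟩ := hb
      exact hc c (List.mem_of_mem_take hc')
    have h1 : (((u1.map mu0).prod * ((u2.take (k + 1)).map mu0).prod))⁻¹ *
        ((u1.map mu0).prod * (mu0 l * ((u2.take k).map mu0).prod)) =
        mu0 l * ((((u2.take (k + 1)).map mu0).prod)⁻¹ * ((u2.take k).map mu0).prod) := by
      have h2 := (hcm (k + 1)).inv_left.eq
      rw [mul_inv_rev]
      calc _ = ((((u2.take (k + 1)).map mu0).prod)⁻¹ * mu0 l) * ((u2.take k).map mu0).prod := by
            group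
        _ = _ := by rw [h2]; group
    rw [h1, List.take_add_one]
    rcases h3 : u2[k]? with _ | b
    · simp only [Option.toList_none, List.append_nil, inv_mul_cancel, mul_one]
      exact Or.inl (Or.inr ⟨l, rfl⟩)
    · simp only [Option.toList_some, List.map_append, List.prod_append, List.map_cons,
        List.map_nil, List.prod_cons, List.prod_nil, mul_one, mul_inv_rev, inv_mul_cancel_right]
      exact Or.inr ⟨(l, b), rfl⟩

theorem lg_diff (x : Option Al) : ∃ D : Set G0, D.Finite ∧ ∀ u v : List Al, u ∈ Lg → v ∈ Lg →
    (u.map mu0).prod * (x.map mu0).getD 1 = (v.map mu0).prod →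
    ∀ t : ℕ, ((u.take t).map mu0).prod⁻¹ * ((v.take t).map mu0).prod ∈ D := by
  refine ⟨DD ∪ DD⁻¹, DD_finite.union DD_finite.inv, ?_⟩
  intro u v hu hv he t
  cases x with
  | none =>
    have he' : (u.map mu0).prod = (v.map mu0).prod := by
      simpa using he
    rw [lg_unique u v hu hv he', inv_mul_cancel]
    exact Or.inl (Or.inl (Or.inl rfl))
  | some a =>
    have he' : (u.map mu0).prod * mu0 a = (v.map mu0).prod := he
    obtain ⟨v', u1, u2, l, hv', hp, hc, hcase⟩ := lg_edit u hu a
    have hvv : v' = v := lg_unique v' v hv' hv (hp.trans he')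
    subst hvv
    rcases hcase with ⟨rfl, rfl⟩ | ⟨rfl, rfl⟩
    · exact Or.inl (diff_ins u1 u2 l hc t)
    · right
      have h1 := diff_ins u1 u2 l hc t
      rw [Set.mem_inv, mul_inv_rev, inv_inv]
      exact h1

theorem uaOfAut {G : Type} [Group G] (h : AutStr G) : Nonempty (UA G) := by
  obtain ⟨α, _, μ, σ, _, W, hs, hm⟩ := h
  have hd : ∀ x : Option α, ∃ D : Set G, D.Finite ∧ ∀ u v : List α, u ∈ W.accepts → v ∈ W.accepts →
      (u.map μ).prod * (x.map μ).getD 1 = (v.map μ).prod →
      ∀ t : ℕ, ((u.take t).map μ).prod⁻¹ * ((v.take t).map μ).prod ∈ D :=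
    fun x => diffAut μ W _ (hm x)
  have hall := diffAll μ W hs hd
  have h1 : ∃ (τ : Type) (_ : Fintype τ) (M : DFA (Option α × Option α) τ),
      ∀ p : List (Option α × Option α), p ∈ M.accepts ↔
        ∃ u v : List α, u ∈ W.accepts ∧ v ∈ W.accepts ∧ p = padz u v ∧
          (u.map μ).prod = (v.map μ).prod := by
    obtain ⟨τ, i, M, hM⟩ := hm none
    exact ⟨τ, i, M, fun p => by simpa using hM p⟩
  obtain ⟨S, _, W', h2, h3, h4⟩ := uniqAut μ W hs h1
  refine ⟨{ A := α, finA := inferInstance, mu := μ, S := S, finS := inferInstance, step := W'.step,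
            s0 := W'.start, acc := W'.accept, surj := ?_, inj := ?_, ft := ?_ }⟩
  · intro g
    obtain ⟨w, hw, hg⟩ := h3 g
    exact ⟨w, hw, hg⟩
  · intro w w' hw hw' he
    exact h4 w hw w' hw' he
  · intro g
    obtain ⟨D, hD, hD2⟩ := hall g
    exact ⟨D, hD, fun w w' hw hw' he t => hD2 w w' (h2 w hw) (h2 w' hw') he t⟩

theorem g0_aut : AutStr G0 := by
  obtain ⟨σ, _, W, hW⟩ := lg_dfa
  refine ⟨Al, inferInstance, mu0, σ, inferInstance, W, ?_, ?_⟩
  · intro g
    obtain ⟨w, hw, hg⟩ := lg_exists g
    exact ⟨w, (hW w).2 hw, hg⟩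
  · intro x
    obtain ⟨D, hD, hD2⟩ := lg_diff x
    exact autoLemma mu0 W _ D hD (fun u v hu hv he t => hD2 u v ((hW u).1 hu) ((hW v).1 hv) he t)

end

end Pool.Agent.Helper943.LM
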