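import Mathlib
import Pool.Agent.Helper943.LM.Aut

set_option autoImplicit false

open scoped Classical

namespace Pool.Agent.Helper943.LM

noncomputable section

variable {G : Type} [Group G]

/-- word graph distance for right multiplication by a finite set -/
def wd {H : Type} [Group H] (S : Finset H) (a b : H) : ℕ :=
  (SimpleGraph.fromRel (fun h k : H => ∃ t ∈ S, k = h * t)).dist a b


theorem wd_walk_16740 {H : Type} [Group H] (S : Finset H) (l : List H) :
    ∀ a : H, (∀ t ∈ l, t ∈ S) →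
    ∃ w : (SimpleGraph.fromRel (fun h k : H => ∃ t ∈ S, k = h * t)).Walk a (a * l.prod),
      w.length ≤ l.length := by
  induction l with
  | nil =>
    intro a _
    have e : a = a * ([] : List H).prod := by simp
    exact ⟨SimpleGraph.Walk.nil.copy rfl e, by rw [SimpleGraph.Walk.length_copy]; exact le_rfl⟩
  | cons t l ih =>
    intro a hl
    obtain ⟨w, hw⟩ := ih (a * t) (fun s hs => hl s (List.mem_cons_of_mem _ hs))
    have e : a * t * l.prod = a * (t :: l).prod := by rw [List.prod_cons, mul_assoc]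
    by_cases h : a = a * t
    · refine ⟨w.copy h.symm e, ?_⟩
      rw [SimpleGraph.Walk.length_copy, List.length_cons]
      omega
    · have hadj : (SimpleGraph.fromRel (fun h k : H => ∃ t ∈ S, k = h * t)).Adj a (a * t) := by
        rw [SimpleGraph.fromRel_adj]
        exact ⟨h, Or.inl ⟨t, hl t (List.mem_cons_self), rfl⟩⟩
      refine ⟨(SimpleGraph.Walk.cons hadj w).copy rfl e, ?_⟩
      rw [SimpleGraph.Walk.length_copy, SimpleGraph.Walk.length_cons, List.length_cons]
      omega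

theorem wd_le_list {H : Type} [Group H] (S : Finset H) (a : H) (l : List H) (hl : ∀ t ∈ l, t ∈ S) :
    wd S a (a * l.prod) ≤ l.length := by
  obtain ⟨w, hw⟩ := wd_walk_16740 S l a hl
  exact (SimpleGraph.dist_le w).trans hw

theorem wd_reach_16740 {H : Type} [Group H] (S : Finset H)
    (hS : Subgroup.closure (S : Set H) = ⊤) (a b : H) :
    (SimpleGraph.fromRel (fun h k : H => ∃ t ∈ S, k = h * t)).Reachable a b := by
  have key : ∀ g ∈ Subgroup.closure (S : Set H), ∀ a : H,
      (SimpleGraph.fromRel (fun h k : H => ∃ t ∈ S, k = h * t)).Reachable a (a * g) := by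
    intro g hg
    induction hg using Subgroup.closure_induction with
    | mem t ht =>
      intro a
      by_cases h : a = a * t
      · rw [← h]
      · have hadj : (SimpleGraph.fromRel (fun h k : H => ∃ t ∈ S, k = h * t)).Adj a (a * t) := by
          rw [SimpleGraph.fromRel_adj]
          exact ⟨h, Or.inl ⟨t, ht, rfl⟩⟩
        exact hadj.reachable
    | one =>
      intro a
      rw [mul_one]
    | mul x y _ _ hx hy =>
      intro a
      rw [← mul_assoc]
      exact (hx a).trans (hy (a * x))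
    | inv x _ hx =>
      intro a
      have h := hx (a * x⁻¹)
      rw [inv_mul_cancel_right] at h
      exact h.symm
  have h := key (a⁻¹ * b) (by rw [hS]; exact Subgroup.mem_top _) a
  rwa [mul_inv_cancel_left] at h

theorem wd_ge {H : Type} [Group H] (S : Finset H) (hS : Subgroup.closure (S : Set H) = ⊤)
    (N : H → ℝ) (c : ℝ) (h1 : N 1 = 0) (hm : ∀ g h, N (g * h) ≤ N g + N h)
    (hc : ∀ t ∈ S, N t ≤ c ∧ N t⁻¹ ≤ c) (a b : H) : N (a⁻¹ * b) ≤ c * wd S a b := by
  have key : ∀ (a b : H) (w : (SimpleGraph.fromRel (fun h k : H => ∃ t ∈ S, k = h * t)).Walk a b),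
      N (a⁻¹ * b) ≤ c * (w.length : ℝ) := by
    intro a b w
    induction w with
    | nil => rw [inv_mul_cancel, h1]; simp
    | @cons u v w' hadj p ih =>
      have e : u⁻¹ * w' = (u⁻¹ * v) * (v⁻¹ * w') := by group
      have h2 : N (u⁻¹ * v) ≤ c := by
        rw [SimpleGraph.fromRel_adj] at hadj
        rcases hadj.2 with ⟨t, ht, h⟩ | ⟨t, ht, h⟩
        · rw [h, inv_mul_cancel_left]
          exact (hc t ht).1
        · have : u⁻¹ * v = t⁻¹ := by rw [h]; group
          rw [this]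
          exact (hc t ht).2
      rw [e, SimpleGraph.Walk.length_cons]
      push_cast
      calc N ((u⁻¹ * v) * (v⁻¹ * w')) ≤ N (u⁻¹ * v) + N (v⁻¹ * w') := hm _ _
        _ ≤ c + c * (p.length : ℝ) := add_le_add h2 ih
        _ = c * ((p.length : ℝ) + 1) := by ring
  obtain ⟨w, hw⟩ := (wd_reach_16740 S hS a b).exists_walk_length_eq_dist
  have h := key a b w
  rw [hw] at h
  exact h

/-- prefixes of the word of the vertex -/
def qq_16740 (v : F) (i : ℕ) : F := FreeGroup.mk (v.toWord.take i)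

theorem qq_zero_16740 (v : F) : qq_16740 v 0 = 1 := by
  unfold qq_16740
  rw [List.take_zero]
  rfl

theorem qq_end_16740 (v : F) (n : ℕ) (hn : dT 1 v ≤ n) : qq_16740 v n = v := by
  unfold qq_16740
  have h : v.toWord.length ≤ n := by
    have : dT 1 v = v.toWord.length := by
      unfold dT
      rw [inv_one, one_mul]
      rfl
    omega
  rw [List.take_of_length_le h, FreeGroup.mk_toWord]

theorem qq_step_16740 (v : F) (i : ℕ) : dT (qq_16740 v i) (qq_16740 v (i + 1)) ≤ 1 := by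
  unfold dT qq_16740
  rw [List.take_add_one, ← FreeGroup.mul_mk, inv_mul_cancel_left]
  refine FreeGroup.norm_mk_le.trans ?_
  cases v.toWord[i]? <;> simp

theorem TP.word_16740 (T : TP G) (g : G) : ∃ l : List G, (∀ t ∈ l, t ∈ (T.ball_fin 1 5).toFinset) ∧
    l.prod = g ∧ (l.length : ℝ) ≤ T.nm g + ‖T.p g‖ + 2 := by
  set n : ℕ := max (T.nm g) ⌈‖T.p g‖⌉₊ + 1 with hn
  have hn0 : 0 < n := Nat.succ_pos _
  have hn0' : (0 : ℝ) < n := by exact_mod_cast hn0
  have hn1 : T.nm g ≤ n := (le_max_left _ _).trans (Nat.le_succ _)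
  have hn2 : ‖T.p g‖ ≤ n := by
    refine (Nat.le_ceil _).trans ?_
    exact_mod_cast (le_max_right (T.nm g) _).trans (Nat.le_succ _)
  have hn3 : (n : ℝ) ≤ T.nm g + ‖T.p g‖ + 2 := by
    rw [hn]
    push_cast
    have hc := Nat.ceil_lt_add_one (norm_nonneg (T.p g))
    have : max (T.nm g : ℝ) (⌈‖T.p g‖⌉₊ : ℝ) ≤ T.nm g + ‖T.p g‖ + 1 := by
      apply max_le
      · have := norm_nonneg (T.p g)
        linarith
      · have : (0 : ℝ) ≤ T.nm g := Nat.cast_nonneg _
        linarith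
    linarith
  have hcov : ∀ i : ℕ, ∃ h : G, T.act h 1 = qq_16740 (T.vx g) i ∧
      ‖T.p h - ((i : ℝ) / n : ℝ) • T.p g‖ ≤ 2 := fun i => T.cov _ _
  choose c hc1 hc2 using hcov
  obtain ⟨h, hh0, hhn, hh1, hh2⟩ : ∃ h : ℕ → G, h 0 = 1 ∧ h n = g ∧
      (∀ i, T.vx (h i) = qq_16740 (T.vx g) i) ∧
      (∀ i, ‖T.p (h i) - ((i : ℝ) / n : ℝ) • T.p g‖ ≤ 2) := by
    refine ⟨fun i => if i = 0 then 1 else if i = n then g else c i, by simp, ?_, ?_, ?_⟩
    · show (if n = 0 then 1 else if n = n then g else c n) = g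
      rw [if_neg hn0.ne', if_pos rfl]
    · intro i
      show T.vx (if i = 0 then 1 else if i = n then g else c i) = _
      split_ifs with h1 h2
      · rw [h1, qq_zero_16740, T.vx_one]
      · rw [h2]
        exact (qq_end_16740 (T.vx g) n hn1).symm
      · exact hc1 i
    · intro i
      show ‖T.p (if i = 0 then 1 else if i = n then g else c i) - ((i : ℝ) / n : ℝ) • T.p g‖ ≤ 2
      split_ifs with h1 h2
      · rw [h1, T.p_one]
        simp
      · rw [h2, div_self hn0'.ne', one_smul, sub_self, norm_zero]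
        norm_num
      · exact hc2 i
  have hstep : ∀ i, (h i)⁻¹ * h (i + 1) ∈ (T.ball_fin 1 5).toFinset := by
    intro i
    rw [Set.Finite.mem_toFinset]
    refine ⟨?_, ?_⟩
    · rw [T.nm_inv_mul, hh1, hh1]
      exact qq_step_16740 _ i
    · rw [T.norm_p_inv_mul]
      have e : T.p (h (i + 1)) - T.p (h i) =
          (T.p (h (i + 1)) - (((i + 1 : ℕ) : ℝ) / n : ℝ) • T.p g) -
          (T.p (h i) - ((i : ℝ) / n : ℝ) • T.p g) + ((1 : ℝ) / n : ℝ) • T.p g := by
        have e2 : (((i + 1 : ℕ) : ℝ) / n : ℝ) = (i : ℝ) / n + 1 / n := by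
          push_cast
          rw [add_div]
        rw [e2, add_smul]
        abel
      rw [e]
      have h3 : ‖((1 : ℝ) / n : ℝ) • T.p g‖ ≤ 1 := by
        rw [norm_smul, Real.norm_of_nonneg (by positivity), one_div, inv_mul_le_iff₀ hn0', mul_one]
        exact hn2
      calc _ ≤ ‖(T.p (h (i + 1)) - (((i + 1 : ℕ) : ℝ) / n : ℝ) • T.p g) -
          (T.p (h i) - ((i : ℝ) / n : ℝ) • T.p g)‖ + ‖((1 : ℝ) / n : ℝ) • T.p g‖ := norm_add_le _ _
        _ ≤ (2 + 2) + 1 := by
          refine add_le_add ?_ h3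
          exact (norm_sub_le _ _).trans (add_le_add (hh2 (i + 1)) (hh2 i))
        _ ≤ 5 := by norm_num
  have hlist : ∀ k : ℕ, ∃ l : List G, (∀ t ∈ l, t ∈ (T.ball_fin 1 5).toFinset) ∧ l.prod = h k ∧
      l.length = k := by
    intro k
    induction k with
    | zero => exact ⟨[], by simp, by rw [hh0]; rfl, rfl⟩
    | succ k ih =>
      obtain ⟨l, hl1, hl2, hl3⟩ := ih
      refine ⟨l ++ [(h k)⁻¹ * h (k + 1)], ?_, ?_, ?_⟩
      · intro t ht
        rw [List.mem_append, List.mem_singleton] at ht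
        rcases ht with ht | ht
        · exact hl1 t ht
        · rw [ht]; exact hstep k
      · rw [List.prod_append, hl2, List.prod_singleton, mul_inv_cancel_left]
      · rw [List.length_append, hl3, List.length_singleton]
  obtain ⟨l, hl1, hl2, hl3⟩ := hlist n
  refine ⟨l, hl1, by rw [hl2, hhn], ?_⟩
  rw [hl3]
  exact hn3

theorem TP.wdist (T : TP G) : ∃ S : Finset G, Subgroup.closure (S : Set G) = ⊤ ∧
    (∀ a b : G, (wd S a b : ℝ) ≤ T.nm (a⁻¹ * b) + ‖T.p (a⁻¹ * b)‖ + 2) ∧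
    (∀ a b : G, (T.nm (a⁻¹ * b) : ℝ) ≤ wd S a b) ∧
    (∀ a b : G, ‖T.p (a⁻¹ * b)‖ ≤ 5 * (wd S a b : ℝ)) := by
  have hcl : Subgroup.closure (((T.ball_fin 1 5).toFinset : Finset G) : Set G) = ⊤ := by
    rw [eq_top_iff]
    intro g _
    obtain ⟨l, hl1, hl2, _⟩ := T.word_16740 g
    rw [← hl2]
    exact Subgroup.list_prod_mem _ fun t ht => Subgroup.subset_closure (hl1 t ht)
  refine ⟨(T.ball_fin 1 5).toFinset, hcl, ?_, ?_, ?_⟩
  · intro a b
    obtain ⟨l, hl1, hl2, hl3⟩ := T.word_16740 (a⁻¹ * b)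
    have h := wd_le_list (T.ball_fin 1 5).toFinset a l hl1
    rw [hl2, mul_inv_cancel_left] at h
    have h' : (wd (T.ball_fin 1 5).toFinset a b : ℝ) ≤ l.length := by exact_mod_cast h
    exact h'.trans hl3
  · intro a b
    have h := wd_ge (T.ball_fin 1 5).toFinset hcl (fun g => (T.nm g : ℝ)) 1
      (by rw [T.nm_one]; simp) (fun g h => by exact_mod_cast T.nm_mul g h) (fun t ht => by
        rw [Set.Finite.mem_toFinset] at ht
        have h1 : T.nm t ≤ 1 := ht.1
        constructor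
        · exact_mod_cast h1
        · rw [T.nm_inv]
          exact_mod_cast h1) a b
    rw [one_mul] at h
    exact h
  · intro a b
    exact wd_ge (T.ball_fin 1 5).toFinset hcl (fun g => ‖T.p g‖) 5
      (by rw [T.p_one, norm_zero]) (fun g h => T.norm_p_mul_le g h) (fun t ht => by
        rw [Set.Finite.mem_toFinset] at ht
        have h1 : ‖T.p t‖ ≤ 5 := ht.2
        constructor
        · exact h1
        · rw [T.norm_p_inv]
          exact h1) a b

/-- first central coordinate -/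
def c1 (g : G0) : ℤ := g.2.toAdd.1

/-- second central coordinate -/
def c2 (g : G0) : ℤ := g.2.toAdd.2

/-- the generating set -/
def S_16743 : Finset G0 := {(gen true, 1), (gen false, 1), (1, Multiplicative.ofAdd (1, 0)),
  (1, Multiplicative.ofAdd (0, 1))}

theorem memS_16743 (t : G0) : t ∈ S_16743 ↔ (∃ b, t = (gen b, 1)) ∨
    t = (1, Multiplicative.ofAdd (1, 0)) ∨ t = (1, Multiplicative.ofAdd (0, 1)) := by
  unfold S_16743
  simp only [Finset.mem_insert, Finset.mem_singleton]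
  constructor
  · rintro (h | h | h | h)
    · exact Or.inl ⟨true, h⟩
    · exact Or.inl ⟨false, h⟩
    · exact Or.inr (Or.inl h)
    · exact Or.inr (Or.inr h)
  · rintro (⟨b, h⟩ | h | h)
    · cases b
      · exact Or.inr (Or.inl h)
      · exact Or.inl h
    · exact Or.inr (Or.inr (Or.inl h))
    · exact Or.inr (Or.inr (Or.inr h))

theorem c1_mul_16743 (g h : G0) : c1 (g * h) = c1 g + c1 h := rfl
theorem c2_mul_16743 (g h : G0) : c2 (g * h) = c2 g + c2 h := rfl

/-- values of the coordinates on the generating set -/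
theorem valS_16743 (a t : G0) (ht : t ∈ S_16743) :
    dT a.1 (a * t).1 ≤ 1 ∧ |c1 (a * t) - c1 a| ≤ 1 ∧ |c2 (a * t) - c2 a| ≤ 1 ∧
      (dT a.1 (a * t).1 ≠ 0 ∨ c1 t ≠ 0 ∨ c2 t ≠ 0) := by
  rw [c1_mul_16743, c2_mul_16743, add_sub_cancel_left, add_sub_cancel_left, Prod.fst_mul]
  rcases (memS_16743 t).1 ht with ⟨b, h⟩ | h | h
  · subst h
    have e1 : c1 ((gen b, 1) : G0) = 0 := rfl
    have e2 : c2 ((gen b, 1) : G0) = 0 := rfl
    rw [e1, e2]
    show dT a.1 (a.1 * gen b) ≤ 1 ∧ _ ∧ _ ∧ (dT a.1 (a.1 * gen b) ≠ 0 ∨ _)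
    rw [dT_gen]
    refine ⟨le_refl _, by simp, by simp, Or.inl (by norm_num)⟩
  · subst h
    have e1 : c1 ((1, Multiplicative.ofAdd (1, 0)) : G0) = 1 := rfl
    have e2 : c2 ((1, Multiplicative.ofAdd (1, 0)) : G0) = 0 := rfl
    rw [e1, e2]
    show dT a.1 (a.1 * 1) ≤ 1 ∧ _ ∧ _ ∧ (dT a.1 (a.1 * 1) ≠ 0 ∨ _)
    rw [mul_one, dT_self]
    refine ⟨by norm_num, by simp, by simp, Or.inr (Or.inl (by norm_num))⟩
  · subst h
    have e1 : c1 ((1, Multiplicative.ofAdd (0, 1)) : G0) = 0 := rfl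
    have e2 : c2 ((1, Multiplicative.ofAdd (0, 1)) : G0) = 1 := rfl
    rw [e1, e2]
    show dT a.1 (a.1 * 1) ≤ 1 ∧ _ ∧ _ ∧ (dT a.1 (a.1 * 1) ≠ 0 ∨ _)
    rw [mul_one, dT_self]
    refine ⟨by norm_num, by simp, by simp, Or.inr (Or.inr (by norm_num))⟩

theorem neS_16743 (a t : G0) (ht : t ∈ S_16743) : a ≠ a * t := by
  intro h
  have h1 : t = 1 := by
    have : a * 1 = a * t := by rw [mul_one]; exact h
    exact (mul_left_cancel this).symm
  obtain ⟨_, _, _, h2⟩ := valS_16743 a t ht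
  subst h1
  rcases h2 with h2 | h2 | h2
  · apply h2
    rw [mul_one, dT_self]
  · exact h2 rfl
  · exact h2 rfl

/-- the Cayley graph -/
abbrev Gr_16743 : SimpleGraph G0 := SimpleGraph.fromRel (fun h k : G0 => ∃ t ∈ S_16743, k = h * t)

theorem adj_16743 (a t : G0) (ht : t ∈ S_16743 ∨ t⁻¹ ∈ S_16743) : Gr_16743.Adj a (a * t) := by
  rw [SimpleGraph.fromRel_adj]
  rcases ht with ht | ht
  · exact ⟨neS_16743 a t ht, Or.inl ⟨t, ht, rfl⟩⟩
  · have h1 : a * t * t⁻¹ = a := by group
    refine ⟨?_, Or.inr ⟨t⁻¹, ht, h1.symm⟩⟩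
    have := neS_16743 (a * t) t⁻¹ ht
    rw [h1] at this
    exact this.symm

theorem walk_16743 (l : List G0) (hl : ∀ t ∈ l, t ∈ S_16743 ∨ t⁻¹ ∈ S_16743) :
    ∀ a b : G0, b = a * l.prod → ∃ p : Gr_16743.Walk a b, p.length = l.length := by
  induction l with
  | nil =>
    intro a b hb
    rw [List.prod_nil, mul_one] at hb
    subst hb
    exact ⟨SimpleGraph.Walk.nil, rfl⟩
  | cons t l ih =>
    intro a b hb
    rw [List.prod_cons, ← mul_assoc] at hb
    obtain ⟨p, hp⟩ := ih (fun s hs => hl s (List.mem_cons_of_mem _ hs)) (a * t) b hb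
    refine ⟨SimpleGraph.Walk.cons (adj_16743 a t (hl t (List.mem_cons_self ..))) p, ?_⟩
    rw [SimpleGraph.Walk.length_cons, hp, List.length_cons]

theorem list1_16743 (L : List (Bool × Bool)) : ∃ l : List G0,
    (∀ t ∈ l, t ∈ S_16743 ∨ t⁻¹ ∈ S_16743) ∧ l.prod = (FreeGroup.mk L, 1) ∧ l.length = L.length := by
  induction L with
  | nil => exact ⟨[], by simp, rfl, rfl⟩
  | cons p L ih =>
    obtain ⟨l, h1, h2, h3⟩ := ih
    refine ⟨(FreeGroup.mk [p], 1) :: l, ?_, ?_, ?_⟩
    · intro t ht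
      rcases List.mem_cons.1 ht with ht | ht
      · subst ht
        obtain ⟨b, s⟩ := p
        cases s with
        | true =>
          left
          rw [memS_16743]
          exact Or.inl ⟨b, rfl⟩
        | false =>
          right
          rw [memS_16743]
          exact Or.inl ⟨b, rfl⟩
      · exact h1 t ht
    · rw [List.prod_cons, h2]
      rfl
    · rw [List.length_cons, List.length_cons, h3]

theorem list2_16743 (e : ℤ × ℤ) (he : ((1, Multiplicative.ofAdd e) : G0) ∈ S_16743) (n : ℤ) :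
    ∃ l : List G0, (∀ t ∈ l, t ∈ S_16743 ∨ t⁻¹ ∈ S_16743) ∧
      l.prod = (1, Multiplicative.ofAdd (n • e)) ∧ (l.length : ℤ) = |n| := by
  have hp : ∀ (z : ℤ) (k : ℕ), (((1, Multiplicative.ofAdd (z • e)) : G0) ^ k) =
      (1, Multiplicative.ofAdd (((k : ℤ) * z) • e)) := by
    intro z k
    induction k with
    | zero =>
      rw [pow_zero, Nat.cast_zero, zero_mul, zero_smul]
      rfl
    | succ k ih =>
      rw [pow_succ, ih, Prod.mk_mul_mk, mul_one, ← ofAdd_add, ← add_smul]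
      congr 3
      push_cast
      ring
  rcases le_total 0 n with hn | hn
  · refine ⟨List.replicate n.toNat (1, Multiplicative.ofAdd ((1:ℤ) • e)), ?_, ?_, ?_⟩
    · intro t ht
      rw [List.eq_of_mem_replicate ht, one_smul]
      exact Or.inl he
    · rw [List.prod_replicate, hp]
      congr 3
      rw [mul_one]
      exact Int.toNat_of_nonneg hn
    · rw [List.length_replicate, Int.toNat_of_nonneg hn, abs_of_nonneg hn]
  · refine ⟨List.replicate (-n).toNat (1, Multiplicative.ofAdd ((-1:ℤ) • e)), ?_, ?_, ?_⟩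
    · intro t ht
      rw [List.eq_of_mem_replicate ht]
      right
      have : (((1, Multiplicative.ofAdd ((-1:ℤ) • e)) : G0))⁻¹ = (1, Multiplicative.ofAdd e) := by
        rw [Prod.inv_mk, inv_one, ← ofAdd_neg]
        simp
      rw [this]
      exact he
    · rw [List.prod_replicate, hp]
      congr 3
      rw [Int.toNat_of_nonneg (by linarith)]
      ring
    · rw [List.length_replicate, Int.toNat_of_nonneg (by linarith), abs_of_nonpos hn]

theorem list_16743 (g : G0) : ∃ l : List G0, (∀ t ∈ l, t ∈ S_16743 ∨ t⁻¹ ∈ S_16743) ∧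
    l.prod = g ∧ (l.length : ℤ) = (g.1.norm : ℤ) + |c1 g| + |c2 g| := by
  obtain ⟨l1, a1, b1, d1⟩ := list1_16743 g.1.toWord
  obtain ⟨l2, a2, b2, d2⟩ := list2_16743 (1, 0) ((memS_16743 _).2 (Or.inr (Or.inl rfl))) (c1 g)
  obtain ⟨l3, a3, b3, d3⟩ := list2_16743 (0, 1) ((memS_16743 _).2 (Or.inr (Or.inr rfl))) (c2 g)
  refine ⟨l1 ++ l2 ++ l3, ?_, ?_, ?_⟩
  · intro t ht
    rcases List.mem_append.1 ht with ht | ht
    · rcases List.mem_append.1 ht with ht | ht
      · exact a1 t ht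
      · exact a2 t ht
    · exact a3 t ht
  · rw [List.prod_append, List.prod_append, b1, b2, b3, FreeGroup.mk_toWord, Prod.mk_mul_mk,
      Prod.mk_mul_mk, mul_one, mul_one, one_mul, ← ofAdd_add]
    apply Prod.ext
    · rfl
    · show Multiplicative.ofAdd (c1 g • ((1, 0) : ℤ × ℤ) + c2 g • ((0, 1) : ℤ × ℤ)) = g.2
      have : c1 g • ((1, 0) : ℤ × ℤ) + c2 g • ((0, 1) : ℤ × ℤ) = g.2.toAdd := by
        apply Prod.ext
        · simp [c1]
        · simp [c2]
      rw [this]
      rfl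
  · rw [List.length_append, List.length_append]
    push_cast
    rw [d1, d2, d3]
    rfl

theorem walkle_16743 (φ : G0 → G0 → ℤ) (h0 : ∀ a, φ a a = 0)
    (htri : ∀ a b c, φ a c ≤ φ a b + φ b c) (hsym : ∀ a b, φ a b = φ b a)
    (h1 : ∀ a, ∀ t ∈ S_16743, φ a (a * t) ≤ 1) {a b : G0} (p : Gr_16743.Walk a b) :
    φ a b ≤ p.length := by
  induction p with
  | nil => rw [h0]; simp
  | @cons u v w hadj p ih =>
    rw [SimpleGraph.Walk.length_cons]
    have h2 : φ u v ≤ 1 := by
      rw [SimpleGraph.fromRel_adj] at hadj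
      rcases hadj.2 with ⟨t, ht, h⟩ | ⟨t, ht, h⟩
      · rw [h]; exact h1 u t ht
      · rw [h, hsym]; exact h1 v t ht
    have h3 := htri u v w
    push_cast
    linarith

theorem G0.wdist : ∃ S : Finset G0, Subgroup.closure (S : Set G0) = ⊤ ∧
    (∀ a b : G0, (wd S a b : ℤ) ≤ dT a.1 b.1 + |c1 b - c1 a| + |c2 b - c2 a|) ∧
    (∀ a b : G0, dT a.1 b.1 ≤ wd S a b ∧ |c1 b - c1 a| ≤ wd S a b ∧ |c2 b - c2 a| ≤ wd S a b) := by
  have hreach : ∀ a b : G0, ∃ p : Gr_16743.Walk a b,
      (p.length : ℤ) = dT a.1 b.1 + |c1 b - c1 a| + |c2 b - c2 a| := by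
    intro a b
    obtain ⟨l, h1, h2, h3⟩ := list_16743 (a⁻¹ * b)
    obtain ⟨p, hp⟩ := walk_16743 l h1 a b (by rw [h2]; group)
    refine ⟨p, ?_⟩
    rw [hp, h3]
    have e1 : c1 (a⁻¹ * b) = c1 b - c1 a := by
      have : c1 (a⁻¹ * b) = - c1 a + c1 b := rfl
      rw [this]; ring
    have e2 : c2 (a⁻¹ * b) = c2 b - c2 a := by
      have : c2 (a⁻¹ * b) = - c2 a + c2 b := rfl
      rw [this]; ring
    rw [e1, e2]
    rfl
  refine ⟨S_16743, ?_, ?_, ?_⟩
  · rw [eq_top_iff]
    intro g _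
    obtain ⟨l, h1, h2, _⟩ := list_16743 g
    rw [← h2]
    apply Subgroup.list_prod_mem
    intro t ht
    rcases h1 t ht with h | h
    · exact Subgroup.subset_closure h
    · have := Subgroup.subset_closure (k := (S_16743 : Set G0)) h
      exact (Subgroup.inv_mem_iff _).1 this
  · intro a b
    obtain ⟨p, hp⟩ := hreach a b
    rw [← hp]
    have := SimpleGraph.dist_le p
    exact_mod_cast this
  · intro a b
    obtain ⟨p0, _⟩ := hreach a b
    obtain ⟨p, hp⟩ := (SimpleGraph.Walk.reachable p0).exists_walk_length_eq_dist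
    have hw : wd S_16743 a b = p.length := hp.symm
    rw [hw]
    refine ⟨?_, ?_, ?_⟩
    · have := walkle_16743 (fun a b => (dT a.1 b.1 : ℤ)) (fun a => by simp [dT_self])
        (fun a b c => by exact_mod_cast dT_tri a.1 b.1 c.1) (fun a b => by simp [dT_comm a.1 b.1])
        (fun a t ht => by exact_mod_cast (valS_16743 a t ht).1) p
      exact_mod_cast this
    · have := walkle_16743 (fun a b => |c1 b - c1 a|) (fun a => by simp)
        (fun a b c => by
          have := abs_sub_le (c1 c) (c1 b) (c1 a)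
          linarith) (fun a b => abs_sub_comm _ _)
        (fun a t ht => (valS_16743 a t ht).2.1) p
      exact this
    · have := walkle_16743 (fun a b => |c2 b - c2 a|) (fun a => by simp)
        (fun a b c => by
          have := abs_sub_le (c2 c) (c2 b) (c2 a)
          linarith) (fun a b => abs_sub_comm _ _)
        (fun a t ht => (valS_16743 a t ht).2.2.1) p
      exact this

/-- quasi-isometry data -/
def QIData (G H : Type) [Group G] [Group H] : Prop :=
  ∃ (S : Finset G) (T : Finset H) (f : G → H) (K C : ℕ),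
    Subgroup.closure (S : Set G) = ⊤ ∧ Subgroup.closure (T : Set H) = ⊤ ∧
    (∀ a b : G, wd T (f a) (f b) ≤ K * wd S a b + C) ∧
    (∀ a b : G, wd S a b ≤ K * wd T (f a) (f b) + C) ∧
    (∀ h : H, ∃ g : G, wd T (f g) h ≤ C)

/-- the plane point of the central coordinates -/
def zt (g : G0) : ℂ := ⟨(c1 g : ℝ), (c2 g : ℝ)⟩

theorem zt_sub (a b : G0) : ‖zt b - zt a‖ ≤ |(c1 b : ℝ) - c1 a| + |(c2 b : ℝ) - c2 a| := by
  have := Complex.norm_le_abs_re_add_abs_im (zt b - zt a)
  simpa [zt] using this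

theorem zt_c1 (a b : G0) : |(c1 b : ℝ) - c1 a| ≤ ‖zt b - zt a‖ := by
  have := Complex.abs_re_le_norm (zt b - zt a)
  simpa [zt] using this

theorem zt_c2 (a b : G0) : |(c2 b : ℝ) - c2 a| ≤ ‖zt b - zt a‖ := by
  have := Complex.abs_im_le_norm (zt b - zt a)
  simpa [zt] using this

theorem qi_data {H : Type} [Group H] (T : TP H) : QIData G0 H := by
  obtain ⟨S, hS, s1, s2⟩ := G0.wdist
  obtain ⟨S', hS', t1, t2, t3⟩ := T.wdist
  choose f hf1 hf2 using fun g : G0 => T.cov g.1 (zt g)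
  have hnm : ∀ a b : G0, T.nm ((f a)⁻¹ * f b) = dT a.1 b.1 := by
    intro a b
    rw [T.nm_inv_mul]
    show dT (T.act (f a) 1) (T.act (f b) 1) = _
    rw [hf1, hf1]
  have hp1 : ∀ a b : G0, ‖T.p ((f a)⁻¹ * f b)‖ ≤ ‖zt b - zt a‖ + 4 := by
    intro a b
    rw [T.norm_p_inv_mul]
    have e : T.p (f b) - T.p (f a) = (zt b - zt a) + ((T.p (f b) - zt b) - (T.p (f a) - zt a)) := by ring
    rw [e]
    have h1 := norm_add_le (zt b - zt a) ((T.p (f b) - zt b) - (T.p (f a) - zt a))
    have h2 := norm_sub_le (T.p (f b) - zt b) (T.p (f a) - zt a)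
    have h3 := hf2 a
    have h4 := hf2 b
    linarith
  have hp2 : ∀ a b : G0, ‖zt b - zt a‖ ≤ ‖T.p ((f a)⁻¹ * f b)‖ + 4 := by
    intro a b
    rw [T.norm_p_inv_mul]
    have e : zt b - zt a = (T.p (f b) - T.p (f a)) - ((T.p (f b) - zt b) - (T.p (f a) - zt a)) := by ring
    have h1 := norm_sub_le (T.p (f b) - T.p (f a)) ((T.p (f b) - zt b) - (T.p (f a) - zt a))
    have h2 := norm_sub_le (T.p (f b) - zt b) (T.p (f a) - zt a)
    have h3 := hf2 a
    have h4 := hf2 b
    rw [← e] at h1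
    linarith
  refine ⟨S, S', f, 21, 10, hS, hS', ?_, ?_, ?_⟩
  · intro a b
    have h1 := t1 (f a) (f b)
    have h2 := hp1 a b
    have h3 := zt_sub a b
    obtain ⟨h4, h5, h6⟩ := s2 a b
    rw [hnm] at h1
    have h4' : (dT a.1 b.1 : ℝ) ≤ wd S a b := by exact_mod_cast h4
    have h5' : |(c1 b : ℝ) - c1 a| ≤ wd S a b := by exact_mod_cast h5
    have h6' : |(c2 b : ℝ) - c2 a| ≤ wd S a b := by exact_mod_cast h6
    have : (wd S' (f a) (f b) : ℝ) ≤ ((21 * wd S a b + 10 : ℕ) : ℝ) := by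
      push_cast
      have : (0 : ℝ) ≤ wd S a b := Nat.cast_nonneg _
      linarith
    exact_mod_cast this
  · intro a b
    have h1 := s1 a b
    have h2 := t2 (f a) (f b)
    have h3 := t3 (f a) (f b)
    have h4 := hp2 a b
    rw [hnm] at h2
    have h5 := zt_c1 a b
    have h6 := zt_c2 a b
    have h1' : (wd S a b : ℝ) ≤ dT a.1 b.1 + |(c1 b : ℝ) - c1 a| + |(c2 b : ℝ) - c2 a| := by
      exact_mod_cast h1
    have : (wd S a b : ℝ) ≤ ((21 * wd S' (f a) (f b) + 10 : ℕ) : ℝ) := by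
      push_cast
      have : (0 : ℝ) ≤ wd S' (f a) (f b) := Nat.cast_nonneg _
      linarith
    exact_mod_cast this
  · intro h
    let g : G0 := (T.vx h, Multiplicative.ofAdd (round (T.p h).re, round (T.p h).im))
    refine ⟨g, ?_⟩
    have h1 := t1 (f g) h
    have h2 : T.nm ((f g)⁻¹ * h) = 0 := by
      rw [T.nm_inv_mul]
      show dT (T.act (f g) 1) (T.vx h) = 0
      rw [hf1]
      exact dT_self _
    have h3 : ‖T.p ((f g)⁻¹ * h)‖ ≤ 4 := by
      rw [T.norm_p_inv_mul]
      have e : T.p h - T.p (f g) = (T.p h - zt g) - (T.p (f g) - zt g) := by ring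
      rw [e]
      have h4 := norm_sub_le (T.p h - zt g) (T.p (f g) - zt g)
      have h5 := hf2 g
      have h6 : ‖T.p h - zt g‖ ≤ 2 := by
        have h7 := Complex.norm_le_abs_re_add_abs_im (T.p h - zt g)
        have h8 : |(T.p h - zt g).re| ≤ 1 / 2 := by
          show |(T.p h).re - (round (T.p h).re : ℝ)| ≤ 1 / 2
          exact abs_sub_round _
        have h9 : |(T.p h - zt g).im| ≤ 1 / 2 := by
          show |(T.p h).im - (round (T.p h).im : ℝ)| ≤ 1 / 2
          exact abs_sub_round _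
        linarith
      linarith
    rw [h2] at h1
    have : (wd S' (f g) h : ℝ) ≤ ((10 : ℕ) : ℝ) := by
      push_cast at h1 ⊢
      linarith
    exact_mod_cast this

end

end Pool.Agent.Helper943.LM
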