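import Mathlib

set_option autoImplicit false

open scoped Classical

namespace Pool.Agent.Helper943.LM

noncomputable section

section LA

/-- maximum principle -/
def La3 : Prop := ∀ (Z : Type) [Fintype Z] (M : Z → Z → ℕ) (om : ℂ), ‖om‖ = 1 →
    (∀ n : ℕ, 0 < n → om ^ n ≠ 1) → ∀ (S : Set Z), (∀ z ∈ S, ∀ z', M z z' ≠ 0 → z' ∈ S) →
    ∀ (h : Z → ℂ) (u : Z → ℝ), (∀ z ∈ S, ∑ z', (M z z' : ℂ) * h z' = 2 * om * h z) →
    (∀ z ∈ S, ∑ z', (M z z' : ℝ) * u z' = 2 * u z) → (∀ z ∈ S, ‖h z‖ ≤ u z) → ∀ z ∈ S, h z = 0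

theorem la3 : La3 := by
  intro Z _ M om hom hroot S hS h u hh hu hle
  by_contra hcon
  push Not at hcon
  obtain ⟨z1, hz1S, hz1⟩ := hcon
  have hu1 : 0 < u z1 := (norm_pos_iff.2 hz1).trans_le (hle z1 hz1S)
  let P : Finset Z := Finset.univ.filter (fun z => z ∈ S ∧ 0 < u z)
  have hP : ∀ z, z ∈ S → 0 < u z → z ∈ P := fun z h1 h2 =>
    Finset.mem_filter.2 ⟨Finset.mem_univ _, h1, h2⟩
  obtain ⟨z0, hz0P, hz0max⟩ := P.exists_max_image (fun z => ‖h z‖ / u z) ⟨z1, hP z1 hz1S hu1⟩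
  obtain ⟨r, hrdef⟩ : ∃ r, r = ‖h z0‖ / u z0 := ⟨_, rfl⟩
  have hz0max' : ∀ z, z ∈ S → 0 < u z → ‖h z‖ / u z ≤ r := fun z h1 h2 => by
    rw [hrdef]; exact hz0max z (hP z h1 h2)
  have hr : 0 < r := (div_pos (norm_pos_iff.2 hz1) hu1).trans_le (hz0max' z1 hz1S hu1)
  have hrle : ∀ z ∈ S, ‖h z‖ ≤ r * u z := by
    intro z hz
    have h0 : 0 ≤ u z := (norm_nonneg _).trans (hle z hz)
    rcases h0.lt_or_eq with h1 | h1
    · have h2 := hz0max' z hz h1
      rwa [div_le_iff₀ h1] at h2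
    · have h2 := hle z hz
      rw [← h1] at h2 ⊢
      rw [mul_zero]
      exact h2
  have hz0 : z0 ∈ S ∧ 0 < u z0 := (Finset.mem_filter.1 hz0P).2
  have hnext : ∀ z : {z : Z // z ∈ S ∧ 0 < u z ∧ ‖h z‖ = r * u z},
      ∃ z' : {z : Z // z ∈ S ∧ 0 < u z ∧ ‖h z‖ = r * u z},
        h z'.1 / (u z'.1 : ℂ) = om * (h z.1 / (u z.1 : ℂ)) := by
    rintro ⟨z, hzS, huz, hhz⟩
    obtain ⟨w, hw⟩ : ∃ w : ℂ, w = 2 * om * h z := ⟨_, rfl⟩
    have hwn : ‖w‖ = 2 * (r * u z) := by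
      rw [hw, norm_mul, norm_mul, hom, hhz]
      simp
    have hwpos : 0 < ‖w‖ := by rw [hwn]; positivity
    have hwne : (‖w‖ : ℂ) ≠ 0 := by exact_mod_cast hwpos.ne'
    obtain ⟨a, ha⟩ : ∃ a : ℂ, a = (starRingEnd ℂ w) / (‖w‖ : ℂ) := ⟨_, rfl⟩
    have haw : a * w = (‖w‖ : ℂ) := by
      rw [ha, div_mul_eq_mul_div, Complex.conj_mul', div_eq_iff hwne]
      ring
    have han : ‖a‖ = 1 := by
      rw [ha, norm_div, RCLike.norm_conj, Complex.norm_real, norm_norm, div_self hwpos.ne']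
    have hsum : ∑ z', (M z z' : ℝ) * (r * u z' - (a * h z').re) = 0 := by
      have e1 : ∑ z', (M z z' : ℝ) * (r * u z' - (a * h z').re) =
          r * (∑ z', (M z z' : ℝ) * u z') - (a * ∑ z', (M z z' : ℂ) * h z').re := by
        rw [Finset.mul_sum, Finset.mul_sum, Complex.re_sum, ← Finset.sum_sub_distrib]
        refine Finset.sum_congr rfl fun z' _ => ?_
        have e2 : a * ((M z z' : ℂ) * h z') = (((M z z' : ℝ)) : ℂ) * (a * h z') := by
          push_cast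
          ring
        rw [e2, Complex.re_ofReal_mul]
        ring
      rw [e1, hu z hzS, hh z hzS, ← hw, haw, Complex.ofReal_re, hwn]
      ring
    have hterm : ∀ z', 0 ≤ (M z z' : ℝ) * (r * u z' - (a * h z').re) := by
      intro z'
      by_cases hM : M z z' = 0
      · rw [hM]; simp
      · apply mul_nonneg (Nat.cast_nonneg _)
        have h1 := hrle z' (hS z hzS z' hM)
        have h2 : (a * h z').re ≤ ‖a * h z'‖ := Complex.re_le_norm _
        rw [norm_mul, han, one_mul] at h2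
        linarith
    have hz := (Finset.sum_eq_zero_iff_of_nonneg (fun z' _ => hterm z')).1 hsum
    have hpos : 0 < ∑ z', (M z z' : ℝ) * u z' := by
      rw [hu z hzS]; positivity
    obtain ⟨z', -, hz'⟩ := Finset.exists_lt_of_sum_lt (s := Finset.univ) (f := fun _ : Z => (0 : ℝ))
      (g := fun z' => (M z z' : ℝ) * u z') (by simpa using hpos)
    have hM : M z z' ≠ 0 := by
      intro h0
      rw [h0] at hz'
      simp at hz'
    have huz' : 0 < u z' := by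
      by_contra hneg
      push Not at hneg
      have := mul_nonpos_of_nonneg_of_nonpos (Nat.cast_nonneg (α := ℝ) (M z z')) hneg
      linarith
    have hz'S := hS z hzS z' hM
    have hre : (a * h z').re = r * u z' := by
      have h1 := hz z' (Finset.mem_univ _)
      rcases mul_eq_zero.1 h1 with h2 | h2
      · exact absurd (by exact_mod_cast h2) hM
      · linarith
    have hnorm : ‖a * h z'‖ = r * u z' := by
      apply le_antisymm
      · rw [norm_mul, han, one_mul]; exact hrle z' hz'S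
      · rw [← hre]; exact Complex.re_le_norm _
    have him : (a * h z').im = 0 := by
      have h1 := Complex.sq_norm (a * h z')
      rw [Complex.normSq_apply, hnorm, hre] at h1
      have h2 : (a * h z').im * (a * h z').im = 0 := by linarith [sq (r * u z')]
      exact mul_self_eq_zero.1 h2
    have hval : a * h z' = ((r * u z' : ℝ) : ℂ) := by
      apply Complex.ext
      · rw [hre, Complex.ofReal_re]
      · rw [him, Complex.ofReal_im]
    refine ⟨⟨z', hz'S, huz', ?_⟩, ?_⟩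
    · rw [norm_mul, han, one_mul] at hnorm
      exact hnorm
    · show h z' / (u z' : ℂ) = om * (h z / (u z : ℂ))
      have hane : a ≠ 0 := by
        intro h0
        rw [h0, norm_zero] at han
        exact zero_ne_one han
      have h1 : (u z' : ℂ) ≠ 0 := by exact_mod_cast huz'.ne'
      have h2 : (u z : ℂ) ≠ 0 := by exact_mod_cast huz.ne'
      apply mul_left_cancel₀ hane
      have h3 : a * (h z' / (u z' : ℂ)) = r := by
        rw [← mul_div_assoc, hval]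
        push_cast
        field_simp
      have h4 : a * (om * h z) = ((r * u z : ℝ) : ℂ) := by
        have h5 : a * (2 * om * h z) = ((2 * (r * u z) : ℝ) : ℂ) := by
          rw [← hw, haw, hwn]
        have h6 : (2 : ℂ) * (a * (om * h z)) = 2 * ((r * u z : ℝ) : ℂ) := by
          calc (2 : ℂ) * (a * (om * h z)) = a * (2 * om * h z) := by ring
            _ = _ := by rw [h5]; push_cast; ring
        exact mul_left_cancel₀ two_ne_zero h6
      rw [h3]
      calc (r : ℂ) = ((r * u z : ℝ) : ℂ) / (u z : ℂ) := by push_cast; field_simp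
        _ = a * (om * (h z / (u z : ℂ))) := by rw [← h4]; ring
  choose nx hnx using hnext
  have hz0n : ‖h z0‖ = r * u z0 := by
    rw [hrdef, div_mul_cancel₀ _ hz0.2.ne']
  let s : {z : Z // z ∈ S ∧ 0 < u z ∧ ‖h z‖ = r * u z} := ⟨z0, hz0.1, hz0.2, hz0n⟩
  have hit : ∀ n : ℕ, h (nx^[n] s).1 / (u (nx^[n] s).1 : ℂ) = om ^ n * (h z0 / (u z0 : ℂ)) := by
    intro n
    induction n with
    | zero => rw [pow_zero, one_mul]; rfl
    | succ n ih =>
      rw [Function.iterate_succ_apply', hnx, ih, pow_succ]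
      ring
  have hk0 : h z0 / (u z0 : ℂ) ≠ 0 := by
    apply div_ne_zero
    · intro h0
      rw [h0, norm_zero] at hz0n
      have := mul_pos hr hz0.2
      linarith
    · exact_mod_cast hz0.2.ne'
  have homne : om ≠ 0 := by
    intro h0
    rw [h0, norm_zero] at hom
    exact zero_ne_one hom
  obtain ⟨i, j, hij, heq⟩ := Finite.exists_ne_map_eq_of_infinite (fun n : ℕ => nx^[n] s)
  have hkey : om ^ i = om ^ j := by
    have h1 := hit i
    have h2 := hit j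
    have heq' : nx^[i] s = nx^[j] s := heq
    rw [heq', h2] at h1
    exact (mul_right_cancel₀ hk0 h1).symm
  rcases Nat.lt_or_gt_of_ne hij with hlt | hlt
  · apply hroot (j - i) (by omega)
    have h1 : om ^ j = om ^ i * om ^ (j - i) := by rw [← pow_add]; congr 1; omega
    rw [h1] at hkey
    exact (mul_left_cancel₀ (pow_ne_zero i homne) (by rw [mul_one]; exact hkey)).symm
  · apply hroot (i - j) (by omega)
    have h1 : om ^ i = om ^ j * om ^ (i - j) := by rw [← pow_add]; congr 1; omega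
    rw [h1] at hkey
    exact mul_left_cancel₀ (pow_ne_zero j homne) (by rw [mul_one]; exact hkey)

theorem la1 {Z : Type} [Fintype Z] (K : ℕ → Z → ℕ) (om : ℂ) (f : Z → ℂ) (pc : ℂ)
    (κ0 κ1 C C' : ℝ)
    (H : ∀ (M0 : ℕ) (ε : ℝ), 0 < ε → ∃ L : Z → ℝ, (∀ z, 0 ≤ L z ∧ L z ≤ C') ∧ ∀ m ≤ M0,
      (∃ κ : ℝ, κ0 ≤ κ ∧ κ ≤ κ1 ∧
        ‖(∑ z, (L z : ℂ) * f z * ((K m z : ℂ) / 2 ^ m)) - om ^ m * κ * pc‖ ≤ ε) ∧
      (∑ z, L z * ((K m z : ℝ) / 2 ^ m)) ≤ C) :
    ∃ L : Z → ℝ, (∀ z, 0 ≤ L z) ∧ ∀ m,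
      (∃ κ : ℝ, κ0 ≤ κ ∧ (∑ z, (L z : ℂ) * f z * ((K m z : ℂ) / 2 ^ m)) = om ^ m * κ * pc) ∧
      (∑ z, L z * ((K m z : ℝ) / 2 ^ m)) ≤ C := by
  have hk : ∀ k : ℕ, (0 : ℝ) < 1 / ((k : ℝ) + 1) := fun k => by positivity
  choose L hL1 hL2 using fun k : ℕ => H k (1 / ((k : ℝ) + 1)) (hk k)
  have hmem : ∀ k, L k ∈ Set.pi Set.univ (fun _ : Z => Set.Icc (0 : ℝ) C') := by
    intro k z _
    exact hL1 k z
  obtain ⟨L', hL', φ, hφ, hlim⟩ :=
    (isCompact_univ_pi fun _ : Z => isCompact_Icc (a := (0 : ℝ)) (b := C')).tendsto_subseq hmem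
  have hlimz : ∀ z, Filter.Tendsto (fun k => L (φ k) z) Filter.atTop (nhds (L' z)) := by
    intro z
    exact (tendsto_pi_nhds.1 hlim) z
  refine ⟨L', fun z => (hL' z (Set.mem_univ z)).1, fun m => ⟨?_, ?_⟩⟩
  · set T : Set ℂ := (fun κ : ℝ => om ^ m * κ * pc) '' Set.Icc κ0 κ1 with hT
    have hTc : IsClosed T := by
      apply IsCompact.isClosed
      exact isCompact_Icc.image (by fun_prop)
    have hx : Filter.Tendsto (fun k => ∑ z, (L (φ k) z : ℂ) * f z * ((K m z : ℂ) / 2 ^ m))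
        Filter.atTop (nhds (∑ z, (L' z : ℂ) * f z * ((K m z : ℂ) / 2 ^ m))) := by
      refine tendsto_finsetSum _ fun z _ => ?_
      exact (((Complex.continuous_ofReal.tendsto _).comp (hlimz z)).mul_const _).mul_const _
    have hmemT : (∑ z, (L' z : ℂ) * f z * ((K m z : ℂ) / 2 ^ m)) ∈ closure T := by
      rw [Metric.mem_closure_iff]
      intro ε hε
      have h1 := (Metric.tendsto_nhds.1 hx) (ε / 2) (half_pos hε)
      have h2 : ∀ᶠ k : ℕ in Filter.atTop, 1 / ((k : ℝ) + 1) < ε / 2 :=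
        tendsto_one_div_add_atTop_nhds_zero_nat.eventually_lt_const (half_pos hε)
      obtain ⟨k, hk1, hk2, hk3⟩ := (h1.and (h2.and (Filter.eventually_ge_atTop m))).exists
      have hφk : k ≤ φ k := hφ.id_le k
      obtain ⟨⟨κ, hκ0, hκ1, hκ⟩, -⟩ := hL2 (φ k) m (hk3.trans hφk)
      refine ⟨om ^ m * κ * pc, ⟨κ, ⟨hκ0, hκ1⟩, rfl⟩, ?_⟩
      have h3 : 1 / ((φ k : ℝ) + 1) ≤ 1 / ((k : ℝ) + 1) := by
        apply one_div_le_one_div_of_le (by positivity)
        have : (k : ℝ) ≤ φ k := by exact_mod_cast hφk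
        linarith
      rw [dist_comm] at hk1
      calc dist _ _ ≤ dist (∑ z, (L' z : ℂ) * f z * ((K m z : ℂ) / 2 ^ m))
            (∑ z, (L (φ k) z : ℂ) * f z * ((K m z : ℂ) / 2 ^ m)) +
            dist (∑ z, (L (φ k) z : ℂ) * f z * ((K m z : ℂ) / 2 ^ m)) (om ^ m * κ * pc) :=
            dist_triangle _ _ _
        _ < ε / 2 + ε / 2 := by
            apply add_lt_add hk1
            rw [dist_eq_norm]
            linarith
        _ = ε := add_halves ε
    rw [hTc.closure_eq] at hmemT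
    obtain ⟨κ, hκ, hκe⟩ := hmemT
    exact ⟨κ, hκ.1, hκe.symm⟩
  · have hx : Filter.Tendsto (fun k => ∑ z, L (φ k) z * ((K m z : ℝ) / 2 ^ m))
        Filter.atTop (nhds (∑ z, L' z * ((K m z : ℝ) / 2 ^ m))) := by
      refine tendsto_finsetSum _ fun z _ => ?_
      exact (hlimz z).mul_const _
    refine le_of_tendsto hx ?_
    filter_upwards [Filter.eventually_ge_atTop m] with k hk3
    exact (hL2 (φ k) m (hk3.trans (hφ.id_le k))).2

open Filter Topology

/-- averages -/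
noncomputable def la2_av {Z : Type} (𝕜 : Type) [RCLike 𝕜] (w : 𝕜) (β : ℕ → Z → ℝ) (N : ℕ) (z : Z) : 𝕜 :=
  ((N : 𝕜) + 1)⁻¹ * ∑ m ∈ Finset.range (N + 1), w ^ m * (β m z : 𝕜)

theorem la2_rec {Z : Type} [Fintype Z] (𝕜 : Type) [RCLike 𝕜] (M : Z → Z → ℕ) (w v : 𝕜)
    (hwv : v * w = 1) (β : ℕ → Z → ℝ) (z : Z)
    (hβ : ∀ m, ∑ z', (M z z' : ℝ) * β m z' = 2 * β (m + 1) z) (N : ℕ) :
    ∑ z', (M z z' : 𝕜) * la2_av 𝕜 w β N z' = 2 * v * la2_av 𝕜 w β N z +
      ((N : 𝕜) + 1)⁻¹ * (2 * v * (w ^ (N + 1) * (β (N + 1) z : 𝕜) - (β 0 z : 𝕜))) := by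
  have hβ' : ∀ m, ∑ z', (M z z' : 𝕜) * (β m z' : 𝕜) = 2 * (β (m + 1) z : 𝕜) := by
    intro m
    have := congrArg (fun r : ℝ => (r : 𝕜)) (hβ m)
    push_cast at this
    exact this
  have e1 : ∑ z', (M z z' : 𝕜) * la2_av 𝕜 w β N z' =
      ((N : 𝕜) + 1)⁻¹ * ∑ m ∈ Finset.range (N + 1), 2 * v * (w ^ (m + 1) * (β (m + 1) z : 𝕜)) := by
    unfold la2_av
    have : ∀ z', (M z z' : 𝕜) * (((N : 𝕜) + 1)⁻¹ * ∑ m ∈ Finset.range (N + 1), w ^ m * (β m z' : 𝕜)) =
        ∑ m ∈ Finset.range (N + 1), ((N : 𝕜) + 1)⁻¹ * (w ^ m * ((M z z' : 𝕜) * (β m z' : 𝕜))) := by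
      intro z'
      rw [Finset.mul_sum, Finset.mul_sum]
      apply Finset.sum_congr rfl
      intro m _
      ring
    rw [Finset.sum_congr rfl (fun z' _ => this z'), Finset.sum_comm, Finset.mul_sum]
    apply Finset.sum_congr rfl
    intro m _
    rw [← Finset.mul_sum, ← Finset.mul_sum, hβ' m]
    congr 1
    have : w ^ m = v * w ^ (m + 1) := by
      rw [pow_succ]
      calc w ^ m = w ^ m * (v * w) := by rw [hwv, mul_one]
        _ = v * (w ^ m * w) := by ring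
    rw [this]
    ring
  have e2 : ∑ m ∈ Finset.range (N + 1), w ^ (m + 1) * (β (m + 1) z : 𝕜) =
      ∑ m ∈ Finset.range (N + 1), w ^ m * (β m z : 𝕜) + w ^ (N + 1) * (β (N + 1) z : 𝕜) -
        (β 0 z : 𝕜) := by
    have h1 := Finset.sum_range_succ (fun m => w ^ m * (β m z : 𝕜)) (N + 1)
    have h2 := Finset.sum_range_succ' (fun m => w ^ m * (β m z : 𝕜)) (N + 1)
    rw [h1] at h2
    simp only [pow_zero, one_mul] at h2
    rw [h2]
    ring
  rw [e1, ← Finset.mul_sum, e2]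
  unfold la2_av
  ring

theorem la2_bound {Z : Type} (𝕜 : Type) [RCLike 𝕜] (w : 𝕜) (hw : ‖w‖ = 1) (β : ℕ → Z → ℝ)
    (B : ℝ) (z : Z) (hβ : ∀ m, |β m z| ≤ B) (N : ℕ) : ‖la2_av 𝕜 w β N z‖ ≤ B := by
  unfold la2_av
  rw [norm_mul, norm_inv]
  have e : ‖((N : 𝕜) + 1)‖ = (N : ℝ) + 1 := by
    have : ((N : 𝕜) + 1) = (((N : ℝ) + 1 : ℝ) : 𝕜) := by push_cast; rfl
    rw [this, RCLike.norm_ofReal, abs_of_nonneg (by positivity)]
  rw [e]
  have h : ‖∑ m ∈ Finset.range (N + 1), w ^ m * (β m z : 𝕜)‖ ≤ ((N : ℝ) + 1) * B := by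
    refine (norm_sum_le _ _).trans ?_
    have : ∀ m ∈ Finset.range (N + 1), ‖w ^ m * (β m z : 𝕜)‖ ≤ B := by
      intro m _
      rw [norm_mul, norm_pow, hw, one_pow, one_mul, RCLike.norm_ofReal]
      exact hβ m
    refine (Finset.sum_le_sum this).trans ?_
    simp
  calc ((N : ℝ) + 1)⁻¹ * ‖∑ m ∈ Finset.range (N + 1), w ^ m * (β m z : 𝕜)‖
      ≤ ((N : ℝ) + 1)⁻¹ * (((N : ℝ) + 1) * B) := by
        apply mul_le_mul_of_nonneg_left h (by positivity)
    _ = B := by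
        rw [← mul_assoc, inv_mul_cancel₀ (by positivity), one_mul]

theorem la2_lim {Z : Type} [Fintype Z] (𝕜 : Type) [RCLike 𝕜] (M : Z → Z → ℕ) (w v : 𝕜)
    (hwv : v * w = 1) (hw : ‖w‖ = 1) (hv : ‖v‖ = 1) (β : ℕ → Z → ℝ) (B : ℝ) (z : Z)
    (hβ : ∀ m, ∑ z', (M z z' : ℝ) * β m z' = 2 * β (m + 1) z) (hB : ∀ m, |β m z| ≤ B)
    (φ : ℕ → ℕ) (hφ : Tendsto φ atTop atTop) (h : Z → 𝕜)
    (hh : ∀ z, Tendsto (fun k => la2_av 𝕜 w β (φ k) z) atTop (𝓝 (h z))) :
    ∑ z', (M z z' : 𝕜) * h z' = 2 * v * h z := by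
  have h1 : Tendsto (fun k => ∑ z', (M z z' : 𝕜) * la2_av 𝕜 w β (φ k) z') atTop
      (𝓝 (∑ z', (M z z' : 𝕜) * h z')) :=
    tendsto_finsetSum _ (fun z' _ => (hh z').const_mul _)
  have h2 : Tendsto (fun k => 2 * v * la2_av 𝕜 w β (φ k) z +
      (((φ k : ℕ) : 𝕜) + 1)⁻¹ * (2 * v * (w ^ (φ k + 1) * (β (φ k + 1) z : 𝕜) - (β 0 z : 𝕜))))
      atTop (𝓝 (2 * v * h z + 0)) := by
    apply ((hh z).const_mul _).add
    rw [tendsto_zero_iff_norm_tendsto_zero]
    have h3 : Tendsto (fun k => ((φ k : ℝ) + 1)⁻¹ * (2 * (B + B))) atTop (𝓝 0) := by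
      have h4 : Tendsto (fun k => ((φ k : ℝ) + 1)⁻¹) atTop (𝓝 0) := by
        have : Tendsto (fun k => (φ k : ℝ) + 1) atTop atTop :=
          tendsto_atTop_add_const_right _ _ (tendsto_natCast_atTop_atTop.comp hφ)
        exact tendsto_inv_atTop_zero.comp this
      have := h4.mul_const (2 * (B + B))
      rwa [zero_mul] at this
    refine squeeze_zero (fun _ => norm_nonneg _) (fun k => ?_) h3
    rw [norm_mul, norm_inv, norm_mul, norm_mul, hv]
    have e : ‖(((φ k : ℕ) : 𝕜) + 1)‖ = (φ k : ℝ) + 1 := by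
      have : (((φ k : ℕ) : 𝕜) + 1) = (((φ k : ℝ) + 1 : ℝ) : 𝕜) := by push_cast; rfl
      rw [this, RCLike.norm_ofReal, abs_of_nonneg (by positivity)]
    rw [e, mul_one]
    have e2 : ‖(2 : 𝕜)‖ = 2 := by simp
    rw [e2]
    apply mul_le_mul_of_nonneg_left _ (by positivity)
    apply mul_le_mul_of_nonneg_left _ (by norm_num)
    refine (norm_sub_le _ _).trans ?_
    rw [norm_mul, norm_pow, hw, one_pow, one_mul, RCLike.norm_ofReal, RCLike.norm_ofReal]
    exact add_le_add (hB _) (hB _)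
  rw [add_zero] at h2
  have h5 : (fun k => ∑ z', (M z z' : 𝕜) * la2_av 𝕜 w β (φ k) z') =
      (fun k => 2 * v * la2_av 𝕜 w β (φ k) z +
      (((φ k : ℕ) : 𝕜) + 1)⁻¹ * (2 * v * (w ^ (φ k + 1) * (β (φ k + 1) z : 𝕜) - (β 0 z : 𝕜)))) := by
    funext k
    exact la2_rec 𝕜 M w v hwv β z hβ (φ k)
  rw [h5] at h1
  exact tendsto_nhds_unique h1 h2

theorem la2 (hla3 : La3) {Z : Type} [Fintype Z] (M : Z → Z → ℕ) (K : ℕ → Z → ℕ)
    (hK : ∀ m z, K (m + 1) z = ∑ z', M z z' * K m z')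
    (om : ℂ) (hom : ‖om‖ = 1) (hpow : ∀ n : ℕ, 0 < n → om ^ n ≠ 1) (f : Z → ℂ) (pc : ℂ)
    (hpc : pc ≠ 0) (κ0 C : ℝ) (hκ0 : 0 < κ0)
    (H : ∃ L : Z → ℝ, (∀ z, 0 ≤ L z) ∧ ∀ m,
      (∃ κ : ℝ, κ0 ≤ κ ∧ (∑ z, (L z : ℂ) * f z * ((K m z : ℂ) / 2 ^ m)) = om ^ m * κ * pc) ∧
      (∑ z, L z * ((K m z : ℝ) / 2 ^ m)) ≤ C) : False := by
  obtain ⟨L, hL, H⟩ := H
  choose H1 H2 using H
  choose κ hκ hsumκ using H1
  have hom0 : om ≠ 0 := by
    intro h; rw [h, norm_zero] at hom; exact zero_ne_one hom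
  let b : ℕ → Z → ℝ := fun m z => (K m z : ℝ) / 2 ^ m
  have hb0 : ∀ m z, 0 ≤ b m z := fun m z => by positivity
  have hbrec : ∀ m z, ∑ z', (M z z' : ℝ) * b m z' = 2 * b (m + 1) z := by
    intro m z
    simp only [b]
    rw [hK m z]
    push_cast
    rw [Finset.sum_div, Finset.mul_sum]
    apply Finset.sum_congr rfl
    intro z' _
    rw [pow_succ]
    field_simp
  let S : Set Z := {z | ∃ z0, 0 < L z0 ∧ Relation.ReflTransGen (fun a b => M a b ≠ 0) z0 z}
  have hSc : ∀ z ∈ S, ∀ z', M z z' ≠ 0 → z' ∈ S := by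
    rintro z ⟨z0, h0, hz⟩ z' hM
    exact ⟨z0, h0, hz.tail hM⟩
  have hSL : ∀ z, z ∉ S → L z = 0 := by
    intro z hz
    by_contra h
    exact hz ⟨z, lt_of_le_of_ne (hL z) (Ne.symm h), Relation.ReflTransGen.refl⟩
  have hpath : ∀ z0 z, Relation.ReflTransGen (fun a b => M a b ≠ 0) z0 z →
      ∃ (j : ℕ) (c : ℝ), 0 < c ∧ ∀ m, c * b m z ≤ b (m + j) z0 := by
    intro z0 z h
    induction h with
    | refl => exact ⟨0, 1, one_pos, fun m => by simp⟩
    | tail _ hab ih =>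
      rename_i a1 b1 _
      obtain ⟨j, c, hc, hj⟩ := ih
      refine ⟨j + 1, c / 2, by positivity, fun m => ?_⟩
      have h1 := hj (m + 1)
      have h2 : b m b1 ≤ 2 * b (m + 1) a1 := by
        rw [← hbrec m a1]
        have h3 : (1 : ℝ) ≤ (M a1 b1 : ℝ) := by
          exact_mod_cast Nat.one_le_iff_ne_zero.2 hab
        have h4 : (M a1 b1 : ℝ) * b m b1 ≤ ∑ z', (M a1 z' : ℝ) * b m z' :=
          Finset.single_le_sum (f := fun z' => (M a1 z' : ℝ) * b m z')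
            (fun z' _ => mul_nonneg (Nat.cast_nonneg _) (hb0 _ _)) (Finset.mem_univ b1)
        nlinarith [hb0 m b1]
      have h5 : m + (j + 1) = m + 1 + j := by ring
      rw [h5]
      nlinarith
  have hbd : ∀ z, ∃ B : ℝ, 0 ≤ B ∧ (z ∈ S → ∀ m, b m z ≤ B) := by
    intro z
    by_cases hz : z ∈ S
    · obtain ⟨z0, h0, hp⟩ := hz
      obtain ⟨j, c, hc, hj⟩ := hpath z0 z hp
      have hC : 0 ≤ C := by
        refine le_trans ?_ (H2 0)
        exact Finset.sum_nonneg (fun z _ => mul_nonneg (hL z) (hb0 0 z))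
      refine ⟨C / (c * L z0), by positivity, fun _ m => ?_⟩
      rw [le_div_iff₀ (by positivity)]
      have h1 : L z0 * b (m + j) z0 ≤ C := by
        refine le_trans ?_ (H2 (m + j))
        exact Finset.single_le_sum (f := fun z => L z * b (m + j) z)
          (fun z _ => mul_nonneg (hL z) (hb0 _ z)) (Finset.mem_univ z0)
      have h2 := mul_le_mul_of_nonneg_left (hj m) h0.le
      nlinarith
    · exact ⟨0, le_refl _, fun h => absurd h hz⟩
  choose Bz hBz0 hBz using hbd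
  let B : ℝ := ∑ z, Bz z
  have hBzB : ∀ z, Bz z ≤ B := fun z =>
    Finset.single_le_sum (f := Bz) (fun z _ => hBz0 z) (Finset.mem_univ z)
  have hB0 : 0 ≤ B := Finset.sum_nonneg (fun z _ => hBz0 z)
  let β : ℕ → Z → ℝ := fun m z => if z ∈ S then b m z else 0
  have hβS : ∀ m z, z ∈ S → β m z = b m z := fun m z hz => if_pos hz
  have hβ0 : ∀ m z, 0 ≤ β m z := by
    intro m z
    simp only [β]
    split
    · exact hb0 m z
    · exact le_refl _
  have hβB : ∀ m z, |β m z| ≤ B := by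
    intro m z
    rw [abs_of_nonneg (hβ0 m z)]
    simp only [β]
    split
    · next hz => exact (hBz z hz m).trans (hBzB z)
    · exact hB0
  have hβrec : ∀ z ∈ S, ∀ m, ∑ z', (M z z' : ℝ) * β m z' = 2 * β (m + 1) z := by
    intro z hz m
    rw [hβS _ z hz, ← hbrec m z]
    apply Finset.sum_congr rfl
    intro z' _
    by_cases hM : M z z' = 0
    · rw [hM]; simp
    · rw [hβS _ z' (hSc z hz z' hM)]
  -- averages
  let w : ℂ := om⁻¹
  have hw : ‖w‖ = 1 := by rw [norm_inv, hom, inv_one]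
  have hwv : om * w = 1 := mul_inv_cancel₀ hom0
  let X : ℕ → (Z → ℂ) × (Z → ℝ) := fun N => (la2_av ℂ w β N, la2_av ℝ 1 β N)
  have hX : ∀ N, X N ∈ Metric.closedBall (0 : (Z → ℂ) × (Z → ℝ)) B := by
    intro N
    rw [Metric.mem_closedBall, dist_zero_right, Prod.norm_def]
    apply max_le
    · exact (pi_norm_le_iff_of_nonneg hB0).2
        (fun z => la2_bound ℂ w hw β B z (fun m => hβB m z) N)
    · exact (pi_norm_le_iff_of_nonneg hB0).2
        (fun z => la2_bound ℝ 1 (by simp) β B z (fun m => hβB m z) N)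
  obtain ⟨⟨h, u⟩, _, φ, hφ, hlim⟩ :=
    tendsto_subseq_of_bounded Metric.isBounded_closedBall hX
  rw [nhds_prod_eq] at hlim
  have hl1 : Tendsto (fun k => la2_av ℂ w β (φ k)) atTop (𝓝 h) := hlim.fst
  have hl2 : Tendsto (fun k => la2_av ℝ (1 : ℝ) β (φ k)) atTop (𝓝 u) := hlim.snd
  rw [tendsto_pi_nhds] at hl1 hl2
  have hφ' := hφ.tendsto_atTop
  have hh0 : ∀ z ∈ S, h z = 0 := by
    apply hla3 Z M om hom hpow S hSc h u
    · intro z hz
      exact la2_lim ℂ M w om hwv hw hom β B z (hβrec z hz) (fun m => hβB m z) φ hφ' h hl1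
    · intro z hz
      have := la2_lim ℝ M 1 1 (by norm_num) (by simp) (by simp) β B z (hβrec z hz)
        (fun m => hβB m z) φ hφ' u hl2
      rw [mul_one] at this
      exact this
    · intro z _
      refine le_of_tendsto_of_tendsto (hl1 z).norm (hl2 z) (Eventually.of_forall fun k => ?_)
      show ‖la2_av ℂ w β (φ k) z‖ ≤ la2_av ℝ (1 : ℝ) β (φ k) z
      unfold la2_av
      rw [norm_mul, norm_inv]
      have e : ‖((φ k : ℕ) : ℂ) + 1‖ = (φ k : ℝ) + 1 := by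
        have : (((φ k : ℕ) : ℂ) + 1) = (((φ k : ℝ) + 1 : ℝ) : ℂ) := by push_cast; rfl
        rw [this, Complex.norm_real, Real.norm_eq_abs, abs_of_nonneg (by positivity)]
      rw [e]
      apply mul_le_mul_of_nonneg_left _ (by positivity)
      refine (norm_sum_le _ _).trans (Finset.sum_le_sum fun m _ => ?_)
      rw [norm_mul, norm_pow, hw, one_pow, one_mul, one_mul]
      rw [RCLike.norm_ofReal, abs_of_nonneg (hβ0 m z)]
      exact le_refl _
  -- final contradiction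
  have hlimf : Tendsto (fun k => ∑ z, (L z : ℂ) * f z * la2_av ℂ w β (φ k) z) atTop
      (𝓝 (∑ z, (L z : ℂ) * f z * h z)) :=
    tendsto_finsetSum _ (fun z _ => (hl1 z).const_mul _)
  have hz0 : ∑ z, (L z : ℂ) * f z * h z = 0 := by
    apply Finset.sum_eq_zero
    intro z _
    by_cases hz : z ∈ S
    · rw [hh0 z hz, mul_zero]
    · rw [hSL z hz]; simp
  rw [hz0] at hlimf
  have hval : ∀ N, ∑ z, (L z : ℂ) * f z * la2_av ℂ w β N z =
      ((((N : ℝ) + 1)⁻¹ * ∑ m ∈ Finset.range (N + 1), κ m : ℝ) : ℂ) * pc := by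
    intro N
    have e1 : ∀ z, (L z : ℂ) * f z * la2_av ℂ w β N z =
        ∑ m ∈ Finset.range (N + 1), ((N : ℂ) + 1)⁻¹ * (w ^ m *
          ((L z : ℂ) * f z * ((K m z : ℂ) / 2 ^ m))) := by
      intro z
      unfold la2_av
      rw [Finset.mul_sum, Finset.mul_sum]
      apply Finset.sum_congr rfl
      intro m _
      by_cases hz : z ∈ S
      · rw [hβS m z hz]
        simp only [b]
        push_cast
        ring
      · rw [hSL z hz]; simp
    rw [Finset.sum_congr rfl (fun z _ => e1 z), Finset.sum_comm]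
    have e2 : ∀ m ∈ Finset.range (N + 1), ∑ z, ((N : ℂ) + 1)⁻¹ * (w ^ m *
          ((L z : ℂ) * f z * ((K m z : ℂ) / 2 ^ m))) = ((N : ℂ) + 1)⁻¹ * (κ m) * pc := by
      intro m _
      rw [← Finset.mul_sum, ← Finset.mul_sum, hsumκ m]
      have : w ^ m * om ^ m = 1 := by
        rw [← mul_pow, mul_comm, hwv, one_pow]
      calc ((N : ℂ) + 1)⁻¹ * (w ^ m * (om ^ m * κ m * pc)) =
          ((N : ℂ) + 1)⁻¹ * ((w ^ m * om ^ m) * κ m * pc) := by ring
        _ = _ := by rw [this]; ring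
    rw [Finset.sum_congr rfl e2, ← Finset.sum_mul, ← Finset.mul_sum]
    push_cast
    rfl
  have hnorm : ∀ N, κ0 * ‖pc‖ ≤ ‖∑ z, (L z : ℂ) * f z * la2_av ℂ w β N z‖ := by
    intro N
    rw [hval N, norm_mul]
    apply mul_le_mul_of_nonneg_right _ (norm_nonneg _)
    rw [Complex.norm_real, Real.norm_eq_abs]
    refine le_trans ?_ (le_abs_self _)
    have : ((N : ℝ) + 1) * κ0 ≤ ∑ m ∈ Finset.range (N + 1), κ m := by
      have h1 := Finset.card_nsmul_le_sum (Finset.range (N + 1)) κ κ0 (fun m _ => hκ m)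
      simpa using h1
    calc κ0 = ((N : ℝ) + 1)⁻¹ * (((N : ℝ) + 1) * κ0) := by
          rw [← mul_assoc, inv_mul_cancel₀ (by positivity), one_mul]
      _ ≤ _ := mul_le_mul_of_nonneg_left this (by positivity)
  have h1 := ge_of_tendsto hlimf.norm (Eventually.of_forall fun k => hnorm (φ k))
  rw [norm_zero] at h1
  have h2 : 0 < κ0 * ‖pc‖ := mul_pos hκ0 (norm_pos_iff.2 hpc)
  linarith

end LA

end

end Pool.Agent.Helper943.LM
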