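import Mathlib
import Pool.Agent.Helper943.LM.Basic

set_option autoImplicit false

open scoped Classical

namespace Pool.Agent.Helper943.LM

noncomputable section

variable {G : Type} [Group G]

/-- counting of codes of closed words -/
def CountS (T : TP G) (U : UA G) : Prop :=
  ∀ s, U.live s → ∀ (D : ℕ) (P : Finset (List U.A)),
    (∀ X ∈ P, X ≠ [] ∧ U.run s X = s ∧ T.nm (U.ev X) ≤ D) →
    (∀ X ∈ P, ∀ Y ∈ P, X <+: Y → X = Y) → P.card ≤ 5 ^ D

/-- commutation with powers of a tree-bounded closed word -/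
def C1S (T : TP G) (U : UA G) : Prop :=
  ∀ s, U.live s → ∀ y : List U.A, y ≠ [] → U.run s y = s →
    (∃ C : ℕ, ∀ j : ℕ, T.nm (U.ev y ^ j) ≤ C) → ∀ X : List U.A, U.run s X = s →
    ∃ k : ℕ, 1 ≤ k ∧ wpow y k ++ X = X ++ wpow y k

/-- bounded length of closed words at non elliptic states -/
def C2S (T : TP G) (U : UA G) : Prop :=
  ∀ s, U.live s → ¬ Ell T U s → ∀ D : ℕ, ∃ B : ℕ, ∀ X : List U.A,
    U.run s X = s → T.nm (U.ev X) ≤ D → X.length ≤ B

/-- length difference -/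
def LenS (U : UA G) : Prop :=
  ∀ g : G, ∃ C : ℕ, ∀ w ∈ U.L, ∀ w' ∈ U.L, U.ev w * g = U.ev w' → w'.length ≤ w.length + C

/-- translation part of tree-bounded closed words -/
def EllS (T : TP G) (U : UA G) : Prop :=
  ∀ s, U.live s → ∀ y : List U.A, y ≠ [] → U.run s y = s →
    (∃ C : ℕ, ∀ j : ℕ, T.nm (U.ev y ^ j) ≤ C) → T.tau (U.ev y) = 0 ∧ T.p (U.ev y) ≠ 0

/-- synchronous fellow travelling with uniform control -/
def PhiS (T : TP G) (U : UA G) : Prop :=
  ∃ Φ : ℕ → ℕ, Monotone Φ ∧ ∀ (ρ : ℕ), ∀ w ∈ U.L, ∀ w' ∈ U.L,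
    dT (T.vx (U.ev w)) (T.vx (U.ev w')) ≤ ρ → ‖T.p (U.ev w) - T.p (U.ev w')‖ ≤ 2 →
    (∀ t : ℕ, dT (T.vx (U.ev (w.take t))) (T.vx (U.ev (w'.take t))) ≤ Φ ρ ∧
      ‖T.p (U.ev (w.take t)) - T.p (U.ev (w'.take t))‖ ≤ Φ ρ) ∧ w'.length ≤ w.length + Φ ρ

/-- a word ending in the `n`-th half tree near `z` whose remaining time there is long -/
def Bad (T : TP G) (U : UA G) (m T0 : ℕ) (z : ℂ) (n : ℕ) (w : List U.A) (t : ℕ) : Prop :=
  w ∈ U.L ∧ (∀ i, t ≤ i → T.vx (U.ev (w.take i)) ∈ Hf (rt n)) ∧ t + T0 < w.length ∧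
    (∃ m' ≤ m, T.vx (U.ev w) ∈ Vt m' (rt n).2) ∧ ‖T.p (U.ev w) - z‖ ≤ 1

/-- pairs of bad words hover -/
def PairS (T : TP G) (U : UA G) : Prop :=
  ∀ m : ℕ, ∃ Ψ : ℕ → ℕ, Monotone Ψ ∧ ∀ (T0 T0' : ℕ) (z : ℂ) (n n' : ℕ) (w w' : List U.A) (t t' : ℕ),
    n ≠ n' → Bad T U m T0 z n w t → Bad T U m T0' z n' w' t' →
    w'.length ≤ w.length + Ψ (((n : ℤ) - n').natAbs) ∧
    ∀ i, t ≤ i → t' ≤ i →
      dT (T.vx (U.ev (w.take i))) (gen true ^ n) ≤ Ψ (((n : ℤ) - n').natAbs) ∧
      dT (T.vx (U.ev (w.take i))) (T.vx (U.ev (w'.take i))) ≤ Ψ (((n : ℤ) - n').natAbs) ∧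
      ‖T.p (U.ev (w.take i)) - T.p (U.ev (w'.take i))‖ ≤ Ψ (((n : ℤ) - n').natAbs)

/-- equal states force equal heights -/
def SameS (T : TP G) (U : UA G) : Prop :=
  ∀ B : ℕ, ∃ T1 : ℕ, ∀ (s : U.S) (u u' X X' : List U.A), U.live s →
    U.run s X = s → U.run s X' = s → X.length = X'.length → T1 ≤ X.length →
    T.nm (U.ev X) ≤ B → T.nm (U.ev X') ≤ B →
    (∀ j, ‖T.p (U.ev (u ++ X.take j)) - T.p (U.ev (u' ++ X'.take j))‖ ≤ B) →
    |T.tau (U.ev u) - T.tau (U.ev u')| ≤ B → T.tau (U.ev u) = T.tau (U.ev u')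

/-- the hovering lemma -/
def HovS (T : TP G) (U : UA G) : Prop :=
  ∀ m J : ℕ, ∃ T0 : ℕ, ∀ (z : ℂ) (Q : Finset ℕ), (∀ n ∈ Q, n ≤ J) →
    ∀ (w : ℕ → List U.A) (t : ℕ → ℕ), (∀ n ∈ Q, Bad T U m T0 z n (w n) (t n)) →
    ∃ n0 ta : ℕ, (∀ n ∈ Q, n ≠ n0 → t n ≤ ta) ∧
      ∀ n ∈ Q, ∀ n' ∈ Q, n ≠ n0 → n' ≠ n0 →
        U.run U.s0 ((w n).take ta) = U.run U.s0 ((w n').take ta) →
        T.tau (U.ev ((w n).take ta)) = T.tau (U.ev ((w n').take ta))

/-- counting of separated classes -/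
def CntS : Prop :=
  ∀ (Ψ : ℕ → ℕ), Monotone Ψ → ∀ (q : ℕ) (η : ℝ), 0 < η → ∃ J : ℕ, ∀ (Q : Finset ℕ),
    (∀ n ∈ Q, n ≤ J) → ∀ (σ : ℕ → Fin q) (τ : ℕ → ℤ),
    (∀ n ∈ Q, ∀ n' ∈ Q, n ≠ n' → σ n = σ n' →
      τ n = τ n' ∧ |τ n - n| ≤ (Ψ (((n : ℤ) - n').natAbs) : ℤ)) →
    (Q.card : ℝ) + 1 ≤ η * (J + 1)

/-- few bad roots -/
def BadS (T : TP G) (U : UA G) : Prop :=
  ∀ (m : ℕ) (η : ℝ), 0 < η → ∃ J T0 : ℕ, ∀ z : ℂ,
    ({n : ℕ | n ≤ J ∧ ∃ w t, Bad T U m T0 z n w t}.ncard : ℝ) ≤ η * (J + 1)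

theorem countS_flat {α : Type} (P : Finset (List α)) (hne : ∀ X ∈ P, X ≠ [])
    (hpf : ∀ X ∈ P, ∀ Y ∈ P, X <+: Y → X = Y) :
    ∀ L L' : List (List α), (∀ X ∈ L, X ∈ P) → (∀ X ∈ L', X ∈ P) → L.length = L'.length →
      L.flatten = L'.flatten → L = L' := by
  intro L
  induction L with
  | nil =>
    intro L' _ _ hl _
    have : L'.length = 0 := by simpa using hl.symm
    exact (List.length_eq_zero_iff.1 this).symm
  | cons X L ih =>
    intro L' h h' hl hf
    cases L' with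
    | nil => simp at hl
    | cons Y L' =>
      have hX : X ∈ P := h X (by simp)
      have hY : Y ∈ P := h' Y (by simp)
      rw [List.flatten_cons, List.flatten_cons] at hf
      have hXY : X = Y := by
        have h1 : X <+: Y ++ L'.flatten := ⟨L.flatten, hf⟩
        have h2 : Y <+: Y ++ L'.flatten := ⟨L'.flatten, rfl⟩
        rcases List.prefix_or_prefix_of_prefix h1 h2 with h3 | h3
        · exact hpf X hX Y hY h3
        · exact (hpf Y hY X hX h3).symm
      subst hXY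
      have hf2 := List.append_cancel_left hf
      have hl2 : L.length = L'.length := by simpa using hl
      rw [ih L' (fun Z hZ => h Z (List.mem_cons_of_mem _ hZ))
        (fun Z hZ => h' Z (List.mem_cons_of_mem _ hZ)) hl2 hf2]

theorem countS_prod (T : TP G) (U : UA G) (s : U.S) (D C : ℕ) :
    ∀ L : List (List U.A), (∀ X ∈ L, U.run s X = s ∧ T.nm (U.ev X) ≤ D ∧ ‖T.p (U.ev X)‖ ≤ C) →
      U.run s L.flatten = s ∧ T.nm (U.ev L.flatten) ≤ L.length * D ∧
        ‖T.p (U.ev L.flatten)‖ ≤ (L.length : ℝ) * C := by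
  intro L
  induction L with
  | nil =>
    intro _
    refine ⟨rfl, ?_, ?_⟩
    · rw [List.flatten_nil, UA.ev_nil, TP.nm_one']; simp
    · rw [List.flatten_nil, UA.ev_nil, TP.p_one']; simp
  | cons X L ih =>
    intro h
    obtain ⟨h1, h2, h3⟩ := ih (fun Z hZ => h Z (List.mem_cons_of_mem _ hZ))
    obtain ⟨h4, h5, h6⟩ := h X (by simp)
    rw [List.flatten_cons, UA.ev_append, UA.run_append, List.length_cons]
    refine ⟨by rw [h4, h1], ?_, ?_⟩
    · have := T.nm_mul' (U.ev X) (U.ev L.flatten)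
      calc T.nm (U.ev X * U.ev L.flatten) ≤ _ := this
        _ ≤ D + L.length * D := Nat.add_le_add h5 h2
        _ = (L.length + 1) * D := by ring
    · have := T.p_norm' (U.ev X) (U.ev L.flatten)
      calc ‖T.p (U.ev X * U.ev L.flatten)‖ ≤ _ := this
        _ ≤ C + (L.length : ℝ) * C := add_le_add h6 h3
        _ = ((L.length + 1 : ℕ) : ℝ) * C := by push_cast; ring

theorem countS (T : TP G) (U : UA G) : CountS T U := by
  intro s hs D P hP hpf
  by_contra hcard
  push Not at hcard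
  -- bound on the translation parts
  obtain ⟨C, hC⟩ : ∃ C : ℕ, ∀ X ∈ P, ‖T.p (U.ev X)‖ ≤ C := by
    obtain ⟨R, hR⟩ := ((P : Set (List U.A)).toFinite.image
      (fun X => ‖T.p (U.ev X)‖)).bddAbove
    exact ⟨⌈R⌉₊, fun X hX => (hR ⟨X, hX, rfl⟩).trans (Nat.le_ceil R)⟩
  have hcnt : ∀ m : ℕ, (P.card : ℝ) ^ m ≤
      5 ^ (m * D) * (T.kap * ((m : ℝ) * C + 1) ^ 2) := by
    intro m
    have h0 := T.ball_count (m * D) ((m : ℝ) * C) (by positivity)
    refine le_trans ?_ h0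
    have h1 : (Set.univ : Set (Fin m → {X // X ∈ P})).ncard ≤
        {g | T.nm g ≤ m * D ∧ ‖T.p g‖ ≤ (m : ℝ) * C}.ncard := by
      refine Set.ncard_le_ncard_of_injOn
        (fun f => U.ev (List.ofFn (fun i => (f i).1)).flatten) ?_ ?_ (T.ball_fin _ _)
      · intro f _
        have h2 := countS_prod T U s D C (List.ofFn (fun i => (f i).1)) (by
          intro X hX
          rw [List.mem_ofFn] at hX
          obtain ⟨i, rfl⟩ := hX
          exact ⟨(hP _ (f i).2).2.1, (hP _ (f i).2).2.2, hC _ (f i).2⟩)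
        rw [List.length_ofFn] at h2
        exact ⟨h2.2.1, h2.2.2⟩
      · intro f _ f' _ hff
        have hmem : ∀ f : Fin m → {X // X ∈ P}, ∀ X ∈ List.ofFn (fun i => (f i).1), X ∈ P := by
          intro f X hX
          rw [List.mem_ofFn] at hX
          obtain ⟨i, rfl⟩ := hX
          exact (f i).2
        have hrun : ∀ f : Fin m → {X // X ∈ P},
            U.run s (List.ofFn (fun i => (f i).1)).flatten = s := by
          intro f
          refine (countS_prod T U s D C (List.ofFn (fun i => (f i).1)) ?_).1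
          intro X hX
          have := hmem f X hX
          exact ⟨(hP _ this).2.1, (hP _ this).2.2, hC _ this⟩
        have h3 := U.closed_inj hs (hrun f) (hrun f') hff
        have h4 := countS_flat P (fun X hX => (hP X hX).1) hpf _ _ (hmem f) (hmem f')
          (by simp) h3
        have h5 := List.ofFn_injective h4
        funext i
        exact Subtype.ext (congrFun h5 i)
    rw [Set.ncard_univ, Nat.card_eq_fintype_card, Fintype.card_fun, Fintype.card_fin,
      Fintype.card_coe] at h1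
    exact_mod_cast h1
  set r : ℝ := (P.card : ℝ) / 5 ^ D with hr
  have h5 : (0 : ℝ) < 5 ^ D := by positivity
  have hr1 : 1 < r := by
    rw [hr, one_lt_div h5]
    exact_mod_cast hcard
  have hlim := (tendsto_pow_const_div_const_pow_of_one_lt 2 hr1).const_mul
    ((T.kap : ℝ) * ((C : ℝ) + 1) ^ 2)
  rw [mul_zero] at hlim
  have hev := hlim.eventually_lt_const (u := 1) one_pos
  obtain ⟨m, hm1, hm2⟩ := (hev.and (Filter.eventually_ge_atTop 1)).exists
  have hrm : 0 < r ^ m := by positivity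
  have h6 := hcnt m
  have h7 : r ^ m ≤ T.kap * ((m : ℝ) * C + 1) ^ 2 := by
    rw [hr, div_pow, ← pow_mul, mul_comm D m, div_le_iff₀ (by positivity)]
    calc _ ≤ _ := h6
      _ = _ := by ring
  have h8 : (T.kap : ℝ) * ((m : ℝ) * C + 1) ^ 2 ≤
      (T.kap : ℝ) * ((C : ℝ) + 1) ^ 2 * (m : ℝ) ^ 2 := by
    have hm : (1 : ℝ) ≤ m := by exact_mod_cast hm2
    have hC0 : (0 : ℝ) ≤ C := Nat.cast_nonneg C
    have : (m : ℝ) * C + 1 ≤ (C + 1) * m := by nlinarith
    rw [mul_assoc, ← mul_pow]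
    have h9 : ((m : ℝ) * C + 1) ^ 2 ≤ ((C + 1) * (m : ℝ)) ^ 2 := by
      apply pow_le_pow_left₀ (by positivity) this
    exact mul_le_mul_of_nonneg_left h9 (Nat.cast_nonneg _)
  have h10 : (T.kap : ℝ) * ((C : ℝ) + 1) ^ 2 * (m : ℝ) ^ 2 < r ^ m := by
    have h11 : (T.kap : ℝ) * ((C : ℝ) + 1) ^ 2 * ((m : ℝ) ^ 2 / r ^ m) < 1 := hm1
    rw [← mul_div_assoc, div_lt_one hrm] at h11
    exact h11
  linarith

theorem c1S (T : TP G) (U : UA G) (h : CountS T U) : C1S T U := by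
  rintro s hs y hy hsy ⟨C, hC⟩ X hX
  by_cases hX0 : X = []
  · subst hX0
    exact ⟨1, le_rfl, by simp⟩
  obtain ⟨N, hN⟩ : ∃ N : ℕ, N = 5 ^ (C + T.nm (U.ev X) + C) := ⟨_, rfl⟩
  let Z : ℕ → List U.A := fun i => wpow y (N - i) ++ X ++ wpow y i
  have hlen : ∀ i ≤ N, (Z i).length = N * y.length + X.length := by
    intro i hi
    change (wpow y (N - i) ++ X ++ wpow y i).length = _
    rw [List.length_append, List.length_append, wpow_length, wpow_length]
    have e : N * y.length = (N - i) * y.length + i * y.length := by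
      rw [← Nat.add_mul, Nat.sub_add_cancel hi]
    omega
  by_cases hinj : ∀ i ≤ N, ∀ j ≤ N, Z i = Z j → i = j
  · exfalso
    have hcard : ((Finset.range (N + 1)).image Z).card = N + 1 := by
      rw [Finset.card_image_of_injOn, Finset.card_range]
      intro i hi j hj hij
      have hi' := Finset.mem_range.1 (Finset.mem_coe.1 hi)
      have hj' := Finset.mem_range.1 (Finset.mem_coe.1 hj)
      exact hinj i (by omega) j (by omega) hij
    have h1 := h s hs (C + T.nm (U.ev X) + C) ((Finset.range (N + 1)).image Z) (by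
      intro W hW
      obtain ⟨i, hi, rfl⟩ := Finset.mem_image.1 hW
      refine ⟨?_, ?_, ?_⟩
      · intro hh
        have h2 : wpow y (N - i) ++ X ++ wpow y i = [] := hh
        rw [List.append_eq_nil_iff, List.append_eq_nil_iff] at h2
        exact hX0 h2.1.2
      · change U.run s (wpow y (N - i) ++ X ++ wpow y i) = s
        rw [U.run_append, U.run_append, U.run_wpow hsy, hX, U.run_wpow hsy]
      · change T.nm (U.ev (wpow y (N - i) ++ X ++ wpow y i)) ≤ _
        rw [U.ev_append, U.ev_append, U.ev_wpow, U.ev_wpow]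
        calc T.nm (U.ev y ^ (N - i) * U.ev X * U.ev y ^ i)
            ≤ T.nm (U.ev y ^ (N - i) * U.ev X) + T.nm (U.ev y ^ i) := T.nm_mul' _ _
          _ ≤ (T.nm (U.ev y ^ (N - i)) + T.nm (U.ev X)) + T.nm (U.ev y ^ i) :=
              Nat.add_le_add_right (T.nm_mul' _ _) _
          _ ≤ C + T.nm (U.ev X) + C :=
              Nat.add_le_add (Nat.add_le_add_right (hC _) _) (hC _)) (by
      intro W hW W' hW' hp
      obtain ⟨i, hi, rfl⟩ := Finset.mem_image.1 hW
      obtain ⟨j, hj, rfl⟩ := Finset.mem_image.1 hW'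
      have hi' := Finset.mem_range.1 hi
      have hj' := Finset.mem_range.1 hj
      exact hp.eq_of_length (by rw [hlen i (by omega), hlen j (by omega)]))
    rw [hcard, ← hN] at h1
    omega
  · push Not at hinj
    obtain ⟨i, hi, j, hj, hij, hne⟩ := hinj
    have main : ∀ i j : ℕ, j ≤ N → Z i = Z j → i < j →
        ∃ k : ℕ, 1 ≤ k ∧ wpow y k ++ X = X ++ wpow y k := by
      intro i j hj hij hlt
      refine ⟨j - i, by omega, ?_⟩
      have e1 : wpow y (N - i) = wpow y (N - j) ++ wpow y (j - i) := by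
        rw [← wpow_add]
        congr 1
        omega
      have e2 : wpow y j = wpow y (j - i) ++ wpow y i := by
        rw [← wpow_add]
        congr 1
        omega
      have e3 : wpow y (N - i) ++ X ++ wpow y i = wpow y (N - j) ++ X ++ wpow y j := hij
      rw [e1, e2] at e3
      simp only [List.append_assoc] at e3
      have e4 := List.append_cancel_left e3
      rw [← List.append_assoc, ← List.append_assoc] at e4
      exact List.append_cancel_right e4
    rcases lt_or_gt_of_ne hne with h1 | h1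
    · exact main i j hj hij h1
    · exact main j i hi hij.symm h1

theorem c2S (T : TP G) (U : UA G) (h : CountS T U) : C2S T U := by
  intro s hs hE D
  have hpre : ∀ v : F, ∀ X Y : List U.A, X ≠ [] → U.run s X = s → T.vx (U.ev X) = v →
      U.run s Y = s → T.vx (U.ev Y) = v → X <+: Y → X = Y := by
    intro v X Y _ hXs hXv hYs hYv hXY
    obtain ⟨Z, rfl⟩ := hXY
    by_cases hZ : Z = []
    · rw [hZ, List.append_nil]
    · exfalso
      apply hE
      have hZs : U.run s Z = s := by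
        rw [UA.run_append, hXs] at hYs
        exact hYs
      have h1 : T.act (U.ev Z) 1 = 1 := by
        have h2 : T.act (U.ev X) (T.act (U.ev Z) 1) = T.act (U.ev X) 1 := by
          rw [← T.act_mul, ← U.ev_append]
          exact hYv.trans hXv.symm
        have h3 : dT (T.act (U.ev X) (T.act (U.ev Z) 1)) (T.act (U.ev X) 1) = 0 := by
          rw [h2, dT_self]
        rw [T.act_dist] at h3
        exact dT_eq_zero.1 h3
      refine ⟨Z, hZ, hZs, 0, fun j => ?_⟩
      have h4 : T.act (U.ev Z ^ j) 1 = 1 := by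
        induction j with
        | zero => rw [pow_zero, T.act_one]
        | succ j ih => rw [pow_succ, T.act_mul, h1, ih]
      show dT 1 (T.act (U.ev Z ^ j) 1) ≤ 0
      rw [h4, dT_self]
  have hfin : ∀ v : F, dT 1 v ≤ D →
      {X : List U.A | X ≠ [] ∧ U.run s X = s ∧ T.vx (U.ev X) = v}.Finite := by
    intro v hv
    by_contra hinf
    obtain ⟨P, hP, hPc⟩ := Set.Infinite.exists_subset_card_eq hinf (5 ^ D + 1)
    have h1 := h s hs D P (fun X hX => by
      obtain ⟨a, b, c⟩ := hP hX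
      refine ⟨a, b, ?_⟩
      show dT 1 (T.vx (U.ev X)) ≤ D
      rw [c]; exact hv) (fun X hX Y hY hXY => by
      obtain ⟨a, b, c⟩ := hP hX
      obtain ⟨a', b', c'⟩ := hP hY
      exact hpre v X Y a b c b' c' hXY)
    omega
  have hC : (⋃ v ∈ {w : F | dT 1 w ≤ D},
      {X : List U.A | X ≠ [] ∧ U.run s X = s ∧ T.vx (U.ev X) = v}).Finite :=
    Set.Finite.biUnion (ball_finite 1 D) (fun v hv => hfin v hv)
  obtain ⟨B, hB⟩ := (hC.image List.length).bddAbove
  refine ⟨B, fun X hX hXD => ?_⟩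
  by_cases h0 : X = []
  · rw [h0]; exact Nat.zero_le _
  · apply hB
    refine ⟨X, ?_, rfl⟩
    simp only [Set.mem_iUnion]
    exact ⟨T.vx (U.ev X), hXD, h0, hX, rfl⟩

theorem lenS_cut (U : UA G) {w' : List U.A} (hw' : w' ∈ U.L) {t1 t2 : ℕ} (h12 : t1 < t2)
    (h2 : t2 ≤ w'.length) (hr : U.run U.s0 (w'.take t1) = U.run U.s0 (w'.take t2))
    (he : U.ev (w'.take t1) = U.ev (w'.take t2)) : False := by
  have h3 : w'.take t2 ++ w'.drop t2 ∈ U.L := by
    rw [List.take_append_drop]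
    exact hw'
  have h4 : w'.take t1 ++ w'.drop t2 ∈ U.L := UA.swap U h3 hr.symm
  have h5 : U.ev (w'.take t1 ++ w'.drop t2) = U.ev w' := by
    rw [UA.ev_append, he, ← UA.ev_append, List.take_append_drop]
  have h6 := U.ev_inj h4 hw' h5
  have h7 := congrArg List.length h6
  rw [List.length_append, List.length_take, List.length_drop] at h7
  omega

theorem lenS (U : UA G) : LenS U := by
  intro g
  obtain ⟨D, hD, h⟩ := U.ft' g
  haveI : Finite U.S := U.finS
  haveI : Finite D := hD.to_subtype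
  refine ⟨Nat.card (U.S × D), fun w hw w' hw' he => ?_⟩
  by_contra hlt
  rw [not_le] at hlt
  have hmem : ∀ i : ℕ, (U.ev w)⁻¹ * U.ev (w'.take (w.length + i)) ∈ D := by
    intro i
    have h1 := h w hw w' hw' he (w.length + i)
    rw [List.take_of_length_le (Nat.le_add_right _ _)] at h1
    exact h1
  let f : Fin (Nat.card (U.S × D) + 1) → U.S × D := fun i =>
    (U.run U.s0 (w'.take (w.length + i)), ⟨(U.ev w)⁻¹ * U.ev (w'.take (w.length + i)), hmem i⟩)
  have hninj : ¬ Function.Injective f := by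
    intro hinj
    have h1 := Nat.card_le_card_of_injective f hinj
    rw [Nat.card_fin] at h1
    omega
  rw [Function.Injective] at hninj
  push Not at hninj
  obtain ⟨i, j, hij, hne⟩ := hninj
  have h1 : U.run U.s0 (w'.take (w.length + i)) = U.run U.s0 (w'.take (w.length + j)) :=
    congrArg Prod.fst hij
  have h2 : U.ev (w'.take (w.length + i)) = U.ev (w'.take (w.length + j)) := by
    have h3 : (U.ev w)⁻¹ * U.ev (w'.take (w.length + i)) =
        (U.ev w)⁻¹ * U.ev (w'.take (w.length + j)) :=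
      congrArg (fun q : U.S × D => (q.2 : G)) hij
    exact mul_left_cancel h3
  have hi := i.2
  have hj := j.2
  rcases lt_or_gt_of_ne (fun h => hne (Fin.ext h) : (i : ℕ) ≠ j) with hlt' | hlt'
  · exact lenS_cut U hw' (t1 := w.length + i) (t2 := w.length + j) (by omega) (by omega) h1 h2
  · exact lenS_cut U hw' (t1 := w.length + j) (t2 := w.length + i) (by omega) (by omega)
      h1.symm h2.symm

theorem ellS (T : TP G) (U : UA G) : EllS T U := by
  intro s hs y hy hrun hC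
  obtain ⟨C, hC⟩ := hC
  have htau : T.tau (U.ev y) = 0 := by
    by_contra hne
    have h1 := T.abs_tau_le (U.ev y ^ (C + 1))
    have h2 := hC (C + 1)
    rw [T.tau_pow, abs_mul] at h1
    have h3 : (1 : ℤ) ≤ |T.tau (U.ev y)| := Int.one_le_abs hne
    have h4 : |((C + 1 : ℕ) : ℤ)| = (C : ℤ) + 1 := by
      rw [abs_of_nonneg (Int.natCast_nonneg _)]
      push_cast
      ring
    rw [h4] at h1
    have h5 : (T.nm (U.ev y ^ (C + 1)) : ℤ) ≤ C := by exact_mod_cast h2
    have h6 : (C : ℤ) + 1 ≤ ((C : ℤ) + 1) * |T.tau (U.ev y)| := by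
      have : (0 : ℤ) ≤ (C : ℤ) + 1 := by positivity
      nlinarith
    linarith
  refine ⟨htau, fun hp => ?_⟩
  have hinj : Function.Injective (fun j : ℕ => U.ev y ^ j) := by
    intro i j hij
    have hij' : U.ev (wpow y i) = U.ev (wpow y j) := by
      rw [UA.ev_wpow, UA.ev_wpow]
      exact hij
    have h1 := U.closed_inj hs (U.run_wpow hrun i) (U.run_wpow hrun j) hij'
    have h2 := congrArg List.length h1
    rw [wpow_length, wpow_length] at h2
    exact Nat.eq_of_mul_eq_mul_right (List.length_pos_iff.2 hy) h2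
  have hinf := Set.infinite_range_of_injective hinj
  refine hinf ((T.ball_fin C 0).subset ?_)
  rintro _ ⟨j, rfl⟩
  refine ⟨hC j, ?_⟩
  change ‖T.p (U.ev y ^ j)‖ ≤ 0
  rw [T.p_pow htau j, hp, mul_zero, norm_zero]

theorem phiS_aux1 (T : TP G) (D : Set G) (hD : D.Finite) :
    ∃ N : ℕ, ∀ d ∈ D, T.nm d ≤ N ∧ ‖T.p d‖ ≤ N := by
  obtain ⟨a, ha⟩ := (hD.image T.nm).bddAbove
  obtain ⟨b, hb⟩ := (hD.image fun d => ‖T.p d‖).bddAbove
  refine ⟨a + ⌈b⌉₊, fun d hd => ⟨?_, ?_⟩⟩
  · have := ha (Set.mem_image_of_mem _ hd)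
    omega
  · have h1 : ‖T.p d‖ ≤ b := hb (Set.mem_image_of_mem (fun d => ‖T.p d‖) hd)
    have h2 := Nat.le_ceil b
    push_cast
    have h3 : (0:ℝ) ≤ a := Nat.cast_nonneg a
    linarith

theorem phiS_aux2 (T : TP G) (U : UA G) (h : LenS U) (g : G) :
    ∃ N : ℕ, ∀ w ∈ U.L, ∀ w' ∈ U.L, U.ev w * g = U.ev w' →
      (∀ t : ℕ, dT (T.vx (U.ev (w.take t))) (T.vx (U.ev (w'.take t))) ≤ N ∧
        ‖T.p (U.ev (w.take t)) - T.p (U.ev (w'.take t))‖ ≤ N) ∧ w'.length ≤ w.length + N := by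
  obtain ⟨D, hD, hft⟩ := U.ft' g
  obtain ⟨C, hC⟩ := h g
  obtain ⟨N, hN⟩ := phiS_aux1 T D hD
  refine ⟨N + C, fun w hw w' hw' he => ⟨fun t => ?_, ?_⟩⟩
  · obtain ⟨h1, h2⟩ := hN _ (hft w hw w' hw' he t)
    rw [T.nm_inv_mul] at h1
    rw [T.norm_p_inv_mul, norm_sub_rev] at h2
    refine ⟨by omega, ?_⟩
    push_cast
    have h3 : (0:ℝ) ≤ C := Nat.cast_nonneg C
    linarith
  · have := hC w hw w' hw' he
    omega

theorem phiS_aux3 (T : TP G) (U : UA G) (h : LenS U) (ρ : ℕ) :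
    ∃ N : ℕ, ∀ w ∈ U.L, ∀ w' ∈ U.L,
      dT (T.vx (U.ev w)) (T.vx (U.ev w')) ≤ ρ → ‖T.p (U.ev w) - T.p (U.ev w')‖ ≤ 2 →
      (∀ t : ℕ, dT (T.vx (U.ev (w.take t))) (T.vx (U.ev (w'.take t))) ≤ N ∧
        ‖T.p (U.ev (w.take t)) - T.p (U.ev (w'.take t))‖ ≤ N) ∧ w'.length ≤ w.length + N := by
  choose f hf using phiS_aux2 T U h
  have hfin := T.ball_fin ρ 2
  obtain ⟨N, hN⟩ := (hfin.image f).bddAbove
  refine ⟨N, fun w hw w' hw' hd hp => ?_⟩
  have hmem : (U.ev w)⁻¹ * U.ev w' ∈ {g | T.nm g ≤ ρ ∧ ‖T.p g‖ ≤ 2} := by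
    refine ⟨?_, ?_⟩
    · rw [T.nm_inv_mul]; exact hd
    · rw [T.norm_p_inv_mul, norm_sub_rev]; exact hp
  have hle := hN (Set.mem_image_of_mem f hmem)
  obtain ⟨h1, h2⟩ := hf _ w hw w' hw' (mul_inv_cancel_left (U.ev w) (U.ev w'))
  refine ⟨fun t => ⟨(h1 t).1.trans hle, (h1 t).2.trans ?_⟩, h2.trans (by omega)⟩
  exact_mod_cast hle

theorem phiS (T : TP G) (U : UA G) (h : LenS U) : PhiS T U := by
  choose φ hφ using phiS_aux3 T U h
  refine ⟨fun ρ => ∑ i ∈ Finset.range (ρ + 1), φ i, ?_, ?_⟩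
  · intro a b hab
    exact Finset.sum_le_sum_of_subset (Finset.range_mono (by omega))
  · intro ρ w hw w' hw' hd hp
    obtain ⟨h1, h2⟩ := hφ ρ w hw w' hw' hd hp
    have hle : φ ρ ≤ ∑ i ∈ Finset.range (ρ + 1), φ i :=
      Finset.single_le_sum (f := φ) (fun _ _ => Nat.zero_le _) (Finset.mem_range.2 (by omega))
    refine ⟨fun t => ⟨(h1 t).1.trans hle, (h1 t).2.trans ?_⟩, h2.trans (Nat.add_le_add_left hle _)⟩
    exact_mod_cast hle

theorem pairS (T : TP G) (U : UA G) (h : PhiS T U) : PairS T U := by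
  obtain ⟨Φ, hΦ, h⟩ := h
  intro m
  refine ⟨fun k => Φ (k + 2 * m + 2), fun a b hab => hΦ (by omega), ?_⟩
  intro T0 T0' z n n' w w' t t' hnn hb hb'
  obtain ⟨hw, hin, hlen, ⟨m1, hm1, hv⟩, hp⟩ := hb
  obtain ⟨hw', hin', hlen', ⟨m2, hm2, hv'⟩, hp'⟩ := hb'
  have hd := rt_top_dist hv hv'
  have hd' : dT (T.vx (U.ev w)) (T.vx (U.ev w')) ≤ ((n : ℤ) - n').natAbs + 2 * m + 2 := by omega
  have hpp : ‖T.p (U.ev w) - T.p (U.ev w')‖ ≤ 2 := by
    have e : T.p (U.ev w) - T.p (U.ev w') = (T.p (U.ev w) - z) - (T.p (U.ev w') - z) := by ring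
    rw [e]
    have := norm_sub_le (T.p (U.ev w) - z) (T.p (U.ev w') - z)
    linarith
  obtain ⟨h1, h2⟩ := h _ w hw w' hw' hd' hpp
  refine ⟨h2, fun i hi hi' => ⟨?_, (h1 i).1, (h1 i).2⟩⟩
  have a1 := hin i hi
  have a2 : T.vx (U.ev (w'.take i)) ∉ Hf (rt n) :=
    fun hh => Set.disjoint_left.1 (rt_disj hnn) hh (hin' i hi')
  exact ((Hf_out_le (rt_IsE n) a1 a2).1).trans (h1 i).1

theorem sameS_lb (S : Finset ℤ) (f : ℤ → ℝ) (h : ∀ k ∈ S, 0 < f k) :
    ∃ δ : ℝ, 0 < δ ∧ ∀ k ∈ S, δ ≤ f k := by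
  induction S using Finset.induction_on with
  | empty => exact ⟨1, one_pos, by simp⟩
  | insert a S ha ih =>
    obtain ⟨δ, hδ, hd⟩ := ih (fun k hk => h k (Finset.mem_insert_of_mem hk))
    refine ⟨min δ (f a), lt_min hδ (h a (Finset.mem_insert_self _ _)), fun k hk => ?_⟩
    rcases Finset.mem_insert.1 hk with rfl | hk
    · exact min_le_right _ _
    · exact (min_le_left _ _).trans (hd k hk)

theorem sameS_iter {α : Type} (y X : List α) (k : ℕ) (h : wpow y k ++ X = X ++ wpow y k) (M : ℕ) :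
    wpow y (k * M) ++ X = X ++ wpow y (k * M) := by
  induction M with
  | zero => rw [Nat.mul_zero, wpow_zero, List.nil_append, List.append_nil]
  | succ M ih =>
    rw [Nat.mul_succ, wpow_add, List.append_assoc, h, ← List.append_assoc, ih, List.append_assoc]

theorem sameS_take {α : Type} (y X : List α) (hy : y ≠ []) (k : ℕ) (hk : 1 ≤ k)
    (h : wpow y k ++ X = X ++ wpow y k) (j : ℕ) (hj : j * y.length ≤ X.length) :
    X.take (j * y.length) = wpow y j := by
  have hy1 : 1 ≤ y.length := List.length_pos_of_ne_nil hy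
  have h1 := sameS_iter y X k h X.length
  have h2 : X <+: wpow y (k * X.length) := by
    refine List.prefix_of_prefix_length_le (l₃ := X ++ wpow y (k * X.length))
      (List.prefix_append _ _) ?_ ?_
    · rw [← h1]; exact List.prefix_append _ _
    · rw [wpow_length]
      calc X.length = 1 * X.length * 1 := by ring
        _ ≤ k * X.length * y.length :=
          Nat.mul_le_mul (Nat.mul_le_mul hk le_rfl) hy1
  have h3 : j ≤ k * X.length := by
    have h4 : j ≤ X.length := (Nat.le_mul_of_pos_right j hy1).trans hj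
    exact h4.trans (Nat.le_mul_of_pos_left _ hk)
  have h5 : wpow y j <+: wpow y (k * X.length) := by
    obtain ⟨l, hl⟩ := Nat.exists_eq_add_of_le h3
    rw [hl, wpow_add]
    exact List.prefix_append _ _
  have h6 : wpow y j <+: X :=
    List.prefix_of_prefix_length_le h5 h2 (by rw [wpow_length]; exact hj)
  have h7 := List.prefix_iff_eq_take.1 h6
  rw [wpow_length] at h7
  exact h7.symm

theorem sameS_state (T : TP G) (U : UA G) (h1 : C1S T U) (h2 : C2S T U) (h3 : EllS T U) (B : ℕ)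
    (s : U.S) : ∃ T1 : ℕ, ∀ (u u' X X' : List U.A), U.live s →
    U.run s X = s → U.run s X' = s → X.length = X'.length → T1 ≤ X.length →
    T.nm (U.ev X) ≤ B → T.nm (U.ev X') ≤ B →
    (∀ j, ‖T.p (U.ev (u ++ X.take j)) - T.p (U.ev (u' ++ X'.take j))‖ ≤ B) →
    |T.tau (U.ev u) - T.tau (U.ev u')| ≤ B → T.tau (U.ev u) = T.tau (U.ev u') := by
  by_cases hl : U.live s
  swap
  · exact ⟨0, fun u u' X X' hl' => (hl hl').elim⟩
  by_cases hE : Ell T U s
  swap
  · obtain ⟨B0, hB0⟩ := h2 s hl hE B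
    refine ⟨B0 + 1, fun u u' X X' _ hX _ _ hT hn _ _ _ => ?_⟩
    have := hB0 X hX hn
    omega
  obtain ⟨y, hy, hys, hC⟩ := hE
  obtain ⟨ht, hb⟩ := h3 s hl y hy hys hC
  obtain ⟨δ, hδ, hδ2⟩ := sameS_lb ((Finset.Icc (-(B : ℤ)) B).filter (fun k => k ≠ 0))
    (fun k => ‖1 - T.om ^ k‖) (by
      intro k hk
      rw [Finset.mem_filter] at hk
      rw [norm_pos_iff, sub_ne_zero]
      exact (T.om_zpow_ne_one hk.2).symm)
  have hbn : 0 < ‖T.p (U.ev y)‖ := norm_pos_iff.2 hb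
  refine ⟨(⌊2 * (B : ℝ) / (‖T.p (U.ev y)‖ * δ)⌋₊ + 2) * y.length,
    fun u u' X X' _ hX hX' hlen hT hn hn' hp htau => ?_⟩
  by_contra hne
  set j : ℕ := ⌊2 * (B : ℝ) / (‖T.p (U.ev y)‖ * δ)⌋₊ + 1 with hj
  have hjX : j * y.length ≤ X.length := by
    refine le_trans (Nat.mul_le_mul_right _ ?_) hT
    omega
  have hjX' : j * y.length ≤ X'.length := by rw [← hlen]; exact hjX
  obtain ⟨k, hk, hk2⟩ := h1 s hl y hy hys hC X hX
  obtain ⟨k', hk', hk2'⟩ := h1 s hl y hy hys hC X' hX'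
  have e1 := sameS_take y X hy k hk hk2 j hjX
  have e2 := sameS_take y X' hy k' hk' hk2' j hjX'
  have hpj := hp (j * y.length)
  rw [e1, e2] at hpj
  have hp0 := hp 0
  rw [List.take_zero, List.take_zero, List.append_nil, List.append_nil] at hp0
  have hform : ∀ v : List U.A, T.p (U.ev (v ++ wpow y j)) =
      T.p (U.ev v) + T.om ^ (T.tau (U.ev v)) * (j * T.p (U.ev y)) := by
    intro v
    rw [UA.ev_append, UA.ev_wpow, T.p_mul, T.p_pow ht]
  rw [hform, hform] at hpj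
  have hdiff : ‖(T.om ^ (T.tau (U.ev u)) - T.om ^ (T.tau (U.ev u'))) * (j * T.p (U.ev y))‖
      ≤ 2 * B := by
    have e3 : (T.om ^ (T.tau (U.ev u)) - T.om ^ (T.tau (U.ev u'))) * (j * T.p (U.ev y)) =
        (T.p (U.ev u) + T.om ^ (T.tau (U.ev u)) * (j * T.p (U.ev y))
          - (T.p (U.ev u') + T.om ^ (T.tau (U.ev u')) * (j * T.p (U.ev y))))
        - (T.p (U.ev u) - T.p (U.ev u')) := by ring
    rw [e3]
    refine (norm_sub_le _ _).trans ?_
    linarith
  have hom : ‖T.om ^ (T.tau (U.ev u)) - T.om ^ (T.tau (U.ev u'))‖ =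
      ‖1 - T.om ^ (T.tau (U.ev u') - T.tau (U.ev u))‖ := by
    have e4 : T.om ^ (T.tau (U.ev u)) - T.om ^ (T.tau (U.ev u')) =
        T.om ^ (T.tau (U.ev u)) * (1 - T.om ^ (T.tau (U.ev u') - T.tau (U.ev u))) := by
      rw [mul_sub, mul_one, ← zpow_add₀ T.om_ne_zero]
      congr 2; ring
    rw [e4, norm_mul, T.norm_om_zpow, one_mul]
  have hδ3 : δ ≤ ‖1 - T.om ^ (T.tau (U.ev u') - T.tau (U.ev u))‖ := by
    apply hδ2
    rw [Finset.mem_filter, Finset.mem_Icc]
    have h5 := abs_le.1 htau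
    refine ⟨⟨by linarith [h5.2], by linarith [h5.1]⟩, ?_⟩
    intro h6
    apply hne
    linarith
  rw [norm_mul, hom, norm_mul, Complex.norm_natCast] at hdiff
  have h7 : δ * ((j : ℝ) * ‖T.p (U.ev y)‖) ≤ 2 * B :=
    (mul_le_mul_of_nonneg_right hδ3 (by positivity)).trans hdiff
  have h8 : (j : ℝ) ≤ 2 * (B : ℝ) / (‖T.p (U.ev y)‖ * δ) := by
    rw [le_div_iff₀ (by positivity)]
    calc (j : ℝ) * (‖T.p (U.ev y)‖ * δ) = δ * ((j : ℝ) * ‖T.p (U.ev y)‖) := by ring
      _ ≤ _ := h7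
  have h9 := Nat.lt_floor_add_one (2 * (B : ℝ) / (‖T.p (U.ev y)‖ * δ))
  rw [hj] at h8
  push_cast at h8
  linarith

theorem sameS (T : TP G) (U : UA G) (h1 : C1S T U) (h2 : C2S T U) (h3 : EllS T U) : SameS T U := by
  intro B
  haveI := U.finS
  choose f hf using sameS_state T U h1 h2 h3 B
  obtain ⟨M, hM⟩ := Finite.exists_le f
  refine ⟨M, fun s u u' X X' hl hX hX' hlen hT => ?_⟩
  exact hf s u u' X X' hl hX hX' hlen ((hM s).trans hT)

theorem hovS (T : TP G) (U : UA G) (h1 : PairS T U) (h2 : SameS T U) : HovS T U := by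
  intro m J
  obtain ⟨Ψ, hΨm, hΨ⟩ := h1 m
  set K := Ψ J with hK
  obtain ⟨T1, hT1⟩ := h2 (2 * K)
  haveI := U.finS
  letI : Fintype U.S := Fintype.ofFinite _
  set N := Fintype.card (Fin (J + 1) → U.S) with hN
  refine ⟨K + N * T1, fun z Q hQ w t hbad => ?_⟩
  rcases Q.eq_empty_or_nonempty with hQe | hQne
  · subst hQe
    exact ⟨0, 0, fun n hn => by simp at hn, fun n hn => by simp at hn⟩
  obtain ⟨n0, hn0, hmin⟩ := Finset.exists_min_image Q t hQne
  rcases (Q.erase n0).eq_empty_or_nonempty with hQ'e | hQ'ne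
  · have hall : ∀ n ∈ Q, n = n0 := by
      intro n hn
      by_contra hne
      have : n ∈ Q.erase n0 := Finset.mem_erase.2 ⟨hne, hn⟩
      rw [hQ'e] at this
      simp at this
    exact ⟨n0, 0, fun n hn hne => absurd (hall n hn) hne,
      fun n hn _ _ hne => absurd (hall n hn) hne⟩
  obtain ⟨n1, hn1, hmax⟩ := Finset.exists_max_image (Q.erase n0) t hQ'ne
  have hn1Q : n1 ∈ Q := Finset.mem_of_mem_erase hn1
  have habs : ∀ n ∈ Q, ∀ n' ∈ Q, Ψ (((n : ℤ) - n').natAbs) ≤ K := by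
    intro n hn n' hn'
    apply hΨm
    have := hQ n hn
    have := hQ n' hn'
    omega
  -- near the root
  have hroot : ∀ n ∈ Q, n ≠ n0 → ∀ i, t n ≤ i →
      dT (T.vx (U.ev ((w n).take i))) (gen true ^ n) ≤ K := by
    intro n hn hne i hi
    have := (hΨ _ _ z n n0 (w n) (w n0) (t n) (t n0) hne (hbad n hn) (hbad n0 hn0)).2 i hi
      ((hmin n hn).trans hi)
    exact this.1.trans (habs n hn n0 hn0)
  -- lengths
  have hlen : ∀ n ∈ Q, n ≠ n0 → t n1 + N * T1 < (w n).length := by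
    intro n hn hne
    have hb := (hbad n1 hn1Q).2.2.1
    by_cases h : n = n1
    · subst h; omega
    · have h3 := (hΨ _ _ z n n1 (w n) (w n1) (t n) (t n1) h (hbad n hn) (hbad n1 hn1Q)).1
      have h4 := habs n hn n1 hn1Q
      omega
  -- pigeonhole
  obtain ⟨i, j, hij, hfij⟩ : ∃ i j : Fin (N + 1), i < j ∧
      (fun n : Fin (J + 1) => U.run U.s0 ((w n).take (t n1 + i * T1))) =
      (fun n : Fin (J + 1) => U.run U.s0 ((w n).take (t n1 + j * T1))) := by
    obtain ⟨i, j, hne, h⟩ := Fintype.exists_ne_map_eq_of_card_lt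
      (fun (i : Fin (N + 1)) (n : Fin (J + 1)) => U.run U.s0 ((w n).take (t n1 + i * T1)))
      (by rw [Fintype.card_fin]; omega)
    rcases lt_or_gt_of_ne hne with h' | h'
    · exact ⟨i, j, h', h⟩
    · exact ⟨j, i, h', h.symm⟩
  set ta := t n1 + (i : ℕ) * T1 with hta
  set tb := t n1 + (j : ℕ) * T1 with htb
  have hij' : (i : ℕ) + 1 ≤ j := hij
  have hjN : (j : ℕ) ≤ N := Nat.lt_succ_iff.1 j.2
  have htab : ta + T1 ≤ tb := by
    have : ((i : ℕ) + 1) * T1 ≤ (j : ℕ) * T1 := Nat.mul_le_mul_right _ hij'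
    rw [Nat.add_mul, one_mul] at this
    omega
  have htbN : tb ≤ t n1 + N * T1 := by
    have : (j : ℕ) * T1 ≤ N * T1 := Nat.mul_le_mul_right _ hjN
    omega
  have htle : ∀ n ∈ Q, n ≠ n0 → t n ≤ ta := by
    intro n hn hne
    have := hmax n (Finset.mem_erase.2 ⟨hne, hn⟩)
    omega
  refine ⟨n0, ta, htle, ?_⟩
  -- facts about one word
  have hone : ∀ n ∈ Q, n ≠ n0 → (w n).take ta ++ ((w n).take tb).drop ta = (w n).take tb ∧
      U.run (U.run U.s0 ((w n).take ta)) (((w n).take tb).drop ta) =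
        U.run U.s0 ((w n).take ta) ∧
      (((w n).take tb).drop ta).length = tb - ta ∧
      T.nm (U.ev (((w n).take tb).drop ta)) ≤ 2 * K ∧
      ∀ j', (w n).take ta ++ (((w n).take tb).drop ta).take j' =
        (w n).take (min (ta + j') tb) := by
    intro n hn hne
    have e0 : ((w n).take tb).take ta = (w n).take ta := by
      rw [List.take_take, min_eq_left (by omega)]
    have e1 : (w n).take ta ++ ((w n).take tb).drop ta = (w n).take tb := by
      conv_lhs => rw [← e0]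
      exact List.take_append_drop ta _
    have e2 : U.run U.s0 ((w n).take ta) = U.run U.s0 ((w n).take tb) := by
      have hnJ : n < J + 1 := Nat.lt_succ_of_le (hQ n hn)
      exact congrFun hfij ⟨n, hnJ⟩
    have e3 : U.run (U.run U.s0 ((w n).take ta)) (((w n).take tb).drop ta) =
        U.run U.s0 ((w n).take ta) := by
      rw [← UA.run_append, e1, e2]
    have hl := hlen n hn hne
    have e4 : (((w n).take tb).drop ta).length = tb - ta := by
      rw [List.length_drop, List.length_take, min_eq_left (by omega)]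
    have e5 : T.nm (U.ev (((w n).take tb).drop ta)) ≤ 2 * K := by
      have e6 : U.ev (((w n).take tb).drop ta) =
          (U.ev ((w n).take ta))⁻¹ * U.ev ((w n).take tb) := by
        have e7 := congrArg U.ev e1
        rw [UA.ev_append] at e7
        rw [← e7, inv_mul_cancel_left]
      rw [e6, T.nm_inv_mul]
      have h5 := hroot n hn hne ta (htle n hn hne)
      have h6 := hroot n hn hne tb ((htle n hn hne).trans (by omega))
      have h7 := dT_tri (T.vx (U.ev ((w n).take ta))) (gen true ^ n) (T.vx (U.ev ((w n).take tb)))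
      rw [dT_comm (gen true ^ n)] at h7
      omega
    refine ⟨e1, e3, e4, e5, fun j' => ?_⟩
    conv_lhs => rw [← e0]
    rw [← List.take_add, List.take_take]
  intro n hn n' hn' hne hne' hrun
  by_cases hnn : n = n'
  · subst hnn; rfl
  obtain ⟨a1, a2, a3, a4, a5⟩ := hone n hn hne
  obtain ⟨b1, b2, b3, b4, b5⟩ := hone n' hn' hne'
  have hpair := (hΨ _ _ z n n' (w n) (w n') (t n) (t n') hnn (hbad n hn) (hbad n' hn')).2
  have hKn := habs n hn n' hn'
  refine hT1 (U.run U.s0 ((w n).take ta)) ((w n).take ta) ((w n').take ta)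
    (((w n).take tb).drop ta) (((w n').take tb).drop ta) ?_ a2 ?_ (a3.trans b3.symm) (by omega)
    a4 b4 ?_ ?_
  · apply UA.live_of_mem (v := (w n).drop ta)
    rw [List.take_append_drop]
    exact (hbad n hn).1
  · rw [hrun]; exact b2
  · intro j'
    rw [a5, b5]
    have h8 := (hpair (min (ta + j') tb) ((htle n hn hne).trans (by omega))
      ((htle n' hn' hne').trans (by omega))).2.2
    refine h8.trans ?_
    have h11 : Ψ (((n : ℤ) - n').natAbs) ≤ 2 * K := by omega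
    have : ((Ψ (((n : ℤ) - n').natAbs) : ℕ) : ℝ) ≤ ((2 * K : ℕ) : ℝ) := by
      exact_mod_cast h11
    exact this
  · have h9 := (hpair ta (htle n hn hne) (htle n' hn' hne')).2.1
    have h10 := ex_le (T.vx (U.ev ((w n).take ta))) (T.vx (U.ev ((w n').take ta)))
    rw [T.ex_vx, T.ex_vx] at h10
    refine h10.trans ?_
    have : dT (T.vx (U.ev ((w n).take ta))) (T.vx (U.ev ((w n').take ta))) ≤ 2 * K := by omega
    exact_mod_cast this

theorem cntS_aux (Ψ : ℕ → ℕ) (hΨ : Monotone Ψ) (h : ℕ) (hh : 1 ≤ h) (J : ℕ) (R : Finset ℕ)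
    (hR : ∀ n ∈ R, n ≤ J) (τ : ℕ → ℤ)
    (H : ∀ n ∈ R, ∀ n' ∈ R, n ≠ n' →
      τ n = τ n' ∧ |τ n - n| ≤ (Ψ (((n : ℤ) - n').natAbs) : ℤ)) :
    R.card ≤ 2 * Ψ h + 1 + (J / h + 1) := by
  have h1 := Finset.card_filter_add_card_filter_not (s := R)
    (fun n => ∃ n' ∈ R, n' ≠ n ∧ n' / h = n / h)
  have hB : (R.filter (fun n => ¬ ∃ n' ∈ R, n' ≠ n ∧ n' / h = n / h)).card ≤ J / h + 1 := by
    rw [← Finset.card_range (J / h + 1)]
    apply Finset.card_le_card_of_injOn (fun n => n / h)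
    · intro n hn
      have hn' := (Finset.mem_filter.1 hn).1
      have := Nat.div_le_div_right (c := h) (hR n hn')
      simp only [Finset.coe_range, Set.mem_Iio]
      omega
    · intro n hn n' hn' he
      by_contra hne
      exact (Finset.mem_filter.1 hn).2 ⟨n', (Finset.mem_filter.1 hn').1, fun e => hne e.symm,
        he.symm⟩
  have hA : (R.filter (fun n => ∃ n' ∈ R, n' ≠ n ∧ n' / h = n / h)).card ≤ 2 * Ψ h + 1 := by
    rcases Finset.eq_empty_or_nonempty (R.filter (fun n => ∃ n' ∈ R, n' ≠ n ∧ n' / h = n / h))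
      with he | ⟨n0, hn0⟩
    · rw [he]; simp
    · have hc : (Finset.Icc (τ n0 - Ψ h) (τ n0 + Ψ h)).card = 2 * Ψ h + 1 := by
        rw [Int.card_Icc]; omega
      rw [← hc]
      apply Finset.card_le_card_of_injOn (fun n : ℕ => (n : ℤ))
      · intro n hn
        obtain ⟨hnR, n', hn'R, hne, hd⟩ := Finset.mem_filter.1 hn
        obtain ⟨h2, h3⟩ := H n hnR n' hn'R (Ne.symm hne)
        have hT : τ n = τ n0 := by
          by_cases e : n = n0
          · rw [e]
          · exact (H n hnR n0 (Finset.mem_filter.1 hn0).1 e).1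
        have h4 : ((n : ℤ) - n').natAbs ≤ h := by
          have a1 := Nat.div_add_mod n h
          have a2 := Nat.div_add_mod n' h
          have a3 := Nat.mod_lt n (show 0 < h by omega)
          have a4 := Nat.mod_lt n' (show 0 < h by omega)
          rw [hd] at a2
          omega
        have h5 : (Ψ (((n : ℤ) - n').natAbs) : ℤ) ≤ Ψ h := by exact_mod_cast hΨ h4
        have h6 := abs_le.1 (h3.trans h5)
        simp only [Finset.coe_Icc, Set.mem_Icc]
        rw [hT] at h6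
        constructor <;> linarith [h6.1, h6.2]
      · intro a _ b _ hab
        simpa using hab
  omega

theorem cntS : CntS := by
  intro Ψ hΨ q η hη
  obtain ⟨h, hh⟩ := exists_nat_gt (2 * (q : ℝ) / η)
  have hh1 : 1 ≤ h + 1 := by omega
  obtain ⟨J, hJ⟩ := exists_nat_gt (2 * ((q : ℝ) * (2 * Ψ (h + 1) + 2) + 1) / η)
  refine ⟨J, ?_⟩
  intro Q hQ σ τ H
  have h1 : Q.card = ∑ s : Fin q, (Q.filter (fun n => σ n = s)).card :=
    Finset.card_eq_sum_card_fiberwise (fun n _ => Finset.mem_coe.2 (Finset.mem_univ (σ n)))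
  have h2 : ∀ s : Fin q, (Q.filter (fun n => σ n = s)).card ≤
      2 * Ψ (h + 1) + 1 + (J / (h + 1) + 1) := by
    intro s
    apply cntS_aux Ψ hΨ (h + 1) hh1 J _ _ τ
    · intro n hn n' hn' hne
      obtain ⟨a1, a2⟩ := Finset.mem_filter.1 hn
      obtain ⟨b1, b2⟩ := Finset.mem_filter.1 hn'
      exact H n a1 n' b1 hne (a2.trans b2.symm)
    · intro n hn
      exact hQ n (Finset.mem_filter.1 hn).1
  have h3 : Q.card ≤ q * (2 * Ψ (h + 1) + 1 + (J / (h + 1) + 1)) := by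
    rw [h1]
    refine (Finset.sum_le_sum fun s _ => h2 s).trans ?_
    simp
  have h4 : (Q.card : ℝ) ≤ q * (2 * Ψ (h + 1) + 1 + (((J / (h + 1) : ℕ) : ℝ) + 1)) := by
    exact_mod_cast h3
  have h5 : ((J / (h + 1) : ℕ) : ℝ) ≤ (J : ℝ) / (h + 1) := by
    have := @Nat.cast_div_le ℝ _ _ _ J (h + 1)
    push_cast at this
    exact this
  have h6 : (q : ℝ) * ((J : ℝ) / (h + 1)) ≤ η / 2 * J := by
    have : (q : ℝ) / (h + 1) ≤ η / 2 := by
      rw [div_le_iff₀ (by positivity)]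
      rw [div_lt_iff₀ hη] at hh
      nlinarith
    calc (q : ℝ) * ((J : ℝ) / (h + 1)) = (q : ℝ) / (h + 1) * J := by ring
      _ ≤ η / 2 * J := mul_le_mul_of_nonneg_right this (Nat.cast_nonneg _)
  have h7 : (q : ℝ) * (2 * Ψ (h + 1) + 2) + 1 ≤ η / 2 * J := by
    rw [div_lt_iff₀ hη] at hJ
    linarith
  have h8 := mul_le_mul_of_nonneg_left h5 (Nat.cast_nonneg (α := ℝ) q)
  nlinarith

theorem badS (T : TP G) (U : UA G) (h1 : PairS T U) (h2 : HovS T U) (h3 : CntS) : BadS T U := by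
  intro m η hη
  obtain ⟨Ψ, hΨm, hΨ⟩ := h1 m
  have := U.finS
  let e := Finite.equivFin U.S
  obtain ⟨J, hJ⟩ := h3 Ψ hΨm (Nat.card U.S) η hη
  obtain ⟨T0, hT0⟩ := h2 m J
  refine ⟨J, T0, fun z => ?_⟩
  have hfin : {n : ℕ | n ≤ J ∧ ∃ w t, Bad T U m T0 z n w t}.Finite :=
    (Set.finite_Iic J).subset (fun n hn => hn.1)
  rw [Set.ncard_eq_toFinset_card _ hfin]
  generalize hQ : hfin.toFinset = Q
  have hmem : ∀ n, n ∈ Q ↔ n ≤ J ∧ ∃ w t, Bad T U m T0 z n w t := fun n => by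
    rw [← hQ, Set.Finite.mem_toFinset]
    exact Iff.rfl
  have hex : ∀ n, n ∈ Q → ∃ w t, Bad T U m T0 z n w t := fun n hn => ((hmem n).1 hn).2
  choose! w hw using hex
  choose! t ht using hw
  obtain ⟨n0, ta, hta, hrun⟩ := hT0 z Q (fun n hn => ((hmem n).1 hn).1) w t ht
  have key := hJ (Q.erase n0) (fun n hn => ((hmem n).1 (Finset.mem_of_mem_erase hn)).1)
    (fun n => e (U.run U.s0 ((w n).take ta))) (fun n => T.tau (U.ev ((w n).take ta))) ?_
  · have hc : Q.card ≤ (Q.erase n0).card + 1 := by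
      have := Finset.pred_card_le_card_erase (s := Q) (a := n0)
      omega
    have hc' : (Q.card : ℝ) ≤ ((Q.erase n0).card : ℝ) + 1 := by exact_mod_cast hc
    exact hc'.trans key
  · intro n hn n' hn' hne hs
    rw [Finset.mem_erase] at hn hn'
    have hs' := e.injective hs
    have h4 := hrun n hn.2 n' hn'.2 hn.1 hn'.1 hs'
    refine ⟨h4, ?_⟩
    obtain ⟨-, h5⟩ := hΨ T0 T0 z n n' (w n) (w n') (t n) (t n') hne (ht n hn.2) (ht n' hn'.2)
    obtain ⟨h6, -, -⟩ := h5 ta (hta n hn.2 hn.1) (hta n' hn'.2 hn'.1)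
    have h7 := ex_le (T.vx (U.ev ((w n).take ta))) (gen true ^ n)
    rw [T.ex_vx, rt_aux_ex] at h7
    refine h7.trans ?_
    exact_mod_cast h6

end

end Pool.Agent.Helper943.LM
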