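import Mathlib
import Pool.Agent.Helper943.LM.Words

set_option autoImplicit false

open scoped Classical

namespace Pool.Agent.Helper943.LM

noncomputable section

variable {G : Type} [Group G]

/-- last entrance splitting of `W1 ++ W2` into the half tree `e` -/
def Lst (T : TP G) (U : UA G) (e : F × F) (W1 W2 : List U.A) : Prop :=
  (W1 = [] ∨ T.vx (U.ev W1.dropLast) ∉ Hf e) ∧ ∀ t, T.vx (U.ev (W1 ++ W2.take t)) ∈ Hf e

/-- child edge -/
def ch (b : Bool) (e : F × F) : F × F := (e.2, e.2 * gen b)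

/-- level piece of a word from `e` to the child edge `e'` -/
def LP (T : TP G) (U : UA G) (e e' : F × F) (W1 : List U.A) : Prop :=
  (W1 = [] ∨ T.vx (U.ev W1.dropLast) ∉ Hf e') ∧ T.vx (U.ev W1) ∈ Hf e' ∧
    ∀ t, T.vx (U.ev (W1.take t)) ∈ Hf e

/-- lengths and depths for finite type nodes -/
def LenWS (T : TP G) (U : UA G) : Prop :=
  ∃ τ1 : ℕ, ∀ (s : U.S) (e : F × F), e ∈ EE T U → FT T U s e → ∀ m, ∀ W ∈ WW T U m s e,
    W.length ≤ (m + 1) * τ1 ∧ ∀ i ≤ m, ∀ t, i * τ1 ≤ t → i ≤ dT e.2 (T.vx (U.ev (W.take t)))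

/-- bounded difference of paired entrances -/
def PBS (T : TP G) (U : UA G) : Prop :=
  ∃ DD : Set G, DD.Finite ∧ ∀ (e : F × F), IsE e → (1 : F) ∉ Hf e →
    ∀ (m : ℕ) (p p' W W' : List U.A), Ent T U e p → Ent T U e p' →
    FT T U (U.run U.s0 p) (rel T U p e) → FT T U (U.run U.s0 p') (rel T U p' e) →
    W ∈ WW T U m (U.run U.s0 p) (rel T U p e) → W' ∈ WW T U m (U.run U.s0 p') (rel T U p' e) →
    U.ev (p ++ W) * T.c = U.ev (p' ++ W') → (U.ev p)⁻¹ * U.ev p' ∈ DD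

/-- pair nodes -/
abbrev PN (U : UA G) : Type := U.S × (F × F) × U.S × G

/-- pairs of words from a pair node -/
def KS (T : TP G) (U : UA G) (m : ℕ) (z : PN U) : Set (List U.A × List U.A) :=
  {P | P.1 ∈ WW T U m z.1 z.2.1 ∧ P.2 ∈ WW T U m z.2.2.1 (T.actE z.2.2.2⁻¹ z.2.1) ∧
    U.ev P.1 * T.c = z.2.2.2 * U.ev P.2}

/-- the pair node of a pair of entrance words -/
def nd (T : TP G) (U : UA G) (e : F × F) (p p' : List U.A) : PN U :=
  (U.run U.s0 p, rel T U p e, U.run U.s0 p', (U.ev p)⁻¹ * U.ev p')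

/-- realised pair nodes of finite type -/
def PZ (T : TP G) (U : UA G) : Set (PN U) :=
  {z | (∃ (e : F × F) (p p' : List U.A), IsE e ∧ (1 : F) ∉ Hf e ∧ Ent T U e p ∧ Ent T U e p' ∧
      z = nd T U e p p') ∧
    FT T U z.1 z.2.1 ∧ FT T U z.2.2.1 (T.actE z.2.2.2⁻¹ z.2.1) ∧ ∃ m, (KS T U m z).Nonempty}

/-- pairs of entrances over the root `n` with node `z` -/
def PP (T : TP G) (U : UA G) (n : ℕ) (z : PN U) : Set (List U.A × List U.A) :=
  {P | Ent T U (rt n) P.1 ∧ Ent T U (rt n) P.2 ∧ z = nd T U (rt n) P.1 P.2}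

/-- `g` is a top of finite type over the root `n` with entrance word `p` -/
def FTop (T : TP G) (U : UA G) (n m : ℕ) (g : G) (p : List U.A) : Prop :=
  Ent T U (rt n) p ∧ FT T U (U.run U.s0 p) (rel T U p (rt n)) ∧
    ∃ W ∈ WW T U m (U.run U.s0 p) (rel T U p (rt n)), U.ev (p ++ W) = g

/-- `g` is a top over the root `n` whose entrance is not of finite type -/
def NFT (T : TP G) (U : UA G) (n : ℕ) (g : G) : Prop :=
  ∃ p W, Ent T U (rt n) p ∧ ¬ FT T U (U.run U.s0 p) (rel T U p (rt n)) ∧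
    (∃ m, W ∈ WW T U m (U.run U.s0 p) (rel T U p (rt n))) ∧ U.ev (p ++ W) = g

/-- the entrance word of a finite type top -/
def en (T : TP G) (U : UA G) (n m : ℕ) (g : G) : List U.A :=
  if h : ∃ p, FTop T U n m g p then h.choose else []

/-- modified position -/
def Ph (T : TP G) (U : UA G) (n m : ℕ) (g : G) : ℂ :=
  if ∃ p, FTop T U n m g p then T.p (U.ev (en T U n m g)) else T.p g

/-- leak estimate -/
def LeakS (T : TP G) (U : UA G) : Prop :=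
  ∀ (m : ℕ) (ε : ℝ), 0 < ε → ∃ (J : ℕ) (R0 : ℝ), ∀ R : ℝ, R0 ≤ R → ∃ n ≤ J,
    ({g | (∃ m' ≤ m, T.vx g ∈ Vt m' (rt n).2) ∧ ‖T.p g‖ ≤ R ∧ NFT T U n g}.ncard : ℝ) ≤ ε * R ^ 2

/-- density of entrances of infinite type -/
def EntD (T : TP G) (U : UA G) : Prop :=
  ∀ ε : ℝ, 0 < ε → ∃ R0 : ℝ, ∀ R : ℝ, R0 ≤ R → ∀ n : ℕ,
    {p : List U.A | Ent T U (rt n) p ∧ ‖T.p (U.ev p)‖ ≤ R ∧
      ¬ FT T U (U.run U.s0 p) (rel T U p (rt n))}.Finite ∧
    ({p : List U.A | Ent T U (rt n) p ∧ ‖T.p (U.ev p)‖ ≤ R ∧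
      ¬ FT T U (U.run U.s0 p) (rel T U p (rt n))}.ncard : ℝ) ≤ ε * R ^ 2

/-- tops with a long remaining time -/
def BTop (T : TP G) (U : UA G) (m T0 n : ℕ) (R : ℝ) : Set G :=
  {g | (∃ m' ≤ m, T.vx g ∈ Vt m' (rt n).2) ∧ ‖T.p g‖ ≤ R ∧ ∃ w t, w ∈ U.L ∧ U.ev w = g ∧
    (∀ i, t ≤ i → T.vx (U.ev (w.take i)) ∈ Hf (rt n)) ∧ t + T0 < w.length}

/-- averaged estimate for tops with a long remaining time -/
def AvgS (T : TP G) (U : UA G) : Prop :=
  ∀ (m : ℕ) (ε : ℝ), 0 < ε → ∃ (J T0 : ℕ) (R0 : ℝ), ∀ R : ℝ, R0 ≤ R → ∃ n ≤ J,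
    ((BTop T U m T0 n R).ncard : ℝ) ≤ ε * R ^ 2

/-- weight -/
def wt (R : ℝ) (z : ℂ) : ℝ := max 0 (1 - ‖z‖ / R)

/-- tops of depth `m` over the root `n` in the disc of radius `R` -/
def Tb (T : TP G) (m n : ℕ) (R : ℝ) : Set G := {g | T.vx g ∈ Vt m (rt n).2 ∧ ‖T.p g‖ ≤ R}

/-- finite type pairs of tops with entrance in the disc -/
def GG (T : TP G) (U : UA G) (n m : ℕ) (R : ℝ) : Set G :=
  {g | ∃ p p', FTop T U n m g p ∧ FTop T U n m (g * T.c) p' ∧ ‖T.p (U.ev p)‖ ≤ R}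

/-- pairs of entrances in the disc -/
def PPR (T : TP G) (U : UA G) (n : ℕ) (R : ℝ) (z : PN U) : Set (List U.A × List U.A) :=
  {P | P ∈ PP T U n z ∧ ‖T.p (U.ev P.1)‖ ≤ R}

section levels

variable (T : TP G) (U : UA G)

theorem lst_exists {e : F × F} {W : List U.A} (h : T.vx (U.ev W) ∈ Hf e) :
    ∃ W1 W2, W = W1 ++ W2 ∧ Lst T U e W1 W2 := by
  have hex : ∃ k, ∀ t, k ≤ t → T.vx (U.ev (W.take t)) ∈ Hf e :=
    ⟨W.length, fun t ht => by rw [List.take_of_length_le ht]; exact h⟩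
  obtain ⟨k, hk⟩ : ∃ k, k = Nat.find hex := ⟨_, rfl⟩
  have hk1 : ∀ t, k ≤ t → T.vx (U.ev (W.take t)) ∈ Hf e := by
    rw [hk]; exact Nat.find_spec hex
  have hk2 : ∀ k' < k, ¬ ∀ t, k' ≤ t → T.vx (U.ev (W.take t)) ∈ Hf e := by
    intro k' hk'
    rw [hk] at hk'
    exact Nat.find_min hex hk'
  have hk3 : k ≤ W.length := by
    rw [hk]
    exact Nat.find_min' hex (fun t ht => by rw [List.take_of_length_le ht]; exact h)
  refine ⟨W.take k, W.drop k, (List.take_append_drop k W).symm, ?_, ?_⟩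
  · rcases Nat.eq_zero_or_pos k with h0 | h0
    · left
      rw [h0, List.take_zero]
    · right
      have h1 := hk2 (k - 1) (by omega)
      push Not at h1
      obtain ⟨t, ht, ht2⟩ := h1
      have h2 : t = k - 1 := by
        by_contra hne
        exact ht2 (hk1 t (by omega))
      have h3 : (W.take k).dropLast = W.take (k - 1) := by
        rw [List.dropLast_eq_take, List.length_take, List.take_take]
        congr 1
        omega
      rw [h3, ← h2]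
      exact ht2
  · intro t
    rw [← List.take_add]
    exact hk1 _ (Nat.le_add_right _ _)

theorem lst_unique_aux {e : F × F} {W1 W2 W1' W2' : List U.A} (h : W1 ++ W2 = W1' ++ W2')
    (h1 : Lst T U e W1 W2) (h2 : Lst T U e W1' W2') : ¬ W1.length < W1'.length := by
  intro hlt
  rcases h2.1 with h3 | h3
  · rw [h3] at hlt
    simp at hlt
  · apply h3
    have h4 : W1'.dropLast = W1 ++ W2.take (W1'.length - 1 - W1.length) := by
      have h5 : W1'.dropLast = (W1' ++ W2').take (W1'.length - 1) := by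
        rw [List.dropLast_eq_take, List.take_append_of_le_length (by omega)]
      rw [h5, ← h, List.take_append, List.take_of_length_le (l := W1) (by omega)]
    rw [h4]
    exact h1.2 _

theorem lst_unique {e : F × F} {W1 W2 W1' W2' : List U.A} (h : W1 ++ W2 = W1' ++ W2')
    (h1 : Lst T U e W1 W2) (h2 : Lst T U e W1' W2') : W1 = W1' ∧ W2 = W2' := by
  have h3 := lst_unique_aux T U h h1 h2
  have h4 := lst_unique_aux T U h.symm h2 h1
  exact List.append_inj h (by omega)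

theorem lst_ent {e : F × F} (h1 : (1 : F) ∉ Hf e) {W1 W2 : List U.A} (h : Lst T U e W1 W2) :
    Ent T U e W1 := by
  have h2 := h.2 0
  rw [List.take_zero, List.append_nil] at h2
  have h3 : W1 ≠ [] := by
    intro h4
    rw [h4, UA.ev_nil, T.vx_one] at h2
    exact h1 h2
  exact ⟨h3, h2, h.1.resolve_left h3⟩

theorem ent_lst {e : F × F} {W1 W2 : List U.A} (h : Ent T U e W1)
    (h2 : ∀ t, T.vx (U.ev (W1 ++ W2.take t)) ∈ Hf e) : Lst T U e W1 W2 := ⟨Or.inr h.2.2, h2⟩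

theorem lev_aux_Hf (e : F × F) (g w : G) : T.vx w ∈ Hf (T.actE g⁻¹ e) ↔ T.vx (g * w) ∈ Hf e := by
  rw [T.vx_mul, ← T.act_Hf g (T.actE g⁻¹ e) (T.vx w), ← T.actE_mul, mul_inv_cancel, T.actE_one]

theorem lev_aux_Vt (e : F × F) (m : ℕ) (g w : G) :
    T.vx w ∈ Vt m (T.actE g⁻¹ e).2 ↔ T.vx (g * w) ∈ Vt m e.2 := by
  rw [T.vx_mul, ← T.act_Vt g m (T.actE g⁻¹ e).2 (T.vx w)]
  have h : T.act g (T.actE g⁻¹ e).2 = e.2 := T.act_act_inv g e.2
  rw [h]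

theorem WW_shift (e : F × F) (W1 W2 : List U.A) (s : U.S) (m : ℕ) :
    W2 ∈ WW T U m (U.run s W1) (T.actE (U.ev W1)⁻¹ e) ↔
      U.run s (W1 ++ W2) ∈ U.acc ∧ (∀ t, T.vx (U.ev (W1 ++ W2.take t)) ∈ Hf e) ∧
        T.vx (U.ev (W1 ++ W2)) ∈ Vt m e.2 := by
  show (U.run (U.run s W1) W2 ∈ U.acc ∧
    (∀ t, T.vx (U.ev (W2.take t)) ∈ Hf (T.actE (U.ev W1)⁻¹ e)) ∧
    T.vx (U.ev W2) ∈ Vt m (T.actE (U.ev W1)⁻¹ e).2) ↔ _
  simp only [UA.run_append, UA.ev_append, lev_aux_Hf, lev_aux_Vt]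

theorem rel_shift (e e' : F × F) (W1 : List U.A) (p : List U.A)
    (h : e = T.actE (U.ev p)⁻¹ e') : T.actE (U.ev W1)⁻¹ e = rel T U (p ++ W1) e' := by
  unfold rel
  rw [h, UA.ev_append, mul_inv_rev, T.actE_mul]

theorem ch_IsE (b : Bool) (e : F × F) : IsE (ch b e) := ⟨b, rfl⟩

theorem act_ch (g : G) (b : Bool) (e : F × F) : ∃ b', T.actE g (ch b e) = ch b' (T.actE g e) := by
  obtain ⟨b', hb'⟩ := T.act_pos g e.2 b
  refine ⟨b', ?_⟩
  show (T.act g e.2, T.act g (e.2 * gen b)) = (T.act g e.2, T.act g e.2 * gen b')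
  rw [hb']

theorem ww_succ {e : F × F} (he : IsE e) (m : ℕ) (s : U.S) (W : List U.A) :
    W ∈ WW T U (m + 1) s e ↔ ∃ (b : Bool) (W1 W2 : List U.A), W = W1 ++ W2 ∧ LP T U e (ch b e) W1 ∧
      W2 ∈ WW T U m (U.run s W1) (T.actE (U.ev W1)⁻¹ (ch b e)) := by
  constructor
  · rintro ⟨h1, h2, h3⟩
    obtain ⟨b, hb⟩ := Vt_succ_iff.1 h3
    have h4 : T.vx (U.ev W) ∈ Hf (ch b e) := Vt_sub (ch_IsE b e) m hb
    obtain ⟨W1, W2, rfl, hL⟩ := lst_exists T U h4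
    refine ⟨b, W1, W2, rfl, ⟨hL.1, ?_, ?_⟩, ?_⟩
    · have h5 := hL.2 0
      rw [List.take_zero, List.append_nil] at h5
      exact h5
    · intro t
      have h5 : W1.take t = (W1 ++ W2).take (min t W1.length) := by
        rw [List.take_append_of_le_length (min_le_right _ _)]
        rcases le_total t W1.length with h6 | h6
        · rw [min_eq_left h6]
        · rw [min_eq_right h6, List.take_of_length_le h6, List.take_length]
      rw [h5]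
      exact h2 _
    · rw [WW_shift]
      exact ⟨h1, hL.2, hb⟩
  · rintro ⟨b, W1, W2, rfl, hLP, hW⟩
    rw [WW_shift] at hW
    obtain ⟨h1, h2, h3⟩ := hW
    refine ⟨h1, ?_, Vt_succ_iff.2 ⟨b, h3⟩⟩
    intro t
    rcases le_total t W1.length with h6 | h6
    · rw [List.take_append_of_le_length h6]
      exact hLP.2.2 t
    · rw [List.take_append, List.take_of_length_le h6]
      exact Hf_child he b (h2 _)

theorem ww_succ_unique {e : F × F} (m : ℕ) (s : U.S) {b b' : Bool} {W1 W2 W1' W2' : List U.A}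
    (h : W1 ++ W2 = W1' ++ W2') (h1 : LP T U e (ch b e) W1)
    (h2 : W2 ∈ WW T U m (U.run s W1) (T.actE (U.ev W1)⁻¹ (ch b e)))
    (h1' : LP T U e (ch b' e) W1')
    (h2' : W2' ∈ WW T U m (U.run s W1') (T.actE (U.ev W1')⁻¹ (ch b' e))) :
    b = b' ∧ W1 = W1' ∧ W2 = W2' := by
  rw [WW_shift] at h2 h2'
  have h3 : T.vx (U.ev (W1 ++ W2)) ∈ Vt m (e.2 * gen b) := h2.2.2
  have h4 : T.vx (U.ev (W1 ++ W2)) ∈ Vt m (e.2 * gen b') := by rw [h]; exact h2'.2.2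
  have h5 : b = b' := Vt_succ_unique h3 h4
  subst h5
  exact ⟨rfl, lst_unique T U h ⟨h1.1, h2.2.1⟩ ⟨h1'.1, h2'.2.1⟩⟩

end levels

section eesec

variable (T : TP G) (U : UA G)

theorem ee_finite : (EE T U).Finite := by
  haveI := U.finA
  obtain ⟨D, hD⟩ := (Set.finite_range (fun a : U.A => T.nm (U.mu a)⁻¹)).bddAbove
  refine (sep_finite D).subset ?_
  rintro e ⟨he, h1, a, ha⟩
  exact ⟨he, h1, T.vx (U.mu a)⁻¹, hD ⟨a, rfl⟩, ha⟩
theorem ee_core {e : F × F} (he : IsE e) {P : List U.A} (hne : P ≠ [])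
    (h1 : T.vx (U.ev P) ∈ Hf e) (h2 : T.vx (U.ev P.dropLast) ∉ Hf e) :
    T.actE (U.ev P)⁻¹ e ∈ EE T U := by
  refine ⟨T.act_IsE _ _ he, ?_, P.getLast hne, ?_⟩
  · have h3 : T.act (U.ev P)⁻¹ (T.vx (U.ev P)) = 1 := T.act_inv_act _ _
    rw [← h3, T.act_Hf]
    exact h1
  · have h4 : (U.mu (P.getLast hne))⁻¹ = (U.ev P)⁻¹ * U.ev P.dropLast := by
      have h5 : U.ev P = U.ev P.dropLast * U.mu (P.getLast hne) := by
        conv_lhs => rw [← List.dropLast_append_getLast hne]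
        rw [UA.ev_append]
        simp [UA.ev]
      rw [h5]
      group
    rw [h4, T.vx_mul, T.act_Hf]
    exact h2
theorem ee_of_ent {e : F × F} (he : IsE e) {p : List U.A} (h : Ent T U e p) :
    rel T U p e ∈ EE T U := ee_core T U he h.1 h.2.1 h.2.2
theorem ee_lev {e : F × F} (he : e ∈ EE T U) (b : Bool) {W1 : List U.A}
    (h : LP T U e (ch b e) W1) : T.actE (U.ev W1)⁻¹ (ch b e) ∈ EE T U := by
  obtain ⟨h1, h2, _⟩ := h
  by_cases hne : W1 = []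
  · subst hne
    rw [UA.ev_nil, T.vx_one] at h2
    rw [UA.ev_nil, inv_one, T.actE_one]
    obtain ⟨he1, _, a, ha⟩ := he
    exact ⟨⟨b, rfl⟩, h2, a, fun h3 => ha (Hf_child he1 b h3)⟩
  · exact ee_core T U ⟨b, rfl⟩ hne h2 (h1.resolve_left hne)

end eesec

/-- coefficient of a pair node -/
def fz (T : TP G) {U : UA G} (z : PN U) : ℂ := T.om ^ (- ex z.2.1.2) * T.p z.2.2.2

/-- fibre count of pairs of entrances -/
def PprS (T : TP G) (U : UA G) : Prop :=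
  ∃ C' : ℝ, ∀ (n : ℕ) (R : ℝ), 1 ≤ R → ∀ z ∈ PZ T U,
    (PPR T U n R z).Finite ∧ ((PPR T U n R z).ncard : ℝ) ≤ C' * R ^ 2

/-- fibration of finite type pairs of tops over pair nodes -/
def FibS (T : TP G) (U : UA G) : Prop :=
  ∀ (hZ : (PZ T U).Finite) (n m : ℕ) (R : ℝ) (hP : ∀ z ∈ PZ T U, (PPR T U n R z).Finite),
    ∃ hG : (GG T U n m R).Finite, ∀ Θ : List U.A → List U.A → ℂ,
      ∑ g ∈ hG.toFinset, Θ (en T U n m g) (en T U n m (g * T.c)) =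
        ∑ z ∈ hZ.toFinset.attach, ((KS T U m z.1).ncard : ℂ) *
          ∑ P ∈ (hP z.1 (hZ.mem_toFinset.1 z.2)).toFinset, Θ P.1 P.2

/-- recursion for the number of pairs -/
def RecS (T : TP G) (U : UA G) : Prop :=
  ∀ hZ : (PZ T U).Finite, ∃ M : PN U → PN U → ℕ, ∀ m, ∀ z ∈ PZ T U,
    (KS T U (m + 1) z).ncard = ∑ z' ∈ hZ.toFinset, M z z' * (KS T U m z').ncard

theorem avg_loc (T : TP G) (q : F) (z : ℂ) : {g | T.vx g = q ∧ ‖T.p g - z‖ ≤ 1}.Finite ∧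
    ({g | T.vx g = q ∧ ‖T.p g - z‖ ≤ 1}.ncard : ℝ) ≤ 9 * T.kap := by
  rcases Set.eq_empty_or_nonempty {g | T.vx g = q ∧ ‖T.p g - z‖ ≤ 1} with h0 | ⟨g0, hg0, hg0'⟩
  · rw [h0]
    refine ⟨Set.finite_empty, ?_⟩
    rw [Set.ncard_empty]
    push_cast
    positivity
  · have hmaps : Set.MapsTo (fun g => g0⁻¹ * g) {g | T.vx g = q ∧ ‖T.p g - z‖ ≤ 1}
        {g | T.act g 1 = 1 ∧ ‖T.p g‖ ≤ 2} := by
      rintro g ⟨h1, h2⟩
      refine ⟨?_, ?_⟩
      · show T.act (g0⁻¹ * g) 1 = 1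
        rw [T.act_mul]
        have h3 : T.act g 1 = T.act g0 1 := by
          show T.vx g = T.vx g0
          rw [h1, hg0]
        rw [h3, T.act_inv_act]
      · show ‖T.p (g0⁻¹ * g)‖ ≤ 2
        rw [T.norm_p_inv_mul]
        have e : T.p g - T.p g0 = (T.p g - z) - (T.p g0 - z) := by ring
        rw [e]
        refine (norm_sub_le _ _).trans ?_
        linarith
    have hinj : Set.InjOn (fun g => g0⁻¹ * g) {g | T.vx g = q ∧ ‖T.p g - z‖ ≤ 1} :=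
      fun a _ b _ h => mul_left_cancel h
    have hfin := T.cnt_fin 1 2
    refine ⟨Set.Finite.of_injOn hmaps hinj hfin, ?_⟩
    have h1 : ({g | T.vx g = q ∧ ‖T.p g - z‖ ≤ 1}.ncard : ℝ) ≤
        ({g | T.act g 1 = 1 ∧ ‖T.p g‖ ≤ 2}.ncard : ℝ) := by
      exact_mod_cast Set.ncard_le_ncard_of_injOn _ hmaps hinj hfin
    have h2 := T.cnt 1 2 (by norm_num)
    linarith

theorem avg_loc2 (T : TP G) (m : ℕ) (q : F) (z : ℂ) :
    {g | (∃ m' ≤ m, T.vx g ∈ Vt m' q) ∧ ‖T.p g - z‖ ≤ 1}.Finite ∧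
    ({g | (∃ m' ≤ m, T.vx g ∈ Vt m' q) ∧ ‖T.p g - z‖ ≤ 1}.ncard : ℝ) ≤
      ((m + 1) * 2 ^ m) * (9 * T.kap) := by
  let VV : Finset F := (Finset.range (m + 1)).biUnion (fun m' => (Vt_finite m' q).toFinset)
  have hcard : (VV.card : ℝ) ≤ (m + 1) * 2 ^ m := by
    have h1 : VV.card ≤ ∑ m' ∈ Finset.range (m + 1), (Vt_finite m' q).toFinset.card :=
      Finset.card_biUnion_le
    have h2 : ∑ m' ∈ Finset.range (m + 1), (Vt_finite m' q).toFinset.card ≤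
        ∑ m' ∈ Finset.range (m + 1), 2 ^ m := by
      apply Finset.sum_le_sum
      intro m' hm'
      rw [← Set.ncard_eq_toFinset_card _ (Vt_finite m' q), Vt_card]
      exact Nat.pow_le_pow_right (by norm_num) (Nat.lt_succ_iff.1 (Finset.mem_range.1 hm'))
    rw [Finset.sum_const, Finset.card_range, smul_eq_mul] at h2
    have h3 := h1.trans h2
    exact_mod_cast h3
  have hsub : {g | (∃ m' ≤ m, T.vx g ∈ Vt m' q) ∧ ‖T.p g - z‖ ≤ 1} ⊆
      ⋃ q' ∈ VV, {g | T.vx g = q' ∧ ‖T.p g - z‖ ≤ 1} := by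
    rintro g ⟨⟨m', hm', h1⟩, h2⟩
    rw [Set.mem_iUnion₂]
    refine ⟨T.vx g, ?_, rfl, h2⟩
    rw [Finset.mem_biUnion]
    exact ⟨m', Finset.mem_range.2 (Nat.lt_succ_iff.2 hm'), (Set.Finite.mem_toFinset _).2 h1⟩
  have hfin : (⋃ q' ∈ VV, {g | T.vx g = q' ∧ ‖T.p g - z‖ ≤ 1}).Finite :=
    Set.Finite.biUnion (Finset.finite_toSet _) fun q' _ => (avg_loc T q' z).1
  refine ⟨hfin.subset hsub, ?_⟩
  have h1 : {g | (∃ m' ≤ m, T.vx g ∈ Vt m' q) ∧ ‖T.p g - z‖ ≤ 1}.ncard ≤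
      ∑ q' ∈ VV, {g | T.vx g = q' ∧ ‖T.p g - z‖ ≤ 1}.ncard :=
    (Set.ncard_le_ncard hsub hfin).trans (Finset.set_ncard_biUnion_le _ _)
  calc ({g | (∃ m' ≤ m, T.vx g ∈ Vt m' q) ∧ ‖T.p g - z‖ ≤ 1}.ncard : ℝ)
      ≤ ((∑ q' ∈ VV, {g | T.vx g = q' ∧ ‖T.p g - z‖ ≤ 1}.ncard : ℕ) : ℝ) := by exact_mod_cast h1
    _ = ∑ q' ∈ VV, ({g | T.vx g = q' ∧ ‖T.p g - z‖ ≤ 1}.ncard : ℝ) := by push_cast; rfl
    _ ≤ ∑ q' ∈ VV, (9 * T.kap : ℝ) := Finset.sum_le_sum fun q' _ => (avg_loc T q' z).2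
    _ = (VV.card : ℝ) * (9 * T.kap) := by rw [Finset.sum_const, nsmul_eq_mul]
    _ ≤ ((m + 1) * 2 ^ m) * (9 * T.kap) := mul_le_mul_of_nonneg_right hcard (by positivity)

theorem avg_grid (R : ℝ) (hR : 1 ≤ R) : ∃ Z : Finset ℂ, (Z.card : ℝ) ≤ 25 * R ^ 2 ∧
    ∀ z' : ℂ, ‖z'‖ ≤ R → ∃ z ∈ Z, ‖z' - z‖ ≤ 1 := by
  let N : ℤ := ⌈R⌉
  have hN1 : R ≤ N := Int.le_ceil R
  have hN2 : (N : ℝ) < R + 1 := Int.ceil_lt_add_one R
  have hN0 : 0 ≤ N := by
    have : (0 : ℝ) ≤ N := by linarith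
    exact_mod_cast this
  let Z : Finset ℂ := ((Finset.Icc (-N) N) ×ˢ (Finset.Icc (-N) N)).image
    (fun ij : ℤ × ℤ => (ij.1 : ℂ) + (ij.2 : ℂ) * Complex.I)
  refine ⟨Z, ?_, ?_⟩
  · have h1 : Z.card ≤ (2 * N + 1).toNat * (2 * N + 1).toNat := by
      refine Finset.card_image_le.trans ?_
      rw [Finset.card_product, Int.card_Icc]
      have : N + 1 - -N = 2 * N + 1 := by ring
      rw [this]
    have h2 : (((2 * N + 1).toNat : ℕ) : ℝ) = 2 * N + 1 := by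
      have : (((2 * N + 1).toNat : ℕ) : ℤ) = 2 * N + 1 := Int.toNat_of_nonneg (by omega)
      exact_mod_cast this
    have h3 : (Z.card : ℝ) ≤ (2 * N + 1) * (2 * N + 1) := by
      rw [← h2]
      exact_mod_cast h1
    have h4 : (2 * (N : ℝ) + 1) ≤ 5 * R := by linarith
    have h5 : (0 : ℝ) ≤ 2 * (N : ℝ) + 1 := by linarith
    nlinarith
  · intro z' hz'
    have hround : ∀ x : ℝ, |x| ≤ R → |x - round x| ≤ 1 / 2 ∧ round x ∈ Finset.Icc (-N) N := by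
      intro x hx
      have h1 : |x - round x| ≤ 1 / 2 := abs_sub_round x
      refine ⟨h1, ?_⟩
      rw [Finset.mem_Icc]
      have h2 := abs_le.1 hx
      have h3 := abs_le.1 h1
      have h4 : ((round x : ℤ) : ℝ) < (N : ℝ) + 1 := by linarith
      have h5 : (-(N : ℝ) - 1) < ((round x : ℤ) : ℝ) := by linarith
      have h6 : round x < N + 1 := by exact_mod_cast h4
      have h7 : -N - 1 < round x := by exact_mod_cast h5
      omega
    have hre := hround z'.re ((Complex.abs_re_le_norm z').trans hz')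
    have him := hround z'.im ((Complex.abs_im_le_norm z').trans hz')
    refine ⟨(round z'.re : ℂ) + (round z'.im : ℂ) * Complex.I, ?_, ?_⟩
    · rw [Finset.mem_image]
      exact ⟨(round z'.re, round z'.im), Finset.mem_product.2 ⟨hre.2, him.2⟩, rfl⟩
    · refine (Complex.norm_le_abs_re_add_abs_im _).trans ?_
      have e1 : (z' - ((round z'.re : ℂ) + (round z'.im : ℂ) * Complex.I)).re =
          z'.re - round z'.re := by simp
      have e2 : (z' - ((round z'.re : ℂ) + (round z'.im : ℂ) * Complex.I)).im =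
          z'.im - round z'.im := by simp
      rw [e1, e2]
      linarith [hre.1, him.1]

theorem avgS (T : TP G) (U : UA G) (h : BadS T U) : AvgS T U := by
  intro m ε hε
  set Kc : ℝ := ((m + 1) * 2 ^ m) * (9 * T.kap) with hKc
  have hKc0 : 0 ≤ Kc := by positivity
  obtain ⟨J, T0, hJ⟩ := h m (ε / (25 * (Kc + 1))) (by positivity)
  refine ⟨J, T0, 1, fun R hR => ?_⟩
  obtain ⟨Z, hZc, hZ⟩ := avg_grid R hR
  let Bz : ℂ → Set ℕ := fun z => {n : ℕ | n ≤ J ∧ ∃ w t, Bad T U m T0 z n w t}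
  -- one centre
  have hone : ∀ n ≤ J, ∀ z : ℂ, (BTop T U m T0 n R ∩ {g | ‖T.p g - z‖ ≤ 1}).Finite ∧
      ((BTop T U m T0 n R ∩ {g | ‖T.p g - z‖ ≤ 1}).ncard : ℝ) ≤ if n ∈ Bz z then Kc else 0 := by
    intro n hn z
    have hsub : BTop T U m T0 n R ∩ {g | ‖T.p g - z‖ ≤ 1} ⊆
        {g | (∃ m' ≤ m, T.vx g ∈ Vt m' (rt n).2) ∧ ‖T.p g - z‖ ≤ 1} := by
      rintro g ⟨⟨h1, -, -⟩, h2⟩
      exact ⟨h1, h2⟩
    have hl := avg_loc2 T m (rt n).2 z
    refine ⟨hl.1.subset hsub, ?_⟩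
    split_ifs with hb
    · have : ((BTop T U m T0 n R ∩ {g | ‖T.p g - z‖ ≤ 1}).ncard : ℝ) ≤
          ({g | (∃ m' ≤ m, T.vx g ∈ Vt m' (rt n).2) ∧ ‖T.p g - z‖ ≤ 1}.ncard : ℝ) := by
        exact_mod_cast Set.ncard_le_ncard hsub hl.1
      exact this.trans hl.2
    · have : BTop T U m T0 n R ∩ {g | ‖T.p g - z‖ ≤ 1} = ∅ := by
        rw [Set.eq_empty_iff_forall_notMem]
        rintro g ⟨⟨h1, -, w, t, hw, hg, h3, h4⟩, h2⟩
        apply hb
        refine ⟨hn, w, t, hw, h3, h4, ?_, ?_⟩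
        · rw [hg]; exact h1
        · rw [hg]; exact h2
      rw [this, Set.ncard_empty]
      simp
  have hsum : ∑ n ∈ Finset.range (J + 1), ((BTop T U m T0 n R).ncard : ℝ) ≤
      ∑ n ∈ Finset.range (J + 1), ε * R ^ 2 := by
    calc ∑ n ∈ Finset.range (J + 1), ((BTop T U m T0 n R).ncard : ℝ)
        ≤ ∑ n ∈ Finset.range (J + 1), ∑ z ∈ Z, (if n ∈ Bz z then Kc else 0) := by
          apply Finset.sum_le_sum
          intro n hn
          have hn' : n ≤ J := Nat.lt_succ_iff.1 (Finset.mem_range.1 hn)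
          have hsub : BTop T U m T0 n R ⊆ ⋃ z ∈ Z, (BTop T U m T0 n R ∩ {g | ‖T.p g - z‖ ≤ 1}) := by
            intro g hg
            obtain ⟨z, hz, hz'⟩ := hZ (T.p g) hg.2.1
            rw [Set.mem_iUnion₂]
            exact ⟨z, hz, hg, hz'⟩
          have hfin : (⋃ z ∈ Z, (BTop T U m T0 n R ∩ {g | ‖T.p g - z‖ ≤ 1})).Finite :=
            Set.Finite.biUnion (Finset.finite_toSet _) fun z _ => (hone n hn' z).1
          have h1 : (BTop T U m T0 n R).ncard ≤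
              ∑ z ∈ Z, (BTop T U m T0 n R ∩ {g | ‖T.p g - z‖ ≤ 1}).ncard :=
            (Set.ncard_le_ncard hsub hfin).trans (Finset.set_ncard_biUnion_le _ _)
          calc ((BTop T U m T0 n R).ncard : ℝ)
              ≤ ((∑ z ∈ Z, (BTop T U m T0 n R ∩ {g | ‖T.p g - z‖ ≤ 1}).ncard : ℕ) : ℝ) := by
                exact_mod_cast h1
            _ = ∑ z ∈ Z, ((BTop T U m T0 n R ∩ {g | ‖T.p g - z‖ ≤ 1}).ncard : ℝ) := by
                push_cast; rfl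
            _ ≤ _ := Finset.sum_le_sum fun z _ => (hone n hn' z).2
      _ = ∑ z ∈ Z, ∑ n ∈ Finset.range (J + 1), (if n ∈ Bz z then Kc else 0) := Finset.sum_comm
      _ ≤ ∑ z ∈ Z, Kc * (ε / (25 * (Kc + 1)) * (J + 1)) := by
          apply Finset.sum_le_sum
          intro z _
          rw [← Finset.sum_filter, Finset.sum_const, nsmul_eq_mul, mul_comm]
          apply mul_le_mul_of_nonneg_left _ hKc0
          have e : ((Finset.range (J + 1)).filter (fun n => n ∈ Bz z)).card = (Bz z).ncard := by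
            rw [← Set.ncard_coe_finset]
            congr 1
            ext n
            simp only [Finset.coe_filter, Finset.mem_range, Set.mem_ofPred_eq]
            constructor
            · exact fun h => h.2
            · exact fun h => ⟨Nat.lt_succ_iff.2 h.1, h⟩
          rw [e]
          exact hJ z
      _ = (Z.card : ℝ) * (Kc * (ε / (25 * (Kc + 1)) * (J + 1))) := by
          rw [Finset.sum_const, nsmul_eq_mul]
      _ ≤ (25 * R ^ 2) * (Kc * (ε / (25 * (Kc + 1)) * (J + 1))) := by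
          apply mul_le_mul_of_nonneg_right hZc
          positivity
      _ ≤ ∑ n ∈ Finset.range (J + 1), ε * R ^ 2 := by
          rw [Finset.sum_const, Finset.card_range, nsmul_eq_mul]
          have e : (25 * R ^ 2) * (Kc * (ε / (25 * (Kc + 1)) * ((J : ℝ) + 1))) =
              (Kc / (Kc + 1)) * (((J : ℝ) + 1) * (ε * R ^ 2)) := by
            field_simp
          rw [e]
          have h1 : Kc / (Kc + 1) ≤ 1 := by
            rw [div_le_one (by positivity)]; linarith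
          have h2 : 0 ≤ ((J : ℝ) + 1) * (ε * R ^ 2) := by positivity
          push_cast
          calc Kc / (Kc + 1) * (((J : ℝ) + 1) * (ε * R ^ 2)) ≤ 1 * (((J : ℝ) + 1) * (ε * R ^ 2)) :=
                mul_le_mul_of_nonneg_right h1 h2
            _ = _ := by rw [one_mul]
  obtain ⟨n, hn, hle⟩ := Finset.exists_le_of_sum_le (Finset.nonempty_range_iff.2 (Nat.succ_ne_zero J)) hsum
  exact ⟨n, Nat.lt_succ_iff.1 (Finset.mem_range.1 hn), hle⟩

theorem Tb_sub (T : TP G) (m n : ℕ) (R : ℝ) : Tb T m n R ⊆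
    ⋃ q ∈ (Vt_finite m (rt n).2).toFinset, {g | T.act g 1 = q ∧ ‖T.p g‖ ≤ R} := by
  rintro g ⟨h1, h2⟩
  rw [Set.mem_iUnion₂]
  exact ⟨T.act g 1, (Set.Finite.mem_toFinset _).mpr h1, rfl, h2⟩

theorem Tb_Vcard (m n : ℕ) : (Vt_finite m (rt n).2).toFinset.card = 2 ^ m := by
  have := Vt_card m (rt n).2
  rw [Set.ncard_eq_toFinset_card _ (Vt_finite m (rt n).2)] at this
  exact this

theorem Tb_fin (T : TP G) (m n : ℕ) (R : ℝ) : (Tb T m n R).Finite := by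
  refine Set.Finite.subset ?_ (Tb_sub T m n R)
  exact Set.Finite.biUnion (Finset.finite_toSet _) fun q _ => T.cnt_fin q R

theorem Tb_count (T : TP G) (m n : ℕ) (R : ℝ) (hR : 0 ≤ R) :
    ((Tb T m n R).ncard : ℝ) ≤ 2 ^ m * (T.kap * (R + 1) ^ 2) := by
  have h1 : (Tb T m n R).ncard ≤
      ∑ q ∈ (Vt_finite m (rt n).2).toFinset, {g | T.act g 1 = q ∧ ‖T.p g‖ ≤ R}.ncard := by
    refine (Set.ncard_le_ncard (Tb_sub T m n R)
      (Set.Finite.biUnion (Finset.finite_toSet _) fun q _ => T.cnt_fin q R)).trans ?_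
    exact Finset.set_ncard_biUnion_le _ _
  calc ((Tb T m n R).ncard : ℝ)
      ≤ ((∑ q ∈ (Vt_finite m (rt n).2).toFinset, {g | T.act g 1 = q ∧ ‖T.p g‖ ≤ R}.ncard : ℕ) :
          ℝ) := by exact_mod_cast h1
    _ = ∑ q ∈ (Vt_finite m (rt n).2).toFinset, ({g | T.act g 1 = q ∧ ‖T.p g‖ ≤ R}.ncard : ℝ) := by
        push_cast; rfl
    _ ≤ ∑ q ∈ (Vt_finite m (rt n).2).toFinset, (T.kap * (R + 1) ^ 2 : ℝ) :=
        Finset.sum_le_sum fun q _ => T.cnt q R hR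
    _ = ((Vt_finite m (rt n).2).toFinset.card : ℝ) * (T.kap * (R + 1) ^ 2) := by
        rw [Finset.sum_const, nsmul_eq_mul]
    _ = 2 ^ m * (T.kap * (R + 1) ^ 2) := by
        rw [Tb_Vcard]
        push_cast
        rfl

/-- grid points -/
def kz (x : ℕ × ℕ) : ℂ := 5 * ((x.1 : ℂ) + (x.2 : ℂ) * Complex.I)

theorem kz_norm (x : ℕ × ℕ) : ‖kz x‖ ≤ 5 * ((x.1 : ℝ) + x.2) := by
  unfold kz
  rw [norm_mul]
  have h1 : ‖(5 : ℂ)‖ = 5 := by simp
  rw [h1]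
  refine mul_le_mul_of_nonneg_left ?_ (by norm_num)
  refine (norm_add_le _ _).trans ?_
  rw [norm_mul, Complex.norm_I, mul_one]
  simp

theorem kz_sep (x y : ℕ × ℕ) (h : ‖kz x - kz y‖ ≤ 4) : x = y := by
  have hre : (kz x - kz y).re = 5 * ((x.1 : ℝ) - y.1) := by
    unfold kz
    simp
    ring
  have him : (kz x - kz y).im = 5 * ((x.2 : ℝ) - y.2) := by
    unfold kz
    simp
    ring
  have h1 := (Complex.abs_re_le_norm (kz x - kz y)).trans h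
  have h2 := (Complex.abs_im_le_norm (kz x - kz y)).trans h
  rw [hre, abs_le] at h1
  rw [him, abs_le] at h2
  have e1 : (x.1 : ℝ) < y.1 + 1 := by linarith [h1.1, h1.2]
  have e2 : (y.1 : ℝ) < x.1 + 1 := by linarith [h1.1, h1.2]
  have e3 : (x.2 : ℝ) < y.2 + 1 := by linarith [h2.1, h2.2]
  have e4 : (y.2 : ℝ) < x.2 + 1 := by linarith [h2.1, h2.2]
  have f1 : x.1 < y.1 + 1 := by exact_mod_cast e1
  have f2 : y.1 < x.1 + 1 := by exact_mod_cast e2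
  have f3 : x.2 < y.2 + 1 := by exact_mod_cast e3
  have f4 : y.2 < x.2 + 1 := by exact_mod_cast e4
  exact Prod.ext (by omega) (by omega)

theorem kap_low (T : TP G) : ∃ κ0 R1 : ℝ, 0 < κ0 ∧ 1 ≤ R1 ∧ ∀ R : ℝ, R1 ≤ R → ∀ (m n : ℕ) (S : Finset G),
    Tb T m n R ⊆ (S : Set G) → (∀ g ∈ S, T.vx g ∈ Vt m (rt n).2) →
    κ0 * 2 ^ m * R ^ 2 ≤ ∑ g ∈ S, wt R (T.p g) := by
  refine ⟨1 / 12800, 80, by norm_num, by norm_num, fun R hR m n S hS _ => ?_⟩
  choose γ hγ1 hγ2 using T.cov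
  obtain ⟨N, hN1, hN2⟩ : ∃ N : ℕ, (N : ℝ) ≤ R / 40 ∧ R / 80 ≤ N := by
    refine ⟨⌊R / 40⌋₊, Nat.floor_le (by linarith), ?_⟩
    have := Nat.lt_floor_add_one (R / 40)
    linarith
  let D : Finset (F × (ℕ × ℕ)) :=
    (Vt_finite m (rt n).2).toFinset ×ˢ (Finset.range N ×ˢ Finset.range N)
  let f : F × (ℕ × ℕ) → G := fun x => γ x.1 (kz x.2)
  have hnorm : ∀ x ∈ D, ‖T.p (f x)‖ ≤ R / 2 := by
    intro x hx
    obtain ⟨-, hx2⟩ := Finset.mem_product.1 hx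
    obtain ⟨hx3, hx4⟩ := Finset.mem_product.1 hx2
    have h3 : (x.2.1 : ℝ) ≤ N := by exact_mod_cast (Finset.mem_range.1 hx3).le
    have h4 : (x.2.2 : ℝ) ≤ N := by exact_mod_cast (Finset.mem_range.1 hx4).le
    have h5 := kz_norm x.2
    have h6 : ‖T.p (f x) - kz x.2‖ ≤ 2 := hγ2 x.1 (kz x.2)
    calc ‖T.p (f x)‖ = ‖(T.p (f x) - kz x.2) + kz x.2‖ := by rw [sub_add_cancel]
      _ ≤ ‖T.p (f x) - kz x.2‖ + ‖kz x.2‖ := norm_add_le _ _
      _ ≤ R / 2 := by linarith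
  have hinj : Set.InjOn f (D : Set (F × (ℕ × ℕ))) := by
    intro x _ y _ hxy
    have h1 : x.1 = y.1 := by
      rw [← hγ1 x.1 (kz x.2), ← hγ1 y.1 (kz y.2)]
      exact congrArg (fun g => T.act g 1) hxy
    have h2 : ‖T.p (f x) - kz x.2‖ ≤ 2 := hγ2 x.1 (kz x.2)
    have h3 : ‖T.p (f y) - kz y.2‖ ≤ 2 := hγ2 y.1 (kz y.2)
    rw [← hxy] at h3
    refine Prod.ext h1 (kz_sep _ _ ?_)
    calc ‖kz x.2 - kz y.2‖ = ‖(T.p (f x) - kz y.2) - (T.p (f x) - kz x.2)‖ := by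
          congr 1; ring
      _ ≤ ‖T.p (f x) - kz y.2‖ + ‖T.p (f x) - kz x.2‖ := norm_sub_le _ _
      _ ≤ 4 := by linarith
  have hsub : D.image f ⊆ S := by
    intro g hg
    obtain ⟨x, hx, rfl⟩ := Finset.mem_image.1 hg
    have h1 : f x ∈ Tb T m n R := by
      refine ⟨?_, (hnorm x hx).trans (by linarith)⟩
      have h2 : T.vx (f x) = x.1 := hγ1 x.1 (kz x.2)
      rw [h2]
      exact (Set.Finite.mem_toFinset _).1 (Finset.mem_product.1 hx).1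
    exact Finset.mem_coe.1 (hS h1)
  have hwt : ∀ x ∈ D, (1 / 2 : ℝ) ≤ wt R (T.p (f x)) := by
    intro x hx
    unfold wt
    refine le_trans ?_ (le_max_right _ _)
    have h1 := hnorm x hx
    have h2 : ‖T.p (f x)‖ / R ≤ 1 / 2 := by
      rw [div_le_iff₀ (by linarith)]
      linarith
    linarith
  have hcard : (D.card : ℝ) = 2 ^ m * (N * N) := by
    rw [Finset.card_product, Finset.card_product, Tb_Vcard, Finset.card_range]
    push_cast
    ring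
  calc 1 / 12800 * 2 ^ m * R ^ 2 = 2 ^ m * ((R / 80) * (R / 80)) * (1 / 2) := by ring
    _ ≤ 2 ^ m * ((N : ℝ) * N) * (1 / 2) := by
        refine mul_le_mul_of_nonneg_right ?_ (by norm_num)
        refine mul_le_mul_of_nonneg_left ?_ (by positivity)
        exact mul_le_mul hN2 hN2 (by linarith) (by positivity)
    _ = ∑ x ∈ D, (1 / 2 : ℝ) := by rw [Finset.sum_const, nsmul_eq_mul, hcard]
    _ ≤ ∑ x ∈ D, wt R (T.p (f x)) := Finset.sum_le_sum hwt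
    _ = ∑ g ∈ D.image f, wt R (T.p g) := 
        (Finset.sum_image (f := fun g => wt R (T.p g)) hinj).symm
    _ ≤ ∑ g ∈ S, wt R (T.p g) := by
        refine Finset.sum_le_sum_of_subset_of_nonneg hsub fun g _ _ => ?_
        unfold wt
        exact le_max_left _ _

theorem wt_nonneg (R : ℝ) (z : ℂ) : 0 ≤ wt R z := le_max_left _ _
theorem wt_le_one {R : ℝ} (hR : 0 < R) (z : ℂ) : wt R z ≤ 1 := by
  unfold wt
  refine max_le zero_le_one ?_
  have : 0 ≤ ‖z‖ / R := by positivity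
  linarith
theorem wt_zero {R : ℝ} (hR : 0 < R) {z : ℂ} (h : R ≤ ‖z‖) : wt R z = 0 := by
  unfold wt
  apply max_eq_left
  have : 1 ≤ ‖z‖ / R := by rw [le_div_iff₀ hR]; linarith
  linarith
theorem wt_lip {R : ℝ} (hR : 0 < R) (z z' : ℂ) : |wt R z - wt R z'| ≤ ‖z - z'‖ / R := by
  unfold wt
  rw [max_comm 0, max_comm 0]
  refine (abs_max_sub_max_le_abs _ _ _).trans ?_
  have h1 : (1 - ‖z‖ / R) - (1 - ‖z'‖ / R) = (‖z'‖ - ‖z‖) / R := by ring
  rw [h1, abs_div, abs_of_pos hR]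
  apply div_le_div_of_nonneg_right _ hR.le
  rw [norm_sub_rev]
  exact abs_norm_sub_norm_le z' z
theorem sum_parts (c : G) (φ : G → ℝ) (δ : G → ℂ) (S : Finset G)
    (hφ : ∀ g, g ∉ S → φ g = 0 ∧ φ (g * c⁻¹) = 0) (Cδ η : ℝ)
    (hδ : ∀ g ∈ S, ‖δ g‖ ≤ Cδ) (hη : ∀ g ∈ S, |φ (g * c⁻¹) - φ g| ≤ η) (hη0 : 0 ≤ η) :
    ‖∑ g ∈ S, (φ g : ℂ) * (δ (g * c) - δ g)‖ ≤ S.card * (η * Cδ) := by
  have h1 : ∑ g ∈ S, (φ g : ℂ) * δ (g * c) = ∑ g ∈ S, (φ (g * c⁻¹) : ℂ) * δ g := by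
    have h2 : ∑ g ∈ S, (φ g : ℂ) * δ (g * c) =
        ∑ g ∈ S.map (Equiv.mulRight c).toEmbedding, (φ (g * c⁻¹) : ℂ) * δ g := by
      rw [Finset.sum_map]
      refine Finset.sum_congr rfl fun g _ => ?_
      simp
    rw [h2]
    have h3 : ∑ g ∈ S.map (Equiv.mulRight c).toEmbedding, (φ (g * c⁻¹) : ℂ) * δ g =
        ∑ g ∈ S.map (Equiv.mulRight c).toEmbedding ∪ S, (φ (g * c⁻¹) : ℂ) * δ g := by
      apply Finset.sum_subset Finset.subset_union_left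
      intro g _ hg
      have h4 : g * c⁻¹ ∉ S := by
        intro h5
        apply hg
        rw [Finset.mem_map]
        exact ⟨g * c⁻¹, h5, by simp⟩
      rw [(hφ _ h4).1]; simp
    have h3' : ∑ g ∈ S, (φ (g * c⁻¹) : ℂ) * δ g =
        ∑ g ∈ S.map (Equiv.mulRight c).toEmbedding ∪ S, (φ (g * c⁻¹) : ℂ) * δ g := by
      apply Finset.sum_subset Finset.subset_union_right
      intro g _ hg
      rw [(hφ _ hg).2]; simp
    rw [h3, h3']
  have h2 : ∑ g ∈ S, (φ g : ℂ) * (δ (g * c) - δ g) =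
      ∑ g ∈ S, ((φ (g * c⁻¹) - φ g : ℝ) : ℂ) * δ g := by
    calc ∑ g ∈ S, (φ g : ℂ) * (δ (g * c) - δ g)
        = ∑ g ∈ S, (φ g : ℂ) * δ (g * c) - ∑ g ∈ S, (φ g : ℂ) * δ g := by
          rw [← Finset.sum_sub_distrib]
          exact Finset.sum_congr rfl fun g _ => by ring
      _ = ∑ g ∈ S, ((φ (g * c⁻¹) - φ g : ℝ) : ℂ) * δ g := by
          rw [h1, ← Finset.sum_sub_distrib]
          exact Finset.sum_congr rfl fun g _ => by push_cast; ring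
  rw [h2]
  calc ‖∑ g ∈ S, ((φ (g * c⁻¹) - φ g : ℝ) : ℂ) * δ g‖
      ≤ ∑ g ∈ S, ‖((φ (g * c⁻¹) - φ g : ℝ) : ℂ) * δ g‖ := norm_sum_le _ _
    _ ≤ ∑ _g ∈ S, η * Cδ := by
        apply Finset.sum_le_sum
        intro g hg
        rw [norm_mul, Complex.norm_real, Real.norm_eq_abs]
        exact mul_le_mul (hη g hg) (hδ g hg) (norm_nonneg _) hη0
    _ = S.card * (η * Cδ) := by rw [Finset.sum_const, nsmul_eq_mul]

/-- realised level pieces -/
def L1S (T : TP G) (U : UA G) (s : U.S) (e : F × F) : Set (List U.A) :=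
  {W1 | ∃ (b : Bool) (m : ℕ) (W2 : List U.A), LP T U e (ch b e) W1 ∧
    W2 ∈ WW T U m (U.run s W1) (T.actE (U.ev W1)⁻¹ (ch b e))}

theorem l1s_ft (T : TP G) (U : UA G) {s : U.S} {e : F × F} (he : e ∈ EE T U) (hF : FT T U s e)
    {b : Bool} {W1 : List U.A} (hL : LP T U e (ch b e) W1) :
    FT T U (U.run s W1) (T.actE (U.ev W1)⁻¹ (ch b e)) := by
  intro m
  refine Set.Finite.of_injOn (f := fun W2 => W1 ++ W2) (t := WW T U (m + 1) s e) ?_ ?_ (hF (m + 1))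
  · intro W2 hW2
    exact (ww_succ T U he.1 m s _).2 ⟨b, W1, W2, rfl, hL, hW2⟩
  · intro a _ c _ h
    exact List.append_cancel_left h

theorem l1s_finite (T : TP G) (U : UA G) {s : U.S} {e : F × F} (he : e ∈ EE T U)
    (hF : FT T U s e) : (L1S T U s e).Finite := by
  haveI := U.finS
  have hEE : (EE T U).Finite := ee_finite T U
  have hfin : (⋃ z ∈ ((Set.univ : Set (Bool × U.S)) ×ˢ (EE T U)),
      {W1 : List U.A | LP T U e (ch z.1.1 e) W1 ∧ U.run s W1 = z.1.2 ∧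
        T.actE (U.ev W1)⁻¹ (ch z.1.1 e) = z.2 ∧ ∃ m W2, W2 ∈ WW T U m z.1.2 z.2}).Finite := by
    refine Set.Finite.biUnion (Set.finite_univ.prod hEE) ?_
    rintro ⟨⟨b, s1⟩, e1⟩ _
    by_cases hex : ∃ m W2, W2 ∈ WW T U m s1 e1
    · obtain ⟨m, W2, hW2⟩ := hex
      refine Set.Finite.of_injOn (f := fun W1 => W1 ++ W2) (t := WW T U (m + 1) s e) ?_ ?_ (hF (m + 1))
      · rintro W1 ⟨h1, h2, h3, _⟩
        refine (ww_succ T U he.1 m s _).2 ⟨b, W1, W2, rfl, h1, ?_⟩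
        simp only at h1 h2 h3
        rw [h2, h3]
        exact hW2
      · intro a _ c _ h
        exact List.append_cancel_right h
    · refine Set.Finite.subset Set.finite_empty ?_
      rintro W1 ⟨_, _, _, h4⟩
      exact hex h4
  refine hfin.subset ?_
  rintro W1 ⟨b, m, W2, h1, h2⟩
  have hee := ee_lev T U he b h1
  refine Set.mem_biUnion (x := ((b, U.run s W1), T.actE (U.ev W1)⁻¹ (ch b e))) ?_ ?_
  · exact ⟨Set.mem_univ _, hee⟩
  · exact ⟨h1, rfl, rfl, m, W2, h2⟩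

theorem lenWS (T : TP G) (U : UA G) : LenWS T U := by
  haveI := U.finS
  have hEE : (EE T U).Finite := ee_finite T U
  have hfin : (⋃ z ∈ ((Set.univ : Set U.S) ×ˢ (EE T U)),
      {W : List U.A | z.2 ∈ EE T U ∧ FT T U z.1 z.2 ∧
        (W ∈ L1S T U z.1 z.2 ∨ W ∈ WW T U 0 z.1 z.2)}).Finite := by
    refine Set.Finite.biUnion (Set.finite_univ.prod hEE) ?_
    rintro ⟨s, e⟩ _
    by_cases h : e ∈ EE T U ∧ FT T U s e
    · refine ((l1s_finite T U h.1 h.2).union (h.2 0)).subset ?_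
      rintro W ⟨_, _, h3⟩
      exact h3
    · refine Set.Finite.subset Set.finite_empty ?_
      rintro W ⟨h1, h2, _⟩
      exact h ⟨h1, h2⟩
  obtain ⟨τ, hτ⟩ := (hfin.image List.length).bddAbove
  have hb : ∀ (s : U.S) (e : F × F), e ∈ EE T U → FT T U s e → ∀ W,
      (W ∈ L1S T U s e ∨ W ∈ WW T U 0 s e) → W.length ≤ τ := by
    intro s e he hF W hW
    apply hτ
    refine ⟨W, ?_, rfl⟩
    exact Set.mem_biUnion (x := (s, e)) ⟨Set.mem_univ _, he⟩ ⟨he, hF, hW⟩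
  refine ⟨τ, ?_⟩
  have key : ∀ m, ∀ (s : U.S) (e : F × F), e ∈ EE T U → FT T U s e → ∀ W ∈ WW T U m s e,
      W.length ≤ (m + 1) * τ ∧ ∀ i ≤ m, ∀ t, i * τ ≤ t → i ≤ dT e.2 (T.vx (U.ev (W.take t))) := by
    intro m
    induction m with
    | zero =>
      intro s e he hF W hW
      refine ⟨?_, ?_⟩
      · have := hb s e he hF W (Or.inr hW)
        omega
      · intro i hi t _
        omega
    | succ m ih =>
      intro s e he hF W hW
      obtain ⟨b, W1, W2, rfl, hL, hW2⟩ := (ww_succ T U he.1 m s W).1 hW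
      have h1 : W1.length ≤ τ := hb s e he hF W1 (Or.inl ⟨b, m, W2, hL, hW2⟩)
      obtain ⟨h2, h3⟩ := ih _ _ (ee_lev T U he b hL) (l1s_ft T U he hF hL) W2 hW2
      refine ⟨?_, ?_⟩
      · rw [List.length_append]
        have : (m + 1 + 1) * τ = (m + 1) * τ + τ := by ring
        omega
      · intro i hi t ht
        rcases Nat.eq_zero_or_pos i with h0 | h0
        · rw [h0]; exact Nat.zero_le _
        · obtain ⟨j, rfl⟩ : ∃ j, i = j + 1 := ⟨i - 1, by omega⟩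
          have h4 : (j + 1) * τ = j * τ + τ := by ring
          have h5 : j * τ ≤ t - W1.length := by omega
          have h6 := h3 j (by omega) (t - W1.length) h5
          have h7 : (W1 ++ W2).take t = W1 ++ W2.take (t - W1.length) := by
            rw [List.take_append, List.take_of_length_le (by omega)]
          rw [h7]
          have h8 : T.vx (U.ev (W2.take (t - W1.length))) ∈ Hf (T.actE (U.ev W1)⁻¹ (ch b e)) :=
            hW2.2.1 _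
          rw [lev_aux_Hf] at h8
          rw [UA.ev_append]
          have h9 := Hf_mem (ch_IsE b e) _ h8
          have h10 : dT (T.actE (U.ev W1)⁻¹ (ch b e)).2 (T.vx (U.ev (W2.take (t - W1.length)))) =
              dT (ch b e).2 (T.vx (U.ev W1 * U.ev (W2.take (t - W1.length)))) := by
            rw [T.vx_mul, ← T.act_dist (U.ev W1)]
            congr 1
            exact T.act_act_inv (U.ev W1) (ch b e).2
          rw [h10] at h6
          have h11 : dT (ch b e).1 (T.vx (U.ev W1 * U.ev (W2.take (t - W1.length)))) =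
              dT e.2 (T.vx (U.ev W1 * U.ev (W2.take (t - W1.length)))) := rfl
          omega
  intro s e he hF m W hW
  exact key m s e he hF W hW

theorem pb_one (T : TP G) (U : UA G) {τ1 : ℕ}
    (hτ : ∀ (s : U.S) (e : F × F), e ∈ EE T U → FT T U s e → ∀ m, ∀ W ∈ WW T U m s e,
      W.length ≤ (m + 1) * τ1 ∧ ∀ i ≤ m, ∀ t, i * τ1 ≤ t → i ≤ dT e.2 (T.vx (U.ev (W.take t))))
    (g : G) (D : Set G) (Kd C1 : ℕ)
    (hD : ∀ w ∈ U.L, ∀ w' ∈ U.L, U.ev w * g = U.ev w' →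
      ∀ t : ℕ, (U.ev (w.take t))⁻¹ * U.ev (w'.take t) ∈ D)
    (hK : ∀ d ∈ D, T.nm d ≤ Kd)
    (hC : ∀ w ∈ U.L, ∀ w' ∈ U.L, U.ev w * g = U.ev w' → w'.length ≤ w.length + C1)
    (e : F × F) (he : IsE e) (m : ℕ) (p p' W W' : List U.A)
    (hp : Ent T U e p) (hp' : Ent T U e p')
    (hf : FT T U (U.run U.s0 p) (rel T U p e))
    (hW : W ∈ WW T U m (U.run U.s0 p) (rel T U p e))
    (hW' : W' ∈ WW T U m (U.run U.s0 p') (rel T U p' e))
    (hev : U.ev (p ++ W) * g = U.ev (p' ++ W')) (hle : p.length ≤ p'.length) :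
    (U.ev p)⁻¹ * U.ev p' ∈ (fun q : G × List U.A => q.1 * U.ev q.2) ''
      (D ×ˢ {w : List U.A | w.length ≤ (Kd + 2) * τ1 + C1 + 1}) := by
  have hL : p ++ W ∈ U.L := by
    rw [UA.mem_L, UA.run_append]
    exact hW.1
  have hL' : p' ++ W' ∈ U.L := by
    rw [UA.mem_L, UA.run_append]
    exact hW'.1
  have hB : p'.length ≤ p.length + ((Kd + 2) * τ1 + C1 + 1) := by
    by_contra hcon
    have hcon : p.length + ((Kd + 2) * τ1 + C1 + 1) < p'.length := by omega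
    obtain ⟨h3, h4⟩ := hτ _ _ (ee_of_ent T U he hp) hf m W hW
    rcases Nat.lt_or_ge Kd m with hm | hm
    · -- m ≥ Kd + 1
      obtain ⟨r, hr⟩ : ∃ r, r = p'.length - 1 - p.length := ⟨_, rfl⟩
      have hmul : (Kd + 2) * τ1 = (Kd + 1) * τ1 + τ1 := by ring
      have hr2 : (Kd + 1) * τ1 ≤ r := by omega
      have h5 := h4 (Kd + 1) hm r hr2
      have e1 : (p ++ W).take (p'.length - 1) = p ++ W.take r := by
        rw [List.take_append, List.take_of_length_le (l := p) (by omega), ← hr]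
      have e2 : (p' ++ W').take (p'.length - 1) = p'.dropLast := by
        rw [List.dropLast_eq_take, List.take_append_of_le_length (by omega)]
      have h6 := hK _ (hD _ hL _ hL' hev (p'.length - 1))
      rw [e1, e2, T.nm_inv_mul] at h6
      have hv : T.vx (U.ev (p ++ W.take r)) ∈ Hf e := by
        rw [UA.ev_append, ← lev_aux_Hf]
        exact hW.2.1 r
      have hv' : T.vx (U.ev p'.dropLast) ∉ Hf e := hp'.2.2
      have h7 := Hf_cross he hv hv'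
      have h8 : dT (rel T U p e).2 (T.vx (U.ev (W.take r))) = dT (T.vx (U.ev (p ++ W.take r))) e.2 := by
        rw [dT_comm (T.vx (U.ev (p ++ W.take r))) e.2, UA.ev_append, T.vx_mul, ← T.act_dist (U.ev p)]
        show dT (T.act (U.ev p) (T.act (U.ev p)⁻¹ e.2)) _ = _
        rw [T.act_act_inv]
      rw [h8] at h5
      omega
    · have h5 := hC _ hL _ hL' hev
      rw [List.length_append, List.length_append] at h5
      have h6 : (m + 1) * τ1 ≤ (Kd + 2) * τ1 := Nat.mul_le_mul_right _ (by omega)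
      omega
  refine ⟨((U.ev p)⁻¹ * U.ev (p'.take p.length), p'.drop p.length), ⟨?_, ?_⟩, ?_⟩
  · have h := hD _ hL _ hL' hev p.length
    rw [List.take_append_of_le_length le_rfl, List.take_length,
      List.take_append_of_le_length hle] at h
    exact h
  · show (p'.drop p.length).length ≤ _
    rw [List.length_drop]
    omega
  · show (U.ev p)⁻¹ * U.ev (p'.take p.length) * U.ev (p'.drop p.length) = (U.ev p)⁻¹ * U.ev p'
    rw [mul_assoc, ← UA.ev_append, List.take_append_drop]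

theorem pbS (T : TP G) (U : UA G) (h1 : LenWS T U) (h2 : LenS U) : PBS T U := by
  obtain ⟨τ1, hτ⟩ := h1
  obtain ⟨D, hDf, hD⟩ := U.ft' T.c
  obtain ⟨D', hDf', hD'⟩ := U.ft' T.c⁻¹
  obtain ⟨C1, hC⟩ := h2 T.c
  obtain ⟨C1', hC'⟩ := h2 T.c⁻¹
  obtain ⟨Kd, hK⟩ := (hDf.image T.nm).bddAbove
  obtain ⟨Kd', hK'⟩ := (hDf'.image T.nm).bddAbove
  have hKK : ∀ d ∈ D, T.nm d ≤ Kd := fun d hd => hK ⟨d, hd, rfl⟩
  have hKK' : ∀ d ∈ D', T.nm d ≤ Kd' := fun d hd => hK' ⟨d, hd, rfl⟩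
  refine ⟨((fun q : G × List U.A => q.1 * U.ev q.2) ''
      (D ×ˢ {w : List U.A | w.length ≤ (Kd + 2) * τ1 + C1 + 1})) ∪
    ((fun x : G => x⁻¹) '' ((fun q : G × List U.A => q.1 * U.ev q.2) ''
      (D' ×ˢ {w : List U.A | w.length ≤ (Kd' + 2) * τ1 + C1' + 1}))), ?_, ?_⟩
  · exact ((hDf.prod (U.finite_le _)).image _).union (((hDf'.prod (U.finite_le _)).image _).image _)
  · intro e he _ m p p' W W' hp hp' hf hf' hW hW' hev
    rcases le_total p.length p'.length with hle | hle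
    · left
      exact pb_one T U hτ T.c D Kd C1 hD hKK hC e he m p p' W W' hp hp' hf hW hW' hev hle
    · right
      refine ⟨(U.ev p')⁻¹ * U.ev p, ?_, ?_⟩
      · refine pb_one T U hτ T.c⁻¹ D' Kd' C1' hD' hKK' hC' e he m p' p W' W hp' hp hf' hW' hW ?_ hle
        rw [← hev, mul_inv_cancel_right]
      · show ((U.ev p')⁻¹ * U.ev p)⁻¹ = (U.ev p)⁻¹ * U.ev p'
        rw [mul_inv_rev, inv_inv]

theorem nd_rel (T : TP G) (U : UA G) (e : F × F) (p p' : List U.A) :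
    T.actE (nd T U e p p').2.2.2⁻¹ (nd T U e p p').2.1 = rel T U p' e := by
  show T.actE ((U.ev p)⁻¹ * U.ev p')⁻¹ (T.actE (U.ev p)⁻¹ e) = T.actE (U.ev p')⁻¹ e
  rw [← T.actE_mul]
  congr 1
  group
theorem ks_root (T : TP G) (U : UA G) {e : F × F} {p p' : List U.A} {m : ℕ} {W W' : List U.A} :
    (W, W') ∈ KS T U m (nd T U e p p') ↔ W ∈ WW T U m (U.run U.s0 p) (rel T U p e) ∧
      W' ∈ WW T U m (U.run U.s0 p') (rel T U p' e) ∧ U.ev (p ++ W) * T.c = U.ev (p' ++ W') := by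
  have h0 : (W, W') ∈ KS T U m (nd T U e p p') ↔ (W ∈ WW T U m (U.run U.s0 p) (rel T U p e) ∧
      W' ∈ WW T U m (U.run U.s0 p') (T.actE (nd T U e p p').2.2.2⁻¹ (nd T U e p p').2.1) ∧
      U.ev W * T.c = ((U.ev p)⁻¹ * U.ev p') * U.ev W') := Iff.rfl
  rw [h0, nd_rel, UA.ev_append, UA.ev_append]
  have h1 : U.ev W * T.c = ((U.ev p)⁻¹ * U.ev p') * U.ev W' ↔
      U.ev p * U.ev W * T.c = U.ev p' * U.ev W' := by
    constructor
    · intro h
      rw [mul_assoc, h]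
      group
    · intro h
      rw [mul_assoc (U.ev p)⁻¹, ← h]
      group
  rw [h1]
theorem pz_ee (T : TP G) (U : UA G) {z : PN U} (hz : z ∈ PZ T U) :
    z.2.1 ∈ EE T U ∧ T.actE z.2.2.2⁻¹ z.2.1 ∈ EE T U := by
  obtain ⟨⟨e, p, p', he, _, hp, hp', rfl⟩, _⟩ := hz
  refine ⟨ee_of_ent T U he hp, ?_⟩
  rw [nd_rel]
  exact ee_of_ent T U he hp'
theorem ks_finite (T : TP G) (U : UA G) {z : PN U} (hz : z ∈ PZ T U) (m : ℕ) : (KS T U m z).Finite := by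
  obtain ⟨_, h1, h2, _⟩ := hz
  refine ((h1 m).prod (h2 m)).subset ?_
  rintro ⟨W, W'⟩ ⟨ha, hb, _⟩
  exact ⟨ha, hb⟩
theorem pz_finite (T : TP G) (U : UA G) (h : PBS T U) : (PZ T U).Finite := by
  haveI := U.finS
  obtain ⟨DD, hDD, h⟩ := h
  have hfin : ((Set.univ : Set U.S) ×ˢ ((EE T U) ×ˢ ((Set.univ : Set U.S) ×ˢ DD))).Finite :=
    (Set.finite_univ).prod ((ee_finite T U).prod ((Set.finite_univ).prod hDD))
  refine hfin.subset ?_
  intro z hz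
  have hee := (pz_ee T U hz).1
  obtain ⟨⟨e, p, p', he, he1, hp, hp', rfl⟩, h1, h2, m, ⟨⟨W, W'⟩, hK⟩⟩ := hz
  rw [nd_rel] at h2
  rw [ks_root] at hK
  refine ⟨trivial, hee, trivial, ?_⟩
  exact h e he he1 m p p' W W' hp hp' h1 h2 hK.1 hK.2.1 hK.2.2
theorem pp_diff (T : TP G) (U : UA G) {n : ℕ} {z : PN U} {P : List U.A × List U.A} (h : P ∈ PP T U n z) :
    T.p (U.ev P.2) - T.p (U.ev P.1) = T.om ^ ((n : ℤ) + 1) * (T.om ^ (- ex z.2.1.2) * T.p z.2.2.2) := by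
  obtain ⟨_, _, rfl⟩ := h
  have h1 : ex (nd T U (rt n) P.1 P.2).2.1.2 = - T.tau (U.ev P.1) + ((n : ℤ) + 1) := by
    show ex (T.act (U.ev P.1)⁻¹ (rt n).2) = _
    rw [T.ex_act, T.tau_inv, rt_ex_snd]
  have h2 : T.p (nd T U (rt n) P.1 P.2).2.2.2 =
      T.om ^ (- T.tau (U.ev P.1)) * (T.p (U.ev P.2) - T.p (U.ev P.1)) := T.p_inv_mul _ _
  rw [h1, h2, ← mul_assoc, ← mul_assoc, ← zpow_add₀ T.om_ne_zero, ← zpow_add₀ T.om_ne_zero]
  have h3 : (n : ℤ) + 1 + -(-T.tau (U.ev P.1) + ((n : ℤ) + 1)) + -T.tau (U.ev P.1) = 0 := by ring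
  rw [h3, zpow_zero, one_mul]

/-- next node -/
def rcN (T : TP G) (U : UA G) (z : PN U) (b : Bool) (W1 W1' : List U.A) : PN U :=
  (U.run z.1 W1, T.actE (U.ev W1)⁻¹ (ch b z.2.1), U.run z.2.2.1 W1',
    (U.ev W1)⁻¹ * z.2.2.2 * U.ev W1')

/-- level pieces of pairs -/
def rcM (T : TP G) (U : UA G) (z z' : PN U) : Set (List U.A × List U.A) :=
  {P | ∃ b, LP T U z.2.1 (ch b z.2.1) P.1 ∧
    LP T U (T.actE z.2.2.2⁻¹ z.2.1) (T.actE z.2.2.2⁻¹ (ch b z.2.1)) P.2 ∧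
    z' = rcN T U z b P.1 P.2}

theorem rc_act (T : TP G) (U : UA G) (z : PN U) (b : Bool) (W1 W1' : List U.A) :
    T.actE (rcN T U z b W1 W1').2.2.2⁻¹ (rcN T U z b W1 W1').2.1 =
      T.actE (U.ev W1')⁻¹ (T.actE z.2.2.2⁻¹ (ch b z.2.1)) := by
  unfold rcN
  simp only
  rw [← T.actE_mul, ← T.actE_mul]
  congr 1
  group

theorem rc_KS (T : TP G) (U : UA G) (m : ℕ) (z : PN U) (b : Bool) (W1 W1' : List U.A)
    (Q : List U.A × List U.A) :
    Q ∈ KS T U m (rcN T U z b W1 W1') ↔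
      Q.1 ∈ WW T U m (U.run z.1 W1) (T.actE (U.ev W1)⁻¹ (ch b z.2.1)) ∧
      Q.2 ∈ WW T U m (U.run z.2.2.1 W1') (T.actE (U.ev W1')⁻¹ (T.actE z.2.2.2⁻¹ (ch b z.2.1))) ∧
      U.ev (W1 ++ Q.1) * T.c = z.2.2.2 * U.ev (W1' ++ Q.2) := by
  have h1 : (U.ev Q.1 * T.c = (rcN T U z b W1 W1').2.2.2 * U.ev Q.2) ↔
      U.ev (W1 ++ Q.1) * T.c = z.2.2.2 * U.ev (W1' ++ Q.2) := by
    rw [UA.ev_append, UA.ev_append]
    show (U.ev Q.1 * T.c = (U.ev W1)⁻¹ * z.2.2.2 * U.ev W1' * U.ev Q.2) ↔ _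
    rw [mul_assoc ((U.ev W1)⁻¹ * z.2.2.2), mul_assoc (U.ev W1)⁻¹, eq_inv_mul_iff_mul_eq,
      ← mul_assoc (U.ev W1)]
  show (Q.1 ∈ WW T U m (rcN T U z b W1 W1').1 (rcN T U z b W1 W1').2.1 ∧
    Q.2 ∈ WW T U m (rcN T U z b W1 W1').2.2.1
      (T.actE (rcN T U z b W1 W1').2.2.2⁻¹ (rcN T U z b W1 W1').2.1) ∧ _) ↔ _
  rw [rc_act, h1]
  rfl

theorem rc_into (T : TP G) (U : UA G) {m : ℕ} {z z' : PN U} (he : IsE z.2.1)
    {P Q : List U.A × List U.A} (hP : P ∈ rcM T U z z') (hQ : Q ∈ KS T U m z') :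
    (P.1 ++ Q.1, P.2 ++ Q.2) ∈ KS T U (m + 1) z := by
  obtain ⟨b, h1, h2, rfl⟩ := hP
  rw [rc_KS] at hQ
  obtain ⟨q1, q2, q3⟩ := hQ
  refine ⟨?_, ?_, q3⟩
  · exact (ww_succ T U he m z.1 _).2 ⟨b, P.1, Q.1, rfl, h1, q1⟩
  · obtain ⟨b', hb'⟩ := act_ch T z.2.2.2⁻¹ b z.2.1
    rw [hb'] at h2 q2
    exact (ww_succ T U (T.act_IsE _ _ he) m z.2.2.1 _).2 ⟨b', P.2, Q.2, rfl, h2, q2⟩

theorem rc_inj (T : TP G) (U : UA G) {m : ℕ} {z z' z'' : PN U}
    {P Q P' Q' : List U.A × List U.A} (hP : P ∈ rcM T U z z') (hQ : Q ∈ KS T U m z')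
    (hP' : P' ∈ rcM T U z z'') (hQ' : Q' ∈ KS T U m z'')
    (h : (P.1 ++ Q.1, P.2 ++ Q.2) = (P'.1 ++ Q'.1, P'.2 ++ Q'.2)) :
    z' = z'' ∧ P = P' ∧ Q = Q' := by
  obtain ⟨b, h1, h2, rfl⟩ := hP
  obtain ⟨c, h1', h2', rfl⟩ := hP'
  rw [rc_KS] at hQ hQ'
  obtain ⟨q1, q2, -⟩ := hQ
  obtain ⟨q1', q2', -⟩ := hQ'
  have ha := congrArg Prod.fst h
  have hb := congrArg Prod.snd h
  simp only at ha hb
  obtain ⟨e1, e2, e3⟩ := ww_succ_unique T U m z.1 ha h1 q1 h1' q1'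
  subst e1
  obtain ⟨b', hb'⟩ := act_ch T z.2.2.2⁻¹ b z.2.1
  rw [hb'] at h2 q2 h2' q2'
  obtain ⟨-, e4, e5⟩ := ww_succ_unique T U m z.2.2.1 hb h2 q2 h2' q2'
  refine ⟨?_, Prod.ext e2 e4, Prod.ext e3 e5⟩
  rw [e2, e4]

theorem rc_ent (T : TP G) (U : UA G) {e0 e0' ec : F × F} {p W1 : List U.A} (hEnt : Ent T U e0 p)
    (hsub : Hf e0' ⊆ Hf e0) (hec : ec = T.actE (U.ev p)⁻¹ e0')
    (h1 : W1 = [] ∨ T.vx (U.ev W1.dropLast) ∉ Hf ec) (h2 : T.vx (U.ev W1) ∈ Hf ec) :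
    Ent T U e0' (p ++ W1) := by
  refine ⟨?_, ?_, ?_⟩
  · intro h
    exact hEnt.1 (List.append_eq_nil_iff.1 h).1
  · rw [hec, lev_aux_Hf] at h2
    rw [UA.ev_append]
    exact h2
  · by_cases hne : W1 = []
    · rw [hne, List.append_nil]
      exact fun h => hEnt.2.2 (hsub h)
    · have h3 := h1.resolve_left hne
      rw [List.dropLast_append_of_ne_nil hne, UA.ev_append]
      rw [hec, lev_aux_Hf] at h3
      exact h3

theorem rc_FT (T : TP G) (U : UA G) {s : U.S} {e : F × F} (he : IsE e) (hFT : FT T U s e)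
    {b : Bool} {W1 : List U.A} (h : LP T U e (ch b e) W1) :
    FT T U (U.run s W1) (T.actE (U.ev W1)⁻¹ (ch b e)) := by
  intro m
  refine ((hFT (m + 1)).preimage ((List.append_right_injective W1).injOn)).subset ?_
  intro W2 hW2
  exact (ww_succ T U he m s _).2 ⟨b, W1, W2, rfl, h, hW2⟩

theorem rc_onto (T : TP G) (U : UA G) {m : ℕ} {z : PN U} (hz : z ∈ PZ T U)
    {R : List U.A × List U.A} (hR : R ∈ KS T U (m + 1) z) :
    ∃ z' ∈ PZ T U, ∃ P ∈ rcM T U z z', ∃ Q ∈ KS T U m z', (P.1 ++ Q.1, P.2 ++ Q.2) = R := by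
  obtain ⟨⟨e0, p, p', he0, h10, hEp, hEp', hznd⟩, hF1, hF2, -⟩ := hz
  have hs : z.1 = U.run U.s0 p := by rw [hznd]; rfl
  have he : z.2.1 = T.actE (U.ev p)⁻¹ e0 := by rw [hznd]; rfl
  have hs' : z.2.2.1 = U.run U.s0 p' := by rw [hznd]; rfl
  have hd : z.2.2.2 = (U.ev p)⁻¹ * U.ev p' := by rw [hznd]; rfl
  have heE : IsE z.2.1 := by rw [he]; exact T.act_IsE _ _ he0
  have heE' : IsE (T.actE z.2.2.2⁻¹ z.2.1) := T.act_IsE _ _ heE
  obtain ⟨r1, r2, r3⟩ := hR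
  obtain ⟨b, W1, W2, hW, hLP, hW2⟩ := (ww_succ T U heE m z.1 R.1).1 r1
  obtain ⟨b'', W1', W2', hW', hLP', hW2'⟩ := (ww_succ T U heE' m z.2.2.1 R.2).1 r2
  obtain ⟨b', hb'⟩ := act_ch T z.2.2.2⁻¹ b z.2.1
  -- the two children agree
  have hbb : b' = b'' := by
    have k1 : T.vx (U.ev R.1) ∈ Vt m (ch b z.2.1).2 := by
      have := ((WW_shift T U (ch b z.2.1) W1 W2 z.1 m).1 hW2).2.2
      rw [← hW] at this
      exact this
    have k2 : T.vx (U.ev R.2) ∈ Vt m (ch b'' (T.actE z.2.2.2⁻¹ z.2.1)).2 := by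
      have := ((WW_shift T U (ch b'' (T.actE z.2.2.2⁻¹ z.2.1)) W1' W2' z.2.2.1 m).1 hW2').2.2
      rw [← hW'] at this
      exact this
    have k3 : T.vx (U.ev R.2) = T.act z.2.2.2⁻¹ (T.vx (U.ev R.1)) := by
      have k4 : U.ev R.2 = z.2.2.2⁻¹ * (U.ev R.1 * T.c) := by
        rw [r3, inv_mul_cancel_left]
      have k5 : T.vx T.c = 1 := T.c_act
      rw [k4, T.vx_mul, T.vx_mul, k5]
      rfl
    have k6 : T.vx (U.ev R.2) ∈ Vt m (T.actE z.2.2.2⁻¹ (ch b z.2.1)).2 := by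
      rw [k3]
      exact (T.act_Vt _ _ _ _).2 k1
    rw [hb'] at k6
    exact Vt_succ_unique k6 k2
  subst hbb
  rw [← hb'] at hLP' hW2'
  have hKQ : (W2, W2') ∈ KS T U m (rcN T U z b W1 W1') := by
    rw [rc_KS]
    refine ⟨hW2, hW2', ?_⟩
    simp only
    rw [← hW, ← hW']
    exact r3
  refine ⟨rcN T U z b W1 W1', ?_, (W1, W1'), ⟨b, hLP, hLP', rfl⟩, (W2, W2'), hKQ, ?_⟩
  · -- the new node is realised
    set e0' := T.actE (U.ev p) (ch b z.2.1) with he0'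
    have hE' : IsE e0' := T.act_IsE _ _ (ch_IsE b _)
    have hsub : Hf e0' ⊆ Hf e0 := by
      obtain ⟨b0, hb0⟩ := act_ch T (U.ev p) b z.2.1
      have k1 : T.actE (U.ev p) z.2.1 = e0 := by
        rw [he, ← T.actE_mul, mul_inv_cancel, T.actE_one]
      rw [he0', hb0, k1]
      exact Hf_child he0 b0
    have hc1 : ch b z.2.1 = T.actE (U.ev p)⁻¹ e0' := by
      rw [he0', ← T.actE_mul, inv_mul_cancel, T.actE_one]
    have hc2 : T.actE z.2.2.2⁻¹ (ch b z.2.1) = T.actE (U.ev p')⁻¹ e0' := by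
      rw [he0', ← T.actE_mul, hd]
      congr 1
      group
    refine ⟨⟨e0', p ++ W1, p' ++ W1', hE', fun h => h10 (hsub h), ?_, ?_, ?_⟩, ?_, ?_, m, ⟨_, hKQ⟩⟩
    · exact rc_ent T U hEp hsub hc1 hLP.1 hLP.2.1
    · exact rc_ent T U hEp' hsub hc2 hLP'.1 hLP'.2.1
    · unfold rcN nd
      refine Prod.ext ?_ (Prod.ext ?_ (Prod.ext ?_ ?_))
      · simp only
        rw [UA.run_append, hs]
      · simp only
        exact rel_shift T U _ _ W1 p hc1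
      · simp only
        rw [UA.run_append, hs']
      · simp only
        rw [UA.ev_append, UA.ev_append, hd]
        group
    · exact rc_FT T U heE hF1 hLP
    · rw [rc_act, hb']
      rw [hb'] at hLP'
      exact rc_FT T U heE' hF2 hLP'
  · simp only
    rw [← hW, ← hW']

theorem rc_KS_fin (T : TP G) (U : UA G) {z : PN U} (hz : z ∈ PZ T U) (m : ℕ) :
    (KS T U m z).Finite := by
  refine ((hz.2.1 m).prod (hz.2.2.1 m)).subset ?_
  rintro P ⟨h1, h2, -⟩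
  exact ⟨h1, h2⟩

theorem rc_M_fin (T : TP G) (U : UA G) {z z' : PN U} (he : IsE z.2.1) (hz : z ∈ PZ T U)
    (hz' : z' ∈ PZ T U) : (rcM T U z z').Finite := by
  obtain ⟨m2, Q, hQ⟩ := hz'.2.2.2
  have hinj : Function.Injective
      (fun P : List U.A × List U.A => (P.1 ++ Q.1, P.2 ++ Q.2)) := by
    intro P P' h
    have h1 := congrArg Prod.fst h
    have h2 := congrArg Prod.snd h
    exact Prod.ext (List.append_cancel_right h1) (List.append_cancel_right h2)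
  refine ((rc_KS_fin T U hz (m2 + 1)).preimage hinj.injOn).subset ?_
  intro P hP
  exact rc_into T U he hP hQ

theorem recS (T : TP G) (U : UA G) : RecS T U := by
  intro hZ
  refine ⟨fun z z' => (rcM T U z z').ncard, fun m z hz => ?_⟩
  have he : IsE z.2.1 := by
    obtain ⟨⟨e0, p, p', he0, -, -, -, hznd⟩, -⟩ := hz
    rw [hznd]
    exact T.act_IsE _ _ he0
  have hK := rc_KS_fin T U hz (m + 1)
  have hfin : ∀ z' ∈ hZ.toFinset, ((rcM T U z z') ×ˢ (KS T U m z')).Finite := by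
    intro z' hz'
    have hz'' := hZ.mem_toFinset.1 hz'
    exact (rc_M_fin T U he hz hz'').prod (rc_KS_fin T U hz'' m)
  let φ : (List U.A × List U.A) × (List U.A × List U.A) → List U.A × List U.A :=
    fun x => (x.1.1 ++ x.2.1, x.1.2 ++ x.2.2)
  let Sf : PN U → Finset (List U.A × List U.A) := fun z' =>
    if h : z' ∈ hZ.toFinset then (hfin z' h).toFinset.image φ else ∅
  have hSf : ∀ z' (h : z' ∈ hZ.toFinset), Sf z' = (hfin z' h).toFinset.image φ := fun z' h =>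
    dif_pos h
  have hU : hK.toFinset = hZ.toFinset.biUnion Sf := by
    ext R
    rw [hK.mem_toFinset, Finset.mem_biUnion]
    constructor
    · intro hR
      obtain ⟨z', hz', P, hP, Q, hQ, hPQ⟩ := rc_onto T U hz hR
      have hz2 := hZ.mem_toFinset.2 hz'
      refine ⟨z', hz2, ?_⟩
      rw [hSf z' hz2, Finset.mem_image]
      exact ⟨(P, Q), (Set.Finite.mem_toFinset _).2 ⟨hP, hQ⟩, hPQ⟩
    · rintro ⟨z', hz', hR⟩
      rw [hSf z' hz', Finset.mem_image] at hR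
      obtain ⟨⟨P, Q⟩, hPQ, rfl⟩ := hR
      obtain ⟨hP, hQ⟩ := (Set.Finite.mem_toFinset _).1 hPQ
      exact rc_into T U he hP hQ
  have hdis : ∀ z1 ∈ hZ.toFinset, ∀ z2 ∈ hZ.toFinset, z1 ≠ z2 → Disjoint (Sf z1) (Sf z2) := by
    intro z1 h1 z2 h2 hne
    rw [Finset.disjoint_left]
    intro R hR1 hR2
    rw [hSf z1 h1, Finset.mem_image] at hR1
    rw [hSf z2 h2, Finset.mem_image] at hR2
    obtain ⟨⟨P, Q⟩, hPQ, hR1⟩ := hR1
    obtain ⟨⟨P', Q'⟩, hPQ', hR2⟩ := hR2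
    obtain ⟨hP, hQ⟩ := (Set.Finite.mem_toFinset _).1 hPQ
    obtain ⟨hP', hQ'⟩ := (Set.Finite.mem_toFinset _).1 hPQ'
    exact hne (rc_inj T U hP hQ hP' hQ' (hR1.trans hR2.symm)).1
  have hcard : ∀ z' ∈ hZ.toFinset, (Sf z').card = (rcM T U z z').ncard * (KS T U m z').ncard := by
    intro z' hz'
    rw [hSf z' hz', Finset.card_image_of_injOn, ← Set.ncard_eq_toFinset_card _ (hfin z' hz'), Set.ncard_prod]
    rintro ⟨P, Q⟩ hPQ ⟨P', Q'⟩ hPQ' h
    obtain ⟨hP, hQ⟩ := (Set.Finite.mem_toFinset _).1 (Finset.mem_coe.1 hPQ)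
    obtain ⟨hP', hQ'⟩ := (Set.Finite.mem_toFinset _).1 (Finset.mem_coe.1 hPQ')
    obtain ⟨-, h1, h2⟩ := rc_inj T U hP hQ hP' hQ' h
    exact Prod.ext h1 h2
  rw [Set.ncard_eq_toFinset_card _ hK, hU, Finset.card_biUnion hdis]
  exact Finset.sum_congr rfl hcard

theorem entD_aux_card (T : TP G) (U : UA G) (M n : ℕ) (R : ℝ) (hR : 0 ≤ R) :
    {g | (∃ m' ≤ M, T.vx g ∈ Vt m' (rt n).2) ∧ ‖T.p g‖ ≤ R}.Finite ∧
    ({g | (∃ m' ≤ M, T.vx g ∈ Vt m' (rt n).2) ∧ ‖T.p g‖ ≤ R}.ncard : ℝ) ≤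
      2 ^ (M + 1) * (T.kap * (R + 1) ^ 2) := by
  obtain ⟨Q, hQ⟩ : ∃ Q : Finset F, Q = (Finset.range (M + 1)).biUnion
    (fun m' => (Vt_finite m' (rt n).2).toFinset) := ⟨_, rfl⟩
  have hQc : Q.card ≤ 2 ^ (M + 1) := by
    rw [hQ]
    refine Finset.card_biUnion_le.trans ?_
    calc ∑ m' ∈ Finset.range (M + 1), ((Vt_finite m' (rt n).2).toFinset).card
        = ∑ m' ∈ Finset.range (M + 1), 2 ^ m' := by
          apply Finset.sum_congr rfl
          intro m' _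
          rw [← Set.ncard_eq_toFinset_card _ (Vt_finite m' (rt n).2), Vt_card]
      _ ≤ 2 ^ (M + 1) := by
          have h := Nat.geomSum_lt (m := 2) (n := M + 1) (s := Finset.range (M + 1)) (le_refl 2)
            (fun k hk => Finset.mem_range.1 hk)
          exact h.le
  have hsub : {g | (∃ m' ≤ M, T.vx g ∈ Vt m' (rt n).2) ∧ ‖T.p g‖ ≤ R} ⊆
      ⋃ q ∈ Q, {g | T.act g 1 = q ∧ ‖T.p g‖ ≤ R} := by
    rintro g ⟨⟨m', hm', h1⟩, h2⟩
    rw [Set.mem_iUnion₂]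
    refine ⟨T.act g 1, ?_, rfl, h2⟩
    rw [hQ, Finset.mem_biUnion]
    exact ⟨m', Finset.mem_range.2 (by omega), (Set.Finite.mem_toFinset _).2 h1⟩
  have hfin : (⋃ q ∈ Q, {g | T.act g 1 = q ∧ ‖T.p g‖ ≤ R}).Finite :=
    Set.Finite.biUnion (Finset.finite_toSet _) fun q _ => T.cnt_fin q R
  refine ⟨hfin.subset hsub, ?_⟩
  have h1 : {g | (∃ m' ≤ M, T.vx g ∈ Vt m' (rt n).2) ∧ ‖T.p g‖ ≤ R}.ncard ≤
      ∑ q ∈ Q, {g | T.act g 1 = q ∧ ‖T.p g‖ ≤ R}.ncard :=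
    (Set.ncard_le_ncard hsub hfin).trans (Finset.set_ncard_biUnion_le _ _)
  calc ({g | (∃ m' ≤ M, T.vx g ∈ Vt m' (rt n).2) ∧ ‖T.p g‖ ≤ R}.ncard : ℝ)
      ≤ ((∑ q ∈ Q, {g | T.act g 1 = q ∧ ‖T.p g‖ ≤ R}.ncard : ℕ) : ℝ) := by
        exact_mod_cast h1
    _ = ∑ q ∈ Q, ({g | T.act g 1 = q ∧ ‖T.p g‖ ≤ R}.ncard : ℝ) := by
        push_cast; rfl
    _ ≤ ∑ q ∈ Q, (T.kap * (R + 1) ^ 2 : ℝ) :=
        Finset.sum_le_sum fun q _ => T.cnt q R hR
    _ = (Q.card : ℝ) * (T.kap * (R + 1) ^ 2) := by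
        rw [Finset.sum_const, nsmul_eq_mul]
    _ ≤ 2 ^ (M + 1) * (T.kap * (R + 1) ^ 2) :=
        mul_le_mul_of_nonneg_right (by exact_mod_cast hQc) (by positivity)

theorem entD (T : TP G) (U : UA G) : EntD T U := by
  intro ε hε
  haveI := U.finS
  obtain ⟨Nd, hNd⟩ : ∃ Nd : Set (U.S × (F × F)), Nd = {z | z.2 ∈ EE T U ∧ ¬ FT T U z.1 z.2} :=
    ⟨_, rfl⟩
  have hNdf : Nd.Finite := by
    refine ((Set.toFinite (Set.univ : Set U.S)).prod (ee_finite T U)).subset ?_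
    intro z hz
    rw [hNd] at hz
    exact ⟨Set.mem_univ _, hz.1⟩
  have hex : ∀ z : U.S × (F × F), ∃ m0 : ℕ, z ∈ Nd → (WW T U m0 z.1 z.2).Infinite := by
    intro z
    by_cases hz : z ∈ Nd
    · have h1 := hz
      rw [hNd] at h1
      have h2 : ¬ ∀ m, (WW T U m z.1 z.2).Finite := h1.2
      push Not at h2
      obtain ⟨m, hm⟩ := h2
      exact ⟨m, fun _ => hm⟩
    · exact ⟨0, fun h => absurd h hz⟩
  choose m0 hm0 using hex
  obtain ⟨M, hM⟩ : ∃ M : ℕ, ∀ z ∈ Nd, m0 z ≤ M := by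
    obtain ⟨M, hM⟩ := (hNdf.image m0).bddAbove
    exact ⟨M, fun z hz => hM ⟨z, hz, rfl⟩⟩
  obtain ⟨N, hN⟩ := exists_nat_ge (2 ^ (M + 1) * T.kap * 16 / ε + 1)
  have hex2 : ∀ z : U.S × (F × F), ∃ Y : Finset (List U.A), z ∈ Nd →
      (∀ W ∈ Y, W ∈ WW T U (m0 z) z.1 z.2) ∧ Y.card = N := by
    intro z
    by_cases hz : z ∈ Nd
    · obtain ⟨Y, hY1, hY2⟩ := (hm0 z hz).exists_subset_card_eq N
      exact ⟨Y, fun _ => ⟨fun W hW => hY1 hW, hY2⟩⟩
    · exact ⟨∅, fun h => absurd h hz⟩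
  choose Y hY using hex2
  obtain ⟨B, hB0, hB⟩ : ∃ B : ℝ, 0 ≤ B ∧ ∀ z ∈ Nd, ∀ W ∈ Y z, ‖T.p (U.ev W)‖ ≤ B := by
    obtain ⟨B, hB⟩ := ((hNdf.biUnion (fun z _ => (Y z).finite_toSet)).image
      (fun W => ‖T.p (U.ev W)‖)).bddAbove
    refine ⟨max B 0, le_max_right _ _, fun z hz W hW => le_trans ?_ (le_max_left _ _)⟩
    refine hB ⟨W, ?_, rfl⟩
    rw [Set.mem_iUnion₂]
    exact ⟨z, hz, hW⟩
  have hN1 : (1 : ℝ) ≤ N := by
    have : (0 : ℝ) ≤ 2 ^ (M + 1) * T.kap * 16 / ε := by positivity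
    linarith
  refine ⟨B + 1, fun R hR n => ?_⟩
  have hRB : 0 ≤ R + B := by linarith
  obtain ⟨hTf, hTc⟩ := entD_aux_card T U M n (R + B) hRB
  obtain ⟨Tg, hTg⟩ : ∃ Tg : Set G, Tg = {g | (∃ m' ≤ M, T.vx g ∈ Vt m' (rt n).2) ∧ ‖T.p g‖ ≤ R + B} :=
    ⟨_, rfl⟩
  rw [← hTg] at hTf hTc
  obtain ⟨E, hE⟩ : ∃ E : Set (List U.A), E = {p : List U.A | Ent T U (rt n) p ∧ ‖T.p (U.ev p)‖ ≤ R ∧
      ¬ FT T U (U.run U.s0 p) (rel T U p (rt n))} := ⟨_, rfl⟩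
  rw [← hE]
  have hnode : ∀ p ∈ E, (U.run U.s0 p, rel T U p (rt n)) ∈ Nd := by
    intro p hp
    rw [hE] at hp
    rw [hNd]
    exact ⟨ee_of_ent T U (rt_IsE n) hp.1, hp.2.2⟩
  have hword : ∀ p ∈ E, ∀ W ∈ Y (U.run U.s0 p, rel T U p (rt n)),
      p ++ W ∈ U.L ∧ Lst T U (rt n) p W ∧ U.ev (p ++ W) ∈ Tg := by
    intro p hp W hW
    have h1 := (hY _ (hnode p hp)).1 W hW
    have h2 : W ∈ WW T U (m0 (U.run U.s0 p, rel T U p (rt n))) (U.run U.s0 p)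
        (T.actE (U.ev p)⁻¹ (rt n)) := h1
    rw [WW_shift] at h2
    have h3 := hM _ (hnode p hp)
    have h4 := hB _ (hnode p hp) W hW
    rw [hE] at hp
    refine ⟨h2.1, ent_lst T U hp.1 h2.2.1, ?_⟩
    rw [hTg]
    refine ⟨⟨_, h3, h2.2.2⟩, ?_⟩
    rw [UA.ev_append]
    exact (T.norm_p_mul_le _ _).trans (add_le_add hp.2.1 h4)
  have hkey : ∀ E0 : Finset (List U.A), (∀ p ∈ E0, p ∈ E) → E0.card * N ≤ hTf.toFinset.card := by
    intro E0 hE0
    have h1 : (E0.sigma (fun p => Y (U.run U.s0 p, rel T U p (rt n)))).card = E0.card * N := by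
      rw [Finset.card_sigma]
      rw [Finset.sum_congr rfl (fun p hp => (hY _ (hnode p (hE0 p hp))).2)]
      rw [Finset.sum_const, smul_eq_mul]
    rw [← h1]
    apply Finset.card_le_card_of_injOn (fun P => U.ev (P.1 ++ P.2))
    · rintro ⟨p, W⟩ hP
      have hP' := Finset.mem_sigma.1 (Finset.mem_coe.1 hP)
      simp only [Finset.mem_coe, Set.Finite.mem_toFinset]
      exact (hword p (hE0 p hP'.1) W hP'.2).2.2
    · rintro ⟨p, W⟩ hP ⟨p', W'⟩ hP' heq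
      have hP1 := Finset.mem_sigma.1 (Finset.mem_coe.1 hP)
      have hP1' := Finset.mem_sigma.1 (Finset.mem_coe.1 hP')
      have k1 := hword p (hE0 p hP1.1) W hP1.2
      have k2 := hword p' (hE0 p' hP1'.1) W' hP1'.2
      have k3 := U.ev_inj k1.1 k2.1 heq
      obtain ⟨k4, k5⟩ := lst_unique T U k3 k1.2.1 k2.2.1
      subst k4
      subst k5
      rfl
  have hN1' : 1 ≤ N := by exact_mod_cast hN1
  have hEf : E.Finite := by
    by_contra hinf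
    obtain ⟨E0, hE1, hE2⟩ := (Set.not_finite.1 hinf : E.Infinite).exists_subset_card_eq (hTf.toFinset.card + 1)
    have h1 := hkey E0 (fun p hp => hE1 hp)
    rw [hE2] at h1
    nlinarith
  refine ⟨hEf, ?_⟩
  have h1 := hkey hEf.toFinset (fun p hp => hEf.mem_toFinset.1 hp)
  rw [← Set.ncard_eq_toFinset_card _ hEf, ← Set.ncard_eq_toFinset_card _ hTf] at h1
  have h2 : (E.ncard : ℝ) * N ≤ Tg.ncard := by exact_mod_cast h1
  have h3 : (2 : ℝ) ^ (M + 1) * (T.kap * (R + B + 1) ^ 2) ≤ 2 ^ (M + 1) * (T.kap * (2 * R) ^ 2) := by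
    gcongr
    linarith
  have h4 : 2 ^ (M + 1) * T.kap * 16 ≤ N * ε := by
    have h5 : 2 ^ (M + 1) * T.kap * 16 / ε ≤ N := by linarith
    rwa [div_le_iff₀ hε] at h5
  have h6 : (E.ncard : ℝ) * N ≤ ε * R ^ 2 * N := by
    calc (E.ncard : ℝ) * N ≤ 2 ^ (M + 1) * (T.kap * (2 * R) ^ 2) := h2.trans (hTc.trans h3)
      _ = (2 ^ (M + 1) * T.kap * 4) * R ^ 2 := by ring
      _ ≤ (2 ^ (M + 1) * T.kap * 16) * R ^ 2 := by
          gcongr
          norm_num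
      _ ≤ (N * ε) * R ^ 2 := by gcongr
      _ = _ := by ring
  exact le_of_mul_le_mul_right h6 (by linarith)

theorem leakS_bfin (T : TP G) (U : UA G) (m T0 n : ℕ) (R : ℝ) : (BTop T U m T0 n R).Finite := by
  have hf : (⋃ m' ∈ Finset.range (m + 1), ⋃ q ∈ (Vt_finite m' (rt n).2).toFinset,
      {g | T.act g 1 = q ∧ ‖T.p g‖ ≤ R}).Finite := by
    refine Set.Finite.biUnion (Finset.finite_toSet _) fun m' _ => ?_
    exact Set.Finite.biUnion (Finset.finite_toSet _) fun q _ => T.cnt_fin q R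
  refine hf.subset ?_
  rintro g ⟨⟨m', hm', hv⟩, hR, -⟩
  rw [Set.mem_iUnion₂]
  refine ⟨m', Finset.mem_range.2 (by omega), ?_⟩
  rw [Set.mem_iUnion₂]
  exact ⟨T.vx g, (Set.Finite.mem_toFinset _).2 hv, rfl, hR⟩

theorem leakS (T : TP G) (U : UA G) (h1 : AvgS T U) (h2 : EntD T U) : LeakS T U := by
  intro m ε hε
  obtain ⟨J, T0, R1, hJ⟩ := h1 m (ε / 2) (by positivity)
  obtain ⟨Cl, hCl⟩ := UA.lip T U
  set B : ℝ := Cl * T0 with hB
  have hB0 : 0 ≤ B := by positivity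
  set Ws : Set (List U.A) := {w : List U.A | w.length ≤ T0} with hWs
  have hWf : Ws.Finite := UA.finite_le U T0
  set A0 : ℕ := Ws.ncard with hA0
  have hA0pos : 0 < A0 := by
    rw [hA0, Set.ncard_pos hWf]
    exact ⟨[], by simp [hWs]⟩
  have hA0r : (0:ℝ) < A0 := by exact_mod_cast hA0pos
  obtain ⟨R2, hR2⟩ := h2 (ε / (8 * A0)) (by positivity)
  refine ⟨J, max (max R1 R2) (max B 1), fun R hR => ?_⟩
  have hRR1 : R1 ≤ R := ((le_max_left _ _).trans (le_max_left _ _)).trans hR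
  have hRR2 : R2 ≤ R := ((le_max_right _ _).trans (le_max_left _ _)).trans hR
  have hRB : B ≤ R := ((le_max_left _ _).trans (le_max_right _ _)).trans hR
  have hR1 : 1 ≤ R := ((le_max_right _ _).trans (le_max_right _ _)).trans hR
  obtain ⟨n, hn, hb⟩ := hJ R hRR1
  refine ⟨n, hn, ?_⟩
  obtain ⟨hEf, hEc⟩ := hR2 (R + B) (by linarith) n
  set E : Set (List U.A) := {p : List U.A | Ent T U (rt n) p ∧ ‖T.p (U.ev p)‖ ≤ R + B ∧
      ¬ FT T U (U.run U.s0 p) (rel T U p (rt n))} with hE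
  set Y : Set G := (fun P : List U.A × List U.A => U.ev (P.1 ++ P.2)) '' (E ×ˢ Ws) with hY
  have hYf : Y.Finite := (hEf.prod hWf).image _
  have hbf := leakS_bfin T U m T0 n R
  have hsub : {g | (∃ m' ≤ m, T.vx g ∈ Vt m' (rt n).2) ∧ ‖T.p g‖ ≤ R ∧ NFT T U n g} ⊆
      BTop T U m T0 n R ∪ Y := by
    rintro g ⟨hg1, hg2, p, W, hEnt, hnft, ⟨m2, hW⟩, hev⟩
    have hW' := (WW_shift T U (rt n) p W U.s0 m2).1 hW
    obtain ⟨hacc, hst, -⟩ := hW'
    by_cases hlen : T0 < W.length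
    · left
      refine ⟨hg1, hg2, p ++ W, p.length, hacc, hev, ?_, ?_⟩
      · intro i hi
        rw [List.take_append, List.take_of_length_le hi]
        exact hst _
      · rw [List.length_append]; omega
    · right
      refine ⟨(p, W), ⟨⟨hEnt, ?_, hnft⟩, ?_⟩, hev⟩
      · have h3 := T.norm_p_mul_sub (U.ev p) (U.ev W)
        rw [← UA.ev_append, hev] at h3
        have h4 : ‖T.p (U.ev p)‖ ≤ ‖T.p g‖ + ‖T.p g - T.p (U.ev p)‖ := by
          have := norm_sub_le (T.p g) (T.p g - T.p (U.ev p))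
          rwa [sub_sub_cancel] at this
        have h5 := (hCl W).2
        have h6 : (Cl : ℝ) * W.length ≤ B := by
          rw [hB]
          apply mul_le_mul_of_nonneg_left _ (by positivity)
          exact_mod_cast not_lt.1 hlen
        rw [h3] at h4
        show ‖T.p (U.ev p)‖ ≤ R + B
        linarith
      · show W.length ≤ T0
        exact not_lt.1 hlen
  have hc1 : ({g | (∃ m' ≤ m, T.vx g ∈ Vt m' (rt n).2) ∧ ‖T.p g‖ ≤ R ∧ NFT T U n g}.ncard) ≤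
      (BTop T U m T0 n R).ncard + Y.ncard :=
    (Set.ncard_le_ncard hsub (hbf.union hYf)).trans (Set.ncard_union_le _ _)
  have hc2 : Y.ncard ≤ E.ncard * A0 := by
    refine (Set.ncard_image_le (hEf.prod hWf)).trans ?_
    rw [Set.ncard_prod]
  have hc1' : (({g | (∃ m' ≤ m, T.vx g ∈ Vt m' (rt n).2) ∧ ‖T.p g‖ ≤ R ∧ NFT T U n g}.ncard : ℕ) : ℝ) ≤
      ((BTop T U m T0 n R).ncard : ℝ) + (Y.ncard : ℝ) := by exact_mod_cast hc1
  have hc2' : (Y.ncard : ℝ) ≤ (E.ncard : ℝ) * A0 := by exact_mod_cast hc2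
  have hc3 : (E.ncard : ℝ) * A0 ≤ ε / 2 * R ^ 2 := by
    calc (E.ncard : ℝ) * A0 ≤ (ε / (8 * A0) * (R + B) ^ 2) * A0 :=
          mul_le_mul_of_nonneg_right hEc hA0r.le
      _ = ε / 8 * (R + B) ^ 2 := by field_simp
      _ ≤ ε / 8 * (2 * R) ^ 2 := by
          apply mul_le_mul_of_nonneg_left _ (by positivity)
          apply pow_le_pow_left₀ (by linarith)
          linarith
      _ = ε / 2 * R ^ 2 := by ring
  calc _ ≤ ((BTop T U m T0 n R).ncard : ℝ) + (Y.ncard : ℝ) := hc1'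
    _ ≤ ε / 2 * R ^ 2 + ε / 2 * R ^ 2 := by linarith
    _ = ε * R ^ 2 := by ring

theorem pprS_sub (T : TP G) (q0 : F) (D : ℕ) (R : ℝ) :
    {g | dT (T.vx g) q0 ≤ D ∧ ‖T.p g‖ ≤ R} ⊆
      ⋃ q ∈ (ball_finite q0 D).toFinset, {g | T.act g 1 = q ∧ ‖T.p g‖ ≤ R} := by
  rintro g ⟨h1, h2⟩
  rw [Set.mem_iUnion₂]
  refine ⟨T.act g 1, (Set.Finite.mem_toFinset _).mpr ?_, rfl, h2⟩
  show dT q0 (T.act g 1) ≤ D
  rw [dT_comm]
  exact h1

theorem pprS_fin (T : TP G) (q0 : F) (D : ℕ) (R : ℝ) :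
    {g | dT (T.vx g) q0 ≤ D ∧ ‖T.p g‖ ≤ R}.Finite := by
  refine Set.Finite.subset ?_ (pprS_sub T q0 D R)
  exact Set.Finite.biUnion (Finset.finite_toSet _) fun q _ => T.cnt_fin q R

theorem pprS_count (T : TP G) (q0 : F) (D : ℕ) (R : ℝ) (hR : 0 ≤ R) :
    ({g | dT (T.vx g) q0 ≤ D ∧ ‖T.p g‖ ≤ R}.ncard : ℝ) ≤ 5 ^ D * (T.kap * (R + 1) ^ 2) := by
  have h1 : {g | dT (T.vx g) q0 ≤ D ∧ ‖T.p g‖ ≤ R}.ncard ≤
      ∑ q ∈ (ball_finite q0 D).toFinset, {g | T.act g 1 = q ∧ ‖T.p g‖ ≤ R}.ncard := by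
    refine (Set.ncard_le_ncard (pprS_sub T q0 D R)
      (Set.Finite.biUnion (Finset.finite_toSet _) fun q _ => T.cnt_fin q R)).trans ?_
    exact Finset.set_ncard_biUnion_le _ _
  have hc : ((ball_finite q0 D).toFinset.card : ℝ) ≤ 5 ^ D := by
    have := ball_card q0 D
    rw [Set.ncard_eq_toFinset_card _ (ball_finite q0 D)] at this
    exact_mod_cast this
  calc ({g | dT (T.vx g) q0 ≤ D ∧ ‖T.p g‖ ≤ R}.ncard : ℝ)
      ≤ ((∑ q ∈ (ball_finite q0 D).toFinset, {g | T.act g 1 = q ∧ ‖T.p g‖ ≤ R}.ncard : ℕ) : ℝ) := by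
        exact_mod_cast h1
    _ = ∑ q ∈ (ball_finite q0 D).toFinset, ({g | T.act g 1 = q ∧ ‖T.p g‖ ≤ R}.ncard : ℝ) := by
        push_cast; rfl
    _ ≤ ∑ q ∈ (ball_finite q0 D).toFinset, (T.kap * (R + 1) ^ 2 : ℝ) :=
        Finset.sum_le_sum fun q _ => T.cnt q R hR
    _ = ((ball_finite q0 D).toFinset.card : ℝ) * (T.kap * (R + 1) ^ 2) := by
        rw [Finset.sum_const, nsmul_eq_mul]
    _ ≤ 5 ^ D * (T.kap * (R + 1) ^ 2) := mul_le_mul_of_nonneg_right hc (by positivity)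

theorem pprS (T : TP G) (U : UA G) : PprS T U := by
  obtain ⟨D, hD⟩ : ∃ D : ℕ, ∀ e ∈ EE T U, dT 1 e.2 ≤ D := by
    obtain ⟨D, hD⟩ := ((ee_finite T U).image (fun e : F × F => dT 1 e.2)).bddAbove
    exact ⟨D, fun e he => hD ⟨e, he, rfl⟩⟩
  refine ⟨5 ^ D * T.kap * 4, ?_⟩
  intro n R hR z hz
  obtain ⟨_, _, _, m, ⟨⟨W, W'⟩, hW⟩⟩ := hz
  obtain ⟨hW1, hW2, hW3⟩ := hW
  have hmaps : ∀ P ∈ PPR T U n R z, U.ev P.1 ∈ {g | dT (T.vx g) (rt n).2 ≤ D ∧ ‖T.p g‖ ≤ R} := by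
    rintro P ⟨⟨h1, h2, h3⟩, h4⟩
    refine ⟨?_, h4⟩
    have h5 : rel T U P.1 (rt n) ∈ EE T U := ee_of_ent T U (rt_IsE n) h1
    have h6 := hD _ h5
    have h7 : dT 1 (rel T U P.1 (rt n)).2 = dT (T.vx (U.ev P.1)) (rt n).2 := by
      have h8 : (rel T U P.1 (rt n)).2 = T.act (U.ev P.1)⁻¹ (rt n).2 := rfl
      rw [h8, ← T.act_dist (U.ev P.1) 1, T.act_act_inv]
      rfl
    rw [h7] at h6
    exact h6
  have hinj : Set.InjOn (fun P : List U.A × List U.A => U.ev P.1) (PPR T U n R z) := by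
    rintro P ⟨⟨h1, h2, h3⟩, h4⟩ Q ⟨⟨h1', h2', h3'⟩, h4'⟩ hPQ
    have hPQ' : U.ev P.1 = U.ev Q.1 := hPQ
    have z1 : z.1 = U.run U.s0 P.1 := by rw [h3]; rfl
    have z1' : z.1 = U.run U.s0 Q.1 := by rw [h3']; rfl
    have z3 : z.2.2.1 = U.run U.s0 P.2 := by rw [h3]; rfl
    have z3' : z.2.2.1 = U.run U.s0 Q.2 := by rw [h3']; rfl
    have z4 : z.2.2.2 = (U.ev P.1)⁻¹ * U.ev P.2 := by rw [h3]; rfl
    have z4' : z.2.2.2 = (U.ev Q.1)⁻¹ * U.ev Q.2 := by rw [h3']; rfl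
    have e1 : P.1 = Q.1 := by
      have a1 : P.1 ++ W ∈ U.L := by
        rw [UA.mem_L, UA.run_append, ← z1]; exact hW1.1
      have a2 : Q.1 ++ W ∈ U.L := by
        rw [UA.mem_L, UA.run_append, ← z1']; exact hW1.1
      have a3 := U.ev_inj a1 a2 (by rw [UA.ev_append, UA.ev_append, hPQ'])
      exact List.append_cancel_right a3
    have hev2 : U.ev P.2 = U.ev Q.2 := by
      have := z4.symm.trans z4'
      rw [hPQ'] at this
      exact mul_left_cancel this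
    have e2 : P.2 = Q.2 := by
      have a1 : P.2 ++ W' ∈ U.L := by
        rw [UA.mem_L, UA.run_append, ← z3]; exact hW2.1
      have a2 : Q.2 ++ W' ∈ U.L := by
        rw [UA.mem_L, UA.run_append, ← z3']; exact hW2.1
      have a3 := U.ev_inj a1 a2 (by rw [UA.ev_append, UA.ev_append, hev2])
      exact List.append_cancel_right a3
    exact Prod.ext e1 e2
  have hfin := pprS_fin T (rt n).2 D R
  refine ⟨Set.Finite.of_injOn hmaps hinj hfin, ?_⟩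
  have hc := Set.ncard_le_ncard_of_injOn _ hmaps hinj hfin
  have hc2 := pprS_count T (rt n).2 D R (by linarith)
  have hc3 : ((PPR T U n R z).ncard : ℝ) ≤ 5 ^ D * (T.kap * (R + 1) ^ 2) :=
    le_trans (by exact_mod_cast hc) hc2
  refine hc3.trans ?_
  have h4 : (R + 1) ^ 2 ≤ 4 * R ^ 2 := by nlinarith
  have hk : (0:ℝ) ≤ T.kap := Nat.cast_nonneg _
  calc (5:ℝ) ^ D * (T.kap * (R + 1) ^ 2) ≤ 5 ^ D * (T.kap * (4 * R ^ 2)) := by gcongr
    _ = 5 ^ D * T.kap * 4 * R ^ 2 := by ring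

theorem fib_aux (T : TP G) (U : UA G) {n m : ℕ} {g : G} {p : List U.A}
    (h : FTop T U n m g p) : ∃ W, W ∈ WW T U m (U.run U.s0 p) (rel T U p (rt n)) ∧
      p ++ W ∈ U.L ∧ Lst T U (rt n) p W ∧ U.ev (p ++ W) = g ∧ T.vx g ∈ Vt m (rt n).2 := by
  obtain ⟨h1, h2, W, hW, h3⟩ := h
  have h4 := (WW_shift T U (rt n) p W U.s0 m).1 hW
  refine ⟨W, hW, h4.1, ent_lst T U h1 h4.2.1, h3, ?_⟩
  rw [← h3]
  exact h4.2.2

theorem ftop_unique (T : TP G) (U : UA G) {n m m' : ℕ} {g : G} {p p' : List U.A}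
    (h : FTop T U n m g p) (h' : FTop T U n m' g p') : p = p' := by
  obtain ⟨W, -, h1, h2, h3, -⟩ := fib_aux T U h
  obtain ⟨W', -, h1', h2', h3', -⟩ := fib_aux T U h'
  have h4 := U.ev_inj h1 h1' (h3.trans h3'.symm)
  exact (lst_unique T U h4 h2 h2').1
theorem en_eq (T : TP G) (U : UA G) {n m : ℕ} {g : G} {p : List U.A}
    (h : FTop T U n m g p) : en T U n m g = p := by
  have hex : ∃ p, FTop T U n m g p := ⟨p, h⟩
  unfold en
  rw [dif_pos hex]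
  exact ftop_unique T U hex.choose_spec h
theorem Ph_eq (T : TP G) (U : UA G) {n m : ℕ} {g : G} {p : List U.A}
    (h : FTop T U n m g p) : Ph T U n m g = T.p (U.ev p) := by
  have hex : ∃ p, FTop T U n m g p := ⟨p, h⟩
  unfold Ph
  rw [if_pos hex, en_eq T U h]
theorem ftop_or (T : TP G) (U : UA G) {n m : ℕ} {g : G} (h : T.vx g ∈ Vt m (rt n).2) :
    (∃ p, FTop T U n m g p) ∨ NFT T U n g := by
  obtain ⟨w, hw, hwg⟩ := U.ev_surj g
  have h1 : T.vx (U.ev w) ∈ Hf (rt n) := by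
    rw [hwg]
    exact Vt_sub (rt_IsE n) m h
  obtain ⟨W1, W2, rfl, hL⟩ := lst_exists T U h1
  have h2 := lst_ent T U (rt_one n) hL
  have h3 : W2 ∈ WW T U m (U.run U.s0 W1) (rel T U W1 (rt n)) := by
    refine (WW_shift T U (rt n) W1 W2 U.s0 m).2 ⟨hw, hL.2, ?_⟩
    rw [hwg]
    exact h
  by_cases hF : FT T U (U.run U.s0 W1) (rel T U W1 (rt n))
  · exact Or.inl ⟨W1, h2, hF, W2, h3, hwg⟩
  · exact Or.inr ⟨W1, W2, h2, hF, ⟨m, h3⟩, hwg⟩
theorem ftop_vx (T : TP G) (U : UA G) {n m : ℕ} {g : G} {p : List U.A}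
    (h : FTop T U n m g p) : T.vx g ∈ Vt m (rt n).2 := by
  obtain ⟨W, -, -, -, -, h5⟩ := fib_aux T U h
  exact h5
theorem ph_near (T : TP G) (U : UA G) (h : LenWS T U) : ∃ C : ℕ → ℝ, Monotone C ∧ (∀ m, 0 ≤ C m) ∧
    ∀ (n m : ℕ) (g : G), ‖Ph T U n m g - T.p g‖ ≤ C m := by
  obtain ⟨τ1, hτ⟩ := h
  obtain ⟨Cl, hCl⟩ := UA.lip T U
  refine ⟨fun m => (Cl : ℝ) * (((m + 1) * τ1 : ℕ) : ℝ), ?_, ?_, ?_⟩
  · intro a b hab
    have h1 : (a + 1) * τ1 ≤ (b + 1) * τ1 := Nat.mul_le_mul_right _ (by omega)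
    have h2 : (((a + 1) * τ1 : ℕ) : ℝ) ≤ (((b + 1) * τ1 : ℕ) : ℝ) := by exact_mod_cast h1
    exact mul_le_mul_of_nonneg_left h2 (Nat.cast_nonneg _)
  · intro m
    exact mul_nonneg (Nat.cast_nonneg _) (Nat.cast_nonneg _)
  · intro n m g
    by_cases hex : ∃ p, FTop T U n m g p
    · obtain ⟨p, hp⟩ := hex
      rw [Ph_eq T U hp]
      obtain ⟨W, hW, h1, h2, h3, -⟩ := fib_aux T U hp
      have h4 : rel T U p (rt n) ∈ EE T U := ee_of_ent T U (rt_IsE n) hp.1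
      have h5 := (hτ _ _ h4 hp.2.1 m W hW).1
      rw [← h3, UA.ev_append, norm_sub_rev, T.norm_p_mul_sub]
      refine (hCl W).2.trans ?_
      have h6 : ((W.length : ℕ) : ℝ) ≤ (((m + 1) * τ1 : ℕ) : ℝ) := by exact_mod_cast h5
      exact mul_le_mul_of_nonneg_left h6 (Nat.cast_nonneg _)
    · unfold Ph
      rw [if_neg hex, sub_self, norm_zero]
      exact mul_nonneg (Nat.cast_nonneg _) (Nat.cast_nonneg _)

theorem fib_aux_rel (T : TP G) (U : UA G) (n : ℕ) (p p' : List U.A) :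
    T.actE ((U.ev p)⁻¹ * U.ev p')⁻¹ (rel T U p (rt n)) = rel T U p' (rt n) := by
  unfold rel
  rw [← T.actE_mul]
  congr 1
  group

/-- the two tops of a triple -/
theorem fib_aux_tops (T : TP G) (U : UA G) {n m : ℕ} {z : PN U} (hz : z ∈ PZ T U)
    {P K : List U.A × List U.A} (hP : P ∈ PP T U n z) (hK : K ∈ KS T U m z) :
    FTop T U n m (U.ev (P.1 ++ K.1)) P.1 ∧ FTop T U n m (U.ev (P.1 ++ K.1) * T.c) P.2 := by
  obtain ⟨h1, h2, h3⟩ := hP
  obtain ⟨k1, k2, k3⟩ := hK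
  obtain ⟨-, f1, f2, -⟩ := hz
  subst h3
  have k3' : U.ev K.1 * T.c = (U.ev P.1)⁻¹ * U.ev P.2 * U.ev K.2 := k3
  have k2' : K.2 ∈ WW T U m (U.run U.s0 P.2)
    (T.actE ((U.ev P.1)⁻¹ * U.ev P.2)⁻¹ (rel T U P.1 (rt n))) := k2
  have f2' : FT T U (U.run U.s0 P.2)
    (T.actE ((U.ev P.1)⁻¹ * U.ev P.2)⁻¹ (rel T U P.1 (rt n))) := f2
  rw [fib_aux_rel] at k2' f2'
  refine ⟨⟨h1, f1, K.1, k1, rfl⟩, ⟨h2, f2', K.2, k2', ?_⟩⟩
  rw [UA.ev_append, UA.ev_append, mul_assoc, k3']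
  group

theorem fibS (T : TP G) (U : UA G) : FibS T U := by
  intro hZ n m R hP
  have hKfin : ∀ z ∈ PZ T U, (KS T U m z).Finite := by
    rintro z ⟨-, f1, f2, -⟩
    refine ((f1 m).prod (f2 m)).subset ?_
    rintro K ⟨k1, k2, -⟩
    exact ⟨k1, k2⟩
  obtain ⟨Pf, hPf⟩ : ∃ Pf : PN U → Finset (List U.A × List U.A),
      Pf = fun z => if h : z ∈ PZ T U then (hP z h).toFinset else ∅ := ⟨_, rfl⟩
  obtain ⟨Kf, hKf⟩ : ∃ Kf : PN U → Finset (List U.A × List U.A),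
      Kf = fun z => if h : z ∈ PZ T U then (hKfin z h).toFinset else ∅ := ⟨_, rfl⟩
  have hPf1 : ∀ z (h : z ∈ PZ T U), Pf z = (hP z h).toFinset := by
    intro z h
    rw [hPf]
    simp only [dif_pos h]
  have hKf1 : ∀ z (h : z ∈ PZ T U), Kf z = (hKfin z h).toFinset := by
    intro z h
    rw [hKf]
    simp only [dif_pos h]
  obtain ⟨J, hJ⟩ : ∃ J : Finset (Σ _ : PN U, (List U.A × List U.A) × (List U.A × List U.A)),
      J = hZ.toFinset.sigma (fun z => Pf z ×ˢ Kf z) := ⟨_, rfl⟩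
  have hJm : ∀ x, x ∈ J ↔ (x.1 ∈ PZ T U ∧ x.2.1 ∈ PPR T U n R x.1 ∧ x.2.2 ∈ KS T U m x.1) := by
    intro x
    rw [hJ, Finset.mem_sigma, Finset.mem_product, Set.Finite.mem_toFinset]
    constructor
    · rintro ⟨h1, h2, h3⟩
      rw [hPf1 _ h1, Set.Finite.mem_toFinset] at h2
      rw [hKf1 _ h1, Set.Finite.mem_toFinset] at h3
      exact ⟨h1, h2, h3⟩
    · rintro ⟨h1, h2, h3⟩
      refine ⟨h1, ?_, ?_⟩
      · rw [hPf1 _ h1, Set.Finite.mem_toFinset]; exact h2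
      · rw [hKf1 _ h1, Set.Finite.mem_toFinset]; exact h3
  obtain ⟨φ, hφ⟩ : ∃ φ : (Σ _ : PN U, (List U.A × List U.A) × (List U.A × List U.A)) → G,
      φ = fun x => U.ev (x.2.1.1 ++ x.2.2.1) := ⟨_, rfl⟩
  have htops : ∀ x ∈ J, FTop T U n m (φ x) x.2.1.1 ∧ FTop T U n m (φ x * T.c) x.2.1.2 := by
    intro x hx
    obtain ⟨h1, h2, h3⟩ := (hJm x).1 hx
    rw [hφ]
    exact fib_aux_tops T U h1 h2.1 h3
  have hmem : ∀ x ∈ J, φ x ∈ GG T U n m R := by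
    intro x hx
    obtain ⟨h1, h2⟩ := htops x hx
    exact ⟨_, _, h1, h2, ((hJm x).1 hx).2.1.2⟩
  have hsurj : ∀ g ∈ GG T U n m R, ∃ x ∈ J, φ x = g := by
    rintro g ⟨p, p', h1, h2, h3⟩
    obtain ⟨W, hW, hWL, hWl, hWe, -⟩ := fib_aux T U h1
    obtain ⟨W', hW', hWL', hWl', hWe', -⟩ := fib_aux T U h2
    have hz : nd T U (rt n) p p' = (U.run U.s0 p, rel T U p (rt n), U.run U.s0 p',
      (U.ev p)⁻¹ * U.ev p') := rfl
    have hKS : ((W, W') : List U.A × List U.A) ∈ KS T U m (nd T U (rt n) p p') := by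
      refine ⟨hW, ?_, ?_⟩
      · show W' ∈ WW T U m (U.run U.s0 p')
          (T.actE ((U.ev p)⁻¹ * U.ev p')⁻¹ (rel T U p (rt n)))
        rw [fib_aux_rel]
        exact hW'
      · show U.ev W * T.c = (U.ev p)⁻¹ * U.ev p' * U.ev W'
        have e1 : U.ev p * U.ev W * T.c = U.ev p' * U.ev W' := by
          rw [← UA.ev_append, ← UA.ev_append, hWe, hWe']
        rw [mul_assoc (U.ev p)⁻¹, ← e1]
        group
    have hPZ : nd T U (rt n) p p' ∈ PZ T U := by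
      refine ⟨⟨rt n, p, p', rt_IsE n, rt_one n, h1.1, h2.1, rfl⟩, h1.2.1, ?_, m, _, hKS⟩
      show FT T U (U.run U.s0 p') (T.actE ((U.ev p)⁻¹ * U.ev p')⁻¹ (rel T U p (rt n)))
      rw [fib_aux_rel]
      exact h2.2.1
    refine ⟨⟨nd T U (rt n) p p', (p, p'), (W, W')⟩, ?_, ?_⟩
    · rw [hJm]
      exact ⟨hPZ, ⟨⟨h1.1, h2.1, rfl⟩, h3⟩, hKS⟩
    · rw [hφ]
      exact hWe
  have hG : (GG T U n m R).Finite := by
    refine (J.finite_toSet.image φ).subset ?_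
    intro g hg
    obtain ⟨x, hx, hxg⟩ := hsurj g hg
    exact ⟨x, hx, hxg⟩
  have hinj : Set.InjOn φ (J : Set (Σ _ : PN U, (List U.A × List U.A) × (List U.A × List U.A))) := by
    rintro ⟨z, P, K⟩ hx ⟨z', P', K'⟩ hx' he
    rw [Finset.mem_coe] at hx hx'
    obtain ⟨t1, t2⟩ := htops _ hx
    obtain ⟨t1', t2'⟩ := htops _ hx'
    obtain ⟨a1, ⟨a2, -⟩, a3⟩ := (hJm _).1 hx
    obtain ⟨b1, ⟨b2, -⟩, b3⟩ := (hJm _).1 hx'
    rw [← he] at t1' t2'
    have e1 : P.1 = P'.1 := ftop_unique T U t1 t1'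
    have e2 : P.2 = P'.2 := ftop_unique T U t2 t2'
    have e3 : P = P' := Prod.ext e1 e2
    subst e3
    have e4 : z = z' := a2.2.2.trans b2.2.2.symm
    subst e4
    have e5 : U.ev (P.1 ++ K.1) = U.ev (P.1 ++ K'.1) := by
      rw [hφ] at he
      exact he
    have e6 : ∀ Q : List U.A × List U.A, Q ∈ KS T U m z → P.1 ++ Q.1 ∈ U.L ∧ P.2 ++ Q.2 ∈ U.L := by
      intro Q hQ
      have hz := a2.2.2
      change z = nd T U (rt n) P.1 P.2 at hz
      rw [hz] at hQ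
      obtain ⟨q1, q2, q3⟩ := hQ
      have q2' : Q.2 ∈ WW T U m (U.run U.s0 P.2)
        (T.actE ((U.ev P.1)⁻¹ * U.ev P.2)⁻¹ (rel T U P.1 (rt n))) := q2
      rw [fib_aux_rel] at q2'
      exact ⟨((WW_shift T U (rt n) P.1 Q.1 U.s0 m).1 q1).1,
        ((WW_shift T U (rt n) P.2 Q.2 U.s0 m).1 q2').1⟩
    have e7 : K.1 = K'.1 := List.append_cancel_left (U.ev_inj (e6 K a3).1 (e6 K' b3).1 e5)
    have e8 : U.ev K.2 = U.ev K'.2 := by
      have k1 := a3.2.2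
      have k2 := b3.2.2
      change U.ev K.1 * T.c = z.2.2.2 * U.ev K.2 at k1
      change U.ev K'.1 * T.c = z.2.2.2 * U.ev K'.2 at k2
      rw [e7, k2] at k1
      exact (mul_left_cancel k1).symm
    have e9 : K.2 = K'.2 := by
      refine List.append_cancel_left (U.ev_inj (e6 K a3).2 (e6 K' b3).2 ?_)
      rw [UA.ev_append, UA.ev_append, e8]
    have e10 : K = K' := Prod.ext e7 e9
    rw [e10]
  refine ⟨hG, ?_⟩
  intro Θ
  have s1 : ∑ x ∈ J, Θ x.2.1.1 x.2.1.2 =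
      ∑ g ∈ hG.toFinset, Θ (en T U n m g) (en T U n m (g * T.c)) := by
    refine Finset.sum_nbij φ ?_ hinj ?_ ?_
    · intro x hx
      rw [Set.Finite.mem_toFinset]
      exact hmem x hx
    · intro g hg
      rw [Finset.mem_coe, Set.Finite.mem_toFinset] at hg
      obtain ⟨x, hx, hxg⟩ := hsurj g hg
      exact ⟨x, hx, hxg⟩
    · intro x hx
      obtain ⟨t1, t2⟩ := htops x hx
      rw [en_eq T U t1, en_eq T U t2]
  rw [← s1, hJ, Finset.sum_sigma]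
  rw [← Finset.sum_attach hZ.toFinset
    (fun z => ∑ x ∈ Pf z ×ˢ Kf z, Θ x.1.1 x.1.2)]
  refine Finset.sum_congr rfl ?_
  intro z _
  have hz : z.1 ∈ PZ T U := hZ.mem_toFinset.1 z.2
  rw [hPf1 _ hz, hKf1 _ hz, Finset.sum_product, Set.ncard_eq_toFinset_card _ (hKfin _ hz),
    Finset.mul_sum]
  refine Finset.sum_congr rfl ?_
  intro P _
  exact (Finset.sum_const (Θ P.1 P.2)).trans (nsmul_eq_mul _ _)

end

end Pool.Agent.Helper943.LM
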