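import Mathlib
import Pool.Agent.Helper943.LM.Levels
import Pool.Agent.Helper943.LM.LA

set_option autoImplicit false

open scoped Classical

namespace Pool.Agent.Helper943.LM

noncomputable section

variable {G : Type} [Group G]

/-- the leaking tops -/
def NB (T : TP G) (U : UA G) (m n : ℕ) (R : ℝ) : Set G :=
  {g | T.vx g ∈ Vt m (rt n).2 ∧ ‖T.p g‖ ≤ R ∧ NFT T U n g}

/-- the weighted fibre count -/
def LL (T : TP G) (U : UA G) (n : ℕ) (R : ℝ) (hZ : (PZ T U).Finite)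
    (hP : ∀ z ∈ PZ T U, (PPR T U n R z).Finite) (z : {z // z ∈ hZ.toFinset}) : ℝ :=
  ∑ P ∈ (hP z.1 (hZ.mem_toFinset.1 z.2)).toFinset, wt R (T.p (U.ev P.1))

/-- the combined identity -/
def IdC (T : TP G) (U : UA G) : Prop :=
  ∀ (n m : ℕ) (R Cm R' : ℝ), 0 < R → 0 ≤ Cm → (∀ g, ‖Ph T U n m g - T.p g‖ ≤ Cm) →
    R + Cm + ‖T.p T.c‖ ≤ R' → ∀ (hZ : (PZ T U).Finite) (hP : ∀ z ∈ PZ T U, (PPR T U n R z).Finite),
    ‖(∑ z : {z // z ∈ hZ.toFinset}, (LL T U n R hZ hP z : ℂ) * fz T z.1 * ((KS T U m z.1).ncard : ℂ)) -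
      T.om ^ m * ((∑ g ∈ (Tb_fin T m n R').toFinset, wt R (T.p g) : ℝ) : ℂ) * T.p T.c‖ ≤
      2 * (NB T U m n (R' + ‖T.p T.c‖)).ncard * (2 * Cm + ‖T.p T.c‖) +
        (Tb T m n R').ncard * (Cm / R * (2 * Cm + ‖T.p T.c‖)) +
        (Tb T m n R').ncard * (‖T.p T.c‖ / R * Cm) ∧
    (∑ z : {z // z ∈ hZ.toFinset}, LL T U n R hZ hP z * ((KS T U m z.1).ncard : ℝ)) ≤
      (Tb T m n R').ncard

/-- the family of approximate eigenfunctionals -/
def FinS (T : TP G) (U : UA G) (hZ : (PZ T U).Finite) : Prop :=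
  ∃ κ0 κ1 C C' : ℝ, 0 < κ0 ∧ ∀ (M0 : ℕ) (ε : ℝ), 0 < ε →
    ∃ L : {z // z ∈ hZ.toFinset} → ℝ, (∀ z, 0 ≤ L z ∧ L z ≤ C') ∧ ∀ m ≤ M0,
      (∃ κ : ℝ, κ0 ≤ κ ∧ κ ≤ κ1 ∧
        ‖(∑ z, (L z : ℂ) * fz T z.1 * (((KS T U m z.1).ncard : ℂ) / 2 ^ m)) -
          T.om ^ m * κ * T.p T.c‖ ≤ ε) ∧
      (∑ z, L z * (((KS T U m z.1).ncard : ℝ) / 2 ^ m)) ≤ C

theorem aux_vx_c (T : TP G) (g : G) : T.vx (g * T.c) = T.vx g := by
  rw [T.vx_mul]
  show T.act g (T.act T.c 1) = T.act g 1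
  rw [T.c_act]

theorem aux_vx_cinv (T : TP G) (g : G) : T.vx (g * T.c⁻¹) = T.vx g := by
  have := aux_vx_c T (g * T.c⁻¹)
  rw [inv_mul_cancel_right] at this
  exact this.symm

theorem aux_tau (T : TP G) {n m : ℕ} {g : G} (h : T.vx g ∈ Vt m (rt n).2) :
    T.tau g = (n : ℤ) + 1 + m := by
  rw [← T.ex_vx, Vt_ex h, rt_ex_snd]

theorem id1 (T : TP G) (U : UA G) (n m : ℕ) (R Cm : ℝ) (hR : 0 < R) (hCm : 0 ≤ Cm)
    (hC : ∀ g, ‖Ph T U n m g - T.p g‖ ≤ Cm) (R' : ℝ) (hR' : R + Cm + ‖T.p T.c‖ ≤ R') :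
    ‖(∑ g ∈ (Tb_fin T m n R').toFinset, (wt R (T.p g) : ℂ) * (Ph T U n m (g * T.c) - Ph T U n m g)) -
      T.om ^ ((n : ℤ) + 1 + m) * T.p T.c * ((∑ g ∈ (Tb_fin T m n R').toFinset, wt R (T.p g) : ℝ) : ℂ)‖
      ≤ (Tb T m n R').ncard * (‖T.p T.c‖ / R * Cm) := by
  obtain ⟨S, hS⟩ : ∃ S, S = (Tb_fin T m n R').toFinset := ⟨_, rfl⟩
  rw [← hS]
  have hSm : ∀ g, g ∈ S ↔ T.vx g ∈ Vt m (rt n).2 ∧ ‖T.p g‖ ≤ R' := by
    intro g
    rw [hS, Set.Finite.mem_toFinset]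
    rfl
  obtain ⟨φ, hφ⟩ : ∃ φ : G → ℝ, φ = fun g => if T.vx g ∈ Vt m (rt n).2 then wt R (T.p g) else 0 :=
    ⟨_, rfl⟩
  obtain ⟨δ, hδ⟩ : ∃ δ : G → ℂ, δ = fun g => Ph T U n m g - T.p g := ⟨_, rfl⟩
  have e1 : (∑ g ∈ S, (wt R (T.p g) : ℂ) * (Ph T U n m (g * T.c) - Ph T U n m g)) -
      T.om ^ ((n : ℤ) + 1 + m) * T.p T.c * ((∑ g ∈ S, wt R (T.p g) : ℝ) : ℂ) =
      ∑ g ∈ S, (φ g : ℂ) * (δ (g * T.c) - δ g) := by
    rw [Complex.ofReal_sum, Finset.mul_sum, ← Finset.sum_sub_distrib]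
    refine Finset.sum_congr rfl fun g hg => ?_
    have hv := ((hSm g).1 hg).1
    rw [hφ, hδ]
    simp only [if_pos hv]
    have := T.p_mul g T.c
    rw [aux_tau T hv] at this
    rw [this]
    ring
  rw [e1]
  have e2 : ((Tb T m n R').ncard : ℝ) = S.card := by
    rw [hS, Set.ncard_eq_toFinset_card _ (Tb_fin T m n R')]
  rw [e2]
  have hpc : 0 ≤ ‖T.p T.c‖ := norm_nonneg _
  apply sum_parts
  · intro g hg
    rw [hφ]
    simp only [aux_vx_cinv]
    by_cases hv : T.vx g ∈ Vt m (rt n).2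
    · rw [if_pos hv, if_pos hv]
      have h1 : R' < ‖T.p g‖ := by
        by_contra h2
        exact hg ((hSm g).2 ⟨hv, not_lt.1 h2⟩)
      refine ⟨wt_zero hR (by linarith), wt_zero hR ?_⟩
      have h3 : ‖T.p (g * T.c⁻¹) - T.p g‖ = ‖T.p T.c‖ := by
        rw [T.norm_p_mul_sub, T.norm_p_inv]
      have h4 : ‖T.p g‖ - ‖T.p (g * T.c⁻¹)‖ ≤ ‖T.p (g * T.c⁻¹) - T.p g‖ := by
        rw [norm_sub_rev]
        exact norm_sub_norm_le _ _
      linarith
    · rw [if_neg hv, if_neg hv]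
      exact ⟨rfl, rfl⟩
  · intro g _
    rw [hδ]
    exact hC g
  · intro g hg
    have hv := ((hSm g).1 hg).1
    rw [hφ]
    simp only [aux_vx_cinv, if_pos hv]
    refine (wt_lip hR _ _).trans (le_of_eq ?_)
    rw [T.norm_p_mul_sub, T.norm_p_inv]
  · positivity

theorem id2 (T : TP G) (U : UA G) (n m : ℕ) (R Cm : ℝ) (hR : 0 < R) (hCm : 0 ≤ Cm)
    (hC : ∀ g, ‖Ph T U n m g - T.p g‖ ≤ Cm) (R' : ℝ) (hR' : R + Cm + ‖T.p T.c‖ ≤ R')
    (hG : (GG T U n m R).Finite) :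
    ‖(∑ g ∈ (Tb_fin T m n R').toFinset, (wt R (T.p g) : ℂ) * (Ph T U n m (g * T.c) - Ph T U n m g)) -
      ∑ g ∈ hG.toFinset, (wt R (Ph T U n m g) : ℂ) * (Ph T U n m (g * T.c) - Ph T U n m g)‖
      ≤ 2 * (NB T U m n (R' + ‖T.p T.c‖)).ncard * (2 * Cm + ‖T.p T.c‖) +
        (Tb T m n R').ncard * (Cm / R * (2 * Cm + ‖T.p T.c‖)) := by
  have hpc : 0 ≤ ‖T.p T.c‖ := norm_nonneg _
  have e2 : ((Tb T m n R').ncard : ℝ) = (Tb_fin T m n R').toFinset.card := by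
    rw [Set.ncard_eq_toFinset_card _ (Tb_fin T m n R')]
  rw [e2]
  obtain ⟨S, hS⟩ : ∃ S, S = (Tb_fin T m n R').toFinset := ⟨_, rfl⟩
  rw [← hS]
  have hSm : ∀ g, g ∈ S ↔ T.vx g ∈ Vt m (rt n).2 ∧ ‖T.p g‖ ≤ R' := by
    intro g
    rw [hS, Set.Finite.mem_toFinset]
    rfl
  obtain ⟨K, hK⟩ : ∃ K : ℝ, K = 2 * Cm + ‖T.p T.c‖ := ⟨_, rfl⟩
  rw [← hK]
  have hK0 : 0 ≤ K := by rw [hK]; positivity
  have hD : ∀ g, ‖Ph T U n m (g * T.c) - Ph T U n m g‖ ≤ K := by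
    intro g
    have h1 : Ph T U n m (g * T.c) - Ph T U n m g =
        (Ph T U n m (g * T.c) - T.p (g * T.c)) - (Ph T U n m g - T.p g) + (T.p (g * T.c) - T.p g) := by
      ring
    rw [h1]
    refine (norm_add_le _ _).trans ?_
    have h2 := norm_sub_le (Ph T U n m (g * T.c) - T.p (g * T.c)) (Ph T U n m g - T.p g)
    have h3 := hC g
    have h4 := hC (g * T.c)
    rw [T.norm_p_mul_sub]
    linarith
  have hGS : hG.toFinset ⊆ S := by
    intro g hg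
    rw [Set.Finite.mem_toFinset] at hg
    obtain ⟨p, p', h1, h2, h3⟩ := hg
    rw [hSm]
    refine ⟨ftop_vx T U h1, ?_⟩
    have h4 := hC g
    rw [Ph_eq T U h1] at h4
    have h5 : ‖T.p g‖ - ‖T.p (U.ev p)‖ ≤ ‖T.p (U.ev p) - T.p g‖ := by
      rw [norm_sub_rev]
      exact norm_sub_norm_le _ _
    linarith
  have e3 : ∑ g ∈ hG.toFinset, (wt R (Ph T U n m g) : ℂ) * (Ph T U n m (g * T.c) - Ph T U n m g) =
      ∑ g ∈ S, ((if g ∈ hG.toFinset then wt R (Ph T U n m g) else 0 : ℝ) : ℂ) *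
        (Ph T U n m (g * T.c) - Ph T U n m g) := by
    rw [← Finset.sum_subset hGS]
    · refine Finset.sum_congr rfl fun g hg => ?_
      rw [if_pos hg]
    · intro g _ hg
      rw [if_neg hg, Complex.ofReal_zero, zero_mul]
  rw [e3, ← Finset.sum_sub_distrib]
  have hcR : 0 ≤ Cm / R := by positivity
  have hterm : ∀ g ∈ S, ‖(wt R (T.p g) : ℂ) * (Ph T U n m (g * T.c) - Ph T U n m g) -
      ((if g ∈ hG.toFinset then wt R (Ph T U n m g) else 0 : ℝ) : ℂ) *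
        (Ph T U n m (g * T.c) - Ph T U n m g)‖ ≤
      (if NFT T U n g then K else 0) + (if NFT T U n (g * T.c) then K else 0) + Cm / R * K := by
    intro g hg
    have hv := ((hSm g).1 hg).1
    have hv' : T.vx (g * T.c) ∈ Vt m (rt n).2 := by rw [aux_vx_c]; exact hv
    rw [← sub_mul, norm_mul, ← Complex.ofReal_sub, Complex.norm_real, Real.norm_eq_abs]
    have hlip : |wt R (T.p g) - wt R (Ph T U n m g)| ≤ Cm / R := by
      refine (wt_lip hR _ _).trans ?_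
      rw [norm_sub_rev]
      exact div_le_div_of_nonneg_right (hC g) hR.le
    have hn1 : (0 : ℝ) ≤ (if NFT T U n g then K else 0) := by split_ifs <;> [exact hK0; exact le_rfl]
    have hn2 : (0 : ℝ) ≤ (if NFT T U n (g * T.c) then K else 0) := by
      split_ifs <;> [exact hK0; exact le_rfl]
    by_cases hgG : g ∈ hG.toFinset
    · rw [if_pos hgG]
      have h1 := mul_le_mul hlip (hD g) (norm_nonneg _) hcR
      linarith
    · rw [if_neg hgG, sub_zero]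
      have h1 : |wt R (T.p g)| ≤ 1 := by
        rw [abs_of_nonneg (wt_nonneg _ _)]
        exact wt_le_one hR _
      have h2 := mul_le_mul h1 (hD g) (norm_nonneg _) zero_le_one
      have h3 : 0 ≤ Cm / R * K := mul_nonneg hcR hK0
      by_cases hN1 : NFT T U n g
      · rw [if_pos hN1] at hn1 ⊢
        linarith
      by_cases hN2 : NFT T U n (g * T.c)
      · rw [if_pos hN2] at hn2 ⊢
        linarith
      obtain ⟨p, hp⟩ := (ftop_or T U hv).resolve_right hN1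
      obtain ⟨p', hp'⟩ := (ftop_or T U hv').resolve_right hN2
      have h4 : R < ‖T.p (U.ev p)‖ := by
        by_contra h5
        apply hgG
        rw [Set.Finite.mem_toFinset]
        exact ⟨p, p', hp, hp', not_lt.1 h5⟩
      have h5 : wt R (Ph T U n m g) = 0 := by
        rw [Ph_eq T U hp]
        exact wt_zero hR h4.le
      rw [h5, sub_zero] at hlip
      have h6 := mul_le_mul hlip (hD g) (norm_nonneg _) hcR
      linarith
  have hNBfin : (NB T U m n (R' + ‖T.p T.c‖)).Finite := by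
    refine (Tb_fin T m n (R' + ‖T.p T.c‖)).subset ?_
    rintro g ⟨h1, h2, -⟩
    exact ⟨h1, h2⟩
  have hc1 : ((S.filter (fun g => NFT T U n g)).card : ℝ) ≤
      ((NB T U m n (R' + ‖T.p T.c‖)).ncard : ℝ) := by
    rw [Set.ncard_eq_toFinset_card _ hNBfin]
    have h0 : S.filter (fun g => NFT T U n g) ⊆ hNBfin.toFinset := by
      intro g hg
      rw [Finset.mem_filter, hSm] at hg
      rw [Set.Finite.mem_toFinset]
      exact ⟨hg.1.1, by linarith [hg.1.2], hg.2⟩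
    exact_mod_cast Finset.card_le_card h0
  have hc2 : ((S.filter (fun g => NFT T U n (g * T.c))).card : ℝ) ≤
      ((NB T U m n (R' + ‖T.p T.c‖)).ncard : ℝ) := by
    rw [Set.ncard_eq_toFinset_card _ hNBfin]
    have h0 : (S.filter (fun g => NFT T U n (g * T.c))).card ≤ hNBfin.toFinset.card := by
      refine Finset.card_le_card_of_injOn (fun g => g * T.c) ?_ ?_
      · intro g hg
        rw [Finset.mem_coe, Finset.mem_filter, hSm] at hg
        rw [Finset.mem_coe, Set.Finite.mem_toFinset]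
        refine ⟨?_, ?_, hg.2⟩
        · show T.vx (g * T.c) ∈ _
          rw [aux_vx_c]
          exact hg.1.1
        · have := T.norm_p_mul_le g T.c
          show ‖T.p (g * T.c)‖ ≤ _
          linarith [hg.1.2]
      · intro a _ b _ hab
        exact mul_right_cancel hab
    exact_mod_cast h0
  have hs1 : ∑ g ∈ S, (if NFT T U n g then K else 0) = ((S.filter (fun g => NFT T U n g)).card : ℝ) * K := by
    rw [← Finset.sum_filter, Finset.sum_const, nsmul_eq_mul]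
  have hs2 : ∑ g ∈ S, (if NFT T U n (g * T.c) then K else 0) =
      ((S.filter (fun g => NFT T U n (g * T.c))).card : ℝ) * K := by
    rw [← Finset.sum_filter, Finset.sum_const, nsmul_eq_mul]
  refine (norm_sum_le _ _).trans ((Finset.sum_le_sum hterm).trans ?_)
  rw [Finset.sum_add_distrib, Finset.sum_add_distrib, Finset.sum_const, nsmul_eq_mul, hs1, hs2]
  have h1 := mul_le_mul_of_nonneg_right hc1 hK0
  have h2 := mul_le_mul_of_nonneg_right hc2 hK0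
  nlinarith [h1, h2]

theorem id3 (T : TP G) (U : UA G) (n m : ℕ) (R : ℝ) (hZ : (PZ T U).Finite)
    (hP : ∀ z ∈ PZ T U, (PPR T U n R z).Finite) :
    ∃ hG : (GG T U n m R).Finite,
      (∑ g ∈ hG.toFinset, (wt R (Ph T U n m g) : ℂ) * (Ph T U n m (g * T.c) - Ph T U n m g)) =
        T.om ^ ((n : ℤ) + 1) * ∑ z ∈ hZ.toFinset.attach,
          ((∑ P ∈ (hP z.1 (hZ.mem_toFinset.1 z.2)).toFinset, wt R (T.p (U.ev P.1)) : ℝ) : ℂ) *
            fz T z.1 * ((KS T U m z.1).ncard : ℂ) ∧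
      (∑ g ∈ hG.toFinset, wt R (Ph T U n m g)) =
        ∑ z ∈ hZ.toFinset.attach,
          (∑ P ∈ (hP z.1 (hZ.mem_toFinset.1 z.2)).toFinset, wt R (T.p (U.ev P.1))) *
            ((KS T U m z.1).ncard : ℝ) ∧
      (∀ g ∈ hG.toFinset, T.vx g ∈ Vt m (rt n).2 ∧ ‖Ph T U n m g‖ ≤ R) := by
  obtain ⟨hG, hΘ⟩ := fibS T U hZ n m R hP
  refine ⟨hG, ?_, ?_, ?_⟩
  · have h1 := hΘ (fun p p' => (wt R (T.p (U.ev p)) : ℂ) * (T.p (U.ev p') - T.p (U.ev p)))
    have h2 : ∑ g ∈ hG.toFinset, (wt R (Ph T U n m g) : ℂ) * (Ph T U n m (g * T.c) - Ph T U n m g) =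
        ∑ g ∈ hG.toFinset, (fun p p' => (wt R (T.p (U.ev p)) : ℂ) * (T.p (U.ev p') - T.p (U.ev p)))
          (en T U n m g) (en T U n m (g * T.c)) := by
      refine Finset.sum_congr rfl fun g hg => ?_
      rw [Set.Finite.mem_toFinset] at hg
      obtain ⟨p, p', q1, q2, q3⟩ := hg
      rw [Ph_eq T U q1, Ph_eq T U q2, en_eq T U q1, en_eq T U q2]
    rw [h2, h1, Finset.mul_sum]
    refine Finset.sum_congr rfl fun z _ => ?_
    have h3 : ∑ P ∈ (hP z.1 (hZ.mem_toFinset.1 z.2)).toFinset,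
        (fun p p' => (wt R (T.p (U.ev p)) : ℂ) * (T.p (U.ev p') - T.p (U.ev p))) P.1 P.2 =
        ∑ P ∈ (hP z.1 (hZ.mem_toFinset.1 z.2)).toFinset,
          (wt R (T.p (U.ev P.1)) : ℂ) * (T.om ^ ((n : ℤ) + 1) * fz T z.1) := by
      refine Finset.sum_congr rfl fun P hPm => ?_
      rw [Set.Finite.mem_toFinset] at hPm
      show (wt R (T.p (U.ev P.1)) : ℂ) * (T.p (U.ev P.2) - T.p (U.ev P.1)) = _
      rw [pp_diff T U hPm.1]
      rfl
    rw [h3, ← Finset.sum_mul, Complex.ofReal_sum]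
    ring
  · have h1 := hΘ (fun p _ => (wt R (T.p (U.ev p)) : ℂ))
    have h2 : ((∑ g ∈ hG.toFinset, wt R (Ph T U n m g) : ℝ) : ℂ) =
        ∑ g ∈ hG.toFinset, (fun p _ => (wt R (T.p (U.ev p)) : ℂ))
          (en T U n m g) (en T U n m (g * T.c)) := by
      rw [Complex.ofReal_sum]
      refine Finset.sum_congr rfl fun g hg => ?_
      rw [Set.Finite.mem_toFinset] at hg
      obtain ⟨p, p', q1, q2, q3⟩ := hg
      rw [Ph_eq T U q1, en_eq T U q1]
    have h3 : ((∑ g ∈ hG.toFinset, wt R (Ph T U n m g) : ℝ) : ℂ) =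
        ((∑ z ∈ hZ.toFinset.attach,
          (∑ P ∈ (hP z.1 (hZ.mem_toFinset.1 z.2)).toFinset, wt R (T.p (U.ev P.1))) *
            ((KS T U m z.1).ncard : ℝ) : ℝ) : ℂ) := by
      rw [h2, h1, Complex.ofReal_sum]
      refine Finset.sum_congr rfl fun z _ => ?_
      rw [Complex.ofReal_mul, Complex.ofReal_sum, Complex.ofReal_natCast, mul_comm]
    exact Complex.ofReal_injective h3
  · intro g hg
    rw [Set.Finite.mem_toFinset] at hg
    obtain ⟨p, p', q1, q2, q3⟩ := hg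
    exact ⟨ftop_vx T U q1, by rw [Ph_eq T U q1]; exact q3⟩

theorem j16712_wt_sum {ι : Type} (S : Finset ι) (f : ι → ℂ) {R : ℝ} (hR : 0 < R) :
    0 ≤ ∑ i ∈ S, wt R (f i) ∧ ∑ i ∈ S, wt R (f i) ≤ S.card := by
  constructor
  · exact Finset.sum_nonneg fun i _ => wt_nonneg R _
  · calc ∑ i ∈ S, wt R (f i) ≤ ∑ _i ∈ S, (1:ℝ) := Finset.sum_le_sum fun i _ => wt_le_one hR _
      _ = S.card := by rw [Finset.sum_const, nsmul_eq_mul, mul_one]

theorem j16712_num {N1 N2 kap K Cm a R ε ε' P : ℝ} (hK : 0 ≤ K) (hCm : 0 ≤ Cm)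
    (ha : 0 ≤ a) (hR : 0 < R) (hε : 0 < ε) (hε' : ε' = ε / (16 * (K + 1)))
    (hP : 1 ≤ P) (h1 : N1 ≤ ε' * (2 * R) ^ 2) (h2 : N2 ≤ P * (kap * (2 * R) ^ 2))
    (hRb : 8 * kap * Cm * (K + a) ≤ ε * R) :
    2 * N1 * K + N2 * (Cm / R * K) + N2 * (a / R * Cm) ≤ ε * (P * R ^ 2) := by
  have e1 : 2 * N1 * K ≤ ε / 2 * (P * R ^ 2) := by
    have g1 : 2 * N1 * K ≤ 2 * (ε' * (2 * R) ^ 2) * K :=
      mul_le_mul_of_nonneg_right (by linarith) hK
    have g2 : 2 * (ε' * (2 * R) ^ 2) * K = ε / 2 * R ^ 2 * (K / (K + 1)) := by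
      rw [hε']
      have : K + 1 ≠ 0 := by linarith
      field_simp
      ring
    have g3 : K / (K + 1) ≤ 1 := by
      rw [div_le_one (by linarith)]
      linarith
    have g4 : ε / 2 * R ^ 2 * (K / (K + 1)) ≤ ε / 2 * R ^ 2 * 1 :=
      mul_le_mul_of_nonneg_left g3 (by positivity)
    have g5 : ε / 2 * (1 * R ^ 2) ≤ ε / 2 * (P * R ^ 2) :=
      mul_le_mul_of_nonneg_left (mul_le_mul_of_nonneg_right hP (by positivity)) (by positivity)
    linarith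
  have e2 : N2 * (Cm / R * K) + N2 * (a / R * Cm) ≤ ε / 2 * (P * R ^ 2) := by
    have g0 : 0 ≤ Cm / R * K + a / R * Cm := by positivity
    have g1 : N2 * (Cm / R * K) + N2 * (a / R * Cm) ≤
        P * (kap * (2 * R) ^ 2) * (Cm / R * K + a / R * Cm) := by
      rw [← mul_add]
      exact mul_le_mul_of_nonneg_right h2 g0
    have g2 : P * (kap * (2 * R) ^ 2) * (Cm / R * K + a / R * Cm) =
        P * R / 2 * (8 * kap * Cm * (K + a)) := by
      field_simp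
      ring
    have g3 : P * R / 2 * (8 * kap * Cm * (K + a)) ≤ P * R / 2 * (ε * R) :=
      mul_le_mul_of_nonneg_left hRb (by positivity)
    nlinarith
  linarith

theorem id4 (T : TP G) (U : UA G) (hlen : LenWS T U) (hleak : LeakS T U) (hppr : PprS T U)
    (hid : IdC T U) (hZ : (PZ T U).Finite) : FinS T U hZ := by 
  obtain ⟨κ0, R1, hκ0, hR1, hlow⟩ := kap_low T
  obtain ⟨Cp, hCp⟩ := hppr
  obtain ⟨Cf, hCf1, hCf2, hCf3⟩ := ph_near T U hlen
  refine ⟨κ0, 4 * T.kap, 4 * T.kap, max Cp 0, hκ0, fun M0 ε hε => ?_⟩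
  obtain ⟨a, ha⟩ : ∃ a : ℝ, a = ‖T.p T.c‖ := ⟨_, rfl⟩
  have ha0 : 0 ≤ a := by rw [ha]; exact norm_nonneg _
  obtain ⟨Cm, hCm⟩ : ∃ Cm : ℝ, Cm = Cf M0 := ⟨_, rfl⟩
  have hCm0 : 0 ≤ Cm := by rw [hCm]; exact hCf2 M0
  obtain ⟨K, hK⟩ : ∃ K : ℝ, K = 2 * Cm + a := ⟨_, rfl⟩
  have hK0 : 0 ≤ K := by rw [hK]; positivity
  obtain ⟨ε', hε'⟩ : ∃ ε' : ℝ, ε' = ε / (16 * (K + 1)) := ⟨_, rfl⟩
  have hε'0 : 0 < ε' := by rw [hε']; positivity
  obtain ⟨J, R0, hJ⟩ := hleak M0 ε' hε'0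
  have hkap0 : (0:ℝ) ≤ T.kap := Nat.cast_nonneg _
  obtain ⟨R, hR0, hR1', hR2, hR3, hR4⟩ : ∃ R : ℝ, R0 ≤ R ∧ R1 ≤ R ∧ 1 ≤ R ∧ Cm + 2 * a + 1 ≤ R ∧
      8 * T.kap * Cm * (K + a) / ε ≤ R := by
    refine ⟨max R0 (max R1 (max 1 (max (Cm + 2 * a + 1) (8 * T.kap * Cm * (K + a) / ε)))),
      le_max_left _ _, ?_, ?_, ?_, ?_⟩
    · exact le_max_of_le_right (le_max_left _ _)
    · exact le_max_of_le_right (le_max_of_le_right (le_max_left _ _))
    · exact le_max_of_le_right (le_max_of_le_right (le_max_of_le_right (le_max_left _ _)))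
    · exact le_max_of_le_right (le_max_of_le_right (le_max_of_le_right (le_max_right _ _)))
  have hRpos : 0 < R := by linarith
  obtain ⟨R', hR'⟩ : ∃ R' : ℝ, R' = R + Cm + a := ⟨_, rfl⟩
  have hR'R : R ≤ R' := by rw [hR']; linarith
  have hR'2 : R' + a + 1 ≤ 2 * R := by rw [hR']; linarith
  obtain ⟨n, hn, hleakn⟩ := hJ (R' + a) (by linarith)
  have hP : ∀ z ∈ PZ T U, (PPR T U n R z).Finite := fun z hz => (hCp n R hR2 z hz).1
  have hRb : 8 * T.kap * Cm * (K + a) ≤ ε * R := by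
    rw [div_le_iff₀ hε] at hR4
    linarith
  have hfinleak : {g | (∃ m' ≤ M0, T.vx g ∈ Vt m' (rt n).2) ∧ ‖T.p g‖ ≤ R' + a ∧
      NFT T U n g}.Finite := by
    refine Set.Finite.subset (Set.Finite.biUnion (Set.finite_Iic M0)
      (fun m' _ => Tb_fin T m' n (R' + a))) ?_
    rintro g ⟨⟨m', hm', h1⟩, h2, -⟩
    exact Set.mem_biUnion (Set.mem_Iic.2 hm') ⟨h1, h2⟩
  have hsq : (R' + a) ^ 2 ≤ (2 * R) ^ 2 := by
    refine pow_le_pow_left₀ ?_ ?_ 2
    · linarith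
    · linarith
  have hNB : ∀ m ≤ M0, ((NB T U m n (R' + a)).ncard : ℝ) ≤ ε' * (2 * R) ^ 2 := by
    intro m hm
    have h1 : (NB T U m n (R' + a)).ncard ≤
        {g | (∃ m' ≤ M0, T.vx g ∈ Vt m' (rt n).2) ∧ ‖T.p g‖ ≤ R' + a ∧ NFT T U n g}.ncard := by
      refine Set.ncard_le_ncard ?_ hfinleak
      rintro g ⟨h1, h2, h3⟩
      exact ⟨⟨m, hm, h1⟩, h2, h3⟩
    have h2 : ((NB T U m n (R' + a)).ncard : ℝ) ≤
        ({g | (∃ m' ≤ M0, T.vx g ∈ Vt m' (rt n).2) ∧ ‖T.p g‖ ≤ R' + a ∧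
          NFT T U n g}.ncard : ℝ) := by exact_mod_cast h1
    have h3 : ε' * (R' + a) ^ 2 ≤ ε' * (2 * R) ^ 2 := mul_le_mul_of_nonneg_left hsq hε'0.le
    linarith
  have hTb : ∀ m, ((Tb T m n R').ncard : ℝ) ≤ 2 ^ m * (T.kap * (2 * R) ^ 2) := by
    intro m
    refine (Tb_count T m n R' (by linarith)).trans ?_
    have h1 : (R' + 1) ^ 2 ≤ (2 * R) ^ 2 := by
      refine pow_le_pow_left₀ ?_ ?_ 2
      · linarith
      · linarith
    exact mul_le_mul_of_nonneg_left (mul_le_mul_of_nonneg_left h1 hkap0) (by positivity)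
  have hR2pos : 0 < R ^ 2 := by positivity
  refine ⟨fun z => LL T U n R hZ hP z / R ^ 2, ?_, ?_⟩
  · intro z
    have hz : z.1 ∈ PZ T U := hZ.mem_toFinset.1 z.2
    obtain ⟨h1, h2⟩ := j16712_wt_sum (hP z.1 hz).toFinset (fun P => T.p (U.ev P.1)) hRpos
    constructor
    · exact div_nonneg h1 hR2pos.le
    · rw [div_le_iff₀ hR2pos]
      have h3 := (hCp n R hR2 z.1 hz).2
      rw [Set.ncard_eq_toFinset_card _ (hP z.1 hz)] at h3
      have h4 : Cp * R ^ 2 ≤ max Cp 0 * R ^ 2 :=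
        mul_le_mul_of_nonneg_right (le_max_left _ _) hR2pos.le
      exact h2.trans (h3.trans h4)
  · intro m hm
    have hCmm : ∀ g, ‖Ph T U n m g - T.p g‖ ≤ Cm := fun g =>
      (hCf3 n m g).trans (by rw [hCm]; exact hCf1 hm)
    obtain ⟨hid1, hid2⟩ := hid n m R Cm R' hRpos hCm0 hCmm (by rw [hR', ha]) hZ hP
    obtain ⟨P, hPdef⟩ : ∃ P : ℝ, P = 2 ^ m := ⟨_, rfl⟩
    have hP1 : 1 ≤ P := by rw [hPdef]; exact one_le_pow₀ (by norm_num)
    have hPpos : 0 < P := by linarith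
    have hTbm := hTb m
    rw [← hPdef] at hTbm
    obtain ⟨Sg, hSg⟩ : ∃ Sg : ℝ, Sg = ∑ g ∈ (Tb_fin T m n R').toFinset, wt R (T.p g) := ⟨_, rfl⟩
    have hSg1 : κ0 * P * R ^ 2 ≤ Sg := by
      rw [hSg, hPdef]
      refine hlow R hR1' m n _ ?_ ?_
      · rintro g ⟨h1, h2⟩
        rw [Finset.mem_coe, Set.Finite.mem_toFinset]
        exact ⟨h1, h2.trans hR'R⟩
      · intro g hg
        rw [Set.Finite.mem_toFinset] at hg
        exact hg.1
    have hSg2 : Sg ≤ P * (T.kap * (2 * R) ^ 2) := by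
      have h1 := (j16712_wt_sum (Tb_fin T m n R').toFinset (fun g => T.p g) hRpos).2
      rw [← Set.ncard_eq_toFinset_card _ (Tb_fin T m n R')] at h1
      rw [hSg]
      exact h1.trans hTbm
    rw [← hSg, ← ha, ← hK] at hid1
    have hPR : 0 < P * R ^ 2 := by positivity
    constructor
    · refine ⟨Sg / (P * R ^ 2), ?_, ?_, ?_⟩
      · rw [le_div_iff₀ hPR]
        linarith
      · rw [div_le_iff₀ hPR]
        linarith
      · have hPC : ((P : ℝ) : ℂ) = 2 ^ m := by rw [hPdef]; push_cast; rfl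
        have hPne : ((P : ℝ) : ℂ) ≠ 0 := by exact_mod_cast hPpos.ne'
        have hRne : ((R : ℝ) : ℂ) ≠ 0 := by exact_mod_cast hRpos.ne'
        have e1 : (∑ z : {z // z ∈ hZ.toFinset}, ((LL T U n R hZ hP z / R ^ 2 : ℝ) : ℂ) *
            fz T z.1 * (((KS T U m z.1).ncard : ℂ) / 2 ^ m)) -
            T.om ^ m * ((Sg / (P * R ^ 2) : ℝ) : ℂ) * T.p T.c =
            ((∑ z : {z // z ∈ hZ.toFinset}, (LL T U n R hZ hP z : ℂ) * fz T z.1 *
              ((KS T U m z.1).ncard : ℂ)) - T.om ^ m * ((Sg : ℝ) : ℂ) * T.p T.c) /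
              ((P * R ^ 2 : ℝ) : ℂ) := by
          rw [sub_div, Finset.sum_div]
          congr 1
          · refine Finset.sum_congr rfl fun z _ => ?_
            rw [← hPC]
            push_cast
            field_simp
          · push_cast
            field_simp
        rw [e1, norm_div, Complex.norm_real, Real.norm_eq_abs, abs_of_pos hPR, div_le_iff₀ hPR]
        refine hid1.trans ?_
        exact j16712_num hK0 hCm0 ha0 hRpos hε hε' hP1 (hNB m hm) hTbm hRb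
    · have e1 : ∑ z : {z // z ∈ hZ.toFinset}, LL T U n R hZ hP z / R ^ 2 *
          (((KS T U m z.1).ncard : ℝ) / 2 ^ m) =
          (∑ z : {z // z ∈ hZ.toFinset}, LL T U n R hZ hP z * ((KS T U m z.1).ncard : ℝ)) /
            (P * R ^ 2) := by
        rw [Finset.sum_div]
        refine Finset.sum_congr rfl fun z _ => ?_
        rw [← hPdef]
        field_simp
      rw [e1, div_le_iff₀ hPR]
      refine (hid2.trans hTbm).trans (le_of_eq ?_)
      ring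

theorem idC (T : TP G) (U : UA G) : IdC T U := by
  intro n m R Cm R' hR hCm hC hR' hZ hP
  obtain ⟨hG, e1, e2, e3⟩ := id3 T U n m R hZ hP
  have i1 := id1 T U n m R Cm hR hCm hC R' hR'
  have i2 := id2 T U n m R Cm hR hCm hC R' hR' hG
  set A := ∑ g ∈ (Tb_fin T m n R').toFinset, (wt R (T.p g) : ℂ) * (Ph T U n m (g * T.c) - Ph T U n m g) with hA
  set B := ∑ g ∈ hG.toFinset, (wt R (Ph T U n m g) : ℂ) * (Ph T U n m (g * T.c) - Ph T U n m g) with hB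
  set Sw := ((∑ g ∈ (Tb_fin T m n R').toFinset, wt R (T.p g) : ℝ) : ℂ) with hSw
  constructor
  · have e4 : ∑ z : {z // z ∈ hZ.toFinset}, (LL T U n R hZ hP z : ℂ) * fz T z.1 * ((KS T U m z.1).ncard : ℂ)
        = T.om ^ (-((n : ℤ) + 1)) * B := by
      rw [e1, ← mul_assoc, ← zpow_add₀ T.om_ne_zero]
      simp only [neg_add_cancel, zpow_zero, one_mul]
      rfl
    have e5 : T.om ^ m * Sw * T.p T.c = T.om ^ (-((n : ℤ) + 1)) * (T.om ^ ((n : ℤ) + 1 + m) * T.p T.c * Sw) := by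
      have : T.om ^ m = T.om ^ (-((n : ℤ) + 1)) * T.om ^ ((n : ℤ) + 1 + m) := by
        rw [← zpow_add₀ T.om_ne_zero]
        rw [← zpow_natCast]
        congr 1
        ring
      rw [this]; ring
    rw [e4, e5, ← mul_sub, norm_mul, T.norm_om_zpow, one_mul]
    have : B - T.om ^ ((n : ℤ) + 1 + m) * T.p T.c * Sw =
        (A - T.om ^ ((n : ℤ) + 1 + m) * T.p T.c * Sw) - (A - B) := by ring
    rw [this]
    calc _ ≤ ‖A - T.om ^ ((n : ℤ) + 1 + m) * T.p T.c * Sw‖ + ‖A - B‖ := norm_sub_le _ _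
      _ ≤ _ := by linarith
  · have : (∑ z : {z // z ∈ hZ.toFinset}, LL T U n R hZ hP z * ((KS T U m z.1).ncard : ℝ)) =
        ∑ g ∈ hG.toFinset, wt R (Ph T U n m g) := by
      rw [e2]; rfl
    rw [this]
    have hsub : hG.toFinset ⊆ (Tb_fin T m n R').toFinset := by
      intro g hg
      have h3 := e3 g hg
      rw [Set.Finite.mem_toFinset]
      refine ⟨h3.1, ?_⟩
      have h4 := hC g
      have : ‖T.p g‖ ≤ ‖Ph T U n m g‖ + ‖Ph T U n m g - T.p g‖ := by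
        have : T.p g = Ph T U n m g - (Ph T U n m g - T.p g) := by ring
        calc ‖T.p g‖ = ‖Ph T U n m g - (Ph T U n m g - T.p g)‖ := by rw [← this]
          _ ≤ _ := norm_sub_le _ _
      have := norm_nonneg (T.p T.c)
      linarith
    calc ∑ g ∈ hG.toFinset, wt R (Ph T U n m g) ≤ ∑ g ∈ hG.toFinset, (1 : ℝ) :=
          Finset.sum_le_sum (fun g _ => wt_le_one hR _)
      _ = (hG.toFinset.card : ℝ) := by simp
      _ ≤ ((Tb_fin T m n R').toFinset.card : ℝ) := by exact_mod_cast Finset.card_le_card hsub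
      _ = ((Tb T m n R').ncard : ℝ) := by rw [Set.ncard_eq_toFinset_card _ (Tb_fin T m n R')]

theorem no_UA (T : TP G) (U : UA G) : False := by
  have hcnt := countS T U
  have hlen := lenS U
  have hphi := phiS T U hlen
  have hpair := pairS T U hphi
  have hsame := sameS T U (c1S T U hcnt) (c2S T U hcnt) (ellS T U)
  have hhov := hovS T U hpair hsame
  have hbad := badS T U hpair hhov cntS
  have havg := avgS T U hbad
  have hleak := leakS T U havg (entD T U)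
  have hlenW := lenWS T U
  have hpb := pbS T U hlenW hlen
  have hZ := pz_finite T U hpb
  have hfin := id4 T U hlenW hleak (pprS T U) (idC T U) hZ
  obtain ⟨κ0, κ1, C, C', hκ0, H⟩ := hfin
  obtain ⟨M, hM⟩ := recS T U hZ
  have H2 := la1 (Z := {z // z ∈ hZ.toFinset}) (fun m z => (KS T U m z.1).ncard) T.om
    (fun z => fz T z.1) (T.p T.c) κ0 κ1 C C' H
  refine la2 la3 (Z := {z // z ∈ hZ.toFinset}) (fun a b => M a.1 b.1)
    (fun m z => (KS T U m z.1).ncard) ?_ T.om T.om_norm T.om_pow (fun z => fz T z.1) (T.p T.c) T.c_p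
    κ0 C hκ0 H2
  intro m z
  have h1 := hM m z.1 (hZ.mem_toFinset.1 z.2)
  rw [h1]
  exact (Finset.sum_coe_sort hZ.toFinset (fun z' => M z.1 z' * (KS T U m z').ncard)).symm

end

end Pool.Agent.Helper943.LM
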