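import Mathlib
import Pool.Agent.Helper943.LM.Basic

set_option autoImplicit false

open scoped Classical

namespace Pool.Agent.Helper943.LM

noncomputable section

/-- the imaginary quadratic integer `(1 + sqrt(-7)) / 2` -/
def al : ℂ := ⟨1 / 2, Real.sqrt 7 / 2⟩

/-- the rotation `al / conj al = (-3 + sqrt(-7)) / 4` -/
def omg : ℂ := ⟨-3 / 4, Real.sqrt 7 / 4⟩

/-- the lattice `Z[al]` in the plane -/
def pA (a : ℤ × ℤ) : ℂ := (a.1 : ℂ) + (a.2 : ℂ) * al

/-- twisted letter -/
def sg (a : ℤ × ℤ) (l : Bool) : Bool := if a.1 % 2 = 0 then l else !l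

/-- division by the rotation on the even sublattice -/
def psi (a : ℤ × ℤ) : ℤ × ℤ := (a.2 - a.1 / 2, - a.2 - a.1 / 2)

/-- twisted lattice element -/
def rr (a : ℤ × ℤ) (l : Bool) : ℤ × ℤ :=
  if a.1 % 2 = 0 then psi a else psi (a.1 - 1, a.2) - (if l then (1, 0) else (0, 1))

/-- translation of the letters -/
def pl (l : Bool) : ℂ := if l then 0 else 1 + omg

theorem sqrt7_sq : Real.sqrt 7 * Real.sqrt 7 = 7 := Real.mul_self_sqrt (by norm_num)

theorem sqrt7_pos : 0 < Real.sqrt 7 := Real.sqrt_pos.2 (by norm_num)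

theorem sqrt7_ge : 2 ≤ Real.sqrt 7 := by
  rw [Real.le_sqrt (by norm_num) (by norm_num)]
  norm_num

theorem sqrt7_le : Real.sqrt 7 ≤ 3 := by
  rw [Real.sqrt_le_left (by norm_num)]
  norm_num

theorem al_sq : al * al = al - 2 := by
  have h := sqrt7_sq
  unfold al
  apply Complex.ext
  · simp only [Complex.mul_re, Complex.sub_re, Complex.re_ofNat]
    linarith
  · simp only [Complex.mul_im, Complex.sub_im, Complex.im_ofNat]
    linarith

theorem omg_eq : omg = al / 2 - 1 := by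
  unfold al omg
  apply Complex.ext
  · simp only [Complex.sub_re, Complex.one_re, Complex.div_ofNat_re]
    norm_num
  · simp only [Complex.sub_im, Complex.one_im, Complex.div_ofNat_im]
    ring

theorem omg_norm : ‖omg‖ = 1 := by
  have h := sqrt7_sq
  have h1 : ‖omg‖ ^ 2 = 1 := by
    rw [← Complex.normSq_eq_norm_sq, Complex.normSq_apply]
    unfold omg
    show (-3 / 4 : ℝ) * (-3 / 4) + Real.sqrt 7 / 4 * (Real.sqrt 7 / 4) = 1
    linarith
  exact (pow_eq_one_iff_of_nonneg (norm_nonneg _) (by norm_num)).1 h1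

theorem pA_re (a : ℤ × ℤ) : (pA a).re = a.1 + a.2 * (1 / 2) := by
  unfold pA al
  simp

theorem pA_im (a : ℤ × ℤ) : (pA a).im = a.2 * (Real.sqrt 7 / 2) := by
  unfold pA al
  simp

theorem pA_inj : Function.Injective pA := by
  intro a b h
  have h1 := congrArg Complex.im h
  have h2 := congrArg Complex.re h
  rw [pA_im, pA_im] at h1
  rw [pA_re, pA_re] at h2
  have hs := sqrt7_pos
  have h3 : (a.2 : ℝ) = b.2 := mul_right_cancel₀ (by positivity) h1
  rw [h3] at h2
  have h4 : (a.1 : ℝ) = b.1 := by linarith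
  exact Prod.ext (by exact_mod_cast h4) (by exact_mod_cast h3)

theorem al_pow (m : ℕ) : ∃ a : ℤ × ℤ, al ^ (m + 1) = pA a ∧ a.1 % 2 = 0 ∧ a.2 % 2 = 1 := by
  induction m with
  | zero => exact ⟨(0, 1), by simp [pA], by norm_num, by norm_num⟩
  | succ m ih =>
    obtain ⟨a, h1, h2, h3⟩ := ih
    refine ⟨(-2 * a.2, a.1 + a.2), ?_, ?_, ?_⟩
    · rw [pow_succ, h1]
      unfold pA
      push_cast
      have := al_sq
      calc ((a.1 : ℂ) + a.2 * al) * al = a.1 * al + a.2 * (al * al) := by ring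
        _ = _ := by rw [this]; ring
    · show (-2 * a.2) % 2 = 0
      omega
    · show (a.1 + a.2) % 2 = 1
      omega

theorem omg_pow (n : ℕ) (hn : 0 < n) : omg ^ n ≠ 1 := by
  intro h
  have h1 : omg = al ^ 2 / 2 := by
    rw [omg_eq, pow_two, al_sq]; ring
  rw [h1, div_pow, ← pow_mul, div_eq_one_iff_eq (pow_ne_zero _ two_ne_zero)] at h
  obtain ⟨m, hm⟩ : ∃ m, 2 * n = m + 1 := ⟨2 * n - 1, by omega⟩
  rw [hm] at h
  obtain ⟨a, h2, h3, h4⟩ := al_pow m
  have h5 : pA a = pA (2 ^ n, 0) := by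
    rw [← h2, h]
    simp [pA]
  have h6 := congrArg Prod.snd (pA_inj h5)
  have h7 : a.2 = 0 := h6
  omega

theorem omg_psi (a : ℤ × ℤ) (h : a.1 % 2 = 0) : omg * pA (psi a) = pA a := by
  obtain ⟨k, hk⟩ : ∃ k, a.1 = 2 * k := ⟨a.1 / 2, by omega⟩
  have h2 : a.1 / 2 = k := by omega
  unfold psi
  rw [h2, omg_eq]
  unfold pA
  rw [hk]
  push_cast
  have := al_sq
  calc (al / 2 - 1) * (((a.2 : ℂ) - k) + (-(a.2 : ℂ) - k) * al) =
      (al / 2 - 1) * ((a.2 : ℂ) - k) + (-(a.2 : ℂ) - k) * (al * al / 2 - al) := by ring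
    _ = _ := by rw [this]; ring

theorem pA_add (a b : ℤ × ℤ) : pA (a + b) = pA a + pA b := by
  unfold pA
  rw [Prod.fst_add, Prod.snd_add]
  push_cast
  ring

theorem pA_zero : pA 0 = 0 := by simp [pA]

theorem pA_sub (a b : ℤ × ℤ) : pA (a - b) = pA a - pA b := by
  unfold pA
  rw [Prod.fst_sub, Prod.snd_sub]
  push_cast
  ring

theorem pl_rr (a : ℤ × ℤ) (l : Bool) : pl (sg a l) + omg * pA (rr a l) = pA a + pl l := by
  unfold sg rr
  by_cases h : a.1 % 2 = 0
  · rw [if_pos h, if_pos h, omg_psi a h, add_comm]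
  · rw [if_neg h, if_neg h, pA_sub, mul_sub, omg_psi (a.1 - 1, a.2) (by
      show (a.1 - 1) % 2 = 0
      omega)]
    have := al_sq
    rcases l with _ | _
    · simp only [pl, pA, Bool.not_false, if_true, Bool.false_eq_true, if_false]
      rw [omg_eq]
      push_cast
      calc (0 : ℂ) + ((a.1 : ℂ) - 1 + a.2 * al - (al / 2 - 1) * (0 + 1 * al)) =
          (a.1 : ℂ) - 1 + a.2 * al - (al * al / 2 - al) := by ring
        _ = _ := by rw [this]; ring
    · simp only [pl, pA, Bool.not_true, if_true, Bool.false_eq_true, if_false]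
      push_cast
      ring

theorem lat_aux (z : ℂ) (R : ℝ) (hR : 0 ≤ R) :
    {a : ℤ × ℤ | ‖z + pA a‖ ≤ R}.Finite ∧
    ({a : ℤ × ℤ | ‖z + pA a‖ ≤ R}.ncard : ℝ) ≤ (2 * R + 1) ^ 2 := by
  have hs := sqrt7_pos
  have hs2 := sqrt7_ge
  set S : Set (ℤ × ℤ) := {a : ℤ × ℤ | ‖z + pA a‖ ≤ R} with hS
  set j0 : ℤ := ⌈(-R - z.im) / (Real.sqrt 7 / 2)⌉ with hj0
  set i0 : ℤ → ℤ := fun j => ⌈-R - z.re - j * (1 / 2)⌉ with hi0
  set f : ℤ × ℤ → ℤ × ℤ := fun a => (a.2 - j0, a.1 - i0 a.2) with hf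
  set N : ℤ := ⌊2 * R⌋ with hN
  set T : Finset (ℤ × ℤ) := Finset.Icc 0 N ×ˢ Finset.Icc 0 N with hT
  have hmaps : ∀ a ∈ S, f a ∈ (T : Set (ℤ × ℤ)) := by
    intro a ha
    have h1 := (Complex.abs_re_le_norm (z + pA a)).trans ha
    have h2 := (Complex.abs_im_le_norm (z + pA a)).trans ha
    rw [Complex.add_re, pA_re, abs_le] at h1
    rw [Complex.add_im, pA_im, abs_le] at h2
    have hq : 0 < Real.sqrt 7 / 2 := by positivity
    have hj1 : (-R - z.im) / (Real.sqrt 7 / 2) ≤ a.2 := by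
      rw [div_le_iff₀ hq]; linarith
    have hj2 : (a.2 : ℝ) ≤ (R - z.im) / (Real.sqrt 7 / 2) := by
      rw [le_div_iff₀ hq]; linarith
    have hj3 : j0 ≤ a.2 := Int.ceil_le.2 hj1
    have hj4 : (-R - z.im) / (Real.sqrt 7 / 2) ≤ j0 := Int.le_ceil _
    have hj5 : a.2 - j0 ≤ N := by
      rw [hN, Int.le_floor]
      push_cast
      have h5 : (R - z.im) / (Real.sqrt 7 / 2) - (-R - z.im) / (Real.sqrt 7 / 2) =
          2 * R / (Real.sqrt 7 / 2) := by
        rw [← sub_div]; ring_nf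
      have h6 : 2 * R / (Real.sqrt 7 / 2) ≤ 2 * R := by
        refine div_le_self (by linarith) ?_
        linarith
      linarith
    have hi1 : -R - z.re - a.2 * (1 / 2) ≤ (a.1 : ℝ) := by linarith
    have hi3 : i0 a.2 ≤ a.1 := Int.ceil_le.2 hi1
    have hi4 : -R - z.re - a.2 * (1 / 2) ≤ (i0 a.2 : ℝ) := Int.le_ceil _
    have hi5 : a.1 - i0 a.2 ≤ N := by
      rw [hN, Int.le_floor]
      push_cast
      linarith
    rw [hT, Finset.coe_product, Finset.coe_Icc]
    exact ⟨⟨by show 0 ≤ a.2 - j0; omega, hj5⟩, ⟨by show 0 ≤ a.1 - i0 a.2; omega, hi5⟩⟩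
  have hinj : Set.InjOn f S := by
    intro a _ b _ hab
    have h1 : a.2 - j0 = b.2 - j0 := congrArg Prod.fst hab
    have h2 : a.1 - i0 a.2 = b.1 - i0 b.2 := congrArg Prod.snd hab
    have h3 : a.2 = b.2 := by omega
    rw [h3] at h2
    exact Prod.ext (by omega) h3
  have hfin : S.Finite := Set.Finite.of_injOn hmaps hinj T.finite_toSet
  refine ⟨hfin, ?_⟩
  have hcard : S.ncard ≤ T.card := by
    have h1 := Set.ncard_le_ncard_of_injOn f hmaps hinj T.finite_toSet
    rwa [Set.ncard_coe_finset] at h1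
  have hN0 : 0 ≤ N := Int.floor_nonneg.2 (by linarith)
  have hTc : T.card = (N + 1).toNat * (N + 1).toNat := by
    rw [hT, Finset.card_product, Int.card_Icc]
    simp
  have h2 : ((N + 1).toNat : ℝ) ≤ 2 * R + 1 := by
    have h3 : (((N + 1).toNat : ℤ) : ℝ) = ((N + 1 : ℤ) : ℝ) := by
      rw [Int.toNat_of_nonneg (by omega)]
    have h4 : (((N + 1).toNat : ℤ) : ℝ) = ((N + 1).toNat : ℝ) := by norm_cast
    rw [← h4, h3]
    push_cast
    have := Int.floor_le (2 * R)
    linarith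
  calc (S.ncard : ℝ) ≤ (T.card : ℝ) := by exact_mod_cast hcard
    _ = ((N + 1).toNat : ℝ) * ((N + 1).toNat : ℝ) := by rw [hTc]; push_cast; rfl
    _ ≤ (2 * R + 1) * (2 * R + 1) :=
        mul_le_mul h2 h2 (Nat.cast_nonneg _) (by linarith)
    _ = (2 * R + 1) ^ 2 := by ring

theorem lat_fin (z : ℂ) (R : ℝ) : {a : ℤ × ℤ | ‖z + pA a‖ ≤ R}.Finite := by
  rcases le_or_gt 0 R with hR | hR
  · exact (lat_aux z R hR).1
  · have : {a : ℤ × ℤ | ‖z + pA a‖ ≤ R} = ∅ := by
      rw [Set.eq_empty_iff_forall_notMem]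
      intro a ha
      have h1 : ‖z + pA a‖ ≤ R := ha
      have h2 := norm_nonneg (z + pA a)
      linarith
    rw [this]
    exact Set.finite_empty

theorem lat_cnt (z : ℂ) (R : ℝ) (hR : 0 ≤ R) :
    ({a : ℤ × ℤ | ‖z + pA a‖ ≤ R}.ncard : ℝ) ≤ 4 * (R + 1) ^ 2 := by
  refine (lat_aux z R hR).2.trans ?_
  nlinarith

theorem lat_cov (z : ℂ) : ∃ a : ℤ × ℤ, ‖pA a - z‖ ≤ 2 := by
  have hs := sqrt7_pos
  have hs3 := sqrt7_le
  set j : ℤ := round (z.im / (Real.sqrt 7 / 2)) with hj
  set i : ℤ := round (z.re - j * (1 / 2)) with hi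
  refine ⟨(i, j), ?_⟩
  refine (Complex.norm_le_abs_re_add_abs_im _).trans ?_
  rw [Complex.sub_re, Complex.sub_im, pA_re, pA_im]
  have h1 := abs_sub_round (z.im / (Real.sqrt 7 / 2))
  have h2 := abs_sub_round (z.re - j * (1 / 2))
  rw [← hj] at h1
  rw [← hi] at h2
  have h3 : |(i : ℝ) + j * (1 / 2) - z.re| ≤ 1 / 2 := by
    have e : (i : ℝ) + j * (1 / 2) - z.re = -(z.re - j * (1 / 2) - i) := by ring
    rw [e, abs_neg]
    exact h2
  have h4 : |(j : ℝ) * (Real.sqrt 7 / 2) - z.im| ≤ 3 / 4 := by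
    have e : (j : ℝ) * (Real.sqrt 7 / 2) - z.im =
        -((z.im / (Real.sqrt 7 / 2) - j) * (Real.sqrt 7 / 2)) := by
      field_simp
      ring
    rw [e, abs_neg, abs_mul, abs_of_pos (by positivity : 0 < Real.sqrt 7 / 2)]
    calc |z.im / (Real.sqrt 7 / 2) - j| * (Real.sqrt 7 / 2) ≤ 1 / 2 * (3 / 2) :=
          mul_le_mul h1 (by linarith) (by positivity) (by norm_num)
      _ = 3 / 4 := by norm_num
  show |(i : ℝ) + j * (1 / 2) - z.re| + |(j : ℝ) * (Real.sqrt 7 / 2) - z.im| ≤ 2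
  linarith

theorem sg_add (a b : ℤ × ℤ) (l : Bool) : sg (a + b) l = sg a (sg b l) := by
  unfold sg
  rw [Prod.fst_add]
  by_cases h1 : a.1 % 2 = 0 <;> by_cases h2 : b.1 % 2 = 0
  · rw [if_pos h1, if_pos h2, if_pos (by omega)]
  · rw [if_pos h1, if_neg h2, if_neg (by omega)]
  · rw [if_neg h1, if_pos h2, if_neg (by omega)]
  · rw [if_neg h1, if_neg h2, if_pos (by omega), Bool.not_not]

theorem rr_add (a b : ℤ × ℤ) (l : Bool) : rr (a + b) l = rr a (sg b l) + rr b l := by
  obtain ⟨a1, a2⟩ := a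
  obtain ⟨b1, b2⟩ := b
  unfold rr sg psi
  rw [Prod.mk_add_mk]
  dsimp only
  by_cases h1 : a1 % 2 = 0 <;> by_cases h2 : b1 % 2 = 0
  · rw [if_pos h1, if_pos h2, if_pos (by omega)]
    ext
    · show a2 + b2 - (a1 + b1) / 2 = a2 - a1 / 2 + (b2 - b1 / 2)
      omega
    · show -(a2 + b2) - (a1 + b1) / 2 = -a2 - a1 / 2 + (-b2 - b1 / 2)
      omega
  · rw [if_pos h1, if_neg h2, if_neg (by omega)]
    rcases l with _ | _
    · simp only [Bool.false_eq_true, if_false]
      ext
      · show a2 + b2 - (a1 + b1 - 1) / 2 - 0 = a2 - a1 / 2 + (b2 - (b1 - 1) / 2 - 0)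
        omega
      · show -(a2 + b2) - (a1 + b1 - 1) / 2 - 1 = -a2 - a1 / 2 + (-b2 - (b1 - 1) / 2 - 1)
        omega
    · simp only [if_true]
      ext
      · show a2 + b2 - (a1 + b1 - 1) / 2 - 1 = a2 - a1 / 2 + (b2 - (b1 - 1) / 2 - 1)
        omega
      · show -(a2 + b2) - (a1 + b1 - 1) / 2 - 0 = -a2 - a1 / 2 + (-b2 - (b1 - 1) / 2 - 0)
        omega
  · rw [if_neg h1, if_pos h2, if_neg (by omega)]
    rcases l with _ | _
    · simp only [h2, if_true, Bool.false_eq_true, if_false]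
      ext
      · show a2 + b2 - (a1 + b1 - 1) / 2 - 0 = a2 - (a1 - 1) / 2 - 0 + (b2 - b1 / 2)
        omega
      · show -(a2 + b2) - (a1 + b1 - 1) / 2 - 1 = -a2 - (a1 - 1) / 2 - 1 + (-b2 - b1 / 2)
        omega
    · simp only [h2, if_true]
      ext
      · show a2 + b2 - (a1 + b1 - 1) / 2 - 1 = a2 - (a1 - 1) / 2 - 1 + (b2 - b1 / 2)
        omega
      · show -(a2 + b2) - (a1 + b1 - 1) / 2 - 0 = -a2 - (a1 - 1) / 2 - 0 + (-b2 - b1 / 2)
        omega
  · rw [if_neg h1, if_neg h2, if_pos (by omega)]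
    rcases l with _ | _
    · simp only [h2, if_true, Bool.false_eq_true, if_false, Bool.not_false]
      ext
      · show a2 + b2 - (a1 + b1) / 2 = a2 - (a1 - 1) / 2 - 1 + (b2 - (b1 - 1) / 2 - 0)
        omega
      · show -(a2 + b2) - (a1 + b1) / 2 = -a2 - (a1 - 1) / 2 - 0 + (-b2 - (b1 - 1) / 2 - 1)
        omega
    · simp only [h2, if_true, Bool.false_eq_true, if_false, Bool.not_true]
      ext
      · show a2 + b2 - (a1 + b1) / 2 = a2 - (a1 - 1) / 2 - 0 + (b2 - (b1 - 1) / 2 - 1)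
        omega
      · show -(a2 + b2) - (a1 + b1) / 2 = -a2 - (a1 - 1) / 2 - 1 + (-b2 - (b1 - 1) / 2 - 0)
        omega

theorem sg_zero (l : Bool) : sg 0 l = l := by
  unfold sg
  rw [if_pos (by rfl)]

theorem rr_zero (l : Bool) : rr 0 l = 0 := by
  unfold rr psi
  rw [if_pos (by rfl)]
  rfl

theorem rr_bij (l : Bool) : Function.Bijective (fun a : ℤ × ℤ => rr a l) := by
  constructor
  · rintro ⟨a1, a2⟩ ⟨b1, b2⟩ hab
    have hab' : rr (a1, a2) l = rr (b1, b2) l := hab
    unfold rr psi at hab'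
    dsimp only at hab'
    by_cases h1 : a1 % 2 = 0 <;> by_cases h2 : b1 % 2 = 0
    · rw [if_pos h1, if_pos h2] at hab'
      have e1 : a2 - a1 / 2 = b2 - b1 / 2 := congrArg Prod.fst hab'
      have e2 : -a2 - a1 / 2 = -b2 - b1 / 2 := congrArg Prod.snd hab'
      ext
      · show a1 = b1
        omega
      · show a2 = b2
        omega
    · exfalso
      rw [if_pos h1, if_neg h2] at hab'
      rcases l with _ | _
      · simp only [Bool.false_eq_true, if_false] at hab'
        have e1 : a2 - a1 / 2 = b2 - (b1 - 1) / 2 - 0 := congrArg Prod.fst hab'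
        have e2 : -a2 - a1 / 2 = -b2 - (b1 - 1) / 2 - 1 := congrArg Prod.snd hab'
        omega
      · simp only [if_true] at hab'
        have e1 : a2 - a1 / 2 = b2 - (b1 - 1) / 2 - 1 := congrArg Prod.fst hab'
        have e2 : -a2 - a1 / 2 = -b2 - (b1 - 1) / 2 - 0 := congrArg Prod.snd hab'
        omega
    · exfalso
      rw [if_neg h1, if_pos h2] at hab'
      rcases l with _ | _
      · simp only [Bool.false_eq_true, if_false] at hab'
        have e1 : a2 - (a1 - 1) / 2 - 0 = b2 - b1 / 2 := congrArg Prod.fst hab'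
        have e2 : -a2 - (a1 - 1) / 2 - 1 = -b2 - b1 / 2 := congrArg Prod.snd hab'
        omega
      · simp only [if_true] at hab'
        have e1 : a2 - (a1 - 1) / 2 - 1 = b2 - b1 / 2 := congrArg Prod.fst hab'
        have e2 : -a2 - (a1 - 1) / 2 - 0 = -b2 - b1 / 2 := congrArg Prod.snd hab'
        omega
    · rw [if_neg h1, if_neg h2] at hab'
      have hab2 := sub_left_injective hab'
      have e1 : a2 - (a1 - 1) / 2 = b2 - (b1 - 1) / 2 := congrArg Prod.fst hab2
      have e2 : -a2 - (a1 - 1) / 2 = -b2 - (b1 - 1) / 2 := congrArg Prod.snd hab2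
      ext
      · show a1 = b1
        omega
      · show a2 = b2
        omega
  · rintro ⟨u, v⟩
    by_cases h : (u + v) % 2 = 0
    · refine ⟨(-(u + v), (u - v) / 2), ?_⟩
      show rr (-(u + v), (u - v) / 2) l = (u, v)
      unfold rr psi
      dsimp only
      rw [if_pos (by omega)]
      ext
      · show (u - v) / 2 - -(u + v) / 2 = u
        omega
      · show -((u - v) / 2) - -(u + v) / 2 = v
        omega
    · rcases l with _ | _
      · refine ⟨(-(u + v + 1) + 1, (u - v - 1) / 2), ?_⟩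
        show rr (-(u + v + 1) + 1, (u - v - 1) / 2) false = (u, v)
        unfold rr psi
        dsimp only
        rw [if_neg (by omega)]
        simp only [Bool.false_eq_true, if_false]
        ext
        · show (u - v - 1) / 2 - (-(u + v + 1) + 1 - 1) / 2 - 0 = u
          omega
        · show -((u - v - 1) / 2) - (-(u + v + 1) + 1 - 1) / 2 - 1 = v
          omega
      · refine ⟨(-(u + 1 + v) + 1, (u + 1 - v) / 2), ?_⟩
        show rr (-(u + 1 + v) + 1, (u + 1 - v) / 2) true = (u, v)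
        unfold rr psi
        dsimp only
        rw [if_neg (by omega)]
        simp only [if_true]
        ext
        · show (u + 1 - v) / 2 - (-(u + 1 + v) + 1 - 1) / 2 - 1 = u
          omega
        · show -((u + 1 - v) / 2) - (-(u + 1 + v) + 1 - 1) / 2 - 0 = v
          omega

theorem sg_bij (a : ℤ × ℤ) : Function.Bijective (sg a) := by
  have h : Function.Involutive (sg a) := by
    intro l
    unfold sg
    split_ifs
    · rfl
    · exact Bool.not_not l
  exact h.bijective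

/-- the permutation of a letter -/
def exH_Rl (l : Bool) : Equiv.Perm (F × (ℤ × ℤ)) :=
  Equiv.ofBijective (fun p => (p.1 * gen (sg p.2 l), rr p.2 l)) (by
    constructor
    · rintro ⟨v, a⟩ ⟨v', a'⟩ h
      have h2 : rr a l = rr a' l := congrArg Prod.snd h
      have h3 : a = a' := (rr_bij l).1 h2
      subst h3
      have h1 : v * gen (sg a l) = v' * gen (sg a l) := congrArg Prod.fst h
      rw [mul_right_cancel h1]
    · rintro ⟨v, a⟩
      obtain ⟨b, hb⟩ := (rr_bij l).2 a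
      refine ⟨(v * (gen (sg b l))⁻¹, b), ?_⟩
      have hb' : rr b l = a := hb
      simp only [inv_mul_cancel_right, hb'])

theorem exH_Rl_apply (l : Bool) (p : F × (ℤ × ℤ)) :
    exH_Rl l p = (p.1 * gen (sg p.2 l), rr p.2 l) := rfl

/-- the translation permutation -/
def exH_Rb (b : ℤ × ℤ) : Equiv.Perm (F × (ℤ × ℤ)) where
  toFun p := (p.1, p.2 + b)
  invFun p := (p.1, p.2 - b)
  left_inv p := by simp
  right_inv p := by simp

theorem exH_Rb_apply (b : ℤ × ℤ) (p : F × (ℤ × ℤ)) : exH_Rb b p = (p.1, p.2 + b) := rfl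

/-- the big group -/
abbrev exH_P : Type := (Equiv.Perm (F × (ℤ × ℤ)))ᵐᵒᵖ

def exH_R (b : ℤ × ℤ) : exH_P := MulOpposite.op (exH_Rb b)

def exH_rho : F →* exH_P := FreeGroup.lift (fun l => MulOpposite.op (exH_Rl l))

theorem exH_rho_gen (l : Bool) : exH_rho (gen l) = MulOpposite.op (exH_Rl l) := by
  unfold exH_rho gen
  rw [FreeGroup.lift_apply_of]

theorem exH_mul_apply (x y : exH_P) (p : F × (ℤ × ℤ)) :
    (MulOpposite.unop (x * y)) p = (MulOpposite.unop y) ((MulOpposite.unop x) p) := rfl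

theorem exH_ext {x y : exH_P} (h : ∀ p, (MulOpposite.unop x) p = (MulOpposite.unop y) p) :
    x = y := MulOpposite.unop_injective (Equiv.ext h)

theorem exH_R_add (b b' : ℤ × ℤ) : exH_R b * exH_R b' = exH_R (b + b') := by
  apply exH_ext
  rintro ⟨v, a⟩
  rw [exH_mul_apply]
  show (v, a + b + b') = (v, a + (b + b'))
  rw [add_assoc]

theorem exH_R_zero : exH_R 0 = 1 := by
  apply exH_ext
  rintro ⟨v, a⟩
  show (v, a + 0) = (v, a)
  rw [add_zero]

theorem exH_R_inv (b : ℤ × ℤ) : (exH_R b)⁻¹ = exH_R (-b) := by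
  rw [inv_eq_iff_mul_eq_one, exH_R_add, add_neg_cancel, exH_R_zero]

theorem exH_rel (b : ℤ × ℤ) (l : Bool) :
    exH_R b * exH_rho (gen l) = exH_rho (gen (sg b l)) * exH_R (rr b l) := by
  apply exH_ext
  rintro ⟨v, a⟩
  rw [exH_mul_apply, exH_mul_apply, exH_rho_gen, exH_rho_gen]
  show (v * gen (sg (a + b) l), rr (a + b) l) = (v * gen (sg a (sg b l)), rr a (sg b l) + rr b l)
  rw [sg_add, rr_add]

theorem exH_comm (w : F) : ∀ b : ℤ × ℤ, ∃ (w' : F) (b' : ℤ × ℤ),
    exH_R b * exH_rho w = exH_rho w' * exH_R b' := by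
  induction w using FreeGroup.induction_on with
  | C1 => intro b; exact ⟨1, b, by rw [map_one, mul_one, one_mul]⟩
  | of l => intro b; exact ⟨gen (sg b l), rr b l, exH_rel b l⟩
  | inv_of l _ =>
    intro b
    obtain ⟨b', hb'⟩ := (rr_bij l).2 b
    have hb'' : rr b' l = b := hb'
    refine ⟨(gen (sg b' l))⁻¹, b', ?_⟩
    have h := exH_rel b' l
    rw [hb''] at h
    show exH_R b * exH_rho (gen l)⁻¹ = exH_rho (gen (sg b' l))⁻¹ * exH_R b'
    rw [map_inv, map_inv, mul_inv_eq_iff_eq_mul, mul_assoc, h, inv_mul_cancel_left]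
  | mul x y hx hy =>
    intro b
    obtain ⟨w1, b1, h1⟩ := hx b
    obtain ⟨w2, b2, h2⟩ := hy b1
    refine ⟨w1 * w2, b2, ?_⟩
    rw [map_mul, ← mul_assoc, h1, mul_assoc, h2, map_mul, mul_assoc]

/-- the subgroup -/
def exH_S : Subgroup exH_P where
  carrier := {h | ∃ (w : F) (a : ℤ × ℤ), h = exH_rho w * exH_R a}
  mul_mem' := by
    rintro x y ⟨w, a, rfl⟩ ⟨w', a', rfl⟩
    obtain ⟨w2, a2, h⟩ := exH_comm w' a
    refine ⟨w * w2, a2 + a', ?_⟩
    calc exH_rho w * exH_R a * (exH_rho w' * exH_R a')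
        = exH_rho w * (exH_R a * exH_rho w') * exH_R a' := by group
      _ = exH_rho w * (exH_rho w2 * exH_R a2) * exH_R a' := by rw [h]
      _ = exH_rho (w * w2) * (exH_R a2 * exH_R a') := by rw [map_mul]; group
      _ = exH_rho (w * w2) * exH_R (a2 + a') := by rw [exH_R_add]
  one_mem' := ⟨1, 0, by rw [map_one, exH_R_zero, mul_one]⟩
  inv_mem' := by
    rintro x ⟨w, a, rfl⟩
    obtain ⟨w2, a2, h⟩ := exH_comm w⁻¹ (-a)
    refine ⟨w2, a2, ?_⟩
    rw [mul_inv_rev, exH_R_inv, ← map_inv, h]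

theorem exH_eval (w : F) : ∀ v : F, (MulOpposite.unop (exH_rho w)) (v, 0) = (v * w, 0) := by
  induction w using FreeGroup.induction_on with
  | C1 => intro v; rw [map_one, mul_one]; rfl
  | of l =>
    intro v
    show (MulOpposite.unop (exH_rho (gen l))) (v, 0) = (v * gen l, 0)
    rw [exH_rho_gen]
    show (v * gen (sg 0 l), rr 0 l) = (v * gen l, 0)
    rw [sg_zero, rr_zero]
  | inv_of l _ =>
    intro v
    show (MulOpposite.unop (exH_rho (gen l)⁻¹)) (v, 0) = (v * (gen l)⁻¹, 0)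
    rw [map_inv, exH_rho_gen]
    have h : exH_Rl l (v * (gen l)⁻¹, 0) = (v, 0) := by
      rw [exH_Rl_apply]
      show (v * (gen l)⁻¹ * gen (sg 0 l), rr 0 l) = (v, 0)
      rw [sg_zero, rr_zero, inv_mul_cancel_right]
    show (exH_Rl l).symm (v, 0) = (v * (gen l)⁻¹, 0)
    rw [Equiv.symm_apply_eq]
    exact h.symm
  | mul x y hx hy =>
    intro v
    rw [map_mul, exH_mul_apply, hx, hy, mul_assoc]

theorem exH_eval2 (w : F) (a : ℤ × ℤ) :
    (MulOpposite.unop (exH_rho w * exH_R a)) (1, 0) = (w, a) := by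
  rw [exH_mul_apply, exH_eval]
  show (1 * w, 0 + a) = (w, a)
  rw [one_mul, zero_add]

/-- the coordinates -/
def exH_co : exH_S ≃ F × (ℤ × ℤ) :=
  Equiv.ofBijective (fun h => (MulOpposite.unop h.1) (1, 0)) (by
    constructor
    · rintro ⟨x, w, a, rfl⟩ ⟨y, w', a', rfl⟩ h
      have h' : (MulOpposite.unop (exH_rho w * exH_R a)) (1, 0)
        = (MulOpposite.unop (exH_rho w' * exH_R a')) (1, 0) := h
      rw [exH_eval2, exH_eval2] at h'
      obtain ⟨rfl, rfl⟩ := Prod.mk.inj h'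
      rfl
    · rintro ⟨w, a⟩
      exact ⟨⟨exH_rho w * exH_R a, w, a, rfl⟩, exH_eval2 w a⟩)

theorem exH_co_apply (h : exH_S) : exH_co h = (MulOpposite.unop h.1) (1, 0) := rfl

theorem exists_H : ∃ (H : Type) (_ : Group H) (co : H ≃ F × (ℤ × ℤ)) (hom : F →* H) (B : ℤ × ℤ → H),
    co 1 = (1, 0) ∧
    (∀ (h : H) (l : Bool), co (h * hom (gen l)) = ((co h).1 * gen (sg (co h).2 l), rr (co h).2 l)) ∧
    (∀ (h : H) (b : ℤ × ℤ), co (h * B b) = ((co h).1, (co h).2 + b)) ∧
    (∀ (w : F) (a : ℤ × ℤ), co (hom w * B a) = (w, a)) := by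
  refine ⟨exH_S, inferInstance, exH_co,
    exH_rho.codRestrict exH_S (fun w => ⟨w, 0, by rw [exH_R_zero, mul_one]⟩),
    fun b => ⟨exH_R b, 1, b, by rw [map_one, one_mul]⟩, rfl, ?_, ?_, ?_⟩
  · intro h l
    rw [exH_co_apply]
    show (MulOpposite.unop (h.1 * exH_rho (gen l))) (1, 0) = _
    rw [exH_mul_apply, exH_rho_gen]
    rfl
  · intro h b
    rfl
  · intro w a
    exact exH_eval2 w a

/-- the affine action of the free group -/
def tpPerm (l : Bool) : Equiv.Perm ℂ where
  toFun z := omg * z + pl l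
  invFun z := omg⁻¹ * (z - pl l)
  left_inv z := by
    have h : omg ≠ 0 := by
      intro h
      have := omg_norm
      rw [h, norm_zero] at this
      exact zero_ne_one this
    show omg⁻¹ * (omg * z + pl l - pl l) = z
    rw [add_sub_cancel_right, inv_mul_cancel_left₀ h]
  right_inv z := by
    have h : omg ≠ 0 := by
      intro h
      have := omg_norm
      rw [h, norm_zero] at this
      exact zero_ne_one this
    show omg * (omg⁻¹ * (z - pl l)) + pl l = z
    rw [mul_inv_cancel_left₀ h, sub_add_cancel]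

theorem tp_omg_ne : omg ≠ 0 := by
  intro h
  have := omg_norm
  rw [h, norm_zero] at this
  exact zero_ne_one this

/-- the affine action -/
def tpL : F →* Equiv.Perm ℂ := FreeGroup.lift tpPerm

/-- translation part -/
def pF (w : F) : ℂ := tpL w 0

theorem tpL_gen (l : Bool) (z : ℂ) : tpL (gen l) z = omg * z + pl l := by
  unfold tpL gen
  rw [FreeGroup.lift_apply_of]
  rfl

theorem tpL_apply (w : F) (z : ℂ) : tpL w z = omg ^ (ex w) * z + pF w := by
  induction w using FreeGroup.induction_on generalizing z with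
  | C1 =>
    rw [ex_one, zpow_zero, one_mul]
    unfold pF
    rw [map_one]
    show z = z + 0
    rw [add_zero]
  | of l =>
    show tpL (gen l) z = omg ^ (ex (gen l)) * z + pF (gen l)
    unfold pF
    rw [tpL_gen, tpL_gen, ex_gen, zpow_one, mul_zero, zero_add]
  | inv_of l ih =>
    have h1 : ∀ z, tpL (gen l) (tpL (gen l)⁻¹ z) = z := by
      intro z
      rw [← Equiv.Perm.mul_apply, ← map_mul, mul_inv_cancel, map_one]
      rfl
    have h2 := h1 z
    have h3 := h1 0
    rw [tpL_gen] at h2 h3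
    show tpL (gen l)⁻¹ z = omg ^ (ex (gen l)⁻¹) * z + pF (gen l)⁻¹
    rw [ex_inv, ex_gen, zpow_neg, zpow_one]
    unfold pF
    have h4 := tp_omg_ne
    apply mul_left_cancel₀ h4
    rw [mul_add, mul_inv_cancel_left₀ h4]
    linear_combination h2 - h3
  | mul a b iha ihb =>
    rw [map_mul, Equiv.Perm.mul_apply, ihb, iha, ex_mul, zpow_add₀ tp_omg_ne]
    have h1 : pF (a * b) = omg ^ (ex a) * pF b + pF a := by
      unfold pF
      rw [map_mul, Equiv.Perm.mul_apply, iha]
      rfl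
    rw [h1]
    ring

theorem pF_mul (a b : F) : pF (a * b) = pF a + omg ^ (ex a) * pF b := by
  have : pF (a * b) = tpL a (tpL b 0) := by
    unfold pF
    rw [map_mul, Equiv.Perm.mul_apply]
  rw [this, tpL_apply a]
  show omg ^ (ex a) * pF b + pF a = _
  ring

theorem pF_gen (l : Bool) : pF (gen l) = pl l := by
  unfold pF
  rw [tpL_gen, mul_zero, zero_add]

theorem pF_one : pF 1 = 0 := by
  unfold pF
  rw [map_one]
  rfl

/-- position of a pair -/
def ppo (x : F × (ℤ × ℤ)) : ℂ := pF x.1 + omg ^ (ex x.1) * pA x.2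

theorem tp_lip (f : F → F) (hf : ∀ q b, ∃ b', f (q * gen b) = f q * gen b')
    (L : List (Bool × Bool)) : ∀ a : F, dT (f a) (f (a * FreeGroup.mk L)) ≤ L.length := by
  induction L with
  | nil =>
    intro a
    have : (FreeGroup.mk [] : F) = 1 := rfl
    rw [this, mul_one, dT_self]
    exact Nat.zero_le _
  | cons x L ih =>
    intro a
    have h : (FreeGroup.mk (x :: L) : F) = FreeGroup.mk [x] * FreeGroup.mk L := rfl
    rw [h, ← mul_assoc]
    have h1 : dT (f a) (f (a * FreeGroup.mk [x])) ≤ 1 := by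
      obtain ⟨b, s⟩ := x
      cases s with
      | true =>
        have h2 : (FreeGroup.mk [(b, true)] : F) = gen b := rfl
        rw [h2]
        obtain ⟨b', hb'⟩ := hf a b
        rw [hb', dT_gen]
      | false =>
        have h2 : (FreeGroup.mk [(b, false)] : F) = (gen b)⁻¹ := rfl
        rw [h2]
        obtain ⟨b', hb'⟩ := hf (a * (gen b)⁻¹) b
        rw [inv_mul_cancel_right] at hb'
        rw [hb', dT_comm, dT_gen]
    have h2 := ih (a * FreeGroup.mk [x])
    have h3 := dT_tri (f a) (f (a * FreeGroup.mk [x])) (f (a * FreeGroup.mk [x] * FreeGroup.mk L))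
    rw [List.length_cons]
    omega

theorem tp_lip' (f : F → F) (hf : ∀ q b, ∃ b', f (q * gen b) = f q * gen b') (a b : F) :
    dT (f a) (f b) ≤ dT a b := by
  have h := tp_lip f hf (a⁻¹ * b).toWord a
  rw [FreeGroup.mk_toWord, mul_inv_cancel_left] at h
  exact h

theorem tp_exf (f : F → F) (hf : ∀ q b, ∃ b', f (q * gen b) = f q * gen b')
    (L : List (Bool × Bool)) : ∀ a : F,
    ex (f (a * FreeGroup.mk L)) = ex (f a) + ex (FreeGroup.mk L) := by
  induction L with
  | nil =>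
    intro a
    have : (FreeGroup.mk [] : F) = 1 := rfl
    rw [this, mul_one, ex_one, add_zero]
  | cons x L ih =>
    intro a
    have h : (FreeGroup.mk (x :: L) : F) = FreeGroup.mk [x] * FreeGroup.mk L := rfl
    rw [h, ← mul_assoc, ih, ex_mul]
    have h1 : ex (f (a * FreeGroup.mk [x])) = ex (f a) + ex (FreeGroup.mk [x]) := by
      obtain ⟨b, s⟩ := x
      cases s with
      | true =>
        have h2 : (FreeGroup.mk [(b, true)] : F) = gen b := rfl
        rw [h2]
        obtain ⟨b', hb'⟩ := hf a b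
        rw [hb', ex_mul, ex_gen, ex_gen]
      | false =>
        have h2 : (FreeGroup.mk [(b, false)] : F) = (gen b)⁻¹ := rfl
        rw [h2]
        obtain ⟨b', hb'⟩ := hf (a * (gen b)⁻¹) b
        rw [inv_mul_cancel_right] at hb'
        rw [hb', ex_mul, ex_gen, ex_inv, ex_gen]
        ring
    rw [h1]
    ring

theorem tp_exf' (f : F → F) (hf : ∀ q b, ∃ b', f (q * gen b) = f q * gen b') (a : F) :
    ex (f a) = ex (f 1) + ex a := by
  have h := tp_exf f hf a.toWord 1
  rw [FreeGroup.mk_toWord, one_mul] at h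
  exact h

theorem tp_norm_zpow (k : ℤ) : ‖omg ^ k‖ = 1 := by
  rw [norm_zpow, omg_norm, one_zpow]

theorem ppo_norm (q : F) (a : ℤ × ℤ) :
    ‖ppo (q, a)‖ = ‖omg ^ (-(ex q)) * pF q + pA a‖ := by
  have h1 : ppo (q, a) = omg ^ (ex q) * (omg ^ (-(ex q)) * pF q + pA a) := by
    unfold ppo
    rw [mul_add, ← mul_assoc, ← zpow_add₀ tp_omg_ne, add_neg_cancel, zpow_zero, one_mul]
  rw [h1, norm_mul, tp_norm_zpow, one_mul]

theorem tp_of_H (H : Type) [Group H] (co : H ≃ F × (ℤ × ℤ)) (hom : F →* H) (B : ℤ × ℤ → H)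
    (h1 : co 1 = (1, 0))
    (h2 : ∀ (h : H) (l : Bool), co (h * hom (gen l)) = ((co h).1 * gen (sg (co h).2 l), rr (co h).2 l))
    (h3 : ∀ (h : H) (b : ℤ × ℤ), co (h * B b) = ((co h).1, (co h).2 + b))
    (h4 : ∀ (w : F) (a : ℤ × ℤ), co (hom w * B a) = (w, a)) : Nonempty (TP H) := by
  have hB0 : B 0 = 1 := by
    apply co.injective
    have := h3 1 0
    rw [one_mul, h1] at this
    rw [this, h1]
    rfl
  have hdec : ∀ k : H, hom (co k).1 * B (co k).2 = k := by
    intro k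
    apply co.injective
    rw [h4]
  have hcoh : ∀ w : F, co (hom w) = (w, 0) := by
    intro w
    have := h4 w 0
    rwa [hB0, mul_one] at this
  have hcoB : ∀ a, co (B a) = (1, a) := by
    intro a
    have := h4 1 a
    rwa [map_one, one_mul] at this
  let act : H → F → F := fun g q => (co (g * hom q)).1
  have act1 : ∀ g, act g 1 = (co g).1 := by
    intro g
    show (co (g * hom 1)).1 = _
    rw [map_one, mul_one]
  have act_gen : ∀ g q b, act g (q * gen b) = act g q * gen (sg (co (g * hom q)).2 b) := by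
    intro g q b
    show (co (g * hom (q * gen b))).1 = _
    rw [map_mul hom, ← mul_assoc, h2]
  have act_pos : ∀ g q b, ∃ b', act g (q * gen b) = act g q * gen b' :=
    fun g q b => ⟨_, act_gen g q b⟩
  have act_one : ∀ a, act 1 a = a := by
    intro a
    show (co (1 * hom a)).1 = a
    rw [one_mul, hcoh]
  have act_mul : ∀ g h a, act (g * h) a = act g (act h a) := by
    intro g h a
    show (co (g * h * hom a)).1 = (co (g * hom (co (h * hom a)).1)).1
    have e : g * h * hom a = g * hom (co (h * hom a)).1 * B (co (h * hom a)).2 := by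
      rw [mul_assoc, mul_assoc, hdec]
    rw [e, h3]
  have act_le : ∀ g a b, dT (act g a) (act g b) ≤ dT a b :=
    fun g a b => tp_lip' (act g) (act_pos g) a b
  have act_ii : ∀ g a, act g⁻¹ (act g a) = a := by
    intro g a
    rw [← act_mul, inv_mul_cancel, act_one]
  have act_ex : ∀ g a, ex (act g a) = ex (co g).1 + ex a := by
    intro g a
    rw [tp_exf' (act g) (act_pos g) a, act1]
  have tau_mul : ∀ g h, ex (co (g * h)).1 = ex (co g).1 + ex (co h).1 := by
    intro g h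
    rw [← act1 (g * h), act_mul, act_ex, act1]
  have tau_one : ex (co 1).1 = 0 := by rw [h1]; exact ex_one
  have tau_inv : ∀ g, ex (co g⁻¹).1 = - ex (co g).1 := by
    intro g
    have := tau_mul g g⁻¹
    rw [mul_inv_cancel, tau_one] at this
    omega
  have pp_one : ppo (co 1) = 0 := by
    rw [h1]
    unfold ppo
    rw [pF_one]
    show 0 + omg ^ (ex 1) * pA 0 = 0
    rw [pA_zero, mul_zero, add_zero]
  let Pr : H → Prop := fun h => ∀ g, ppo (co (g * h)) = ppo (co g) + omg ^ (ex (co g).1) * ppo (co h)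
  have Pgen : ∀ l, Pr (hom (gen l)) := by
    intro l g
    rw [h2, hcoh]
    unfold ppo
    show pF ((co g).1 * gen (sg (co g).2 l)) + omg ^ (ex ((co g).1 * gen (sg (co g).2 l))) *
      pA (rr (co g).2 l) = pF (co g).1 + omg ^ (ex (co g).1) * pA (co g).2 +
      omg ^ (ex (co g).1) * (pF (gen l) + omg ^ (ex (gen l)) * pA 0)
    rw [pF_mul, ex_mul, ex_gen, pF_gen, pF_gen, zpow_add₀ tp_omg_ne, zpow_one, pA_zero, mul_zero,
      add_zero]
    have := pl_rr (co g).2 l
    linear_combination omg ^ (ex (co g).1) * this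
  have PB : ∀ b, Pr (B b) := by
    intro b g
    rw [h3, hcoB]
    unfold ppo
    show pF (co g).1 + omg ^ (ex (co g).1) * pA ((co g).2 + b) = pF (co g).1 +
      omg ^ (ex (co g).1) * pA (co g).2 + omg ^ (ex (co g).1) * (pF 1 + omg ^ (ex 1) * pA b)
    rw [pA_add, pF_one, ex_one, zpow_zero]
    ring
  have Pmul : ∀ h k, Pr h → Pr k → Pr (h * k) := by
    intro h k hh hk g
    rw [← mul_assoc, hk (g * h), hh g, hk h, tau_mul, zpow_add₀ tp_omg_ne]
    ring
  have Pinv : ∀ h, Pr h → Pr h⁻¹ := by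
    intro h hh g
    have e1 := hh (g * h⁻¹)
    have e2 := hh h⁻¹
    rw [inv_mul_cancel_right, tau_mul, tau_inv, zpow_add₀ tp_omg_ne] at e1
    rw [inv_mul_cancel, pp_one, tau_inv] at e2
    linear_combination -e1 + omg ^ (ex (co g).1) * e2
  have Pone : Pr 1 := by
    intro g
    rw [mul_one, pp_one, mul_zero, add_zero]
  have Phom : ∀ w : F, Pr (hom w) := by
    intro w
    induction w using FreeGroup.induction_on with
    | C1 => rw [map_one]; exact Pone
    | of l => exact Pgen l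
    | inv_of l ih => rw [map_inv]; exact Pinv _ (Pgen l)
    | mul a b iha ihb => rw [map_mul]; exact Pmul _ _ iha ihb
  have Pall : ∀ h, Pr h := by
    intro h
    rw [← hdec h]
    exact Pmul _ _ (Phom _) (PB _)
  have hset : ∀ (q : F) (R : ℝ), Set.MapsTo (fun g : H => (co g).2)
      {g | act g 1 = q ∧ ‖ppo (co g)‖ ≤ R}
      {a : ℤ × ℤ | ‖omg ^ (-(ex q)) * pF q + pA a‖ ≤ R} := by
    rintro q R g ⟨hg1, hg2⟩
    rw [act1] at hg1
    show ‖omg ^ (-(ex q)) * pF q + pA (co g).2‖ ≤ R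
    rw [← ppo_norm, ← hg1]
    exact hg2
  have hinj : ∀ (q : F) (R : ℝ), Set.InjOn (fun g : H => (co g).2)
      {g | act g 1 = q ∧ ‖ppo (co g)‖ ≤ R} := by
    rintro q R g ⟨hg1, _⟩ g' ⟨hg1', _⟩ he
    rw [act1] at hg1 hg1'
    apply co.injective
    exact Prod.ext (hg1.trans hg1'.symm) he
  exact ⟨{
    act := act
    act_one := act_one
    act_mul := act_mul
    act_dist := fun g a b => by
      apply le_antisymm (act_le g a b)
      have := act_le g⁻¹ (act g a) (act g b)
      rwa [act_ii, act_ii] at this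
    act_pos := act_pos
    tau := fun g => ex (co g).1
    tau_mul := tau_mul
    act_ex := act_ex
    om := omg
    om_norm := omg_norm
    om_pow := omg_pow
    p := fun g => ppo (co g)
    p_mul := fun g h => Pall h g
    kap := 4
    cnt_fin := fun q R => Set.Finite.of_injOn (hset q R) (hinj q R) (lat_fin _ R)
    cnt := fun q R hR => by
      have e1 := Set.ncard_le_ncard_of_injOn _ (hset q R) (hinj q R) (lat_fin _ R)
      have e2 := lat_cnt (omg ^ (-(ex q)) * pF q) R hR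
      have e3 : (({g | act g 1 = q ∧ ‖ppo (co g)‖ ≤ R} : Set H).ncard : ℝ) ≤
        (({a : ℤ × ℤ | ‖omg ^ (-(ex q)) * pF q + pA a‖ ≤ R} : Set (ℤ × ℤ)).ncard : ℝ) := by
        exact_mod_cast e1
      refine e3.trans (e2.trans ?_)
      push_cast
      exact le_rfl
    cov := fun q z => by
      obtain ⟨a, ha⟩ := lat_cov (omg ^ (-(ex q)) * (z - pF q))
      refine ⟨hom q * B a, ?_, ?_⟩
      · rw [act1, h4]
      · rw [h4]
        have e : ppo (q, a) - z = omg ^ (ex q) * (pA a - omg ^ (-(ex q)) * (z - pF q)) := by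
          unfold ppo
          rw [mul_sub, ← mul_assoc, ← zpow_add₀ tp_omg_ne, add_neg_cancel, zpow_zero, one_mul]
          ring
        rw [e, norm_mul, tp_norm_zpow, one_mul]
        exact ha
    c := B (1, 0)
    c_act := by
      rw [act1, hcoB]
    c_p := by
      rw [hcoB]
      unfold ppo
      rw [pF_one, ex_one, zpow_zero]
      simp [pA] }⟩

end

end Pool.Agent.Helper943.LM
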